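import Mathlib
import Pool.Agent.Work.MP_787500_nt.KI.LocM
import Pool.Agent.Work.MP_787500_nt.RC.Defs

/-!
# Block KJ (definitions, fixed): local contributions for `M = U × N × N`

* `pU`, `pN`, `pN'`: the components of a function with values in `M × M` in `U × U`, `N × N`, `N × N`.
* `prod3`: the condition `YU × YN × YN` for `M × M`.
* `SelfN`: a self-annihilating condition (for `N × N` with the form `pB (be2 h)`).
* `LocS`: the contribution `δ` of a condition for `M × M` at a place, computed with a condition `prod3 Φ YU YN`, `YU` Lagrangian.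
* `art`: the transport of a condition back from coordinates.
-/

set_option autoImplicit false
set_option linter.unusedSectionVars false

namespace Pool.Agent.Work.MP_787500_nt.KJ

open Matrix
open Pool.Agent.Work.MP_787500_nt.GP (A0 IsAct cup11 EvPow)
open Pool.Agent.Work.MP_787500_nt.KR (FSys Z1)
open Pool.Agent.Work.MP_787500_nt.KS (ep)
open Pool.Agent.Work.MP_787500_nt.KT (Sy)
open Pool.Agent.Work.MP_787500_nt.QS (ac2 be2 la2 Lag pB)
open Pool.Agent.Work.MP_787500_nt.KI (LVal R1 Y2 LY SIso tra Crd f2 siso_f2)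
open Pool.Agent.Work.MP_787500_nt.RC (SplS)

universe v

section prod

variable {O : Type*} [CommRing O] {M U N : Type*} [AddCommGroup M] [Module O M] [AddCommGroup U]
  [Module O U] [AddCommGroup N] [Module O N] (Φ : M ≃ₗ[O] U × N × N) {P : Type*}

/-- the component in `U × U` -/
def pU (x : P → M × M) : P → U × U := fun d => ((Φ (x d).1).1, (Φ (x d).2).1)

/-- the first component in `N × N` -/
def pN (x : P → M × M) : P → N × N := fun d => ((Φ (x d).1).2.1, (Φ (x d).2).2.1)

/-- the second component in `N × N` -/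
def pN' (x : P → M × M) : P → N × N := fun d => ((Φ (x d).1).2.2, (Φ (x d).2).2.2)

/-- the function with given components -/
def mk3 (u : P → U × U) (y z : P → N × N) : P → M × M :=
  fun d => (Φ.symm ((u d).1, (y d).1, (z d).1), Φ.symm ((u d).2, (y d).2, (z d).2))

theorem pU_mk3 (u : P → U × U) (y z : P → N × N) : pU Φ (mk3 Φ u y z) = u := by
  funext d
  simp [pU, mk3]

theorem pN_mk3 (u : P → U × U) (y z : P → N × N) : pN Φ (mk3 Φ u y z) = y := by
  funext d
  simp [pN, mk3]

theorem pN'_mk3 (u : P → U × U) (y z : P → N × N) : pN' Φ (mk3 Φ u y z) = z := by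
  funext d
  simp [pN', mk3]

theorem mk3_p (x : P → M × M) : mk3 Φ (pU Φ x) (pN Φ x) (pN' Φ x) = x := by
  funext d
  simp [pU, pN, pN', mk3]

/-- the condition `YU × YN × YN` -/
def prod3 (YU : Submodule O (P → U × U)) (YN : Submodule O (P → N × N)) :
    Submodule O (P → M × M) where
  carrier := {x | pU Φ x ∈ YU ∧ pN Φ x ∈ YN ∧ pN' Φ x ∈ YN}
  add_mem' := by
    intro x y hx hy
    have e1 : pU Φ (x + y) = pU Φ x + pU Φ y := by
      funext d
      simp [pU]
    have e2 : pN Φ (x + y) = pN Φ x + pN Φ y := by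
      funext d
      simp [pN]
    have e3 : pN' Φ (x + y) = pN' Φ x + pN' Φ y := by
      funext d
      simp [pN']
    refine ⟨?_, ?_, ?_⟩
    · rw [e1]
      exact YU.add_mem hx.1 hy.1
    · rw [e2]
      exact YN.add_mem hx.2.1 hy.2.1
    · rw [e3]
      exact YN.add_mem hx.2.2 hy.2.2
  zero_mem' := by
    have e1 : pU Φ (0 : P → M × M) = 0 := by
      funext d
      simp [pU]
    have e2 : pN Φ (0 : P → M × M) = 0 := by
      funext d
      simp [pN]
    have e3 : pN' Φ (0 : P → M × M) = 0 := by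
      funext d
      simp [pN']
    refine ⟨?_, ?_, ?_⟩
    · rw [e1]
      exact YU.zero_mem
    · rw [e2]
      exact YN.zero_mem
    · rw [e3]
      exact YN.zero_mem
  smul_mem' := by
    intro a x hx
    have e1 : pU Φ (a • x) = a • pU Φ x := by
      funext d
      simp [pU]
    have e2 : pN Φ (a • x) = a • pN Φ x := by
      funext d
      simp [pN]
    have e3 : pN' Φ (a • x) = a • pN' Φ x := by
      funext d
      simp [pN']
    refine ⟨?_, ?_, ?_⟩
    · rw [e1]
      exact YU.smul_mem a hx.1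
    · rw [e2]
      exact YN.smul_mem a hx.2.1
    · rw [e3]
      exact YN.smul_mem a hx.2.2

theorem mem_prod3 {YU : Submodule O (P → U × U)} {YN : Submodule O (P → N × N)} {x : P → M × M} :
    x ∈ prod3 Φ YU YN ↔ pU Φ x ∈ YU ∧ pN Φ x ∈ YN ∧ pN' Φ x ∈ YN := Iff.rfl

theorem mk3_mem {YU : Submodule O (P → U × U)} {YN : Submodule O (P → N × N)} {u : P → U × U}
    {y z : P → N × N} : mk3 Φ u y z ∈ prod3 Φ YU YN ↔ u ∈ YU ∧ y ∈ YN ∧ z ∈ YN := by
  rw [mem_prod3, pU_mk3, pN_mk3, pN'_mk3]

end prod

/-- A self-annihilating condition. -/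
structure SelfN {P : Type*} [Group P] {O V : Type*} [CommRing O] [AddCommGroup V] [Module O V]
    (T : FSys P) (iv : (P → P → A0) → A0) (σ : P → V → V) (B : V →+ V →+ A0)
    (Y : Submodule O (P → V)) : Prop where
  coc : ∀ x ∈ Y, Z1 T σ x
  self : ∀ x, Z1 T σ x → (x ∈ Y ↔ ∀ y ∈ Y, iv (cup11 σ B x y) = 0)

section loc

variable {O : Type*} [CommRing O] {M U N : Type*} [AddCommGroup M] [Module O M] [AddCommGroup U]
  [Module O U] [AddCommGroup N] [Module O N] {G Γ : Type*} [Group G] [Group Γ]

/-- The contribution `δ` of a condition `Y` for `M × M`, `M = U × N × N`, at a place. -/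
def LocS {P : Type*} [Group P] (T : FSys P) (jp : P →* Γ) (iv : (P → P → A0) → A0) (e : G →* Γ)
    (c : Γ) (κ : G →* G) (F : Type v) [Field F] [Finite F] [CharP F 2] [Algebra (ZMod 2) F]
    [Algebra O F] (aU : G → U → U) (bU : U →+ U →+ A0) (aN : G → N → N) (h : N →+ N →+ A0)
    (Φ : M ≃ₗ[O] U × N × N) (C : U → U) (Y : Submodule O (P → M × M)) (δ : ℕ) : Prop :=
  ∀ (n : ℕ) (_ : Sy F n) (L : U ≃+ (Fin n → F)) (A : Γ →* Matrix (Fin n) (Fin n) F)
    (hc : Crd e c O aU bU C L A),
    ∃ (YU : Submodule O (P → U × U)) (YN : Submodule O (P → N × N)) (t : ℕ) (m : ℤ) (r : ℕ),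
      Lag T iv (fun d => ac2 e c κ aU (jp d)) (be2 bU)
        (fun (a : O) d => la2 e c κ aU bU a (jp d)) YU ∧
      LVal iv (A.comp jp) (fun d => ep e (jp d)) (LY A c (tra (siso_f2 hc.iso) YU)) t ∧
      (Module.finrank F (R1 (LY A c (tra (siso_f2 hc.iso) YU))) : ℤ) =
        Module.finrank F (Y2 (LY A c (tra (siso_f2 hc.iso) YU))) + 2 * m ∧
      SelfN T iv (fun d => ac2 e c κ aN (jp d)) (pB (be2 h)) YN ∧
      Nat.card Y * Nat.card ↥(Y ⊓ prod3 Φ YU YN) = Nat.card F ^ r ∧ Even (m + t + r + δ)

end loc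

section art

variable {O F : Type*} [CommRing O] [CommRing F] [Algebra O F] {V V' : Type*} [AddCommGroup V]
  [Module O V] [AddCommGroup V'] [Module F V'] {f : V ≃+ V'}

/-- the transport of a condition back from coordinates -/
def art (hf : SIso O F f) {P : Type*} (Y : Submodule F (P → V')) : Submodule O (P → V) where
  carrier := {x | (fun d => f (x d)) ∈ Y}
  add_mem' := by
    intro x y hx hy
    have h := Y.add_mem hx hy
    show (fun d => f (x d + y d)) ∈ Y
    simp only [map_add]
    exact h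
  zero_mem' := by
    show (fun _ => f 0) ∈ Y
    rw [map_zero]
    exact Y.zero_mem
  smul_mem' := by
    intro a x hx
    have h := Y.smul_mem (algebraMap O F a) hx
    show (fun d => f (a • x d)) ∈ Y
    simp only [hf.smul]
    exact h

theorem mem_art (hf : SIso O F f) {P : Type*} {Y : Submodule F (P → V')} {x : P → V} :
    x ∈ art hf Y ↔ (fun d => f (x d)) ∈ Y := Iff.rfl

theorem tra_art (hf : SIso O F f) {P : Type*} (Y : Submodule F (P → V')) :
    tra hf (art hf Y) = Y := by
  ext x
  show (fun d => f (f.symm (x d))) ∈ Y ↔ x ∈ Y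
  simp only [f.apply_symm_apply]

theorem art_tra (hf : SIso O F f) {P : Type*} (Y : Submodule O (P → V)) :
    art hf (tra hf Y) = Y := by
  ext x
  show (fun d => f.symm (f (x d))) ∈ Y ↔ x ∈ Y
  simp only [f.symm_apply_apply]

end art

end Pool.Agent.Work.MP_787500_nt.KJ
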