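import Mathlib
import Pool.Agent.Work.MP_787500_nt.KJ.Defs
import Pool.Agent.Work.MP_787500_nt.OL.LocC

/-!
# Block KJ: the decomposition `M × M = U × U + (N × N) + (N × N)`

* `sdualU`, `sdualN`: `U` and `N` are self-dual modules.
* `ac2_U`, `ac2_N`, `ac2_N'`, `be2_spl`, `la2_mk3`: the action and the forms in components.
* `z1_spl`: cocycles in components; `iv_spl`: the local pairing in components.
* `lag_prod3`: THE CONDITION `YU × YN × YN` IS LAGRANGIAN; `card_prod3`.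
-/

set_option autoImplicit false
set_option linter.unusedSectionVars false
set_option linter.unusedSimpArgs false

namespace Pool.Agent.Work.MP_787500_nt.KJ

open Matrix
open Pool.Agent.Work.MP_787500_nt.GP (A0 IsAct d0 tw cup11 EvPow)
open Pool.Agent.Work.MP_787500_nt.KR (FSys Z1 Z2 Smooth LocH LDual SDualF cup11_Z2)
open Pool.Agent.Work.MP_787500_nt.KS (ep)
open Pool.Agent.Work.MP_787500_nt.KT (Sy)
open Pool.Agent.Work.MP_787500_nt.QS (Two ac2 be2 la2 Lag pB QM Zq be2_apply pB_apply iv_Zq_add)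
open Pool.Agent.Work.MP_787500_nt.KI (LVal R1 Y2 LY SIso tra Crd f2 siso_f2)
open Pool.Agent.Work.MP_787500_nt.RC (SplS)

universe v

variable {O : Type*} [CommRing O] {M U N : Type*} [AddCommGroup M] [Module O M] [AddCommGroup U]
  [Module O U] [AddCommGroup N] [Module O N] {G : Type*} {act : G → M → M}
  {b : M →+ M →+ A0} {aU : G → U → U} {bU : U →+ U →+ A0} {aN : G → N → N} {h : N →+ N →+ A0}
  {Φ : M ≃ₗ[O] U × N × N}

section act

theorem spl_U (s : SplS O act b aU bU aN h Φ) (g : G) (m : M) : (Φ (act g m)).1 = aU g (Φ m).1 := by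
  rw [s.act]

theorem spl_N (s : SplS O act b aU bU aN h Φ) (g : G) (m : M) :
    (Φ (act g m)).2.1 = aN g (Φ m).2.1 := by
  rw [s.act]

theorem spl_N' (s : SplS O act b aU bU aN h Φ) (g : G) (m : M) :
    (Φ (act g m)).2.2 = aN g (Φ m).2.2 := by
  rw [s.act]

variable [Group G]

theorem isAct_U (s : SplS O act b aU bU aN h Φ) (ha : IsAct act) : IsAct aU where
  one u := by
    have h1 := spl_U s 1 (Φ.symm (u, 0, 0))
    rw [ha.one] at h1
    simpa using h1.symm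
  mul g k u := by
    have h1 := spl_U s (g * k) (Φ.symm (u, 0, 0))
    rw [ha.mul, spl_U s, spl_U s] at h1
    simpa using h1.symm
  add g u u' := by
    have h1 := spl_U s g (Φ.symm (u, 0, 0) + Φ.symm (u', 0, 0))
    rw [ha.add, map_add, Prod.fst_add, spl_U s, spl_U s] at h1
    simpa using h1.symm

theorem isAct_N (s : SplS O act b aU bU aN h Φ) (ha : IsAct act) : IsAct aN where
  one u := by
    have h1 := spl_N s 1 (Φ.symm (0, u, 0))
    rw [ha.one] at h1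
    simpa using h1.symm
  mul g k u := by
    have h1 := spl_N s (g * k) (Φ.symm (0, u, 0))
    rw [ha.mul, spl_N s, spl_N s] at h1
    simpa using h1.symm
  add g u u' := by
    have h1 := spl_N s g (Φ.symm (0, u, 0) + Φ.symm (0, u', 0))
    rw [ha.add, map_add, Prod.snd_add, Prod.fst_add, spl_N s, spl_N s] at h1
    simpa using h1.symm

variable {S : FSys G} {χ : G → ℤ_[2]} {κ : G →* G} {Θ : Set (G × G)}

/-- `U` is self-dual -/
theorem sdualU (s : SplS O act b aU bU aN h Φ) (hs : SDualF S χ κ Θ O act b) :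
    SDualF S χ κ Θ O aU bU where
  act := isAct_U s hs.act
  lin g a u := by
    have h1 := spl_U s g (a • Φ.symm (u, 0, 0))
    rw [hs.lin, map_smul, Prod.smul_fst, spl_U s] at h1
    simpa using h1.symm
  sm := by
    obtain ⟨W, hW, h1⟩ := hs.sm
    refine ⟨W, hW, fun w hw u => ?_⟩
    have h2 := spl_U s w (Φ.symm (u, 0, 0))
    rw [h1 w hw] at h2
    simpa using h2.symm
  symm u u' := by
    have h1 := hs.symm (Φ.symm (u, 0, 0)) (Φ.symm (u', 0, 0))
    rw [s.form, s.form] at h1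
    simpa using h1
  bal a u u' := by
    have h1 := hs.bal a (Φ.symm (u, 0, 0)) (Φ.symm (u', 0, 0))
    rw [s.form, s.form] at h1
    simpa using h1
  eqv g u u' := by
    have h1 := hs.eqv g (Φ.symm (u, 0, 0)) (Φ.symm (u', 0, 0))
    have hN := (isAct_N s hs.act).zero
    rw [s.form, s.form, s.act, s.act] at h1
    simpa [hN] using h1
  nd u hu := by
    have h1 := hs.nd (Φ.symm (u, 0, 0)) fun m' => by
      rw [s.form]
      simpa using hu (Φ m').1
    have h2 := congrArg Φ h1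
    simpa using h2
  alt p hp a u := by
    have h1 := hs.alt p hp a (Φ.symm (u, 0, 0))
    have hN := (isAct_N s hs.act).zero
    rw [s.form, s.act] at h1
    simpa [hN] using h1

/-- `N` is self-dual -/
theorem sdualN (s : SplS O act b aU bU aN h Φ) (hs : SDualF S χ κ Θ O act b) :
    SDualF S χ κ ∅ O aN h where
  act := isAct_N s hs.act
  lin g a u := by
    have h1 := spl_N s g (a • Φ.symm (0, u, 0))
    rw [hs.lin, map_smul, Prod.smul_snd, Prod.smul_fst, spl_N s] at h1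
    simpa using h1.symm
  sm := by
    obtain ⟨W, hW, h1⟩ := hs.sm
    refine ⟨W, hW, fun w hw u => ?_⟩
    have h2 := spl_N s w (Φ.symm (0, u, 0))
    rw [h1 w hw] at h2
    simpa using h2.symm
  symm := s.symm
  bal a u u' := by
    have h1 := hs.bal a (Φ.symm (0, u, 0)) (Φ.symm (0, 0, u'))
    rw [s.form, s.form] at h1
    simpa using h1
  eqv g u u' := by
    have h1 := hs.eqv g (Φ.symm (0, u, 0)) (Φ.symm (0, 0, u'))
    have hU := (isAct_U s hs.act).zero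
    have hN := (isAct_N s hs.act).zero
    rw [s.form, s.form, s.act, s.act] at h1
    simpa [hN, hU] using h1
  nd u hu := by
    have h1 := hs.nd (Φ.symm (0, u, 0)) fun m' => by
      rw [s.form]
      simpa using hu (Φ m').2.2
    have h2 := congrArg Φ h1
    simpa using h2
  alt p hp := absurd hp (Set.notMem_empty p)

end act

section two

variable [Group G] {Γ : Type*} [Group Γ] {e : G →* Γ} {c : Γ} {κ : G →* G}

/-- the component in `U × U` of an element -/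
def qU (Φ : M ≃ₗ[O] U × N × N) (v : M × M) : U × U := ((Φ v.1).1, (Φ v.2).1)

/-- the first component in `N × N` of an element -/
def qN (Φ : M ≃ₗ[O] U × N × N) (v : M × M) : N × N := ((Φ v.1).2.1, (Φ v.2).2.1)

/-- the second component in `N × N` of an element -/
def qN' (Φ : M ≃ₗ[O] U × N × N) (v : M × M) : N × N := ((Φ v.1).2.2, (Φ v.2).2.2)

theorem q_ext {v w : M × M} (h1 : qU Φ v = qU Φ w) (h2 : qN Φ v = qN Φ w)
    (h3 : qN' Φ v = qN' Φ w) : v = w := by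
  unfold qU at h1
  unfold qN at h2
  unfold qN' at h3
  rw [Prod.ext_iff] at h1 h2 h3
  dsimp only at h1 h2 h3
  refine Prod.ext (Φ.injective (Prod.ext h1.1 (Prod.ext h2.1 h3.1)))
    (Φ.injective (Prod.ext h1.2 (Prod.ext h2.2 h3.2)))

theorem ac2_U (s : SplS O act b aU bU aN h Φ) (X : Two e c κ) (σ : Γ) (v : M × M) :
    qU Φ (ac2 e c κ act σ v) = ac2 e c κ aU σ (qU Φ v) := by
  rcases X.cases σ with ⟨g, rfl⟩ | ⟨g, rfl⟩
  · rw [X.ac_e, X.ac_e]
    exact Prod.ext (spl_U s _ _) (spl_U s _ _)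
  · rw [X.ac_ec, X.ac_ec]
    exact Prod.ext (spl_U s _ _) (spl_U s _ _)

theorem ac2_N (s : SplS O act b aU bU aN h Φ) (X : Two e c κ) (σ : Γ) (v : M × M) :
    qN Φ (ac2 e c κ act σ v) = ac2 e c κ aN σ (qN Φ v) := by
  rcases X.cases σ with ⟨g, rfl⟩ | ⟨g, rfl⟩
  · rw [X.ac_e, X.ac_e]
    exact Prod.ext (spl_N s _ _) (spl_N s _ _)
  · rw [X.ac_ec, X.ac_ec]
    exact Prod.ext (spl_N s _ _) (spl_N s _ _)

theorem ac2_N' (s : SplS O act b aU bU aN h Φ) (X : Two e c κ) (σ : Γ) (v : M × M) :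
    qN' Φ (ac2 e c κ act σ v) = ac2 e c κ aN σ (qN' Φ v) := by
  rcases X.cases σ with ⟨g, rfl⟩ | ⟨g, rfl⟩
  · rw [X.ac_e, X.ac_e]
    exact Prod.ext (spl_N' s _ _) (spl_N' s _ _)
  · rw [X.ac_ec, X.ac_ec]
    exact Prod.ext (spl_N' s _ _) (spl_N' s _ _)

theorem be2_spl (s : SplS O act b aU bU aN h Φ) (v w : M × M) :
    be2 b v w = be2 bU (qU Φ v) (qU Φ w) + be2 h (qN Φ v) (qN' Φ w) +
      be2 h (qN' Φ v) (qN Φ w) := by
  rw [be2_apply, s.form, s.symm (Φ w.2).2.1]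
  rfl

theorem pB_spl (s : SplS O act b aU bU aN h Φ) (v w : M × M) :
    pB (be2 b) v w = pB (be2 bU) (qU Φ v) (qU Φ w) + pB (be2 h) (qN Φ v) (qN' Φ w) +
      pB (be2 h) (qN' Φ v) (qN Φ w) := by
  rw [pB_apply, pB_apply, pB_apply, pB_apply, be2_spl s, be2_spl s]
  abel

theorem qU_smul (a : O) (v : M × M) : qU Φ (a • v) = a • qU Φ v := by
  simp [qU]

theorem qN_smul (a : O) (v : M × M) : qN Φ (a • v) = a • qN Φ v := by
  simp [qN]

theorem qN'_smul (a : O) (v : M × M) : qN' Φ (a • v) = a • qN' Φ v := by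
  simp [qN']

open scoped Classical in
theorem la2_spl (s : SplS O act b aU bU aN h Φ) (X : Two e c κ) (a : O) (σ : Γ) (v : M × M) :
    la2 e c κ act b a σ v = la2 e c κ aU bU a σ (qU Φ v) + (if ∃ g, e g = σ then 0 else
      be2 h (a • ac2 e c κ aN σ (qN Φ v)) (ac2 e c κ aN σ (qN' Φ v)) +
      be2 h (a • ac2 e c κ aN σ (qN' Φ v)) (ac2 e c κ aN σ (qN Φ v))) := by
  unfold la2
  split_ifs with h1
  · rw [add_zero]
  · rw [be2_spl s, qU_smul, qN_smul, qN'_smul, ac2_U s X, ac2_N s X, ac2_N' s X]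
    abel

end two

section coc

variable [Group G] {Γ : Type*} [Group Γ] {e : G →* Γ} {c : Γ} {κ : G →* G} {P : Type*} [Group P]
  {T : FSys P} {jp : P →* Γ}

/-- COCYCLES in components -/
theorem z1_spl (s : SplS O act b aU bU aN h Φ) (X : Two e c κ) {x : P → M × M} :
    Z1 T (fun d => ac2 e c κ act (jp d)) x ↔
      Z1 T (fun d => ac2 e c κ aU (jp d)) (pU Φ x) ∧
      Z1 T (fun d => ac2 e c κ aN (jp d)) (pN Φ x) ∧
      Z1 T (fun d => ac2 e c κ aN (jp d)) (pN' Φ x) := by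
  have e1 : ∀ d, pU Φ x d = qU Φ (x d) := fun _ => rfl
  have e2 : ∀ d, pN Φ x d = qN Φ (x d) := fun _ => rfl
  have e3 : ∀ d, pN' Φ x d = qN' Φ (x d) := fun _ => rfl
  have aU' : ∀ v w : M × M, qU Φ (v + w) = qU Φ v + qU Φ w := fun v w => by simp [qU]
  have aN1 : ∀ v w : M × M, qN Φ (v + w) = qN Φ v + qN Φ w := fun v w => by simp [qN]
  have aN2 : ∀ v w : M × M, qN' Φ (v + w) = qN' Φ v + qN' Φ w := fun v w => by simp [qN']
  constructor
  · rintro ⟨⟨W, hW, h1⟩, h2⟩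
    refine ⟨⟨⟨W, hW, fun g w hw => ?_⟩, fun g k => ?_⟩, ⟨⟨W, hW, fun g w hw => ?_⟩, fun g k => ?_⟩,
      ⟨⟨W, hW, fun g w hw => ?_⟩, fun g k => ?_⟩⟩
    · rw [e1, e1, h1 g w hw]
    · rw [e1, e1, e1, h2, aU', ac2_U s X]
    · rw [e2, e2, h1 g w hw]
    · rw [e2, e2, e2, h2, aN1, ac2_N s X]
    · rw [e3, e3, h1 g w hw]
    · rw [e3, e3, e3, h2, aN2, ac2_N' s X]
  · rintro ⟨⟨⟨W, hW, h1⟩, h2⟩, ⟨⟨W', hW', h1'⟩, h2'⟩, ⟨⟨W'', hW'', h1''⟩, h2''⟩⟩
    refine ⟨⟨W ⊓ (W' ⊓ W''), T.inf hW (T.inf hW' hW''), fun g w hw => ?_⟩, fun g k => ?_⟩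
    · exact q_ext (Φ := Φ) (h1 g w hw.1) (h1' g w hw.2.1) (h1'' g w hw.2.2)
    · refine q_ext (Φ := Φ) ?_ ?_ ?_
      · rw [aU', ac2_U s X]
        exact h2 g k
      · rw [aN1, ac2_N s X]
        exact h2' g k
      · rw [aN2, ac2_N' s X]
        exact h2'' g k

variable {χ : P → ℤ_[2]} {iv : (P → P → A0) → A0} {lU lN : O → P → U × U → A0}

/-- THE LOCAL PAIRING in components -/
theorem iv_spl (s : SplS O act b aU bU aN h Φ) (X : Two e c κ) (L : LocH T χ iv)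
    {l₁ : O → P → U × U → A0} {l₂ : O → P → N × N → A0}
    (hU : QM T χ O (fun d => ac2 e c κ aU (jp d)) (be2 bU) l₁)
    (hN : QM T χ O (fun d => ac2 e c κ aN (jp d)) (be2 h) l₂) {x y : P → M × M}
    (hx : Z1 T (fun d => ac2 e c κ act (jp d)) x) (hy : Z1 T (fun d => ac2 e c κ act (jp d)) y) :
    iv (cup11 (fun d => ac2 e c κ act (jp d)) (pB (be2 b)) x y) =
      iv (cup11 (fun d => ac2 e c κ aU (jp d)) (pB (be2 bU)) (pU Φ x) (pU Φ y)) +
      iv (cup11 (fun d => ac2 e c κ aN (jp d)) (pB (be2 h)) (pN Φ x) (pN' Φ y)) +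
      iv (cup11 (fun d => ac2 e c κ aN (jp d)) (pB (be2 h)) (pN' Φ x) (pN Φ y)) := by
  obtain ⟨x1, x2, x3⟩ := (z1_spl s X).1 hx
  obtain ⟨y1, y2, y3⟩ := (z1_spl s X).1 hy
  have z1 := cup11_Z2 hU.pair x1 y1
  have z2 := cup11_Z2 hN.pair x2 y3
  have z3 := cup11_Z2 hN.pair x3 y2
  rw [← L.add _ _ z1 z2, ← L.add _ _ (KR.Z2.add (KR.isAct_tw L.char) z1 z2) z3]
  congr 1
  funext d d'
  show pB (be2 b) (x d) (ac2 e c κ act (jp d) (y d')) = _
  rw [pB_spl s, ac2_U s X, ac2_N s X, ac2_N' s X]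
  rfl

end coc

section lag

variable [Group G] {Γ : Type*} [Group Γ] {e : G →* Γ} {c : Γ} {κ : G →* G} {P : Type*} [Group P]
  {T : FSys P} {jp : P →* Γ} {χ : P → ℤ_[2]} {iv : (P → P → A0) → A0}
  {YU : Submodule O (P → U × U)} {YN : Submodule O (P → N × N)}

theorem pU_zero : pU Φ (0 : P → M × M) = 0 := by
  funext d
  simp [pU]

theorem mk3_zero : mk3 Φ (0 : P → U × U) 0 0 = 0 := by
  funext d
  simp [mk3]

theorem mk3_add (u u' : P → U × U) (y y' z z' : P → N × N) :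
    mk3 Φ (u + u') (y + y') (z + z') = mk3 Φ u y z + mk3 Φ u' y' z' := by
  funext d
  have e1 : ∀ a a' : U × N × N, Φ.symm (a + a') = Φ.symm a + Φ.symm a' := fun a a' => map_add _ _ _
  refine Prod.ext ?_ ?_
  · show Φ.symm _ = Φ.symm _ + Φ.symm _
    rw [← e1]
    rfl
  · show Φ.symm _ = Φ.symm _ + Φ.symm _
    rw [← e1]
    rfl

theorem z1_zero {V : Type*} [AddCommGroup V] {σ : P → V → V} (ha : IsAct σ) : Z1 T σ 0 := by
  obtain ⟨W, hW⟩ := T.ex
  refine ⟨⟨W, hW, fun _ _ _ => rfl⟩, fun g k => ?_⟩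
  show (0 : V) = 0 + σ g 0
  rw [ha.zero, add_zero]

theorem iv_cup_zero {V : Type*} [AddCommGroup V] {σ : P → V → V} {B : V →+ V →+ A0}
    (L : LocH T χ iv) (x : P → V) : iv (cup11 σ B 0 x) = 0 := by
  have e1 : cup11 σ B (0 : P → V) x = fun _ _ => 0 := by
    funext s t
    show B 0 _ = 0
    rw [map_zero, AddMonoidHom.zero_apply]
  rw [e1, KS.inv_zero L]

theorem iv_cup_zero' {V : Type*} [AddCommGroup V] {σ : P → V → V} {B : V →+ V →+ A0}
    (L : LocH T χ iv) (ha : IsAct σ) (x : P → V) : iv (cup11 σ B x 0) = 0 := by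
  have e1 : cup11 σ B x (0 : P → V) = fun _ _ => 0 := by
    funext s t
    show B _ (σ s 0) = 0
    rw [ha.zero, map_zero]
  rw [e1, KS.inv_zero L]

/-- THE CONDITION `YU × YN × YN` IS LAGRANGIAN. -/
theorem lag_prod3 (s : SplS O act b aU bU aN h Φ) (X : Two e c κ) (L : LocH T χ iv)
    (hM : QM T χ O (fun d => ac2 e c κ act (jp d)) (be2 b)
      (fun (a : O) d => la2 e c κ act b a (jp d)))
    (hU : QM T χ O (fun d => ac2 e c κ aU (jp d)) (be2 bU)
      (fun (a : O) d => la2 e c κ aU bU a (jp d)))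
    (hN : QM T χ O (fun d => ac2 e c κ aN (jp d)) (be2 h)
      (fun (a : O) d => la2 e c κ aN h a (jp d)))
    (h1 : Lag T iv (fun d => ac2 e c κ aU (jp d)) (be2 bU)
      (fun (a : O) d => la2 e c κ aU bU a (jp d)) YU)
    (h2 : SelfN T iv (fun d => ac2 e c κ aN (jp d)) (pB (be2 h)) YN) :
    Lag T iv (fun d => ac2 e c κ act (jp d)) (be2 b)
      (fun (a : O) d => la2 e c κ act b a (jp d)) (prod3 Φ YU YN) := by
  classical
  have hz : ∀ x ∈ prod3 Φ YU YN, Z1 T (fun d => ac2 e c κ act (jp d)) x := fun x hx =>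
    (z1_spl s X).2 ⟨h1.coc _ hx.1, h2.coc _ hx.2.1, h2.coc _ hx.2.2⟩
  have u0 : Z1 T (fun d => ac2 e c κ aU (jp d)) (0 : P → U × U) := z1_zero hU.act
  have n0 : Z1 T (fun d => ac2 e c κ aN (jp d)) (0 : P → N × N) := z1_zero hN.act
  refine ⟨hz, fun x hx => ?_, fun a x hx => ?_⟩
  · obtain ⟨x1, x2, x3⟩ := (z1_spl s X).1 hx
    constructor
    · intro hm y hy
      rw [iv_spl s X L hU hN hx (hz y hy), (h1.self _ x1).1 hm.1 _ hy.1,
        (h2.self _ x2).1 hm.2.1 _ hy.2.2, (h2.self _ x3).1 hm.2.2 _ hy.2.1, add_zero, add_zero]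
    · intro hm
      refine ⟨(h1.self _ x1).2 fun y hy => ?_, (h2.self _ x2).2 fun y hy => ?_,
        (h2.self _ x3).2 fun y hy => ?_⟩
      · have h3 := hm (mk3 Φ y 0 0) ((mk3_mem Φ).2 ⟨hy, YN.zero_mem, YN.zero_mem⟩)
        rw [iv_spl s X L hU hN hx (hz _ ((mk3_mem Φ).2 ⟨hy, YN.zero_mem, YN.zero_mem⟩)), pU_mk3,
          pN_mk3, pN'_mk3, iv_cup_zero' L hN.act, iv_cup_zero' L hN.act, add_zero, add_zero] at h3
        exact h3
      · have h3 := hm (mk3 Φ 0 0 y) ((mk3_mem Φ).2 ⟨YU.zero_mem, YN.zero_mem, hy⟩)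
        rw [iv_spl s X L hU hN hx (hz _ ((mk3_mem Φ).2 ⟨YU.zero_mem, YN.zero_mem, hy⟩)), pU_mk3,
          pN_mk3, pN'_mk3, iv_cup_zero' L hU.act, iv_cup_zero' L hN.act, add_zero, zero_add] at h3
        exact h3
      · have h3 := hm (mk3 Φ 0 y 0) ((mk3_mem Φ).2 ⟨YU.zero_mem, hy, YN.zero_mem⟩)
        rw [iv_spl s X L hU hN hx (hz _ ((mk3_mem Φ).2 ⟨YU.zero_mem, hy, YN.zero_mem⟩)), pU_mk3,
          pN_mk3, pN'_mk3, iv_cup_zero' L hU.act, iv_cup_zero' L hN.act, zero_add, zero_add] at h3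
        exact h3
  · -- the quadratic function
    obtain ⟨u, y, z, rfl⟩ : ∃ u y z, x = mk3 Φ u y z := ⟨_, _, _, (mk3_p Φ x).symm⟩
    obtain ⟨hu, hy, hz'⟩ := (mk3_mem Φ).1 hx
    have m1 : mk3 Φ u 0 0 ∈ prod3 Φ YU YN := (mk3_mem Φ).2 ⟨hu, YN.zero_mem, YN.zero_mem⟩
    have m2 : mk3 Φ 0 y 0 ∈ prod3 Φ YU YN := (mk3_mem Φ).2 ⟨YU.zero_mem, hy, YN.zero_mem⟩
    have m3 : mk3 Φ 0 0 z ∈ prod3 Φ YU YN := (mk3_mem Φ).2 ⟨YU.zero_mem, YN.zero_mem, hz'⟩
    have m23 := (prod3 Φ YU YN).add_mem m2 m3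
    have ex : mk3 Φ u y z = mk3 Φ u 0 0 + (mk3 Φ 0 y 0 + mk3 Φ 0 0 z) := by
      rw [← mk3_add, ← mk3_add]
      simp only [add_zero, zero_add]
    -- the pairings vanish
    have hp : ∀ v ∈ prod3 Φ YU YN, ∀ w ∈ prod3 Φ YU YN,
        iv (cup11 (fun d => ac2 e c κ act (jp d)) (pB (be2 b)) v w) = 0 := by
      intro v hv w hw
      obtain ⟨x1, x2, x3⟩ := (z1_spl s X).1 (hz v hv)
      rw [iv_spl s X L hU hN (hz v hv) (hz w hw), (h1.self _ x1).1 hv.1 _ hw.1,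
        (h2.self _ x2).1 hv.2.1 _ hw.2.2, (h2.self _ x3).1 hv.2.2 _ hw.2.1, add_zero, add_zero]
    rw [ex, iv_Zq_add L hM (hz _ m1) (hz _ m23), iv_Zq_add L hM (hz _ m2) (hz _ m3),
      hp _ ((prod3 Φ YU YN).smul_mem a m23) _ m1, hp _ ((prod3 Φ YU YN).smul_mem a m3) _ m2]
    have ec : ∀ (v : P → M × M) (d d' : P), Zq (fun d => ac2 e c κ act (jp d)) (be2 b)
        (fun (a : O) d => la2 e c κ act b a (jp d)) a v d d' =
        Zq (fun d => ac2 e c κ aU (jp d)) (be2 bU) (fun (a : O) d => la2 e c κ aU bU a (jp d)) a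
          (pU Φ v) d d' +
        (be2 h (a • pN Φ v d) (ac2 e c κ aN (jp d) (pN' Φ v d')) +
          be2 h (a • pN' Φ v d) (ac2 e c κ aN (jp d) (pN Φ v d')) +
        (if ∃ g, e g = jp d then 0 else
          be2 h (a • ac2 e c κ aN (jp d) (pN Φ v d')) (ac2 e c κ aN (jp d) (pN' Φ v d')) +
          be2 h (a • ac2 e c κ aN (jp d) (pN' Φ v d')) (ac2 e c κ aN (jp d) (pN Φ v d')))) := by
      intro v d d'
      show be2 b (a • v d) (ac2 e c κ act (jp d) (v d')) + la2 e c κ act b a (jp d) (v d') =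
        be2 bU (a • qU Φ (v d)) (ac2 e c κ aU (jp d) (qU Φ (v d'))) +
          la2 e c κ aU bU a (jp d) (qU Φ (v d')) + _
      rw [be2_spl s, la2_spl s X, qU_smul, qN_smul, qN'_smul, ac2_U s X, ac2_N s X, ac2_N' s X]
      show _ = _ + _ + (be2 h (a • qN Φ (v d)) (ac2 e c κ aN (jp d) (qN' Φ (v d'))) +
          be2 h (a • qN' Φ (v d)) (ac2 e c κ aN (jp d) (qN Φ (v d'))) +
        (if ∃ g, e g = jp d then 0 else
          be2 h (a • ac2 e c κ aN (jp d) (qN Φ (v d'))) (ac2 e c κ aN (jp d) (qN' Φ (v d'))) +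
          be2 h (a • ac2 e c κ aN (jp d) (qN' Φ (v d'))) (ac2 e c κ aN (jp d) (qN Φ (v d')))))
      abel
    have hN0 := hN.act.zero
    have hU0 := hU.act.zero
    have b0 : ∀ w : N × N, be2 h 0 w = 0 := fun w => by rw [map_zero, AddMonoidHom.zero_apply]
    have q1 : iv (Zq (fun d => ac2 e c κ act (jp d)) (be2 b)
        (fun (a : O) d => la2 e c κ act b a (jp d)) a (mk3 Φ u 0 0)) = 0 := by
      have e1 : Zq (fun d => ac2 e c κ act (jp d)) (be2 b)
          (fun (a : O) d => la2 e c κ act b a (jp d)) a (mk3 Φ u 0 0) =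
          Zq (fun d => ac2 e c κ aU (jp d)) (be2 bU)
            (fun (a : O) d => la2 e c κ aU bU a (jp d)) a u := by
        funext d d'
        rw [ec, pU_mk3, pN_mk3, pN'_mk3]
        have e2 : ac2 e c κ aN (jp d) ((0 : P → N × N) d') = 0 := hN0 d
        have e3 : a • (0 : P → N × N) d = 0 := smul_zero a
        rw [e2, e3, smul_zero]
        simp only [b0, map_zero, add_zero, ite_self, AddMonoidHom.zero_apply]
      rw [e1]
      exact h1.iso a u hu
    have q2 : iv (Zq (fun d => ac2 e c κ act (jp d)) (be2 b)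
        (fun (a : O) d => la2 e c κ act b a (jp d)) a (mk3 Φ 0 y 0)) = 0 := by
      have e1 : Zq (fun d => ac2 e c κ act (jp d)) (be2 b)
          (fun (a : O) d => la2 e c κ act b a (jp d)) a (mk3 Φ 0 y 0) =
          Zq (fun d => ac2 e c κ aU (jp d)) (be2 bU)
            (fun (a : O) d => la2 e c κ aU bU a (jp d)) a 0 := by
        funext d d'
        rw [ec, pU_mk3, pN_mk3, pN'_mk3]
        have e2 : ac2 e c κ aN (jp d) ((0 : P → N × N) d') = 0 := hN0 d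
        have e3 : a • (0 : P → N × N) d = 0 := smul_zero a
        rw [e2, e3, smul_zero]
        simp only [b0, map_zero, add_zero, ite_self, AddMonoidHom.zero_apply]
      rw [e1]
      exact h1.iso a 0 YU.zero_mem
    have q3 : iv (Zq (fun d => ac2 e c κ act (jp d)) (be2 b)
        (fun (a : O) d => la2 e c κ act b a (jp d)) a (mk3 Φ 0 0 z)) = 0 := by
      have e1 : Zq (fun d => ac2 e c κ act (jp d)) (be2 b)
          (fun (a : O) d => la2 e c κ act b a (jp d)) a (mk3 Φ 0 0 z) =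
          Zq (fun d => ac2 e c κ aU (jp d)) (be2 bU)
            (fun (a : O) d => la2 e c κ aU bU a (jp d)) a 0 := by
        funext d d'
        rw [ec, pU_mk3, pN_mk3, pN'_mk3]
        have e2 : ac2 e c κ aN (jp d) ((0 : P → N × N) d') = 0 := hN0 d
        have e3 : a • (0 : P → N × N) d = 0 := smul_zero a
        rw [e2, e3, smul_zero]
        simp only [b0, map_zero, add_zero, ite_self, AddMonoidHom.zero_apply]
      rw [e1]
      exact h1.iso a 0 YU.zero_mem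
    rw [q1, q2, q3, add_zero, add_zero, add_zero, add_zero]

end lag

section card

variable {P : Type*} {YU : Submodule O (P → U × U)} {YN : Submodule O (P → N × N)}

/-- the elements of `YU × YN × YN` -/
def eqv3 (Φ : M ≃ₗ[O] U × N × N) (YU : Submodule O (P → U × U)) (YN : Submodule O (P → N × N)) :
    prod3 Φ YU YN ≃ YU × YN × YN where
  toFun x := (⟨_, x.2.1⟩, ⟨_, x.2.2.1⟩, ⟨_, x.2.2.2⟩)
  invFun y := ⟨mk3 Φ y.1.1 y.2.1.1 y.2.2.1, (mk3_mem Φ).2 ⟨y.1.2, y.2.1.2, y.2.2.2⟩⟩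
  left_inv x := Subtype.ext (mk3_p Φ x.1)
  right_inv _ := Prod.ext (Subtype.ext (pU_mk3 Φ _ _ _))
    (Prod.ext (Subtype.ext (pN_mk3 Φ _ _ _)) (Subtype.ext (pN'_mk3 Φ _ _ _)))

theorem card_prod3 : Nat.card (prod3 Φ YU YN) = Nat.card YU * Nat.card YN ^ 2 := by
  rw [Nat.card_congr (eqv3 Φ YU YN), Nat.card_prod, Nat.card_prod]
  ring

theorem prod3_inf {YU' : Submodule O (P → U × U)} {YN' : Submodule O (P → N × N)} :
    prod3 Φ YU YN ⊓ prod3 Φ YU' YN' = prod3 Φ (YU ⊓ YU') (YN ⊓ YN') := by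
  ext x
  constructor
  · rintro ⟨⟨a1, a2, a3⟩, ⟨b1, b2, b3⟩⟩
    exact ⟨⟨a1, b1⟩, ⟨a2, b2⟩, ⟨a3, b3⟩⟩
  · rintro ⟨⟨a1, b1⟩, ⟨a2, b2⟩, ⟨a3, b3⟩⟩
    exact ⟨⟨a1, a2, a3⟩, ⟨b1, b2, b3⟩⟩

end card

end Pool.Agent.Work.MP_787500_nt.KJ
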