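import Mathlib
import Pool.Agent.Work.MP_787500_nt.KJ.Bas

/-!
# Block KJ: change of the condition, product conditions

* `lag_art`: transport of Lagrangian conditions back from coordinates.
* `locS_change`: CHANGE OF THE CONDITION.
* `locS_prod`: the contribution of a product condition.
-/

set_option autoImplicit false
set_option linter.unusedSectionVars false

namespace Pool.Agent.Work.MP_787500_nt.KJ

open Matrix
open Pool.Agent.Work.MP_787500_nt.GP (A0 IsAct d0 tw cup11 EvPow IsPow card_pow isPow_mul)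
open Pool.Agent.Work.MP_787500_nt.KR (FSys Z1 Z2 Smooth LocH LDual SDualF cup11_Z2 zM)
open Pool.Agent.Work.MP_787500_nt.KS (ep)
open Pool.Agent.Work.MP_787500_nt.KT (Sy)
open Pool.Agent.Work.MP_787500_nt.QS (Two ac2 be2 la2 Lag pB QM Zq be2_apply pB_apply)
open Pool.Agent.Work.MP_787500_nt.KI (LVal R1 Y2 LY SIso tra Crd f2 siso_f2 z1_tra map_tra mem_tra
  card_tra tra_inf PlQ LocM LocPar)
open Pool.Agent.Work.MP_787500_nt.OL (dst dst_trans lag_fin ev_iff)
open Pool.Agent.Work.MP_787500_nt.RC (SplS)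

universe v

section art

variable {O F : Type*} [CommRing O] [CommRing F] [Algebra O F] {V V' : Type*} [AddCommGroup V]
  [Module O V] [AddCommGroup V'] [Module F V'] {f : V ≃+ V'} {P : Type*} [Group P] {T : FSys P}
  {ρ : P → V → V} {ρ' : P → V' → V'} {iv : (P → P → A0) → A0} {β : V →+ V →+ A0}
  {β' : V' →+ V' →+ A0} {l : O → P → V → A0} {l' : F → P → V' → A0}

/-- TRANSPORT OF LAGRANGIAN CONDITIONS, backwards. -/
theorem lag_art (hf : SIso O F f) (hact : ∀ g v, f (ρ g v) = ρ' g (f v))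
    (hβ : ∀ v w, β v w = β' (f v) (f w))
    (hl : ∀ a g v, l a g v = l' (algebraMap O F a) g (f v)) {Y : Submodule F (P → V')}
    (h : Lag T iv ρ' β' l' Y) : Lag T iv ρ β l (art hf Y) := by
  have hsurj : ∀ x : P → V', ∃ y : P → V, x = fun d => f (y d) := fun x =>
    ⟨fun d => f.symm (x d), funext fun d => (f.apply_symm_apply _).symm⟩
  have hc : ∀ x y : P → V, cup11 ρ' (pB β') (fun d => f (x d)) (fun d => f (y d)) =
      cup11 ρ (pB β) x y := fun x y => by
    funext s t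
    simp only [cup11, pB_apply, hβ, hact]
  refine ⟨fun x hx => (z1_tra hact).1 (h.coc _ hx), fun x hx => ?_, fun a x hx => ?_⟩
  · rw [mem_art, h.self _ ((z1_tra hact).2 hx)]
    constructor
    · intro h1 y hy
      rw [← hc]
      exact h1 _ hy
    · intro h1 y hy
      obtain ⟨y, rfl⟩ := hsurj y
      rw [hc]
      exact h1 _ hy
  · have hz : Zq ρ' β' l' (algebraMap O F a) (fun d => f (x d)) = Zq ρ β l a x := by
      funext s t
      simp only [Zq, hβ, hl, hact, hf.smul]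
    rw [← hz]
    exact h.iso _ _ hx

end art

section change

variable {G Γ : Type*} [Group G] [Group Γ] {S : FSys G} {Sq : FSys Γ} {χ : G → ℤ_[2]}
  {χq : Γ → ℤ_[2]} {e : G →* Γ} {c : Γ} {κ : G →* G} {P : Type*} [Group P] {T : FSys P}
  {jp : P →* Γ} {iv : (P → P → A0) → A0} {O : Type v} [CommRing O] [IsLocalRing O]
  [Finite (IsLocalRing.ResidueField O)] [CharP (IsLocalRing.ResidueField O) 2]
  [Algebra (ZMod 2) (IsLocalRing.ResidueField O)] {M U N : Type v} [AddCommGroup M] [Module O M]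
  [Finite M] [AddCommGroup U] [Module O U] [Finite U] [AddCommGroup N] [Module O N] [Finite N]
  {act : G → M → M}
  {b : M →+ M →+ A0} {aU : G → U → U} {bU : U →+ U →+ A0} {aN : G → N → N} {h : N →+ N →+ A0}
  {Φ : M ≃ₗ[O] U × N × N} {Θ : Set (G × G)} {C : U → U}

/-- the reference condition is Lagrangian -/
theorem lag_ref (p : PlQ.{v} S Sq χ χq e c κ T jp iv) (hs : SDualF S χ κ Θ O act b)
    (s : SplS O act b aU bU aN h Φ) {YU : Submodule O (P → U × U)} {YN : Submodule O (P → N × N)}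
    (h1 : Lag T iv (fun d => ac2 e c κ aU (jp d)) (be2 bU)
      (fun (a : O) d => la2 e c κ aU bU a (jp d)) YU)
    (h2 : SelfN T iv (fun d => ac2 e c κ aN (jp d)) (pB (be2 h)) YN) :
    Lag T iv (fun d => ac2 e c κ act (jp d)) (be2 b)
      (fun (a : O) d => la2 e c κ act b a (jp d)) (prod3 Φ YU YN) :=
  lag_prod3 s p.two p.loc.toLocH (p.qm hs) (p.qm (sdualU s hs)) (p.qm (sdualN s hs)) h1 h2

/-- CHANGE OF THE CONDITION. -/
theorem locS_change (p : PlQ.{v} S Sq χ χq e c κ T jp iv) (hs : SDualF S χ κ Θ O act b)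
    (s : SplS O act b aU bU aN h Φ) {Y Y' : Submodule O (P → M × M)}
    (hY : Lag T iv (fun d => ac2 e c κ act (jp d)) (be2 b)
      (fun (a : O) d => la2 e c κ act b a (jp d)) Y)
    (hY' : Lag T iv (fun d => ac2 e c κ act (jp d)) (be2 b)
      (fun (a : O) d => la2 e c κ act b a (jp d)) Y') {k δ : ℕ}
    (hk : EvPow (Nat.card (IsLocalRing.ResidueField O))
      (dst Y Y' * Nat.card (IsLocalRing.ResidueField O) ^ k))
    (hl : LocS T jp iv e c κ (IsLocalRing.ResidueField O) aU bU aN h Φ C Y δ) :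
    LocS T jp iv e c κ (IsLocalRing.ResidueField O) aU bU aN h Φ C Y' (δ + k) := by
  intro n iS L A hc
  obtain ⟨YU, YN, t, m, r, h1, h2, h3, h4, h5, h6⟩ := hl n iS L A hc
  have hY1 := lag_ref p hs s h1 h4
  have q2 : 2 ≤ Nat.card (IsLocalRing.ResidueField O) := Finite.one_lt_card
  have hfin : Finite (zM (O := O) T (p.qm hs).act (p.qm hs).lin) := (p.ldM hs).fin
  have key := dst_trans p.loc.toLocH (p.qm hs) hfin hY hY' hY1
  have f1 := lag_fin (p.qm hs) hfin hY
  have f2 := lag_fin (p.qm hs) hfin hY'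
  have f3 : Finite ↥(Y' ⊓ prod3 Φ YU YN) :=
    Finite.of_injective (fun x : ↥(Y' ⊓ prod3 Φ YU YN) => (⟨x.1, x.2.1⟩ : Y')) fun x y hxy =>
      Subtype.ext (by simpa using hxy)
  have f4 : Finite ↥(Y ⊓ Y') :=
    Finite.of_injective (fun x : ↥(Y ⊓ Y') => (⟨x.1, x.2.1⟩ : Y)) fun x y hxy =>
      Subtype.ext (by simpa using hxy)
  obtain ⟨r', hr'⟩ := isPow_mul (card_pow (O := O) Y') (card_pow (O := O) ↥(Y' ⊓ prod3 Φ YU YN))
  obtain ⟨i, hi⟩ := isPow_mul (card_pow (O := O) Y) (card_pow (O := O) ↥(Y ⊓ Y'))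
  refine ⟨YU, YN, t, m, r', h1, h2, h3, h4, hr', ?_⟩
  rw [dst, hi, ← pow_add, ev_iff q2] at hk
  rw [dst, dst, dst, hi, hr', h5, ← pow_add, ← pow_add, ev_iff q2] at key
  rw [Int.even_iff] at h6 ⊢
  rw [Nat.even_iff] at hk key
  push_cast
  omega

/-- THE CONTRIBUTION OF A PRODUCT CONDITION. -/
theorem locS_prod (p : PlQ.{v} S Sq χ χq e c κ T jp iv) (hs : SDualF S χ κ Θ O act b)
    (s : SplS O act b aU bU aN h Φ) {Yb : Submodule O (P → U × U)}
    (hYb : Lag T iv (fun d => ac2 e c κ aU (jp d)) (be2 bU)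
      (fun (a : O) d => la2 e c κ aU bU a (jp d)) Yb) {YN : Submodule O (P → N × N)}
    (hYN : SelfN T iv (fun d => ac2 e c κ aN (jp d)) (pB (be2 h)) YN) {δ : ℕ}
    (hl : LocM T jp iv e c κ (IsLocalRing.ResidueField O) aU bU C Yb δ) :
    LocS T jp iv e c κ (IsLocalRing.ResidueField O) aU bU aN h Φ C (prod3 Φ Yb YN) δ := by
  intro n iS L A hc
  obtain ⟨Y₀, t, m, h1, h2, h3, h4⟩ := hl n iS L A hc
  have hf := siso_f2 hc.iso
  have hYU : Lag T iv (fun d => ac2 e c κ aU (jp d)) (be2 bU)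
      (fun (a : O) d => la2 e c κ aU bU a (jp d)) (art hf Y₀) :=
    lag_art (l := fun (a : O) d => la2 e c κ aU bU a (jp d)) hf
      (fun d v => hc.act2 p.two (jp d) v) hc.be (fun a d v => hc.la p.two a (jp d) v) h1
  have q2 : 2 ≤ Nat.card (IsLocalRing.ResidueField O) := Finite.one_lt_card
  have hfin : Finite (zM (O := O) T (p.qm hs).act (p.qm hs).lin) := (p.ldM hs).fin
  have hY1 := lag_ref p hs s hYb hYN
  have fY := lag_fin (p.qm hs) hfin hY1
  have fU : Finite Yb := by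
    refine Finite.of_injective (fun u : Yb => (⟨mk3 Φ u.1 0 0,
      (mk3_mem Φ).2 ⟨u.2, YN.zero_mem, YN.zero_mem⟩⟩ : prod3 Φ Yb YN)) fun x y hxy => ?_
    have h5 := congrArg (fun z : prod3 Φ Yb YN => pU Φ z.1) hxy
    simp only [pU_mk3] at h5
    exact Subtype.ext h5
  have fN : Finite YN := by
    refine Finite.of_injective (fun u : YN => (⟨mk3 Φ 0 u.1 0,
      (mk3_mem Φ).2 ⟨Yb.zero_mem, u.2, YN.zero_mem⟩⟩ : prod3 Φ Yb YN)) fun x y hxy => ?_
    have h5 := congrArg (fun z : prod3 Φ Yb YN => pN Φ z.1) hxy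
    simp only [pN_mk3] at h5
    exact Subtype.ext h5
  obtain ⟨j, hj⟩ := card_pow (O := O) YN
  have c1 := card_tra hf Yb
  have c2 : Nat.card ↥(tra hf Yb ⊓ Y₀) = Nat.card ↥(Yb ⊓ art hf Y₀) := by
    rw [← card_tra hf (Yb ⊓ art hf Y₀), tra_inf, tra_art]
  have f5 : Finite (tra hf Yb) := by
    refine Nat.finite_of_card_ne_zero ?_
    rw [c1]
    exact Nat.card_pos.ne'
  have g1 : FiniteDimensional (IsLocalRing.ResidueField O) (tra hf Yb) := Module.Finite.of_finite
  have g2 : FiniteDimensional (IsLocalRing.ResidueField O) ↥(tra hf Yb ⊓ Y₀) :=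
    Submodule.finiteDimensional_inf_left _ _
  rw [Module.natCard_eq_pow_finrank (K := IsLocalRing.ResidueField O)] at c1 c2
  refine ⟨art hf Y₀, YN, t, m, Module.finrank (IsLocalRing.ResidueField O) (tra hf Yb) +
    Module.finrank (IsLocalRing.ResidueField O) ↥(tra hf Yb ⊓ Y₀) + 4 * j, hYU, ?_, ?_, hYN, ?_, ?_⟩
  · rw [tra_art]
    exact h2
  · rw [tra_art]
    exact h3
  · rw [prod3_inf, card_prod3, card_prod3, inf_idem, ← c1, ← c2, hj]
    have e1 : IsLocalRing.ResidueField O = IsLocalRing.ResidueField O := rfl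
    ring
  · obtain ⟨w, hw⟩ := h4
    refine ⟨w + 2 * j, ?_⟩
    push_cast
    omega

end change

end Pool.Agent.Work.MP_787500_nt.KJ
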