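import Mathlib
import Pool.Agent.Work.MP_787500_nt.KJ.Loc

/-!
# Block KJ: infinity

`locS_inf`: THE CONTRIBUTION OF INFINITY.
-/

set_option autoImplicit false
set_option linter.unusedSectionVars false

namespace Pool.Agent.Work.MP_787500_nt.KJ

open Matrix
open Pool.Agent.Work.MP_787500_nt.GP (A0 IsAct d0 tw cup11 EvPow)
open Pool.Agent.Work.MP_787500_nt.KR (FSys Z1 Z2 Smooth LocH LDual SDualF)
open Pool.Agent.Work.MP_787500_nt.KS (ep)
open Pool.Agent.Work.MP_787500_nt.QS (Two ac2 be2 la2 Lag pB QM urY mem_urY)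
open Pool.Agent.Work.MP_787500_nt.KI (PlQ LocM locM_inf lag_eq)
open Pool.Agent.Work.MP_787500_nt.QP (InfPl)
open Pool.Agent.Work.MP_787500_nt.QL (RamI lag_ramI)
open Pool.Agent.Work.MP_787500_nt.RC (SplS)

universe v

variable {G Γ : Type*} [Group G] [Group Γ] {S : FSys G} {Sq : FSys Γ} {χ : G → ℤ_[2]}
  {χq : Γ → ℤ_[2]} {e : G →* Γ} {c : Γ} {κ : G →* G} {P : Type*} [Group P] {T : FSys P}
  {jp : P →* Γ} {iv : (P → P → A0) → A0} {In : Set P}

theorem z1_one {V : Type*} [AddCommGroup V] {σ : P → V → V} (ha : IsAct σ) {x : P → V}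
    (hx : Z1 T σ x) : x 1 = 0 := by
  have h1 := hx.2 1 1
  rw [mul_one, ha.one] at h1
  exact left_eq_add.1 h1

/-- a Lagrangian condition is self-annihilating -/
theorem selfN_of {O V : Type*} [CommRing O] [AddCommGroup V] [Module O V] {σ : P → V → V}
    {β : V →+ V →+ A0} {l : O → P → V → A0} {Y : Submodule O (P → V)} (h : Lag T iv σ β l Y) :
    SelfN T iv σ (pB β) Y := ⟨h.coc, h.self⟩

variable {O : Type v} [CommRing O] [IsLocalRing O]
  [Finite (IsLocalRing.ResidueField O)] [CharP (IsLocalRing.ResidueField O) 2]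
  [Algebra (ZMod 2) (IsLocalRing.ResidueField O)] {M U N : Type v} [AddCommGroup M] [Module O M]
  [Finite M] [AddCommGroup U] [Module O U] [Finite U] [AddCommGroup N] [Module O N] [Finite N]
  {act : G → M → M} {b : M →+ M →+ A0} {aU : G → U → U} {bU : U →+ U →+ A0} {aN : G → N → N}
  {h : N →+ N →+ A0} {Φ : M ≃ₗ[O] U × N × N} {Θ : Set (G × G)} {C : U → U}

/-- THE CONTRIBUTION OF INFINITY. -/
theorem locS_inf (p : PlQ.{v} S Sq χ χq e c κ T jp iv) (hs : SDualF S χ κ Θ O act b)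
    (s : SplS O act b aU bU aN h Φ) {t₀ : P} (R : InfPl T jp iv χq c In t₀) (RI : RamI c jp In)
    {Y : Submodule O (P → M × M)}
    (hY : Lag T iv (fun d => ac2 e c κ act (jp d)) (be2 b)
      (fun (a : O) d => la2 e c κ act b a (jp d)) Y) {r : ℕ}
    (hr : Nat.card U = Nat.card (IsLocalRing.ResidueField O) ^ (2 * r)) :
    LocS T jp iv e c κ (IsLocalRing.ResidueField O) aU bU aN h Φ C Y r := by
  have X := p.two
  have hU := sdualU s hs
  have hN := sdualN s hs
  have l1 := lag_ramI (act := hU.act) (lin := hU.lin) X RI p.loc.toLocH (p.qm hU)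
  have l2 := lag_ramI (act := hN.act) (lin := hN.lin) X RI p.loc.toLocH (p.qm hN)
  have l3 := lag_ref p hs s l1 (selfN_of l2)
  have hle : Y ≤ prod3 Φ (urY (O := O) T ((X.act hU.act).comp jp) (fun d => X.lin hU.lin (jp d)) In)
      (urY (O := O) T ((X.act hN.act).comp jp) (fun d => X.lin hN.lin (jp d)) In) := by
    intro x hx
    obtain ⟨x1, x2, x3⟩ := (z1_spl s X).1 (hY.coc x hx)
    refine ⟨mem_urY.2 ⟨x1, fun d hd => ?_⟩, mem_urY.2 ⟨x2, fun d hd => ?_⟩,
      mem_urY.2 ⟨x3, fun d hd => ?_⟩⟩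
    · rw [RI.inn d hd]
      exact z1_one ((X.act hU.act).comp jp) x1
    · rw [RI.inn d hd]
      exact z1_one ((X.act hN.act).comp jp) x2
    · rw [RI.inn d hd]
      exact z1_one ((X.act hN.act).comp jp) x3
  rw [lag_eq hY l3 hle]
  exact locS_prod p hs s l1 (selfN_of l2) (locM_inf p hU R RI l1 hr)

end Pool.Agent.Work.MP_787500_nt.KJ
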