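import Mathlib
import Pool.Agent.Work.MP_787500_nt.KJ.Bas
import Pool.Agent.Work.MP_787500_nt.QS.Qm2

/-!
# Block KJ: the comparison of `M × M` with `U × U` and THE PARITY

* `card_sel3`: the Selmer group of `M × M` with product conditions is the product of the Selmer group of `U × U` and of the square of the Selmer group of `N × N`.
* `cmp`: THE COMPARISON of the Selmer groups of `M × M` and `U × U`, `U` arbitrary.
* `par_S`: THE PARITY of the Selmer group of `M × M` from the local contributions `LocS`.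
-/

set_option autoImplicit false
set_option linter.unusedSectionVars false

namespace Pool.Agent.Work.MP_787500_nt.KJ

open Matrix
open Pool.Agent.Work.MP_787500_nt.GP (A0 hf smul_hf IsAct d0 tw cup11 EvPow IsPow)
open Pool.Agent.Work.MP_787500_nt.KR (FSys Z1 Z2 Sm1 Smooth IsChar LocH LDual d0_Z1 SDualF zM)
open Pool.Agent.Work.MP_787500_nt.KS (ep hfT hfT_nondeg trace_trick hfT_two)
open Pool.Agent.Work.MP_787500_nt.KT (Sy IsSp BU pair_BU)
open Pool.Agent.Work.MP_787500_nt.QS (Two ac2 be2 la2 Lag HQ selQ QM pB Zq be2_apply pB_apply change_Q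
  qm_two)
open Pool.Agent.Work.MP_787500_nt.KI (LVal R1 Y2 LY SIso tra Crd f2 siso_f2 kramer lkr_of_lag sel_LY
  qm_tra lag_tra card_selQ_tra exists_crd_res finite_res card_res bC)
open Pool.Agent.Work.MP_787500_nt.QP (InvC)
open Pool.Agent.Work.MP_787500_nt.RC (SplS)

universe v

section sel3

variable {O : Type*} [CommRing O] {M U N : Type*} [AddCommGroup M] [Module O M] [AddCommGroup U]
  [Module O U] [AddCommGroup N] [Module O N] {G Γ : Type*} [Group G] [Group Γ] {e : G →* Γ} {c : Γ}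
  {κ : G →* G} {ρ : G → M → M} {b : M →+ M →+ A0} {aU : G → U → U} {bU : U →+ U →+ A0}
  {aN : G → N → N} {h : N →+ N →+ A0} {Φ : M ≃ₗ[O] U × N × N}

variable {Sq : FSys Γ} {I : Type*} {D : I → Type*} [∀ i, Group (D i)] {j : ∀ i, D i →* Γ}

/-- THE SELMER GROUP OF A PRODUCT CONDITION. -/
theorem card_sel3 (X : Two e c κ) (hs : SplS O ρ b aU bU aN h Φ) (act : IsAct (ac2 e c κ ρ))
    (lin : ∀ g (a : O) m, ac2 e c κ ρ g (a • m) = a • ac2 e c κ ρ g m)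
    (actU : IsAct (ac2 e c κ aU))
    (linU : ∀ g (a : O) m, ac2 e c κ aU g (a • m) = a • ac2 e c κ aU g m)
    (actN : IsAct (ac2 e c κ aN))
    (linN : ∀ g (a : O) m, ac2 e c κ aN g (a • m) = a • ac2 e c κ aN g m)
    (YU : ∀ i, Submodule O (D i → U × U)) (YN : ∀ i, Submodule O (D i → N × N)) :
    Nat.card (selQ Sq j act lin fun i => prod3 Φ (YU i) (YN i)) =
      Nat.card (selQ Sq j actU linU YU) * Nat.card (selQ Sq j actN linN YN) ^ 2 := by
  have hz : ∀ x : Γ → M × M, Z1 Sq (ac2 e c κ ρ) x ↔ Z1 Sq (ac2 e c κ aU) (pU Φ x) ∧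
      Z1 Sq (ac2 e c κ aN) (pN Φ x) ∧ Z1 Sq (ac2 e c κ aN) (pN' Φ x) := fun x =>
    z1_spl hs X (jp := MonoidHom.id Γ)
  have key : ∀ x : Γ → M × M, x ∈ (selQ Sq j act lin fun i => prod3 Φ (YU i) (YN i)) ↔
      pU Φ x ∈ selQ Sq j actU linU YU ∧ pN Φ x ∈ selQ Sq j actN linN YN ∧
        pN' Φ x ∈ selQ Sq j actN linN YN := by
    intro x
    constructor
    · rintro ⟨h1, h2⟩
      obtain ⟨k1, k2, k3⟩ := (hz x).1 h1
      exact ⟨⟨k1, fun i => (h2 i).1⟩, ⟨k2, fun i => (h2 i).2.1⟩, ⟨k3, fun i => (h2 i).2.2⟩⟩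
    · rintro ⟨h1, h2, h3⟩
      exact ⟨(hz x).2 ⟨h1.1, h2.1, h3.1⟩, fun i => ⟨h1.2 i, h2.2 i, h3.2 i⟩⟩
  have E : (selQ Sq j act lin fun i => prod3 Φ (YU i) (YN i)) ≃
      (selQ Sq j actU linU YU) × (selQ Sq j actN linN YN) × (selQ Sq j actN linN YN) :=
    { toFun := fun x => (⟨pU Φ x.1, ((key x.1).1 x.2).1⟩, ⟨pN Φ x.1, ((key x.1).1 x.2).2.1⟩,
        ⟨pN' Φ x.1, ((key x.1).1 x.2).2.2⟩)
      invFun := fun y => ⟨mk3 Φ y.1.1 y.2.1.1 y.2.2.1, (key _).2 (by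
        rw [pU_mk3, pN_mk3, pN'_mk3]
        exact ⟨y.1.2, y.2.1.2, y.2.2.2⟩)⟩
      left_inv := fun x => Subtype.ext (mk3_p Φ x.1)
      right_inv := fun y => Prod.ext (Subtype.ext (pU_mk3 Φ _ _ _))
        (Prod.ext (Subtype.ext (pN_mk3 Φ _ _ _)) (Subtype.ext (pN'_mk3 Φ _ _ _))) }
  rw [Nat.card_congr E, Nat.card_prod, Nat.card_prod, pow_two]

end sel3

section cmp

variable {O : Type*} [CommRing O] [IsLocalRing O] [Finite (IsLocalRing.ResidueField O)]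
  {M U N : Type v} [AddCommGroup M] [Module O M] [Finite M] [AddCommGroup U]
  [Module O U] [Finite U] [AddCommGroup N] [Module O N] [Finite N] {G Γ : Type*} [Group G] [Group Γ]
  {e : G →* Γ} {c : Γ} {κ : G →* G} {ρ : G → M → M} {b : M →+ M →+ A0} {aU : G → U → U}
  {bU : U →+ U →+ A0} {aN : G → N → N} {h : N →+ N →+ A0} {Φ : M ≃ₗ[O] U × N × N}
  {Sq : FSys Γ} {I : Type*} [Fintype I] {D : I → Type*} [∀ i, Group (D i)] {SD : ∀ i, FSys (D i)}
  {j : ∀ i, D i →* Γ} {χq : Γ → ℤ_[2]} {inv : ∀ i, (D i → D i → A0) → A0}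
  {tr : ((Γ → Γ → Γ → A0) × (∀ i, D i → D i → A0)) →+ A0}

/-- THE COMPARISON OF `M × M` AND `U × U`. -/
theorem cmp (H : HQ.{v} Sq SD j χq inv tr) (X : Two e c κ) (hs : SplS O ρ b aU bU aN h Φ)
    (hQM : QM Sq χq O (ac2 e c κ ρ) (be2 b) (la2 e c κ ρ b))
    (hQU : QM Sq χq O (ac2 e c κ aU) (be2 bU) (la2 e c κ aU bU))
    (hQN : QM Sq χq O (ac2 e c κ aN) (be2 h) (la2 e c κ aN h))
    {Y : ∀ i, Submodule O (D i → M × M)}
    (hY : ∀ i, Lag (SD i) (inv i) (fun d => ac2 e c κ ρ (j i d)) (be2 b)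
      (fun (a : O) d => la2 e c κ ρ b a (j i d)) (Y i))
    {YU : ∀ i, Submodule O (D i → U × U)} {YN : ∀ i, Submodule O (D i → N × N)}
    (hYU : ∀ i, Lag (SD i) (inv i) (fun d => ac2 e c κ aU (j i d)) (be2 bU)
      (fun (a : O) d => la2 e c κ aU bU a (j i d)) (YU i))
    (hYN : ∀ i, SelfN (SD i) (inv i) (fun d => ac2 e c κ aN (j i d)) (pB (be2 h)) (YN i))
    {r : I → ℕ}
    (hr : ∀ i, Nat.card (Y i) * Nat.card ↥(Y i ⊓ prod3 Φ (YU i) (YN i)) =
      Nat.card (IsLocalRing.ResidueField O) ^ r i) :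
    EvPow (Nat.card (IsLocalRing.ResidueField O)) (Nat.card (selQ Sq j hQM.act hQM.lin Y) *
      Nat.card (selQ Sq j hQU.act hQU.lin YU) *
        Nat.card (IsLocalRing.ResidueField O) ^ ∑ i, r i) := by
  classical
  have k1 := change_Q H hQM hY fun i => lag_prod3 hs X (H.glob.loc i)
    (hQM.comp (H.glob.jsm i)) (hQU.comp (H.glob.jsm i)) (hQN.comp (H.glob.jsm i)) (hYU i) (hYN i)
  have k2 := card_sel3 (Sq := Sq) (j := j) X hs hQM.act hQM.lin hQU.act hQU.lin hQN.act hQN.lin YU YN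
  have hfM : Finite {x : Γ → M × M // Z1 Sq (ac2 e c κ ρ) x} := H.fin hQM.pair
  have hfU : Finite {x : Γ → U × U // Z1 Sq (ac2 e c κ aU) x} := H.fin hQU.pair
  have hfN : Finite {x : Γ → N × N // Z1 Sq (ac2 e c κ aN) x} := H.fin hQN.pair
  have f1 : Finite (selQ Sq j hQM.act hQM.lin Y) :=
    Finite.of_injective (fun x : selQ Sq j hQM.act hQM.lin Y =>
      (⟨x.1, x.2.1⟩ : {x : Γ → M × M // Z1 Sq (ac2 e c κ ρ) x})) fun x y hxy =>
        Subtype.ext (by simpa using hxy)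
  have f2 : Finite (selQ Sq j hQU.act hQU.lin YU) :=
    Finite.of_injective (fun x : selQ Sq j hQU.act hQU.lin YU =>
      (⟨x.1, x.2.1⟩ : {x : Γ → U × U // Z1 Sq (ac2 e c κ aU) x})) fun x y hxy =>
        Subtype.ext (by simpa using hxy)
  have f3 : Finite (selQ Sq j hQN.act hQN.lin YN) :=
    Finite.of_injective (fun x : selQ Sq j hQN.act hQN.lin YN =>
      (⟨x.1, x.2.1⟩ : {x : Γ → N × N // Z1 Sq (ac2 e c κ aN) x})) fun x y hxy =>
        Subtype.ext (by simpa using hxy)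
  have p1 := GP.card_pow (O := O) (selQ Sq j hQM.act hQM.lin Y)
  have p2 := GP.card_pow (O := O) (selQ Sq j hQU.act hQU.lin YU)
  have p3 := GP.card_pow (O := O) (selQ Sq j hQN.act hQN.lin YN)
  have hq : 2 ≤ Nat.card (IsLocalRing.ResidueField O) := Finite.one_lt_card
  have hprod : ∏ i, (Nat.card ↥(Y i ⊓ prod3 Φ (YU i) (YN i)) * Nat.card (Y i)) =
      Nat.card (IsLocalRing.ResidueField O) ^ ∑ i, r i := by
    rw [← Finset.prod_pow_eq_pow_sum]
    refine Finset.prod_congr rfl fun i _ => ?_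
    rw [← hr i, mul_comm]
  rw [hprod, k2] at k1
  have k3 : EvPow (Nat.card (IsLocalRing.ResidueField O))
      (Nat.card (selQ Sq j hQM.act hQM.lin Y) * Nat.card (selQ Sq j hQU.act hQU.lin YU) *
        Nat.card (IsLocalRing.ResidueField O) ^ (∑ i, r i) *
        Nat.card (selQ Sq j hQN.act hQN.lin YN) ^ 2) := by
    convert k1 using 1
    ring
  exact GP.evPow_cancel hq (GP.isPow_mul (GP.isPow_mul p1 p2) ⟨_, rfl⟩) (GP.evPow_sq p3) k3

end cmp

section par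

variable {O : Type v} [CommRing O] [IsLocalRing O] [Finite (IsLocalRing.ResidueField O)]
  [CharP (IsLocalRing.ResidueField O) 2] [Algebra (ZMod 2) (IsLocalRing.ResidueField O)]
  {M U N : Type v} [AddCommGroup M] [Module O M] [Finite M] [AddCommGroup U]
  [Module O U] [Finite U] [AddCommGroup N] [Module O N] [Finite N] {G Γ : Type*} [Group G] [Group Γ]
  {e : G →* Γ} {c : Γ} {κ : G →* G} {ρ : G → M → M} {b : M →+ M →+ A0} {aU : G → U → U}
  {bU : U →+ U →+ A0} {aN : G → N → N} {hN : N →+ N →+ A0} {Φ : M ≃ₗ[O] U × N × N} {C : U → U}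
  {S : FSys G} {χ : G → ℤ_[2]} {Θ : Set (G × G)}
  {Sq : FSys Γ} {I : Type*} [Fintype I] {D : I → Type*} [∀ i, Group (D i)] {SD : ∀ i, FSys (D i)}
  {j : ∀ i, D i →* Γ} {χq : Γ → ℤ_[2]} {inv : ∀ i, (D i → D i → A0) → A0}
  {tr : ((Γ → Γ → Γ → A0) × (∀ i, D i → D i → A0)) →+ A0}

/-- THE KRAMER STEP for `U`. -/
theorem par_U (H : HQ.{v} Sq SD j χq inv tr) (X : Two e c κ) (hχ : ∀ g, χq (e g) = χ g)
    (up : ∀ W, S.mem W → ∃ W', Sq.mem W' ∧ ∀ σ ∈ W', ∃ g ∈ W, e g = σ)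
    (h : SDualF S χ κ Θ O aU bU)
    (hQU : QM Sq χq O (ac2 e c κ aU) (be2 bU) (la2 e c κ aU bU)) {n : ℕ}
    [Sy (IsLocalRing.ResidueField O) n] {L : U ≃+ (Fin n → IsLocalRing.ResidueField O)}
    {A : Γ →* Matrix (Fin n) (Fin n) (IsLocalRing.ResidueField O)}
    (hc : Crd e c O aU bU C L A) {YU : ∀ i, Submodule O (D i → U × U)}
    (hYU : ∀ i, Lag (SD i) (inv i) (fun d => ac2 e c κ aU (j i d)) (be2 bU)
      (fun (a : O) d => la2 e c κ aU bU a (j i d)) (YU i)) {t : I → ℕ} {m : I → ℤ}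
    (ht : ∀ i, LVal (inv i) (A.comp (j i)) (fun d => ep e (j i d))
      (LY A c (tra (siso_f2 hc.iso) (YU i))) (t i))
    (hm : ∀ i, (Module.finrank (IsLocalRing.ResidueField O)
      (R1 (LY A c (tra (siso_f2 hc.iso) (YU i)))) : ℤ) =
      Module.finrank (IsLocalRing.ResidueField O)
        (Y2 (LY A c (tra (siso_f2 hc.iso) (YU i)))) + 2 * m i) :
    ∃ f : ℕ, Nat.card (selQ Sq j hQU.act hQU.lin YU) =
      Nat.card (IsLocalRing.ResidueField O) ^ f ∧ Even ((f : ℤ) + ∑ i, (m i + t i)) := by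
  have hf := siso_f2 hc.iso
  have hQM' : QM Sq χq (IsLocalRing.ResidueField O) (ac2 e c κ (KT.act (A.comp e))) (be2 (bC A c))
      (la2 e c κ (KT.act (A.comp e)) (bC A c)) :=
    qm_tra hf (fun σ v => hc.act2 X σ v) hc.be (fun a σ v => hc.la X a σ v) hQU
  have hes : Sm1 Sq (ep e) := by
    obtain ⟨W, hW⟩ := S.ex
    obtain ⟨W', hW', h1⟩ := up W hW
    refine ⟨W', hW', fun g w hw => ?_⟩
    obtain ⟨k, -, rfl⟩ := h1 w hw
    rw [QP.ep_add2 X, QP.ep_e, add_zero]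
  have hsm : Smooth Sq (KT.act A) := by
    obtain ⟨W, hW, h1⟩ := h.sm
    obtain ⟨W', hW', h2⟩ := up W hW
    refine ⟨W', hW', fun w hw m => ?_⟩
    obtain ⟨k, hk, rfl⟩ := h2 w hw
    obtain ⟨m, rfl⟩ := L.surjective m
    show A (e k) *ᵥ L m = L m
    rw [hc.ae, h1 k hk]
  have hY' : ∀ i, Lag (SD i) (inv i) (fun d => ac2 e c κ (KT.act (A.comp e)) (j i d)) (be2 (bC A c))
      (fun (a : IsLocalRing.ResidueField O) d => la2 e c κ (KT.act (A.comp e)) (bC A c) a (j i d))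
      (tra hf (YU i)) := fun i =>
    lag_tra hf (fun d v => hc.act2 X (j i d) v) hc.be (fun a d v => hc.la X a (j i d) v) (hYU i)
  have hsp := hc.sp
  have hpair : KR.Pair Sq χq (KT.act A) (KT.act A) BU := pair_BU H.glob.char hsp hsm
  have hjs : ∀ i W, Sq.mem W → ∃ W', (SD i).mem W' ∧ ∀ w ∈ W', j i w ∈ W := H.glob.jsm
  have hsmi : ∀ i, Smooth (SD i) (KT.act (A.comp (j i))) := fun i => hsm.comp (hjs i)
  have hesi : ∀ i, Sm1 (SD i) fun d => ep e (j i d) := by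
    intro i
    obtain ⟨W, hW, h1⟩ := hes
    obtain ⟨W', hW', h2⟩ := hjs i W hW
    refine ⟨W', hW', fun g w hw => ?_⟩
    beta_reduce
    rw [map_mul, h1 _ _ (h2 w hw)]
  have hldi : ∀ i, LDual (SD i) (inv i) (KT.act (A.comp (j i))) (KT.act (A.comp (j i))) BU :=
    fun i => H.ld i hpair
  have hKH : KI.KH Sq SD j χq inv tr A (ep e) fun i => LY A c (tra hf (YU i)) :=
    { glob := H.glob
      istr := H.istr
      pp := H.pp hpair
      ld := hldi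
      fin := H.fin hpair
      det := hsp
      sm := hsm
      eadd := QP.ep_add2 X
      esm := hes
      loc := fun i => lkr_of_lag X (H.glob.loc i) hsp (hsmi i) (hesi i) (hldi i) (hY' i) }
  obtain ⟨hfd, hk⟩ := kramer hKH ht hm
  obtain ⟨E⟩ := sel_LY X (D := D) (j := j) hsm hes hQM'.act hQM'.lin fun i => tra hf (YU i)
  have hfd₀ : FiniteDimensional (IsLocalRing.ResidueField O)
      (selQ Sq j hQM'.act hQM'.lin fun i => tra hf (YU i)) := Module.Finite.equiv E.symm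
  refine ⟨_, ?_, hk⟩
  rw [← card_selQ_tra hf (fun σ v => hc.act2 X σ v) hQU.act hQU.lin hQM'.act hQM'.lin YU,
    Module.natCard_eq_pow_finrank (K := IsLocalRing.ResidueField O), E.finrank_eq]

/-- THE PARITY FOR `M × M` FROM THE LOCAL CONTRIBUTIONS. -/
theorem par_S (H : HQ.{v} Sq SD j χq inv tr) (X : Two e c κ) (hχ : ∀ g, χq (e g) = χ g)
    (hcc : χq c = -1) (up : ∀ W, S.mem W → ∃ W', Sq.mem W' ∧ ∀ σ ∈ W', ∃ g ∈ W, e g = σ)
    (ks : ∀ W, S.mem W → ∃ W', S.mem W' ∧ ∀ v ∈ W', κ v ∈ W)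
    (hM : ∀ a ∈ IsLocalRing.maximalIdeal O, ∀ m : M, a • m = 0)
    (h : SDualF S χ κ Θ O ρ b) (hs : SplS O ρ b aU bU aN hN Φ) (hC : InvC κ O aU bU C)
    (hQM : QM Sq χq O (ac2 e c κ ρ) (be2 b) (la2 e c κ ρ b))
    {Y : ∀ i, Submodule O (D i → M × M)}
    (hY : ∀ i, Lag (SD i) (inv i) (fun d => ac2 e c κ ρ (j i d)) (be2 b)
      (fun (a : O) d => la2 e c κ ρ b a (j i d)) (Y i)) {δ : I → ℕ}
    (hloc : ∀ i, LocS (SD i) (j i) (inv i) e c κ (IsLocalRing.ResidueField O) aU bU aN hN Φ C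
      (Y i) (δ i)) :
    EvPow (Nat.card (IsLocalRing.ResidueField O)) (Nat.card (selQ Sq j hQM.act hQM.lin Y) *
      Nat.card (IsLocalRing.ResidueField O) ^ ∑ i, δ i) := by
  classical
  have hdU : SDualF S χ κ Θ O aU bU := sdualU hs h
  have hdN : SDualF S χ κ ∅ O aN hN := sdualN hs h
  have hQU := qm_two X hχ hcc H.glob.char.mul up ks hdU
  have hQN := qm_two X hχ hcc H.glob.char.mul up ks hdN
  have hMU : ∀ a ∈ IsLocalRing.maximalIdeal O, ∀ u : U, a • u = 0 := by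
    intro a ha u
    have h1 := congrArg Φ (hM a ha (Φ.symm (u, 0, 0)))
    rw [map_smul, map_zero, LinearEquiv.apply_symm_apply] at h1
    exact congrArg Prod.fst h1
  obtain ⟨n, iS, L, A, hc⟩ := exists_crd_res X (fun g => by
    rw [← hχ]
    exact H.glob.char.odd _) hMU hdU hC
  choose YU YN t m r h1 h2 h3 h4 h5 h6 using fun i => hloc i n iS L A hc
  have k1 := cmp H X hs hQM hQU hQN hY h1 h4 h5
  obtain ⟨f, hf1, hf2⟩ := par_U H X hχ up hdU hQU hc h1 h2 h3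
  have hfM : Finite {x : Γ → M × M // Z1 Sq (ac2 e c κ ρ) x} := H.fin hQM.pair
  have f1 : Finite (selQ Sq j hQM.act hQM.lin Y) :=
    Finite.of_injective (fun x : selQ Sq j hQM.act hQM.lin Y =>
      (⟨x.1, x.2.1⟩ : {x : Γ → M × M // Z1 Sq (ac2 e c κ ρ) x})) fun x y hxy =>
        Subtype.ext (by simpa using hxy)
  obtain ⟨y, hy⟩ := GP.card_pow (O := O) (selQ Sq j hQM.act hQM.lin Y)
  obtain ⟨k, hk⟩ := k1
  rw [hy, hf1, ← pow_add, ← pow_add] at hk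
  have hk2 := Nat.pow_right_injective (Finite.one_lt_card : 1 < Nat.card (IsLocalRing.ResidueField O)) hk
  have hk3 : (y : ℤ) + f + ∑ i, (r i : ℤ) = 2 * k := by exact_mod_cast hk2
  have hsum : Even (∑ i, ((m i : ℤ) + t i + r i + δ i)) :=
    Finset.sum_induction _ Even (fun a b ha hb => ha.add hb) Even.zero fun i _ => h6 i
  have e1 : ∑ i, ((m i : ℤ) + t i + r i + δ i) = (∑ i, (m i + (t i : ℤ))) +
      (∑ i, (r i : ℤ)) + ∑ i, (δ i : ℤ) := by
    rw [← Finset.sum_add_distrib, ← Finset.sum_add_distrib]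
  rw [e1] at hsum
  obtain ⟨a1, ha1⟩ := hsum
  obtain ⟨a2, ha2⟩ := hf2
  have hev : Even (y + ∑ i, δ i) := by
    rw [← Int.even_coe_nat]
    push_cast
    obtain ⟨x1, hx1⟩ : ∃ x1 : ℤ, x1 = ∑ i, (m i + (t i : ℤ)) := ⟨_, rfl⟩
    obtain ⟨x2, hx2⟩ : ∃ x2 : ℤ, x2 = ∑ i, (r i : ℤ) := ⟨_, rfl⟩
    obtain ⟨x3, hx3⟩ : ∃ x3 : ℤ, x3 = ∑ i, (δ i : ℤ) := ⟨_, rfl⟩
    rw [← hx1, ← hx2, ← hx3] at ha1
    rw [← hx1] at ha2
    rw [← hx2] at hk3
    rw [← hx3]
    refine ⟨a1 + k - a2 - x2, ?_⟩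
    omega
  obtain ⟨z, hz⟩ := hev
  refine ⟨z, ?_⟩
  rw [hy, ← pow_add, hz, two_mul]

end par

end Pool.Agent.Work.MP_787500_nt.KJ
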