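import Mathlib
import Pool.Agent.Work.MP_787500_nt.KJ.Par
import Pool.Agent.Work.MP_787500_nt.KI.LevA

/-!
# Block KJ: THE LEVEL ONE from the local contributions `LocS`

* `hP_of_locS`: THE PARITY at the level 1 for `M = MN T l 1 = U × N × N`.
* `LocFS`: the contribution of a condition at a place of the arithmetic family.
* `even_U`: the dimension of `U` is even; `hP_famS`: THE HYPOTHESIS `hP` of `QW.parity_inst`.
-/

set_option autoImplicit false
set_option linter.unusedSectionVars false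

namespace Pool.Agent.Work.MP_787500_nt.KJ

open Matrix NumberField
open Pool.Agent.Work.MP_787500_nt.GP (A0 hf smul_hf IsAct d0 tw cup11 EvPow OE MN actN actQ bN bil Lat
  lamN mq Wq inT stabD)
open Pool.Agent.Work.MP_787500_nt.KR (FSys Z1 Z2 Sm1 Smooth IsChar LocH LDual LocD d0_Z1 SDualF Pair
  LocRep sdualF_MN fullK big)
open Pool.Agent.Work.MP_787500_nt.PA (toE cyc)
open Pool.Agent.Work.MP_787500_nt.HP (IsQ Spl IsP inr stb cyQ)
open Pool.Agent.Work.MP_787500_nt.KS (iK ep)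
open Pool.Agent.Work.MP_787500_nt.QS (Two ac2 be2 la2 Lag HQ selQ QM qm_two)
open Pool.Agent.Work.MP_787500_nt.QP (InvC)
open Pool.Agent.Work.MP_787500_nt.QV (QRep T2 J2 blk rho2 beN laN isoN iso_act iso_be iso_la selNQ
  card_selNQ)
open Pool.Agent.Work.MP_787500_nt.QU (Inst)
open Pool.Agent.Work.MP_787500_nt.QW (famL Ari sysQ)
open Pool.Agent.Work.MP_787500_nt.GA (SQ jQ iQ)
open Pool.Agent.Work.MP_787500_nt.KI (YM mem_YM lag_YM exists_crd_res card_of_iso ks_inst)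
open Pool.Agent.Work.MP_787500_nt.RC (SplS)

universe u v w

section par

variable {E : Type v} [NormedField E] [NormedAlgebra ℚ_[2] E] {n : ℕ}
  [FiniteDimensional ℚ_[2] E] [IsLocalRing (OE E)]
  [Finite (IsLocalRing.ResidueField (OE E))] [CharP (IsLocalRing.ResidueField (OE E)) 2]
  [Algebra (ZMod 2) (IsLocalRing.ResidueField (OE E))]
  {G Γ : Type*} [Group G] [Group Γ] {e : G →* Γ} {c : Γ} {κ : G →* G}
  {ρ : G → Matrix (Fin n) (Fin n) E} {S : FSys G} {Sq : FSys Γ} {χ : G → ℤ_[2]} {χq : Γ → ℤ_[2]}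
  {l : OE E} {t : E →ₗ[ℚ_[2]] ℚ_[2]} {T : Submodule (OE E) (Fin n → E)}
  {b : Matrix (Fin n) (Fin n) E} {I : Type*} [Fintype I] {D : I → Type*}
  [∀ i, Group (D i)] {SD : ∀ i, FSys (D i)} {j : ∀ i, D i →* Γ}
  {inv : ∀ i, (D i → D i → A0) → A0} {tr : ((Γ → Γ → Γ → A0) × (∀ i, D i → D i → A0)) →+ A0}
  {U N : Type v} [AddCommGroup U] [Module (OE E) U] [Finite U] [AddCommGroup N] [Module (OE E) N]
  [Finite N] {aU : G → U → U} {bU : U →+ U →+ A0} {aN : G → N → N} {hN : N →+ N →+ A0}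
  {Φ : MN T l 1 ≃ₗ[OE E] U × N × N} {C : U → U}

/-- THE PARITY AT THE LEVEL 1, from the local contributions. -/
theorem hP_of_locS (H : HQ.{v} Sq SD j χq inv tr) (X : Two e c κ) (hχ : ∀ g, χq (e g) = χ g)
    (hc : χq c = -1) (up : ∀ W, S.mem W → ∃ W', Sq.mem W' ∧ ∀ σ ∈ W', ∃ g ∈ W, e g = σ)
    (ks : ∀ W, S.mem W → ∃ W', S.mem W' ∧ ∀ v ∈ W', κ v ∈ W) (hl : Lat b l t T)
    (hr : LocRep S χ T b ρ (fun g => ρ (κ g))) {Sm J : Matrix (Fin (n + n)) (Fin (n + n)) E}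
    (h : QRep Sq χq l t (T2 T) (blk 0 b 0 0) Sm J (rho2 e c κ ρ))
    (hs : SplS (OE E) (actN l 1 ρ hr.st) (bN hl 1) aU bU aN hN Φ) (hC : InvC κ (OE E) aU bU C)
    {L : ∀ i, Submodule E (D i → Fin (n + n) → E)}
    (hlag : ∀ i, Lag (SD i) (inv i) (fun d => actN l 1 (rho2 e c κ ρ) h.rep.st (j i d)) (beN h 1)
      (fun a d => laN χq l t (blk 0 b 0 0) (rho2 e c κ ρ) (T2 T) 1 a (j i d))
      (lamN (T2 T) l 1 (L i))) {δ : I → ℕ}
    (hloc : ∀ i, LocS (SD i) (j i) (inv i) e c κ (IsLocalRing.ResidueField (OE E)) aU bU aN hN Φ C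
      (YM T l (L i)) (δ i)) :
    EvPow (Nat.card (IsLocalRing.ResidueField (OE E)))
      (Nat.card (selNQ Sq j (rho2 e c κ ρ) L h 1) *
        Nat.card (IsLocalRing.ResidueField (OE E)) ^ ∑ i, δ i) := by
  have hfin : Finite (MN T l 1) := GP.MN_finite hl 1
  have hsd : SDualF S χ κ ∅ (OE E) (actN l 1 ρ hr.st) (bN hl 1) :=
    sdualF_MN hl hr (fun p hp => absurd hp (Set.notMem_empty p)) 1
  have hm := H.glob.char.mul
  have hqm := qm_two X hχ hc hm up ks hsd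
  rw [card_selNQ X hr.st h hqm.act hqm.lin (Y := fun i => YM T l (L i)) fun i x => mem_YM.symm]
  exact par_S H X hχ hc up ks (QF.max_MN hl) hsd hs hC hqm
    (fun i => lag_YM X hχ hc hm hl hr h (hlag i)) hloc

end par

section fam

variable {K : Type u} [Field K] [NumberField K] {D : ℕ} {s : K}
  {c : AlgebraicClosure K ≃+* AlgebraicClosure K} {κ : AbsGal K →* AbsGal K} {T : Finset ℕ}
  {P : ℕ → Ideal (𝓞 (AlgebraicClosure K))} {N₀ : Subgroup (AbsGal K)}
  {iv ivF : ∀ w : Option T, (stb (HP.PP P w) → stb (HP.PP P w) → A0) → A0}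
  {tr : (((AlgebraicClosure K ≃+* AlgebraicClosure K) → (AlgebraicClosure K ≃+* AlgebraicClosure K) →
      (AlgebraicClosure K ≃+* AlgebraicClosure K) → A0) ×
      (∀ i : Option (Option T), GA.HQ c P i → GA.HQ c P i → A0)) →+ A0}
  {E : Type w} [NormedField E] [NormedAlgebra ℚ_[2] E] [FiniteDimensional ℚ_[2] E]
  [IsLocalRing (OE E)] [Finite (IsLocalRing.ResidueField (OE E))]
  [CharP (IsLocalRing.ResidueField (OE E)) 2] [Algebra (ZMod 2) (IsLocalRing.ResidueField (OE E))]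
  {n : ℕ} {ρ : AbsGal K →* Matrix (Fin n) (Fin n) E} {b : Matrix (Fin n) (Fin n) E}
  {l : OE E} {t : E →ₗ[ℚ_[2]] ℚ_[2]} {L₀ : Submodule (OE E) (Fin n → E)}
  {U N : Type w} [AddCommGroup U] [Module (OE E) U] [AddCommGroup N] [Module (OE E) N]

/-- the contribution of a condition at a place of the family -/
abbrev LocFS (c : AlgebraicClosure K ≃+* AlgebraicClosure K) (κ : AbsGal K →* AbsGal K)
    (P : ℕ → Ideal (𝓞 (AlgebraicClosure K))) (N₀ : Subgroup (AbsGal K))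
    (ivF : ∀ w : Option T, (stb (HP.PP P w) → stb (HP.PP P w) → A0) → A0)
    (aU : AbsGal K → U → U) (bU : U →+ U →+ A0) (aN : AbsGal K → N → N) (hN : N →+ N →+ A0)
    (Φ : MN L₀ l 1 ≃ₗ[OE E] U × N × N) (C : U → U)
    (i : Option (Option T)) (L : Submodule E (GA.HQ c P i → Fin (n + n) → E)) (δ : ℕ) : Prop :=
  LocS (SQ c P (N₀.map (iK K)) i) (jQ c P i) (iQ c P ivF i) (iK K) c κ
    (IsLocalRing.ResidueField (OE E)) aU bU aN hN Φ C (YM L₀ l L) δ

/-- the contribution matters modulo 2 -/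
theorem locS_congr {F : Type v} [Field F] [Finite F] [CharP F 2] [Algebra (ZMod 2) F] {O : Type*}
    [CommRing O] [Algebra O F] {M U N : Type*} [AddCommGroup M] [Module O M] [AddCommGroup U]
    [Module O U] [AddCommGroup N] [Module O N] {G Γ : Type*} [Group G] [Group Γ] {e : G →* Γ}
    {c : Γ} {κ : G →* G} {Q : Type*} [Group Q] {TQ : FSys Q} {jp : Q →* Γ}
    {iv : (Q → Q → A0) → A0} {aU : G → U → U} {bU : U →+ U →+ A0} {aN : G → N → N}
    {h : N →+ N →+ A0} {Φ : M ≃ₗ[O] U × N × N} {C : U → U} {Y : Submodule O (Q → M × M)}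
    {δ δ' : ℕ} (hd : Even (δ + δ')) (hY : LocS TQ jp iv e c κ F aU bU aN h Φ C Y δ) :
    LocS TQ jp iv e c κ F aU bU aN h Φ C Y δ' := by
  intro n iS L A hc
  obtain ⟨YU, YN, t, m, r, h1, h2, h3, h4, h5, h6⟩ := hY n iS L A hc
  refine ⟨YU, YN, t, m, r, h1, h2, h3, h4, h5, ?_⟩
  obtain ⟨a, ha⟩ := hd
  obtain ⟨b, hb⟩ := h6
  refine ⟨b + a - δ, ?_⟩
  have ha' : (δ : ℤ) + δ' = a + a := by exact_mod_cast ha
  omega

variable {aU : AbsGal K → U → U} {bU : U →+ U →+ A0} {aN : AbsGal K → N → N} {hN : N →+ N →+ A0}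
  {Φ : MN L₀ l 1 ≃ₗ[OE E] U × N × N} {C : U → U}
  {L : Submodule E (stabD (K := K) (P 2) → Fin n → E)}

/-- the module of level 1 is self-dual -/
theorem sdual_M (I : Inst.{u, w} s c κ D T P N₀ iv ivF tr) (h : Ari s c κ D T P N₀)
    (hρ : Gn.ConjDual 2 N₀ (inT K T) (Parity.cyclo E) κ ρ b) (hl : Lat b l t L₀)
    (hst : ∀ g, ∀ x ∈ L₀, ρ g *ᵥ x ∈ L₀) :
    SDualF (big (fullK (K := K) T) N₀) cyc κ ∅ (OE E) (actN l 1 (fun g => ρ g) hst) (bN hl 1) :=
  sdualF_MN hl (h.rep hρ hst) (fun p hp => absurd hp (Set.notMem_empty p)) 1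

/-- the dimension of `U` is even -/
theorem even_U [Finite U] (I : Inst.{u, w} s c κ D T P N₀ iv ivF tr) (h : Ari s c κ D T P N₀)
    (hρ : Gn.ConjDual 2 N₀ (inT K T) (Parity.cyclo E) κ ρ b) (hl : Lat b l t L₀)
    (hst : ∀ g, ∀ x ∈ L₀, ρ g *ᵥ x ∈ L₀)
    (hs : SplS (OE E) (actN l 1 (fun g => ρ g) hst) (bN hl 1) aU bU aN hN Φ)
    (hC : InvC κ (OE E) aU bU C) :
    ∃ r, Nat.card U = Nat.card (IsLocalRing.ResidueField (OE E)) ^ (2 * r) := by
  have hsU := sdualU hs (sdual_M I h hρ hl hst)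
  have hMU : ∀ a ∈ IsLocalRing.maximalIdeal (OE E), ∀ u : U, a • u = 0 := by
    intro a ha u
    have h1 := congrArg Φ (QF.max_MN hl a ha (Φ.symm (u, 0, 0)))
    rw [map_smul, map_zero, LinearEquiv.apply_symm_apply] at h1
    exact congrArg Prod.fst h1
  obtain ⟨m, iS, L, A, hc⟩ := exists_crd_res I.isTwo
    (fun g => by
      rw [← Inst.chi]
      exact I.glob.glob.char.odd _) hMU hsU hC
  obtain ⟨r, hr⟩ := KT.n_even (IsLocalRing.ResidueField (OE E)) m
  refine ⟨r, ?_⟩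
  rw [card_of_iso (F := IsLocalRing.ResidueField (OE E)) (Nat.card_congr L.toEquiv), hr]
  congr 1
  ring

/-- THE HYPOTHESIS `hP` of `QW.parity_inst`, from the contributions of all places. -/
theorem hP_famS [Finite U] [Finite N] (I : Inst.{u, w} s c κ D T P N₀ iv ivF tr)
    (h : Ari s c κ D T P N₀)
    (hρ : Gn.ConjDual 2 N₀ (inT K T) (Parity.cyclo E) κ ρ b) (hl : Lat b l t L₀)
    (hst : ∀ g, ∀ x ∈ L₀, ρ g *ᵥ x ∈ L₀)
    (hs : SplS (OE E) (actN l 1 (fun g => ρ g) hst) (bN hl 1) aU bU aN hN Φ)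
    (hC : InvC κ (OE E) aU bU C)
    (hL : L ≤ Parity.cocycles (fun σ : stabD (K := K) (P 2) => ρ σ))
    (hL0 : Parity.coboundaries (fun σ : stabD (K := K) (P 2) => ρ σ) ≤ L)
    (hm : ∀ σ τ : AlgebraicClosure K ≃+* AlgebraicClosure K, cyQ (σ * τ) = cyQ σ * cyQ τ) {d : ℕ}
    (hinf : ∀ r, Nat.card U = Nat.card (IsLocalRing.ResidueField (OE E)) ^ (2 * r) →
      LocFS c κ P N₀ ivF aU bU aN hN Φ C none (famL c κ T P N₀ ρ b h.h2 L none) r)
    (h2 : ∀ r, Nat.card U = Nat.card (IsLocalRing.ResidueField (OE E)) ^ (2 * r) →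
      LocFS c κ P N₀ ivF aU bU aN hN Φ C (some none) (famL c κ T P N₀ ρ b h.h2 L (some none))
        (d + r))
    {δ : T → ℕ} (hT : ∀ p : T, LocFS c κ P N₀ ivF aU bU aN hN Φ C (some (some p))
      (famL c κ T P N₀ ρ b h.h2 L (some (some p))) (δ p)) :
    EvPow (Nat.card (IsLocalRing.ResidueField (OE E)))
      (Nat.card (selNQ (sysQ T N₀) (jQ c P) (rho2 (iK K) c κ fun g => ρ g)
        (famL c κ T P N₀ ρ b h.h2 L) (h.qrep hρ hl hst hm) 1) *
        Nat.card (IsLocalRing.ResidueField (OE E)) ^ (d + ∑ p, δ p)) := by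
  obtain ⟨r, hr⟩ := even_U I h hρ hl hst hs hC
  let δ' : Option (Option T) → ℕ := fun i => match i with
    | none => r
    | some none => d + r
    | some (some p) => δ p
  have h1 := hP_of_locS (δ := δ') I.glob I.isTwo Inst.chi I.chic (fun _ hW => I.up hW) (ks_inst I) hl
    (h.rep hρ hst) (h.qrep hρ hl hst hm) hs hC
    (L := famL c κ T P N₀ ρ b h.h2 L)
    (QW.famL_lag h hρ hl hst I.glob.glob.char hL hL0 (fun i => I.locD i) 1) (fun i => ?_)
  · have h3 : ∑ i, δ' i = (d + ∑ p, δ p) + 2 * r := by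
      rw [Fintype.sum_option, Fintype.sum_option]
      show r + (d + r + ∑ p, δ p) = _
      ring
    rw [h3] at h1
    exact KI.evPow_cancel Finite.one_lt_card h1
  · match i with
    | none => exact hinf r hr
    | some none => exact h2 r hr
    | some (some p) => exact hT p

end fam

end Pool.Agent.Work.MP_787500_nt.KJ
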