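import Mathlib
import Pool.Agent.Work.MP_787500_nt.KI.Split

/-!
# Block KJ: the reference condition of a place that splits

`ref_split`: a self-annihilating space `X₀` of cocycles for `U`, the Lagrangian condition `prY X₀ X₀'` for `U × U` and its invariants.
-/

set_option autoImplicit false
set_option linter.unusedSectionVars false

namespace Pool.Agent.Work.MP_787500_nt.KJ

open Matrix
open Pool.Agent.Work.MP_787500_nt.GP (A0 hf IsAct cup11 tw)
open Pool.Agent.Work.MP_787500_nt.KR (FSys Sm1 IsChar Smooth Z1 Z2 LocH LDual cup11_Z2)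
open Pool.Agent.Work.MP_787500_nt.KT hiding Str Rel Sel KH Ai IsP cc ff TT
open Pool.Agent.Work.MP_787500_nt.KS (ep hfT hfT_neg)
open Pool.Agent.Work.MP_787500_nt.QS (Two ac2 be2 la2 Lag HQ selQ QM pB Zq pB_apply be2_apply prY
  mem_prY)
open Pool.Agent.Work.MP_787500_nt.QP (cob_coc c_e ep_e exists_locLag)
open Pool.Agent.Work.MP_787500_nt.KI

universe v

variable {F : Type v} [Field F] [Finite F] [CharP F 2] [Algebra (ZMod 2) F] {n : ℕ} [Sy F n]
  {G Γ : Type*} [Group G] [Group Γ] {e : G →* Γ} {c : Γ} {κ : G →* G}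
  {A : Γ →* Matrix (Fin n) (Fin n) F} {P : Type*} [Group P] {T : FSys P} {jj : P →* G}
  {χ : P → ℤ_[2]} {iv : (P → P → A0) → A0}

/-- THE REFERENCE CONDITION. -/
theorem ref_split (X : Two e c κ) (L : LocH T χ iv) (hsp : ∀ g, IsSp (A g))
    (hsm : Smooth T (KT.act (A.comp (e.comp jj))))
    (ld : LDual T iv (KT.act (A.comp (e.comp jj))) (KT.act (A.comp (e.comp jj)))
      (BU : (Fin n → F) →+ (Fin n → F) →+ A0)) {N : ℕ}
    (hN : Module.finrank F (cocS T (A.comp (e.comp jj) : P → Matrix (Fin n) (Fin n) F)) +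
      Module.finrank F (cobS (A.comp (e.comp jj) : P → Matrix (Fin n) (Fin n) F)) = 2 * N) :
    ∃ X₀ : Submodule F (P → Fin n → F),
      (∀ x ∈ X₀, Z1 T (KT.act (A.comp (e.comp jj))) x) ∧ Module.finrank F X₀ = N ∧
      Lag T iv (fun d => ac2 e c κ (KT.act (A.comp e)) ((e.comp jj) d)) (be2 (bC A c))
        (fun (a : F) d => la2 e c κ (KT.act (A.comp e)) (bC A c) a ((e.comp jj) d))
        (prY X₀ (X₀.comap (mc X A P : (P → Fin n → F) →ₗ[F] (P → Fin n → F)))) ∧
      LVal iv (A.comp (e.comp jj)) (fun d => ep e ((e.comp jj) d))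
        (LY A c (prY X₀ (X₀.comap (mc X A P : (P → Fin n → F) →ₗ[F] (P → Fin n → F))))) 0 ∧
      R1 (LY A c (prY X₀ (X₀.comap (mc X A P : (P → Fin n → F) →ₗ[F] (P → Fin n → F))))) = X₀ ∧
      Y2 (LY A c (prY X₀ (X₀.comap (mc X A P : (P → Fin n → F) →ₗ[F] (P → Fin n → F))))) = X₀ := by
  have hB : ∀ g, IsSp ((A.comp (e.comp jj)) g) := fun g => hsp _
  obtain ⟨X₀, hX1, hX2, hX3⟩ := exists_locLag L hB hsm ld ⟨N, by omega⟩
  have hXZ : ∀ x ∈ X₀, Z1 T (KT.act (A.comp (e.comp jj))) x := fun x hx => ((hX1 x).1 hx).1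
  have hfinZ : Finite (cocS T (A.comp (e.comp jj) : P → Matrix (Fin n) (Fin n) F)) := ld.fin
  have hfdZ : FiniteDimensional F (cocS T (A.comp (e.comp jj) : P → Matrix (Fin n) (Fin n) F)) :=
    Module.Finite.of_finite
  have hz0 : Z1 T (KT.act (A.comp (e.comp jj))) (0 : P → Fin n → F) :=
    (cocS T (A.comp (e.comp jj) : P → Matrix (Fin n) (Fin n) F)).zero_mem
  have hfd : ∀ N : Submodule F (P → Fin n → F),
      N ≤ cocS T (A.comp (e.comp jj) : P → Matrix (Fin n) (Fin n) F) → FiniteDimensional F N :=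
    fun N hN => Submodule.finiteDimensional_of_le hN
  have hiv0 : ∀ y : P → Fin n → F,
      iv (cup11 (KT.act (A.comp (e.comp jj))) BU (0 : P → Fin n → F) y) = 0 := by
    intro y
    have e1 : cup11 (KT.act (A.comp (e.comp jj))) BU (0 : P → Fin n → F) y = fun _ _ => 0 := by
      funext s t
      show BU 0 _ = 0
      rw [map_zero, AddMonoidHom.zero_apply]
    rw [e1, KS.inv_zero L]
  have hiv0' : ∀ y : P → Fin n → F,
      iv (cup11 (KT.act (A.comp (e.comp jj))) BU y (0 : P → Fin n → F)) = 0 := by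
    intro y
    have e1 : cup11 (KT.act (A.comp (e.comp jj))) BU y (0 : P → Fin n → F) = fun _ _ => 0 := by
      funext s t
      show BU _ (_ *ᵥ 0) = 0
      rw [mulVec_zero, map_zero]
    rw [e1, KS.inv_zero L]
  -- the reference condition
  set X' := X₀.comap (mc X A P : (P → Fin n → F) →ₗ[F] (P → Fin n → F)) with hX'
  have hmX' : ∀ z, z ∈ X' ↔ mc X A P z ∈ X₀ := fun z => Iff.rfl
  have hlag0 : Lag T iv (fun d => ac2 e c κ (KT.act (A.comp e)) ((e.comp jj) d)) (be2 (bC A c))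
      (fun (a : F) d => la2 e c κ (KT.act (A.comp e)) (bC A c) a ((e.comp jj) d)) (prY X₀ X') := by
    refine ⟨fun x hx => (z1_split X).2 ⟨hXZ _ hx.1, hXZ _ hx.2⟩, fun x hx => ?_, fun a x hx => ?_⟩
    · obtain ⟨hx1, hx2⟩ := (z1_split X).1 hx
      constructor
      · intro h y hy
        rw [pair_split X L hsp hsm hx1 hx2 (hXZ _ hy.1) (hXZ _ hy.2),
          ((hX1 _).1 h.1).2 _ ((hmX' _).1 hy.2), ((hX1 _).1 ((hmX' _).1 h.2)).2 _ hy.1, add_zero]
      · intro h
        refine ⟨(hX1 _).2 ⟨hx1, fun y hy => ?_⟩, (hX1 _).2 ⟨hx2, fun y hy => ?_⟩⟩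
        · have h1 := h (fun d => (0, mc X A P y d)) ⟨X₀.zero_mem, by
            show mc X A P (mc X A P y) ∈ X₀
            rw [mc_mc X]
            exact hy⟩
          rw [pair_split X L hsp hsm hx1 hx2 hz0 (by
            show Z1 T _ (mc X A P (mc X A P y))
            rw [mc_mc X]
            exact hXZ _ hy)] at h1
          have h2 := hiv0' (mc X A P fun d => (x d).2)
          have e2 : (mc X A P fun d => ((fun d => ((0 : Fin n → F), mc X A P y d)) d).2) = y :=
            mc_mc X y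
          rw [e2] at h1
          exact (add_eq_left.2 h2).symm.trans h1
        · have h1 := h (fun d => (y d, 0)) ⟨hy, by
            show mc X A P 0 ∈ X₀
            rw [map_zero]
            exact X₀.zero_mem⟩
          rw [pair_split X L hsp hsm hx1 hx2 (hXZ _ hy) (by
            show Z1 T _ (mc X A P 0)
            rw [map_zero]
            exact hz0)] at h1
          have h2 := hiv0' (fun d => (x d).1)
          have e2 : (mc X A P fun d => ((fun d => (y d, (0 : Fin n → F))) d).2) = 0 :=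
            map_zero (mc X A P)
          rw [e2] at h1
          exact (add_eq_right.2 h2).symm.trans h1
    · rw [zq_split X]
      exact ((hX1 _).1 (X₀.smul_mem a hx.1)).2 _ hx.2
  -- the condition of pairs
  have hLY : ∀ p, p ∈ LY A c (prY X₀ X') ↔ p.1 ∈ X₀ ∧ p.2 ∈ X₀ := by
    intro p
    rw [mem_LY, mem_prY]
    have e1 : (mc X A P fun d => A c *ᵥ (p.1 d + p.2 d)) = p.1 + p.2 := by
      funext d
      show A c *ᵥ (A c *ᵥ (p.1 d + p.2 d)) = p.1 d + p.2 d
      rw [A_inv X]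
    have e2 : ((fun d => A c *ᵥ (p.1 d + p.2 d)) ∈ X') ↔ p.1 + p.2 ∈ X₀ := by
      rw [hmX', e1]
    refine ⟨fun h => ⟨h.1, ?_⟩, fun h => ⟨h.1, e2.2 (X₀.add_mem h.1 h.2)⟩⟩
    have h3 := X₀.sub_mem (e2.1 h.2) h.1
    rwa [add_sub_cancel_left] at h3
  have hR1 : R1 (LY A c (prY X₀ X')) = X₀ := by
    ext r
    rw [mem_R1, hLY]
    exact ⟨fun h => h.1, fun h => ⟨h, X₀.zero_mem⟩⟩
  have hY2 : Y2 (LY A c (prY X₀ X')) = X₀ := by
    ext y
    rw [mem_Y2]
    constructor
    · rintro ⟨a, h⟩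
      exact ((hLY _).1 h).2
    · intro h
      exact ⟨0, (hLY _).2 ⟨X₀.zero_mem, h⟩⟩
  refine ⟨X₀, hXZ, by omega, hlag0, ?_, hR1, hY2⟩
  · intro a ha α
    obtain ⟨h1, h2⟩ := (hLY _).1 ha
    rw [Nat.cast_zero, mul_zero, GP.hf_zero]
    have e1 : (fun s t => hfT (α * ee (a s) ((A.comp (e.comp jj)) s *ᵥ kc (A.comp (e.comp jj)) t) +
        ep e ((e.comp jj) s) • (α * mm ((A.comp (e.comp jj)) t)))) =
        cup11 (KT.act (A.comp (e.comp jj))) BU (α • a) (kc (A.comp (e.comp jj))) := by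
      funext s t
      have h3 : ep e ((e.comp jj) s) = 0 := ep_e (jj s)
      rw [h3, zero_smul, add_zero]
      show _ = hfT (ee (α • a s) ((A.comp (e.comp jj)) s *ᵥ kc (A.comp (e.comp jj)) t))
      rw [ee_smul_left]
    rw [e1]
    exact ((hX1 _).1 (X₀.smul_mem α h1)).2 _ h2

end Pool.Agent.Work.MP_787500_nt.KJ
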