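import Mathlib
import Pool.Agent.Work.MP_787500_nt.KJ.Inf
import Pool.Agent.Work.MP_787500_nt.KJ.SplitU

/-!
# Block KJ: the places that split

* `zP`: the annihilator of all cocycles. `lag_all`: the condition `zM × zP` is Lagrangian.
* `dst_all`: the distance of `prY Λ Λ'` from it.
* `locS_split`: THE CONTRIBUTION OF A PLACE THAT SPLITS.
-/

set_option autoImplicit false
set_option linter.unusedSectionVars false

namespace Pool.Agent.Work.MP_787500_nt.KJ

open Matrix
open Pool.Agent.Work.MP_787500_nt.GP (A0 IsAct d0 tw cup11 EvPow IsPow card_pow isPow_mul evPow_mul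
  evPow_sq)
open Pool.Agent.Work.MP_787500_nt.KR (FSys Z1 Z2 Smooth LocH LDual SDualF Pair zM)
open Pool.Agent.Work.MP_787500_nt.KS (ep)
open Pool.Agent.Work.MP_787500_nt.KT (Sy BU cocS cobS)
open Pool.Agent.Work.MP_787500_nt.QS (Two ac2 be2 la2 Lag pB QM prY mem_prY be2_apply pB_apply)
open Pool.Agent.Work.MP_787500_nt.KI (LVal R1 Y2 LY SIso tra Crd f2 siso_f2 z1_tra card_tra PlQ LocM
  mc fnA)
open Pool.Agent.Work.MP_787500_nt.OL (dst dst_trans lag_fin ev_iff lag_card)
open Pool.Agent.Work.MP_787500_nt.RC (SplS)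

universe v

section prY

variable {P : Type*} {O : Type*} [CommRing O] {M : Type*} [AddCommGroup M] [Module O M]

theorem card_prY (A B : Submodule O (P → M)) : Nat.card (prY A B) = Nat.card A * Nat.card B := by
  rw [← Nat.card_prod]
  exact Nat.card_congr ⟨fun x => (⟨_, x.2.1⟩, ⟨_, x.2.2⟩), fun y => ⟨fun d => (y.1.1 d, y.2.1 d),
    y.1.2, y.2.2⟩, fun _ => rfl, fun _ => rfl⟩

theorem prY_inf (A B A' B' : Submodule O (P → M)) : prY A B ⊓ prY A' B' = prY (A ⊓ A') (B ⊓ B') := by
  ext x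
  exact ⟨fun h => ⟨⟨h.1.1, h.2.1⟩, ⟨h.1.2, h.2.2⟩⟩, fun h => ⟨⟨h.1.1, h.2.1⟩, ⟨h.1.2, h.2.2⟩⟩⟩

end prY

section all

variable {P : Type*} [Group P] {T : FSys P} {iv : (P → P → A0) → A0} {χ : P → ℤ_[2]}
  {O : Type*} [CommRing O] {M : Type*} [AddCommGroup M] [Module O M] {σ σ' : P → M → M}
  {b : M →+ M →+ A0}

theorem z1_pr {x : P → M × M} :
    Z1 T (fun d v => (σ d v.1, σ' d v.2) : P → M × M → M × M) x ↔
      Z1 T σ (fun d => (x d).1) ∧ Z1 T σ' (fun d => (x d).2) := by
  constructor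
  · rintro ⟨⟨W, hW, h1⟩, h2⟩
    exact ⟨⟨⟨W, hW, fun g w hw => by simp only [h1 g w hw]⟩,
      fun a b => by simp only [h2 a b, Prod.fst_add]⟩,
      ⟨⟨W, hW, fun g w hw => by simp only [h1 g w hw]⟩,
      fun a b => by simp only [h2 a b, Prod.snd_add]⟩⟩
  · rintro ⟨⟨⟨W, hW, h1⟩, h2⟩, ⟨⟨W', hW', h1'⟩, h2'⟩⟩
    exact ⟨⟨W ⊓ W', T.inf hW hW', fun g w hw => Prod.ext (h1 g w hw.1) (h1' g w hw.2)⟩,
      fun a b => Prod.ext (h2 a b) (h2' a b)⟩

/-- the annihilator of all cocycles -/
def zP (L : LocH T χ iv) (hp : Pair T χ σ σ' b) (lin : ∀ g (a : O) m, σ g (a • m) = a • σ g m)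
    (lin' : ∀ g (a : O) m, σ' g (a • m) = a • σ' g m)
    (bal : ∀ (a : O) m m', b (a • m) m' = b m (a • m')) : Submodule O (P → M) where
  carrier := {y | Z1 T σ' y ∧ ∀ x ∈ zM (O := O) T hp.act lin, iv (cup11 σ' b x y) = 0}
  add_mem' := by
    rintro y y' ⟨h1, h2⟩ ⟨h1', h2'⟩
    refine ⟨(zM (O := O) T hp.act' lin').add_mem h1 h1', fun x hx => ?_⟩
    have e1 : cup11 σ' b x (y + y') = fun s t => cup11 σ' b x y s t + cup11 σ' b x y' s t := by
      funext s t
      show b (x s) (σ' s (y t + y' t)) = _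
      rw [hp.act'.add, map_add]
      rfl
    rw [e1, L.add _ _ (KR.cup11_Z2 hp hx h1) (KR.cup11_Z2 hp hx h1'), h2 x hx, h2' x hx, add_zero]
  zero_mem' := by
    refine ⟨z1_zero hp.act', fun x _ => ?_⟩
    have e1 : cup11 σ' b x (0 : P → M) = fun _ _ => 0 := by
      funext s t
      show b (x s) (σ' s 0) = 0
      rw [hp.act'.zero, map_zero]
    rw [e1, KS.inv_zero L]
  smul_mem' := by
    rintro a y ⟨h1, h2⟩
    refine ⟨(zM T hp.act' lin').smul_mem a h1, fun x hx => ?_⟩
    have e1 : cup11 σ' b x (a • y) = cup11 σ' b (a • x) y := by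
      funext s t
      show b (x s) (σ' s (a • y t)) = b (a • x s) (σ' s (y t))
      rw [lin', bal]
    rw [e1]
    exact h2 _ ((zM T hp.act lin).smul_mem a hx)

end all

section sp

variable {G Γ : Type*} [Group G] [Group Γ] {S : FSys G} {Sq : FSys Γ} {χ : G → ℤ_[2]}
  {χq : Γ → ℤ_[2]} {e : G →* Γ} {c : Γ} {κ : G →* G} {P : Type*} [Group P] {T : FSys P}
  {jj : P →* G} {iv : (P → P → A0) → A0} {O : Type v} [CommRing O] {M : Type v} [AddCommGroup M]
  [Module O M] [Finite M] {act : G → M → M} {b : M →+ M →+ A0} {Θ : Set (G × G)}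

/-- the pair at a place that splits -/
theorem pairSp (p : PlQ.{v} S Sq χ χq e c κ T (e.comp jj) iv) (hs : SDualF S χ κ Θ O act b) :
    Pair T (fun d => χq ((e.comp jj) d)) (fun d => act (jj d)) (fun d => act (κ (jj d))) b where
  act := hs.act.comp jj
  act' := (hs.act.comp κ).comp jj
  sm := by
    obtain ⟨W, hW, h1⟩ := (p.qm hs).sm
    refine ⟨W, hW, fun w hw m => ?_⟩
    have h2 : ac2 e c κ act ((e.comp jj) w) (m, (0 : M)) = (m, 0) := h1 w hw (m, 0)
    have h3 : ac2 e c κ act ((e.comp jj) w) (m, (0 : M)) = (act (jj w) m, act (κ (jj w)) 0) :=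
      p.two.ac_e (jj w) (m, 0)
    rw [h3] at h2
    exact congrArg Prod.fst h2
  sm' := by
    obtain ⟨W, hW, h1⟩ := (p.qm hs).sm
    refine ⟨W, hW, fun w hw m => ?_⟩
    have h2 : ac2 e c κ act ((e.comp jj) w) ((0 : M), m) = (0, m) := h1 w hw (0, m)
    have h3 : ac2 e c κ act ((e.comp jj) w) ((0 : M), m) = (act (jj w) 0, act (κ (jj w)) m) :=
      p.two.ac_e (jj w) (0, m)
    rw [h3] at h2
    exact congrArg Prod.snd h2
  eqv g m m' := by
    have h1 := hs.eqv (jj g) m m'
    rw [← p.chi] at h1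
    exact h1
  nd := hs.nd
  nd' m' hm' := hs.nd m' fun m => by
    rw [hs.symm]
    exact hm' m

/-- the condition of all cocycles at one of the two places -/
def allY (p : PlQ.{v} S Sq χ χq e c κ T (e.comp jj) iv) (hs : SDualF S χ κ Θ O act b) :
    Submodule O (P → M × M) :=
  prY (zM (O := O) T (pairSp p hs).act fun g => hs.lin (jj g))
    (zP p.loc.toLocH (pairSp p hs) (fun g => hs.lin (jj g)) (fun g => hs.lin (κ (jj g))) hs.bal)

/-- IT IS LAGRANGIAN. -/
theorem lag_all (p : PlQ.{v} S Sq χ χq e c κ T (e.comp jj) iv) (hs : SDualF S χ κ Θ O act b) :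
    Lag T iv (fun d => ac2 e c κ act ((e.comp jj) d)) (be2 b)
      (fun (a : O) d => la2 e c κ act b a ((e.comp jj) d)) (allY p hs) := by
  have e1 : (fun d => ac2 e c κ act ((e.comp jj) d)) = fun (d : P) (v : M × M) =>
      (act (jj d) v.1, act (κ (jj d)) v.2) := by
    funext d v
    exact p.two.ac_e (jj d) v
  have e2 : (fun (a : O) (d : P) => la2 e c κ act b a ((e.comp jj) d)) = fun _ _ _ => 0 := by
    funext a d v
    exact p.two.la_e b a (jj d) v
  rw [e1, e2]
  exact QV.lag_sp0 p.loc.toLocH (pairSp p hs) (p.loc.ld (pairSp p hs))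
    (fun m => KR.d0_Z1 (pairSp p hs).act (pairSp p hs).sm m) (fun x hx => hx) fun y => Iff.rfl

/-- the parts of a Lagrangian condition -/
theorem parts (p : PlQ.{v} S Sq χ χq e c κ T (e.comp jj) iv) (hs : SDualF S χ κ Θ O act b)
    {Λ Λ' : Submodule O (P → M)}
    (hY : Lag T iv (fun d => ac2 e c κ act ((e.comp jj) d)) (be2 b)
      (fun (a : O) d => la2 e c κ act b a ((e.comp jj) d)) (prY Λ Λ')) :
    Λ ≤ (zM (O := O) T (pairSp p hs).act fun g => hs.lin (jj g)) ∧
    zP p.loc.toLocH (pairSp p hs) (fun g => hs.lin (jj g)) (fun g => hs.lin (κ (jj g))) hs.bal ≤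
      Λ' := by
  have e1 : (fun d => ac2 e c κ act ((e.comp jj) d)) = fun (d : P) (v : M × M) =>
      (act (jj d) v.1, act (κ (jj d)) v.2) := by
    funext d v
    exact p.two.ac_e (jj d) v
  have k0 : ∀ x ∈ Λ, Z1 T (fun d => act (jj d)) x := by
    intro x hx
    have h1 := hY.coc (fun d => (x d, 0)) ⟨hx, Λ'.zero_mem⟩
    rw [e1] at h1
    exact (z1_pr.1 h1).1
  refine ⟨k0, fun y hy => ?_⟩
  obtain ⟨y1, y2⟩ := hy
  have hz : Z1 T (fun d => ac2 e c κ act ((e.comp jj) d)) (fun d => ((0 : M), y d)) := by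
    rw [e1]
    exact z1_pr.2 ⟨z1_zero (pairSp p hs).act, y1⟩
  have h1 := (hY.self _ hz).2 fun x hx => ?_
  · exact h1.2
  · have h2 : Z1 T (fun d => ac2 e c κ act ((e.comp jj) d)) x := hY.coc x hx
    have h3 : Z1 T (fun d => act (jj d)) (fun d => (x d).1) := k0 _ hx.1
    rw [QS.iv_symm p.loc.toLocH (p.qm hs) hz h2]
    have e3 : cup11 (fun d => ac2 e c κ act ((e.comp jj) d)) (pB (be2 b)) x
        (fun d => ((0 : M), y d)) = cup11 (fun d => act (κ (jj d))) b (fun d => (x d).1) y := by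
      funext s t
      have h4 : ac2 e c κ act ((e.comp jj) s) ((0 : M), y t) =
          (act (jj s) 0, act (κ (jj s)) (y t)) := p.two.ac_e (jj s) (0, y t)
      show pB (be2 b) (x s) (ac2 e c κ act ((e.comp jj) s) ((0 : M), y t)) = _
      rw [h4, pB_apply, be2_apply, be2_apply, hs.act.zero, map_zero, AddMonoidHom.zero_apply,
        sub_zero]
      rfl
    rw [e3]
    exact y2 _ h3

/-- THE DISTANCE from the condition of all cocycles -/
theorem dst_all [IsLocalRing O] [Finite (IsLocalRing.ResidueField O)]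
    (p : PlQ.{v} S Sq χ χq e c κ T (e.comp jj) iv) (hs : SDualF S χ κ Θ O act b)
    {Λ Λ' : Submodule O (P → M)}
    (hY : Lag T iv (fun d => ac2 e c κ act ((e.comp jj) d)) (be2 b)
      (fun (a : O) d => la2 e c κ act b a ((e.comp jj) d)) (prY Λ Λ')) :
    dst (prY Λ Λ') (allY p hs) =
      Nat.card (zM (O := O) T (pairSp p hs).act fun g => hs.lin (jj g)) * Nat.card Λ *
      Nat.card (zP p.loc.toLocH (pairSp p hs) (fun g => hs.lin (jj g))
        (fun g => hs.lin (κ (jj g))) hs.bal) ^ 2 := by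
  obtain ⟨h1, h2⟩ := parts p hs hY
  have h3 := lag_card p.loc.toLocH (p.qm hs) (p.ldM hs) hY (lag_all p hs)
  rw [dst, h3, allY, prY_inf, card_prY, card_prY, inf_eq_left.2 h1, inf_eq_right.2 h2]
  ring

end sp

section prodM

variable {O : Type*} [CommRing O] {M U N : Type*} [AddCommGroup M] [Module O M] [AddCommGroup U]
  [Module O U] [AddCommGroup N] [Module O N] (Φ : M ≃ₗ[O] U × N × N) {P : Type*}

/-- the functions with components in `A`, `B`, `B` -/
def prodM (A : Submodule O (P → U)) (B : Submodule O (P → N)) : Submodule O (P → M) where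
  carrier := {v | (fun d => (Φ (v d)).1) ∈ A ∧ (fun d => (Φ (v d)).2.1) ∈ B ∧
    (fun d => (Φ (v d)).2.2) ∈ B}
  add_mem' := by
    intro x y hx hy
    have h1 := A.add_mem hx.1 hy.1
    have h2 := B.add_mem hx.2.1 hy.2.1
    have h3 := B.add_mem hx.2.2 hy.2.2
    refine ⟨?_, ?_, ?_⟩
    · have e1 : (fun d => (Φ ((x + y) d)).1) = (fun d => (Φ (x d)).1) + fun d => (Φ (y d)).1 := by
        funext d
        simp
      rw [e1]
      exact h1
    · have e1 : (fun d => (Φ ((x + y) d)).2.1) = (fun d => (Φ (x d)).2.1) +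
          fun d => (Φ (y d)).2.1 := by
        funext d
        simp
      rw [e1]
      exact h2
    · have e1 : (fun d => (Φ ((x + y) d)).2.2) = (fun d => (Φ (x d)).2.2) +
          fun d => (Φ (y d)).2.2 := by
        funext d
        simp
      rw [e1]
      exact h3
  zero_mem' := by
    refine ⟨?_, ?_, ?_⟩
    · have e1 : (fun d : P => (Φ ((0 : P → M) d)).1) = 0 := by
        funext d
        simp
      rw [e1]
      exact A.zero_mem
    · have e1 : (fun d : P => (Φ ((0 : P → M) d)).2.1) = 0 := by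
        funext d
        simp
      rw [e1]
      exact B.zero_mem
    · have e1 : (fun d : P => (Φ ((0 : P → M) d)).2.2) = 0 := by
        funext d
        simp
      rw [e1]
      exact B.zero_mem
  smul_mem' := by
    intro a x hx
    refine ⟨?_, ?_, ?_⟩
    · have e1 : (fun d => (Φ ((a • x) d)).1) = a • fun d => (Φ (x d)).1 := by
        funext d
        simp
      rw [e1]
      exact A.smul_mem a hx.1
    · have e1 : (fun d => (Φ ((a • x) d)).2.1) = a • fun d => (Φ (x d)).2.1 := by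
        funext d
        simp
      rw [e1]
      exact B.smul_mem a hx.2.1
    · have e1 : (fun d => (Φ ((a • x) d)).2.2) = a • fun d => (Φ (x d)).2.2 := by
        funext d
        simp
      rw [e1]
      exact B.smul_mem a hx.2.2

theorem prod3_prY (A A' : Submodule O (P → U)) (B B' : Submodule O (P → N)) :
    prod3 Φ (prY A A') (prY B B') = prY (prodM Φ A B) (prodM Φ A' B') := by
  ext x
  constructor
  · rintro ⟨⟨h1, h1'⟩, ⟨h2, h2'⟩, ⟨h3, h3'⟩⟩
    exact ⟨⟨h1, h2, h3⟩, ⟨h1', h2', h3'⟩⟩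
  · rintro ⟨⟨h1, h2, h3⟩, ⟨h1', h2', h3'⟩⟩
    exact ⟨⟨h1, h1'⟩, ⟨h2, h2'⟩, ⟨h3, h3'⟩⟩

theorem card_prodM (A : Submodule O (P → U)) (B : Submodule O (P → N)) :
    Nat.card (prodM Φ A B) = Nat.card A * Nat.card B ^ 2 := by
  have e : prodM Φ A B ≃ A × B × B :=
    { toFun := fun x => (⟨_, x.2.1⟩, ⟨_, x.2.2.1⟩, ⟨_, x.2.2.2⟩)
      invFun := fun y => ⟨fun d => Φ.symm (y.1.1 d, y.2.1.1 d, y.2.2.1 d), by
        refine ⟨?_, ?_, ?_⟩
        · simp only [LinearEquiv.apply_symm_apply]
          exact y.1.2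
        · simp only [LinearEquiv.apply_symm_apply]
          exact y.2.1.2
        · simp only [LinearEquiv.apply_symm_apply]
          exact y.2.2.2⟩
      left_inv := fun x => by
        apply Subtype.ext
        funext d
        simp
      right_inv := fun y => by
        refine Prod.ext (Subtype.ext ?_) (Prod.ext (Subtype.ext ?_) (Subtype.ext ?_))
        · funext d
          simp
        · funext d
          simp
        · funext d
          simp }
  rw [Nat.card_congr e, Nat.card_prod, Nat.card_prod]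
  ring

end prodM

section split

variable {G Γ : Type*} [Group G] [Group Γ] {S : FSys G} {Sq : FSys Γ} {χ : G → ℤ_[2]}
  {χq : Γ → ℤ_[2]} {e : G →* Γ} {c : Γ} {κ : G →* G} {P : Type*} [Group P] {T : FSys P}
  {jj : P →* G} {iv : (P → P → A0) → A0} {O : Type v} [CommRing O] [IsLocalRing O]
  [Finite (IsLocalRing.ResidueField O)] [CharP (IsLocalRing.ResidueField O) 2]
  [Algebra (ZMod 2) (IsLocalRing.ResidueField O)] {M U N : Type v} [AddCommGroup M] [Module O M]
  [Finite M] [AddCommGroup U] [Module O U] [Finite U] [AddCommGroup N] [Module O N] [Finite N]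
  {act : G → M → M} {b : M →+ M →+ A0} {aU : G → U → U} {bU : U →+ U →+ A0} {aN : G → N → N}
  {h : N →+ N →+ A0} {Φ : M ≃ₗ[O] U × N × N} {Θ : Set (G × G)} {C : U → U}

/-- THE CONTRIBUTION OF A PLACE THAT SPLITS. -/
theorem locS_split (p : PlQ.{v} S Sq χ χq e c κ T (e.comp jj) iv)
    (hs : SDualF S χ κ Θ O act b) (s : SplS O act b aU bU aN h Φ) {Λ Λ' : Submodule O (P → M)}
    (hY : Lag T iv (fun d => ac2 e c κ act ((e.comp jj) d)) (be2 b)
      (fun (a : O) d => la2 e c κ act b a ((e.comp jj) d)) (prY Λ Λ')) {k a r : ℕ}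
    (hnum : Nat.card {x : P → U // Z1 T (fun d => aU (jj d)) x} =
      Nat.card U ^ k * Nat.card {m : U // ∀ d, aU (jj d) m = m})
    (hr : Nat.card U = Nat.card (IsLocalRing.ResidueField O) ^ (2 * r))
    (hΛ : Nat.card Λ = Nat.card (IsLocalRing.ResidueField O) ^ a) {δ : ℕ}
    (hδ : Even (a + (k + 1) * r + δ)) :
    LocS T (e.comp jj) iv e c κ (IsLocalRing.ResidueField O) aU bU aN h Φ C (prY Λ Λ') δ := by
  intro n iS L A hc
  have X := p.two
  have hU := sdualU s hs
  have hN := sdualN s hs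
  have q2 : 2 ≤ Nat.card (IsLocalRing.ResidueField O) := Finite.one_lt_card
  have hsm := p.smA hc hU.sm
  have hld := p.ldA hc hU.sm
  -- the numbers for `U`
  have hBm : ∀ d m, (A.comp (e.comp jj)) d *ᵥ L m = L (aU (jj d) m) := fun d m => hc.ae _ m
  have hfin : Finite (cocS T (A.comp (e.comp jj) :
      P → Matrix (Fin n) (Fin n) (IsLocalRing.ResidueField O))) := hld.fin
  have hfd : FiniteDimensional (IsLocalRing.ResidueField O) (cocS T (A.comp (e.comp jj) :
      P → Matrix (Fin n) (Fin n) (IsLocalRing.ResidueField O))) := Module.Finite.of_finite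
  have hc1 : Nat.card {x : P → U // Z1 T (fun d => aU (jj d)) x} =
      Nat.card (cocS T (A.comp (e.comp jj) :
        P → Matrix (Fin n) (Fin n) (IsLocalRing.ResidueField O))) :=
    Nat.card_congr ((fnA L P).subtypeEquiv fun x =>
      (z1_tra (f := L) (fun d m => (hBm d m).symm)).symm)
  have hc2 : Nat.card {m : U // ∀ d, aU (jj d) m = m} =
      Nat.card (QP.fixG (A.comp (e.comp jj))) := by
    refine Nat.card_congr (L.toEquiv.subtypeEquiv fun m => ?_)
    show _ ↔ ∀ d, (A.comp (e.comp jj)) d *ᵥ L m = L m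
    refine forall_congr' fun d => ?_
    rw [hBm]
    exact ⟨fun h1 => by rw [h1], fun h1 => L.injective h1⟩
  rw [hc1, hc2, hr, Module.natCard_eq_pow_finrank (K := IsLocalRing.ResidueField O),
    Module.natCard_eq_pow_finrank (K := IsLocalRing.ResidueField O)
      (V := QP.fixG (A.comp (e.comp jj))), ← pow_mul, ← pow_add] at hnum
  have h2 := Nat.pow_right_injective q2 hnum
  have hn : n = 2 * r := by
    rw [Nat.card_congr L.toEquiv, Module.natCard_eq_pow_finrank (K := IsLocalRing.ResidueField O),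
      Module.finrank_fin_fun] at hr
    exact Nat.pow_right_injective q2 hr
  have h3 := QP.finrank_cobS (A.comp (e.comp jj))
  have h4 : Module.finrank (IsLocalRing.ResidueField O) (cocS T (A.comp (e.comp jj) :
        P → Matrix (Fin n) (Fin n) (IsLocalRing.ResidueField O))) +
      Module.finrank (IsLocalRing.ResidueField O) (cobS (A.comp (e.comp jj) :
        P → Matrix (Fin n) (Fin n) (IsLocalRing.ResidueField O))) = 2 * ((k + 1) * r) := by
    have h5 : 2 * ((k + 1) * r) = 2 * r * k + 2 * r := by ring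
    have h6 : Module.finrank (IsLocalRing.ResidueField O) (cocS T (A.comp (e.comp jj) :
        P → Matrix (Fin n) (Fin n) (IsLocalRing.ResidueField O))) =
      2 * r * k + Module.finrank (IsLocalRing.ResidueField O)
        (QP.fixG (A.comp (e.comp jj))) := h2
    omega
  obtain ⟨X₀, hX1, hX2, hX3, hX4, hX5, hX6⟩ := ref_split X p.loc.toLocH hc.sp hsm hld h4
  set X' := X₀.comap (mc X A P : (P → Fin n → IsLocalRing.ResidueField O)
    →ₗ[IsLocalRing.ResidueField O] (P → Fin n → IsLocalRing.ResidueField O)) with hX'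
  have hf := siso_f2 hc.iso
  have eYU : art hf (prY X₀ X') = prY (art hc.iso X₀) (art hc.iso X') := by
    ext x
    exact ⟨fun hx => hx, fun hx => hx⟩
  have hYU : Lag T iv (fun d => ac2 e c κ aU ((e.comp jj) d)) (be2 bU)
      (fun (a : O) d => la2 e c κ aU bU a ((e.comp jj) d)) (art hf (prY X₀ X')) :=
    lag_art (l := fun (a : O) d => la2 e c κ aU bU a ((e.comp jj) d)) hf
      (fun d v => hc.act2 X ((e.comp jj) d) v) hc.be
      (fun a d v => hc.la X a ((e.comp jj) d) v) hX3
  have hYN := selfN_of (lag_all p hN)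
  have hY1 := lag_ref p hs s hYU hYN
  have eY1 : prod3 Φ (art hf (prY X₀ X')) (allY p hN) =
      prY (prodM Φ (art hc.iso X₀) (zM (O := O) T (pairSp p hN).act fun g => hN.lin (jj g)))
        (prodM Φ (art hc.iso X') (zP p.loc.toLocH (pairSp p hN) (fun g => hN.lin (jj g))
          (fun g => hN.lin (κ (jj g))) hN.bal)) := by
    rw [eYU, allY, prod3_prY]
  have hf0 : Finite (zM (O := O) T (p.qm hs).act (p.qm hs).lin) := (p.ldM hs).fin
  have key := dst_trans p.loc.toLocH (p.qm hs) hf0 hY hY1 (lag_all p hs)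
  have d1 := dst_all p hs hY
  have hY1' := hY1
  rw [eY1] at hY1'
  have d2 := dst_all p hs hY1'
  rw [← eY1] at d2
  -- the cardinalities
  have fY := lag_fin (p.qm hs) hf0 hY
  have fI : Finite ↥(prY Λ Λ' ⊓ prod3 Φ (art hf (prY X₀ X')) (allY p hN)) :=
    Finite.of_injective (fun x : ↥(prY Λ Λ' ⊓ prod3 Φ (art hf (prY X₀ X')) (allY p hN)) =>
      (⟨x.1, x.2.1⟩ : prY Λ Λ')) fun x y hxy => Subtype.ext (by simpa using hxy)
  obtain ⟨r', hr'⟩ := isPow_mul (card_pow (O := O) (prY Λ Λ'))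
    (card_pow (O := O) ↥(prY Λ Λ' ⊓ prod3 Φ (art hf (prY X₀ X')) (allY p hN)))
  have fz : Finite (zM (O := O) T (pairSp p hs).act fun g => hs.lin (jj g)) :=
    (p.loc.ld (pairSp p hs)).fin
  obtain ⟨z, hz⟩ := card_pow (O := O) (zM (O := O) T (pairSp p hs).act fun g => hs.lin (jj g))
  have fzN : Finite (zM (O := O) T (pairSp p hN).act fun g => hN.lin (jj g)) :=
    (p.loc.ld (pairSp p hN)).fin
  obtain ⟨zN, hzN⟩ := card_pow (O := O) (zM (O := O) T (pairSp p hN).act fun g => hN.lin (jj g))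
  have fw : Finite (zP p.loc.toLocH (pairSp p hs) (fun g => hs.lin (jj g))
      (fun g => hs.lin (κ (jj g))) hs.bal) := by
    have f1 := (p.loc.ld (pairSp p hs)).fin'
    exact Finite.of_injective (fun x : zP p.loc.toLocH (pairSp p hs) (fun g => hs.lin (jj g))
      (fun g => hs.lin (κ (jj g))) hs.bal => (⟨x.1, x.2.1⟩ :
        {x : P → M // Z1 T (fun d => act (κ (jj d))) x})) fun x y hxy =>
          Subtype.ext (by simpa using hxy)
  obtain ⟨w, hw⟩ := card_pow (O := O) (zP p.loc.toLocH (pairSp p hs) (fun g => hs.lin (jj g))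
      (fun g => hs.lin (κ (jj g))) hs.bal)
  have cX : Nat.card (art hc.iso X₀) =
      Nat.card (IsLocalRing.ResidueField O) ^ ((k + 1) * r) := by
    have fX : FiniteDimensional (IsLocalRing.ResidueField O) X₀ :=
      Submodule.finiteDimensional_of_le (S₂ := cocS T (A.comp (e.comp jj) :
        P → Matrix (Fin n) (Fin n) (IsLocalRing.ResidueField O))) fun x hx => hX1 x hx
    rw [← card_tra hc.iso (art hc.iso X₀), tra_art,
      Module.natCard_eq_pow_finrank (K := IsLocalRing.ResidueField O), hX2]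
  refine ⟨art hf (prY X₀ X'), allY p hN, 0, 0, r', hYU, ?_, ?_, hYN, hr', ?_⟩
  · rw [tra_art]
    exact hX4
  · rw [tra_art, hX5, hX6, mul_zero, add_zero]
  · have er : dst (prY Λ Λ') (prod3 Φ (art hf (prY X₀ X')) (allY p hN)) =
        Nat.card (IsLocalRing.ResidueField O) ^ r' := hr'
    rw [er, d1, d2, hz, hw, hΛ, card_prodM, cX, hzN] at key
    have e5 : Nat.card (IsLocalRing.ResidueField O) ^ r' *
        (Nat.card (IsLocalRing.ResidueField O) ^ z *
          (Nat.card (IsLocalRing.ResidueField O) ^ ((k + 1) * r) *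
            (Nat.card (IsLocalRing.ResidueField O) ^ zN) ^ 2) *
          (Nat.card (IsLocalRing.ResidueField O) ^ w) ^ 2) *
        (Nat.card (IsLocalRing.ResidueField O) ^ z * Nat.card (IsLocalRing.ResidueField O) ^ a *
          (Nat.card (IsLocalRing.ResidueField O) ^ w) ^ 2) =
        Nat.card (IsLocalRing.ResidueField O) ^
          (r' + (z + ((k + 1) * r + 2 * zN) + 2 * w) + (z + a + 2 * w)) := by
      ring
    rw [e5, ev_iff q2] at key
    obtain ⟨x, hx⟩ := key
    obtain ⟨y, hy⟩ := hδ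
    refine ⟨(x : ℤ) + y - z - zN - 2 * w - a - (k + 1) * r, ?_⟩
    have hx' : (r' : ℤ) + (z + (((k : ℤ) + 1) * r + 2 * zN) + 2 * w) + (z + a + 2 * w) = x + x := by
      exact_mod_cast hx
    have hy' : (a : ℤ) + ((k : ℤ) + 1) * r + δ = y + y := by exact_mod_cast hy
    push_cast
    linarith

end split

end Pool.Agent.Work.MP_787500_nt.KJ
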