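import Mathlib
import Pool.Agent.Work.MP_787500_nt.KJ.Lev
import Pool.Agent.Work.MP_787500_nt.KJ.Inf
import Pool.Agent.Work.MP_787500_nt.KJ.Split
import Pool.Agent.Work.MP_787500_nt.KI.LevR

/-!
# Block KJ: THE FAMILY at infinity and at the places that split

* `locS_cnt`: a place that splits, from the number of cocycles; `locS_prE`, `locS_urS`: for the conditions of `V × V`.
* `locFS_infty`: infinity; `locFS_odd`: an odd prime that splits; `locFS_dy`: the place 2, if it splits.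
* `hP_famSp`: THE HYPOTHESIS `hP` of `QW.parity_inst`, 2 splits, from the contributions of the places of `T`.
-/

set_option autoImplicit false
set_option linter.unusedSectionVars false

namespace Pool.Agent.Work.MP_787500_nt.KJ

open Matrix NumberField
open Pool.Agent.Work.MP_787500_nt.GP (A0 hf smul_hf IsAct d0 tw cup11 EvPow OE MN actN actQ bN bil Lat
  lamN mq Wq inT stabD)
open Pool.Agent.Work.MP_787500_nt.KR (FSys Z1 Z2 Sm1 Smooth IsChar LocH LDual LocD d0_Z1 SDualF Pair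
  LocRep sdualF_MN ZV zV fullK fullD big)
open Pool.Agent.Work.MP_787500_nt.PA (toE cyc)
open Pool.Agent.Work.MP_787500_nt.HP (IsQ Spl IsP inr stb cyQ)
open Pool.Agent.Work.MP_787500_nt.KS (iK ep)
open Pool.Agent.Work.MP_787500_nt.KT (Sy IsSp BU pair_BU)
open Pool.Agent.Work.MP_787500_nt.QS (Two ac2 be2 la2 Lag HQ selQ QM prY mem_prY)
open Pool.Agent.Work.MP_787500_nt.QP (InvC)
open Pool.Agent.Work.MP_787500_nt.QV (QRep T2 J2 blk rho2 beN laN isoN selNQ prE mem_prE)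
open Pool.Agent.Work.MP_787500_nt.QU (Inst urV mem_urV)
open Pool.Agent.Work.MP_787500_nt.QW (famL Ari sysQ)
open Pool.Agent.Work.MP_787500_nt.GA (SQ jQ iQ)
open Pool.Agent.Work.MP_787500_nt.KI (PlQ LVal R1 Y2 LY SIso tra Crd f2 siso_f2 fnA z1_tra YM mem_YM
  lag_YM exists_crd_res card_of_iso ks_inst plQ lag_fam Cnt YM_pr urV_pr cnt_tame cnt_two finrank_odd
  jS jS_e jS_cont comap_equiv)
open Pool.Agent.Work.MP_787500_nt.RC (SplS)

universe u v w

section cnt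

variable {G Γ : Type*} [Group G] [Group Γ] {S : FSys G} {Sq : FSys Γ} {χ : G → ℤ_[2]}
  {χq : Γ → ℤ_[2]} {e : G →* Γ} {c : Γ} {κ : G →* G} {P : Type*} [Group P] {T : FSys P}
  {jj : P →* G} {iv : (P → P → A0) → A0}
  {O : Type v} [CommRing O] [IsLocalRing O]
  [Finite (IsLocalRing.ResidueField O)] [CharP (IsLocalRing.ResidueField O) 2]
  [Algebra (ZMod 2) (IsLocalRing.ResidueField O)] {M U N : Type v} [AddCommGroup M] [Module O M]
  [Finite M] [AddCommGroup U] [Module O U] [Finite U] [AddCommGroup N] [Module O N] [Finite N]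
  {act : G → M → M} {b : M →+ M →+ A0} {aU : G → U → U} {bU : U →+ U →+ A0} {aN : G → N → N}
  {h : N →+ N →+ A0} {Φ : M ≃ₗ[O] U × N × N} {Θ : Set (G × G)} {C : U → U}

/-- THE CONTRIBUTION OF A PLACE THAT SPLITS, from the number of cocycles. -/
theorem locS_cnt (p : PlQ.{v} S Sq χ χq e c κ T (e.comp jj) iv)
    (hs : SDualF S χ κ Θ O act b) (s : SplS O act b aU bU aN h Φ) {Λ Λ' : Submodule O (P → M)}
    (hY : Lag T iv (fun d => ac2 e c κ act ((e.comp jj) d)) (be2 b)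
      (fun (a : O) d => la2 e c κ act b a ((e.comp jj) d)) (prY Λ Λ')) {k a r : ℕ}
    (hnum : Cnt.{v} T (fun d => χq ((e.comp jj) d)) k)
    (hr : Nat.card U = Nat.card (IsLocalRing.ResidueField O) ^ (2 * r))
    (hΛ : Nat.card Λ = Nat.card (IsLocalRing.ResidueField O) ^ a) {δ : ℕ}
    (hδ : Even (a + (k + 1) * r + δ)) :
    LocS T (e.comp jj) iv e c κ (IsLocalRing.ResidueField O) aU bU aN h Φ C (prY Λ Λ') δ := by
  intro n iS L A hc
  have hU := sdualU s hs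
  have hp : Pair T (fun d => χq ((e.comp jj) d)) (KT.act (A.comp (e.comp jj)))
      (KT.act (A.comp (e.comp jj)))
      (BU : (Fin n → IsLocalRing.ResidueField O) →+ (Fin n → IsLocalRing.ResidueField O) →+ A0) :=
    pair_BU p.loc.toLocH.char (fun _ => hc.sp _) (p.smA hc hU.sm)
  have h1 := hnum (Fin n → IsLocalRing.ResidueField O) inferInstance inferInstance _ _ hp fun v => by
    ext i
    exact CharTwo.add_self_eq_zero (v i)
  have hBm : ∀ d m, (A.comp (e.comp jj)) d *ᵥ L m = L (aU (jj d) m) := fun d m => hc.ae _ m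
  have hc1 : Nat.card {x : P → U // Z1 T (fun d => aU (jj d)) x} =
      Nat.card {x : P → Fin n → IsLocalRing.ResidueField O //
        Z1 T (KT.act (A.comp (e.comp jj))) x} :=
    Nat.card_congr ((fnA L P).subtypeEquiv fun x =>
      (z1_tra (f := L) (fun d m => (hBm d m).symm)).symm)
  have hc2 : Nat.card {m : U // ∀ d, aU (jj d) m = m} =
      Nat.card {m : Fin n → IsLocalRing.ResidueField O //
        ∀ d, KT.act (A.comp (e.comp jj)) d m = m} := by
    refine Nat.card_congr (L.toEquiv.subtypeEquiv fun m => ?_)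
    show _ ↔ ∀ d, (A.comp (e.comp jj)) d *ᵥ L m = L m
    refine forall_congr' fun d => ?_
    rw [hBm]
    exact ⟨fun h1 => by rw [h1], fun h1 => L.injective h1⟩
  have hc3 : Nat.card U = Nat.card (Fin n → IsLocalRing.ResidueField O) := Nat.card_congr L.toEquiv
  exact locS_split p hs s hY (by rw [hc1, hc2, hc3]; exact h1) hr hΛ hδ n iS L A hc

end cnt

section place

variable {E : Type v} [NormedField E] [NormedAlgebra ℚ_[2] E] [FiniteDimensional ℚ_[2] E]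
  [IsLocalRing (OE E)]
  [Finite (IsLocalRing.ResidueField (OE E))] [CharP (IsLocalRing.ResidueField (OE E)) 2]
  [Algebra (ZMod 2) (IsLocalRing.ResidueField (OE E))] {n : ℕ}
  {G Γ : Type*} [Group G] [Group Γ] {e : G →* Γ} {c : Γ} {κ : G →* G}
  {ρ : G → Matrix (Fin n) (Fin n) E} {S : FSys G} {Sq : FSys Γ} {χ : G → ℤ_[2]} {χq : Γ → ℤ_[2]}
  {l : OE E} {t : E →ₗ[ℚ_[2]] ℚ_[2]} {T : Submodule (OE E) (Fin n → E)}
  {b : Matrix (Fin n) (Fin n) E} {P : Type*} [Group P] {TP : FSys P} {jp : P →* Γ}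
  {iv : (P → P → A0) → A0}
  {U N : Type v} [AddCommGroup U] [Module (OE E) U] [Finite U] [AddCommGroup N] [Module (OE E) N]
  [Finite N] {aU : G → U → U} {bU : U →+ U →+ A0} {aN : G → N → N} {hN : N →+ N →+ A0}
  {Φ : MN T l 1 ≃ₗ[OE E] U × N × N} {C : U → U}

/-- THE CONTRIBUTION OF A PLACE THAT SPLITS, a product condition. -/
theorem locS_prE (p : PlQ.{v} S Sq χ χq e c κ TP jp iv) {j : P →* G} (hj : ∀ d, jp d = e (j d))
    (hl : Lat b l t T) (hr : LocRep S χ T b ρ (fun g => ρ (κ g)))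
    {Sm J : Matrix (Fin (n + n)) (Fin (n + n)) E}
    (h : QRep Sq χq l t (T2 T) (blk 0 b 0 0) Sm J (rho2 e c κ ρ))
    (hs : SplS (OE E) (actN l 1 ρ hr.st) (bN hl 1) aU bU aN hN Φ)
    {L L' : Submodule E (P → Fin n → E)} (hfd : FiniteDimensional E L)
    (hb : ∀ X ∈ L, ∃ C : ℝ, ∀ d, ‖X d‖ ≤ C)
    (hlag : Lag TP iv (fun d => actN l 1 (rho2 e c κ ρ) h.rep.st (jp d)) (beN h 1)
      (fun a d => laN χq l t (blk 0 b 0 0) (rho2 e c κ ρ) (T2 T) 1 a (jp d))
      (lamN (T2 T) l 1 (prE L L'))) {k r : ℕ} (hnum : Cnt.{v} TP (fun d => χq (jp d)) k)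
    (hU : Nat.card U = Nat.card (IsLocalRing.ResidueField (OE E)) ^ (2 * r)) {δ : ℕ}
    (hδ : Even (Module.finrank E L + (k + 1) * r + δ)) :
    LocS TP jp iv e c κ (IsLocalRing.ResidueField (OE E)) aU bU aN hN Φ C (YM T l (prE L L')) δ := by
  obtain rfl : jp = e.comp j := MonoidHom.ext hj
  have hfin : Finite (MN T l 1) := GP.MN_finite hl 1
  have hsd : SDualF S χ κ ∅ (OE E) (actN l 1 ρ hr.st) (bN hl 1) :=
    sdualF_MN hl hr (fun p hp => absurd hp (Set.notMem_empty p)) 1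
  have hY := lag_YM p.two p.chi p.chic p.mul hl hr h hlag
  rw [YM_pr] at hY ⊢
  refine locS_cnt p hsd hs hY hnum (r := r) hU (GP.card_lamN hl 1 L hb) ?_
  rw [one_mul]
  exact hδ

/-- THE CONTRIBUTION OF AN ODD PLACE THAT SPLITS. -/
theorem locS_urS (p : PlQ.{v} S Sq χ χq e c κ TP jp iv) {j : P →* G} (hj : ∀ d, jp d = e (j d))
    (hl : Lat b l t T) (hr : LocRep S χ T b ρ (fun g => ρ (κ g)))
    {Sm J : Matrix (Fin (n + n)) (Fin (n + n)) E}
    (h : QRep Sq χq l t (T2 T) (blk 0 b 0 0) Sm J (rho2 e c κ ρ))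
    (hs : SplS (OE E) (actN l 1 ρ hr.st) (bN hl 1) aU bU aN hN Φ)
    {I : Subgroup P}
    (hlag : Lag TP iv (fun d => actN l 1 (rho2 e c κ ρ) h.rep.st (jp d)) (beN h 1)
      (fun a d => laN χq l t (blk 0 b 0 0) (rho2 e c κ ρ) (T2 T) 1 a (jp d))
      (lamN (T2 T) l 1 (urV TP I fun d => rho2 e c κ ρ (jp d))))
    (hfd : FiniteDimensional E (urV TP I fun d => ρ (j d)))
    (hdim : Module.finrank E (urV TP I fun d => ρ (j d)) = n)
    (hnum : Cnt.{v} TP (fun d => χq (jp d)) 1) {r r' : ℕ} (hn : n = 2 * r')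
    (hU : Nat.card U = Nat.card (IsLocalRing.ResidueField (OE E)) ^ (2 * r)) :
    LocS TP jp iv e c κ (IsLocalRing.ResidueField (OE E)) aU bU aN hN Φ C
      (YM T l (urV TP I fun d => rho2 e c κ ρ (jp d))) 0 := by
  rw [urV_pr p.two hj] at hlag ⊢
  refine locS_prE p hj hl hr h hs (L := urV TP I fun d => ρ (j d)) hfd
    (fun X (hX : X ∈ urV TP I fun d => ρ (j d)) => KR.zv_bdd (mem_urV.1 hX).1) hlag hnum hU ?_
  rw [hdim]
  exact ⟨r' + r, by omega⟩

end place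

section fam

variable {K : Type u} [Field K] [NumberField K] {D : ℕ} {s : K}
  {c : AlgebraicClosure K ≃+* AlgebraicClosure K} {κ : AbsGal K →* AbsGal K} {T : Finset ℕ}
  {P : ℕ → Ideal (𝓞 (AlgebraicClosure K))} {N₀ : Subgroup (AbsGal K)}
  {iv ivF : ∀ w : Option T, (stb (HP.PP P w) → stb (HP.PP P w) → A0) → A0}
  {tr : (((AlgebraicClosure K ≃+* AlgebraicClosure K) → (AlgebraicClosure K ≃+* AlgebraicClosure K) →
      (AlgebraicClosure K ≃+* AlgebraicClosure K) → A0) ×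
      (∀ i : Option (Option T), GA.HQ c P i → GA.HQ c P i → A0)) →+ A0}
  {E : Type w} [NormedField E] [NormedAlgebra ℚ_[2] E] [FiniteDimensional ℚ_[2] E]
  [IsLocalRing (OE E)] [Finite (IsLocalRing.ResidueField (OE E))]
  [CharP (IsLocalRing.ResidueField (OE E)) 2] [Algebra (ZMod 2) (IsLocalRing.ResidueField (OE E))]
  {n : ℕ} {ρ : AbsGal K →* Matrix (Fin n) (Fin n) E} {b : Matrix (Fin n) (Fin n) E}
  {l : OE E} {t : E →ₗ[ℚ_[2]] ℚ_[2]} {L₀ : Submodule (OE E) (Fin n → E)}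
  {U N : Type w} [AddCommGroup U] [Module (OE E) U] [Finite U] [AddCommGroup N] [Module (OE E) N]
  [Finite N]
  {aU : AbsGal K → U → U} {bU : U →+ U →+ A0} {aN : AbsGal K → N → N} {hN : N →+ N →+ A0}
  {Φ : MN L₀ l 1 ≃ₗ[OE E] U × N × N} {C : U → U}
  {L : Submodule E (stabD (K := K) (P 2) → Fin n → E)}

/-- THE CONTRIBUTION OF INFINITY. -/
theorem locFS_infty (I : Inst.{u, w} s c κ D T P N₀ iv ivF tr) (h : Ari s c κ D T P N₀)
    (hρ : Gn.ConjDual 2 N₀ (inT K T) (Parity.cyclo E) κ ρ b) (hl : Lat b l t L₀)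
    (hst : ∀ g, ∀ x ∈ L₀, ρ g *ᵥ x ∈ L₀)
    (hs : SplS (OE E) (actN l 1 (fun g => ρ g) hst) (bN hl 1) aU bU aN hN Φ)
    (hL : L ≤ Parity.cocycles (fun σ : stabD (K := K) (P 2) => ρ σ))
    (hL0 : Parity.coboundaries (fun σ : stabD (K := K) (P 2) => ρ σ) ≤ L) {r : ℕ}
    (hr : Nat.card U = Nat.card (IsLocalRing.ResidueField (OE E)) ^ (2 * r)) :
    LocFS c κ P N₀ ivF aU bU aN hN Φ C none (famL c κ T P N₀ ρ b h.h2 L none) r := by
  have hfin : Finite (MN L₀ l 1) := GP.MN_finite hl 1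
  exact locS_inf (plQ I none) (sdual_M I h hρ hl hst) hs I.inf
    (QL.ramI_Q (fun x => I.hc.sq x) fun d hd => absurd hd (Set.notMem_empty d))
    (lag_fam I h hρ hl hst hL hL0 none) hr

/-- the dimension of `V` is even -/
theorem even_nS (I : Inst.{u, w} s c κ D T P N₀ iv ivF tr) (h : Ari s c κ D T P N₀)
    (hρ : Gn.ConjDual 2 N₀ (inT K T) (Parity.cyclo E) κ ρ b) (hl : Lat b l t L₀)
    (hst : ∀ g, ∀ x ∈ L₀, ρ g *ᵥ x ∈ L₀)
    (hs : SplS (OE E) (actN l 1 (fun g => ρ g) hst) (bN hl 1) aU bU aN hN Φ)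
    (hC : InvC κ (OE E) aU bU C) : ∃ r, n = 2 * r := by
  obtain ⟨r, hr⟩ := even_U I h hρ hl hst hs hC
  obtain ⟨m, hm⟩ := GP.card_pow (O := OE E) N
  have h1 : Nat.card (MN L₀ l 1) = Nat.card U * (Nat.card N * Nat.card N) := by
    rw [Nat.card_congr Φ.toEquiv, Nat.card_prod, Nat.card_prod]
  rw [KR.card_MN hl 1, one_mul, hr, hm, ← pow_add, ← pow_add] at h1
  have h2 := Nat.pow_right_injective
    (Finite.one_lt_card : 1 < Nat.card (IsLocalRing.ResidueField (OE E))) h1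
  exact ⟨r + m, by omega⟩

/-- THE CONTRIBUTION OF AN ODD PRIME THAT SPLITS. -/
theorem locFS_odd (I : Inst.{u, w} s c κ D T P N₀ iv ivF tr) (h : Ari s c κ D T P N₀)
    (hρ : Gn.ConjDual 2 N₀ (inT K T) (Parity.cyclo E) κ ρ b) (hl : Lat b l t L₀)
    (hst : ∀ g, ∀ x ∈ L₀, ρ g *ᵥ x ∈ L₀)
    (hs : SplS (OE E) (actN l 1 (fun g => ρ g) hst) (bN hl 1) aU bU aN hN Φ)
    (hC : InvC κ (OE E) aU bU C)
    (hL : L ≤ Parity.cocycles (fun σ : stabD (K := K) (P 2) => ρ σ))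
    (hL0 : Parity.coboundaries (fun σ : stabD (K := K) (P 2) => ρ σ) ≤ L) {p : T}
    (hp : Spl D p) :
    LocFS c κ P N₀ ivF aU bU aN hN Φ C (some (some p))
      (famL c κ T P N₀ ρ b h.h2 L (some (some p))) 0 := by
  obtain ⟨r, hr⟩ := even_U I h hρ hl hst hs hC
  obtain ⟨r', hr'⟩ := even_nS I h hρ hl hst hs hC
  have hle : stb (P p) ≤ (iK K).range := fun g hg => I.le_spl hp ⟨g, hg⟩
  have hj : ∀ d, jQ c P (some (some p)) d = iK K (jS hle d) := jS_e hle
  have hR := QV.locRep_j (j := jS hle) (h.rep hρ hst) (jS_cont (c := c) h p hle)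
  have hn := I.norQ
  obtain ⟨hfd, hdim⟩ := finrank_odd (HP.alg_closure K) (I.prime p) (I.odd p) (I.isPrime p) (I.natMem p)
    (inferInstance : ((N₀.map (iK K)).subgroupOf (stb (P p))).Normal) (I.opnL (some p)) hR.one hR.mul
    hR.sm
  obtain ⟨a, σ, τ, hT⟩ := QL.exists_tameQ_big (HP.alg_closure K) (I.prime p) (I.odd p) (I.isPrime p)
    (I.natMem p) ((N₀.map (iK K)).subgroupOf (stb (P p)))
  exact locS_urS (plQ I (some (some p))) hj hl (h.rep hρ hst)
    (h.qrep hρ hl hst I.glob.glob.char.mul) hs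
    (QW.famL_lag h hρ hl hst I.glob.glob.char hL hL0 (fun i => I.locD i) 1 (some (some p))) hfd hdim
    (cnt_tame hT (I.locD (some (some p)))) hr' hr

/-- THE CONTRIBUTION OF THE PLACE 2, 2 splits. -/
theorem locFS_dy (I : Inst.{u, w} s c κ D T P N₀ iv ivF tr) (h : Ari s c κ D T P N₀)
    (hρ : Gn.ConjDual 2 N₀ (inT K T) (Parity.cyclo E) κ ρ b) (hl : Lat b l t L₀)
    (hst : ∀ g, ∀ x ∈ L₀, ρ g *ᵥ x ∈ L₀)
    (hs : SplS (OE E) (actN l 1 (fun g => ρ g) hst) (bN hl 1) aU bU aN hN Φ)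
    (hL : L ≤ Parity.cocycles (fun σ : stabD (K := K) (P 2) => ρ σ))
    (hL0 : Parity.coboundaries (fun σ : stabD (K := K) (P 2) => ρ σ) ≤ L) {r : ℕ}
    (hr : Nat.card U = Nat.card (IsLocalRing.ResidueField (OE E)) ^ (2 * r)) :
    LocFS c κ P N₀ ivF aU bU aN hN Φ C (some none) (famL c κ T P N₀ ρ b h.h2 L (some none))
      (Module.finrank E L + r) := by
  have hLz := QW.zv_two h hρ hL
  have hLfd := QW.L_fd h hρ hL (fun i => I.locD i)
  obtain ⟨α⟩ := GA.exists_ratEquiv (HP.alg_closure K)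
  obtain ⟨ψ⟩ : Nonempty (L ≃ₗ[E] L.comap (LinearMap.funLeft E (Fin n → E) (QW.eSt h.h2))) :=
    comap_equiv (QW.eSt h.h2).toEquiv L
  have hfd' : FiniteDimensional E (L.comap (LinearMap.funLeft E (Fin n → E) (QW.eSt h.h2))) :=
    LinearEquiv.finiteDimensional ψ
  have h3 : Even (Module.finrank E (L.comap (LinearMap.funLeft E (Fin n → E) (QW.eSt h.h2))) +
      (2 + 1) * r + (Module.finrank E L + r)) := by
    rw [← ψ.finrank_eq]
    exact ⟨Module.finrank E L + 2 * r, by ring⟩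
  exact locS_prE (L := L.comap (LinearMap.funLeft E (Fin n → E) (QW.eSt h.h2)))
    (plQ I (some none)) (j := QW.j2 h.h2) (QW.j2_e h.h2) hl (h.rep hρ hst)
    (h.qrep hρ hl hst I.glob.glob.char.mul) hs hfd' (fun X hX => KR.zv_bdd (hLz X hX))
    (QW.famL_lag h hρ hl hst I.glob.glob.char hL hL0 (fun i => I.locD i) 1 (some none))
    (cnt_two (HP.alg_closure K) α I.isPrime2 I.two_mem (I.qdat.loc none) (I.locF none))
    hr h3

/-- THE HYPOTHESIS `hP` of `QW.parity_inst`, 2 splits, from the contributions of the places of `T`. -/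
theorem hP_famSp (I : Inst.{u, w} s c κ D T P N₀ iv ivF tr)
    (h : Ari s c κ D T P N₀)
    (hρ : Gn.ConjDual 2 N₀ (inT K T) (Parity.cyclo E) κ ρ b) (hl : Lat b l t L₀)
    (hst : ∀ g, ∀ x ∈ L₀, ρ g *ᵥ x ∈ L₀)
    (hs : SplS (OE E) (actN l 1 (fun g => ρ g) hst) (bN hl 1) aU bU aN hN Φ)
    (hC : InvC κ (OE E) aU bU C)
    (hL : L ≤ Parity.cocycles (fun σ : stabD (K := K) (P 2) => ρ σ))
    (hL0 : Parity.coboundaries (fun σ : stabD (K := K) (P 2) => ρ σ) ≤ L)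
    (hm : ∀ σ τ : AlgebraicClosure K ≃+* AlgebraicClosure K, cyQ (σ * τ) = cyQ σ * cyQ τ)
    {δ : T → ℕ} (hT : ∀ p : T, LocFS c κ P N₀ ivF aU bU aN hN Φ C (some (some p))
      (famL c κ T P N₀ ρ b h.h2 L (some (some p))) (δ p)) :
    EvPow (Nat.card (IsLocalRing.ResidueField (OE E)))
      (Nat.card (selNQ (sysQ T N₀) (jQ c P) (rho2 (iK K) c κ fun g => ρ g)
        (famL c κ T P N₀ ρ b h.h2 L) (h.qrep hρ hl hst hm) 1) *
        Nat.card (IsLocalRing.ResidueField (OE E)) ^ (Module.finrank E L + ∑ p, δ p)) :=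
  hP_famS I h hρ hl hst hs hC hL hL0 hm
    (fun _ hr => locFS_infty I h hρ hl hst hs hL hL0 hr)
    (fun _ hr => locFS_dy I h hρ hl hst hs hL hL0 hr) hT

end fam

end Pool.Agent.Work.MP_787500_nt.KJ
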