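import Mathlib
import Pool.Agent.Work.MP_787500_nt.KJ.Inf
import Pool.Agent.Work.MP_787500_nt.KI.LocInM

/-!
# Block KJ: an inert place, abstract form

* `prod3_zur`: the unramified classes of `M × M` are the product of the unramified classes of the components.
* `cardI`: the number of elements of `M` fixed by inertia.
* `locS_inert`: THE CONTRIBUTION OF AN INERT PLACE.
-/

set_option autoImplicit false
set_option linter.unusedSectionVars false

namespace Pool.Agent.Work.MP_787500_nt.KJ

open Matrix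
open Pool.Agent.Work.MP_787500_nt.GP (A0 hf IsAct d0 tw cup11 EvPow IsPow card_pow evPow_mul evPow_sq)
open Pool.Agent.Work.MP_787500_nt.KR (FSys Sm1 Z1 Z2 Smooth LocH LDual SDualF zM)
open Pool.Agent.Work.MP_787500_nt.KS (ep)
open Pool.Agent.Work.MP_787500_nt.KT (Sy fixv)
open Pool.Agent.Work.MP_787500_nt.QS (Two ac2 be2 la2 Lag pB QM)
open Pool.Agent.Work.MP_787500_nt.QL (TameF zur zurM mem_zurM mem_zur lag_zur)
open Pool.Agent.Work.MP_787500_nt.KI (PlQ LocM locM_inert Crd fixS card_fix)
open Pool.Agent.Work.MP_787500_nt.OL (dst lag_fin lag_card)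
open Pool.Agent.Work.MP_787500_nt.RC (SplS)

universe v

variable {G Γ : Type*} [Group G] [Group Γ] {S : FSys G} {Sq : FSys Γ} {χ : G → ℤ_[2]}
  {χq : Γ → ℤ_[2]} {e : G →* Γ} {c : Γ} {κ : G →* G} {P : Type*} [Group P] {T : FSys P}
  {jp : P →* Γ} {iv : (P → P → A0) → A0} {In : Subgroup P}

section zur

variable {O : Type*} [CommRing O] {M U N : Type*} [AddCommGroup M] [Module O M] [AddCommGroup U]
  [Module O U] [AddCommGroup N] [Module O N] {act : G → M → M}
  {b : M →+ M →+ A0} {aU : G → U → U} {bU : U →+ U →+ A0} {aN : G → N → N} {h : N →+ N →+ A0}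
  {Φ : M ≃ₗ[O] U × N × N}

/-- the unramified classes are the product of the unramified classes of the components -/
theorem prod3_zur (s : SplS O act b aU bU aN h Φ) (X : Two e c κ)
    {actM : IsAct fun d => ac2 e c κ act (jp d)}
    {linM : ∀ (d : P) (a : O) m, ac2 e c κ act (jp d) (a • m) = a • ac2 e c κ act (jp d) m}
    {actU : IsAct fun d => ac2 e c κ aU (jp d)}
    {linU : ∀ (d : P) (a : O) m, ac2 e c κ aU (jp d) (a • m) = a • ac2 e c κ aU (jp d) m}
    {actN : IsAct fun d => ac2 e c κ aN (jp d)}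
    {linN : ∀ (d : P) (a : O) m, ac2 e c κ aN (jp d) (a • m) = a • ac2 e c κ aN (jp d) m} :
    prod3 Φ (zurM T In actU linU) (zurM T In actN linN) = zurM T In actM linM := by
  have s1 : ∀ v w : M × M, qU Φ (v - w) = qU Φ v - qU Φ w := fun v w => by simp [qU]
  have s2 : ∀ v w : M × M, qN Φ (v - w) = qN Φ v - qN Φ w := fun v w => by simp [qN]
  have s3 : ∀ v w : M × M, qN' Φ (v - w) = qN' Φ v - qN' Φ w := fun v w => by simp [qN']
  ext x
  rw [mem_prod3, mem_zurM, mem_zurM, mem_zurM, mem_zurM, mem_zur, mem_zur, mem_zur, mem_zur,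
    z1_spl s X]
  constructor
  · rintro ⟨⟨h1, u, hu⟩, ⟨h2, y, hy⟩, ⟨h3, z, hz⟩⟩
    refine ⟨⟨h1, h2, h3⟩, (Φ.symm (u.1, y.1, z.1), Φ.symm (u.2, y.2, z.2)), fun i hi => ?_⟩
    have e1 : qU Φ (Φ.symm (u.1, y.1, z.1), Φ.symm (u.2, y.2, z.2)) = u := by simp [qU]
    have e2 : qN Φ (Φ.symm (u.1, y.1, z.1), Φ.symm (u.2, y.2, z.2)) = y := by simp [qN]
    have e3 : qN' Φ (Φ.symm (u.1, y.1, z.1), Φ.symm (u.2, y.2, z.2)) = z := by simp [qN']
    refine q_ext (Φ := Φ) ?_ ?_ ?_
    · show pU Φ x i = _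
      rw [hu i hi]
      show _ = qU Φ (ac2 e c κ act (jp i) _ - _)
      rw [s1, ac2_U s X, e1]
      rfl
    · show pN Φ x i = _
      rw [hy i hi]
      show _ = qN Φ (ac2 e c κ act (jp i) _ - _)
      rw [s2, ac2_N s X, e2]
      rfl
    · show pN' Φ x i = _
      rw [hz i hi]
      show _ = qN' Φ (ac2 e c κ act (jp i) _ - _)
      rw [s3, ac2_N' s X, e3]
      rfl
  · rintro ⟨⟨h1, h2, h3⟩, m, hm⟩
    refine ⟨⟨h1, qU Φ m, fun i hi => ?_⟩, ⟨h2, qN Φ m, fun i hi => ?_⟩, ⟨h3, qN' Φ m, fun i hi => ?_⟩⟩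
    · show qU Φ (x i) = _
      rw [hm i hi]
      show qU Φ (ac2 e c κ act (jp i) m - m) = _
      rw [s1, ac2_U s X]
      rfl
    · show qN Φ (x i) = _
      rw [hm i hi]
      show qN Φ (ac2 e c κ act (jp i) m - m) = _
      rw [s2, ac2_N s X]
      rfl
    · show qN' Φ (x i) = _
      rw [hm i hi]
      show qN' Φ (ac2 e c κ act (jp i) m - m) = _
      rw [s3, ac2_N' s X]
      rfl

/-- the elements fixed by inertia -/
def fixI {V : Type*} (e : G →* Γ) (jp : P →* Γ) (In : Subgroup P) (a : G → V → V) : Set V :=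
  {m | ∀ g, (∃ i ∈ In, e g = jp i) → a g m = m}

/-- the number of elements of `M` fixed by inertia -/
theorem card_fixI (s : SplS O act b aU bU aN h Φ) :
    Nat.card (fixI e jp In act) = Nat.card (fixI e jp In aU) * Nat.card (fixI e jp In aN) ^ 2 := by
  have key : ∀ m : M, m ∈ fixI e jp In act ↔ (Φ m).1 ∈ fixI e jp In aU ∧
      (Φ m).2.1 ∈ fixI e jp In aN ∧ (Φ m).2.2 ∈ fixI e jp In aN := by
    intro m
    constructor
    · intro hm
      refine ⟨fun g hg => ?_, fun g hg => ?_, fun g hg => ?_⟩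
      · rw [← spl_U s, hm g hg]
      · rw [← spl_N s, hm g hg]
      · rw [← spl_N' s, hm g hg]
    · rintro ⟨h1, h2, h3⟩ g hg
      apply Φ.injective
      rw [s.act, h1 g hg, h2 g hg, h3 g hg]
  have E : (fixI e jp In act) ≃ (fixI e jp In aU) × (fixI e jp In aN) × (fixI e jp In aN) :=
    { toFun := fun m => (⟨(Φ m.1).1, ((key m.1).1 m.2).1⟩, ⟨(Φ m.1).2.1, ((key m.1).1 m.2).2.1⟩,
        ⟨(Φ m.1).2.2, ((key m.1).1 m.2).2.2⟩)
      invFun := fun y => ⟨Φ.symm (y.1.1, y.2.1.1, y.2.2.1), (key _).2 (by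
        rw [Φ.apply_symm_apply]
        exact ⟨y.1.2, y.2.1.2, y.2.2.2⟩)⟩
      left_inv := fun m => Subtype.ext (Φ.symm_apply_apply m.1)
      right_inv := fun y => by
        have h1 := Φ.apply_symm_apply (y.1.1, y.2.1.1, y.2.2.1)
        exact Prod.ext (Subtype.ext (congrArg Prod.fst h1)) (Prod.ext
          (Subtype.ext (congrArg (fun z => z.2.1) h1)) (Subtype.ext (congrArg (fun z => z.2.2) h1))) }
  rw [Nat.card_congr E, Nat.card_prod, Nat.card_prod, pow_two]

/-- the number of elements fixed by inertia is a power of the number of elements of the residue field -/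
theorem pow_fixI [IsLocalRing O] [Finite (IsLocalRing.ResidueField O)] {V : Type*} [AddCommGroup V]
    [Module O V] [Finite V] {a : G → V → V} (ha : IsAct a)
    (lin : ∀ g (x : O) m, a g (x • m) = x • a g m) :
    IsPow (Nat.card (IsLocalRing.ResidueField O)) (Nat.card (fixI e jp In a)) :=
  card_pow (O := O) ({ carrier := fixI e jp In a
                       add_mem' := fun hx hy g hg => by rw [ha.add, hx g hg, hy g hg]
                       zero_mem' := fun g _ => ha.zero g
                       smul_mem' := fun x _ hm g hg => by rw [lin, hm g hg] } : Submodule O V)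

/-- the number of elements fixed by one element is a power -/
theorem pow_fix1 [IsLocalRing O] [Finite (IsLocalRing.ResidueField O)] {V : Type*} [AddCommGroup V]
    [Module O V] [Finite V] {a : G → V → V} (ha : IsAct a)
    (lin : ∀ g (x : O) m, a g (x • m) = x • a g m) (g : G) :
    IsPow (Nat.card (IsLocalRing.ResidueField O)) (Nat.card {m : V // a g m = m}) :=
  card_pow (O := O) ({ carrier := {m : V | a g m = m}
                       add_mem' := fun {x y} hx hy => by
                        show a g (x + y) = x + y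
                        rw [ha.add, show a g x = x from hx, show a g y = y from hy]
                       zero_mem' := ha.zero g
                       smul_mem' := fun x m hm => by
                        show a g (x • m) = x • m
                        rw [lin, show a g m = m from hm] } : Submodule O V)

end zur

variable {O : Type v} [CommRing O] [IsLocalRing O]
  [Finite (IsLocalRing.ResidueField O)] [CharP (IsLocalRing.ResidueField O) 2]
  [Algebra (ZMod 2) (IsLocalRing.ResidueField O)] {M U N : Type v} [AddCommGroup M] [Module O M]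
  [Finite M] [AddCommGroup U] [Module O U] [Finite U] [AddCommGroup N] [Module O N] [Finite N]
  {act : G → M → M} {b : M →+ M →+ A0} {aU : G → U → U} {bU : U →+ U →+ A0} {aN : G → N → N}
  {h : N →+ N →+ A0} {Φ : M ≃ₗ[O] U × N × N} {Θ : Set (G × G)} {C : U → U}

/-- the unramified classes are Lagrangian at an inert place -/
theorem lag_zurI (p : PlQ.{v} S Sq χ χq e c κ T jp iv) {V : Type v} [AddCommGroup V] [Module O V]
    [Finite V] {ρ : G → V → V} {β : V →+ V →+ A0} (hs : SDualF S χ κ Θ O ρ β)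
    {a : P → ℤ_[2]} {σ τ : P} {q : ℕ} (hT : TameF T (fun d => χq (jp d)) a σ τ q In)
    (hI : ∀ i ∈ In, ∃ g, e g = jp i) :
    Lag T iv (fun d => ac2 e c κ ρ (jp d)) (be2 β)
      (fun (x : O) d => la2 e c κ ρ β x (jp d)) (zurM T In (p.qm hs).act (p.qm hs).lin) :=
  lag_zur hT p.loc.toLocH (p.qm hs) (p.ldM hs) fun x n hn v _ => by
    unfold la2
    rw [if_pos (hI n hn)]

/-- the number of fixed elements in coordinates -/
theorem fix1_crd {n : ℕ} [Sy (IsLocalRing.ResidueField O) n]
    {L : U ≃+ (Fin n → IsLocalRing.ResidueField O)}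
    {A : Γ →* Matrix (Fin n) (Fin n) (IsLocalRing.ResidueField O)}
    (hc : Crd e c O aU bU C L A) {g : G} {f : ℕ}
    (hf : Nat.card {m : U // aU g m = m} = Nat.card (IsLocalRing.ResidueField O) ^ f) :
    Module.finrank (IsLocalRing.ResidueField O) (fixv (A (e g))) = f := by
  have h1 : Nat.card {m : U // aU g m = m} = Nat.card (fixv (A (e g))) := by
    refine Nat.card_congr (L.toEquiv.subtypeEquiv fun m => ?_)
    show aU g m = m ↔ A (e g) *ᵥ L m = L m
    rw [hc.ae]
    exact ⟨fun h => by rw [h], fun h => L.injective h⟩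
  rw [h1, Module.natCard_eq_pow_finrank (K := IsLocalRing.ResidueField O)] at hf
  exact Nat.pow_right_injective
    (Finite.one_lt_card : 1 < Nat.card (IsLocalRing.ResidueField O)) hf

/-- the number of elements fixed by inertia in coordinates -/
theorem fixI_crd {n : ℕ} [Sy (IsLocalRing.ResidueField O) n]
    {L : U ≃+ (Fin n → IsLocalRing.ResidueField O)}
    {A : Γ →* Matrix (Fin n) (Fin n) (IsLocalRing.ResidueField O)}
    (hc : Crd e c O aU bU C L A) (hI : ∀ i ∈ In, ∃ g, e g = jp i) {u : ℕ}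
    (hu : Nat.card (fixI e jp In aU) = Nat.card (IsLocalRing.ResidueField O) ^ u) :
    Module.finrank (IsLocalRing.ResidueField O) (fixS (A.comp jp) In) = u := by
  have h1 : Nat.card (fixI e jp In aU) = Nat.card (fixS (A.comp jp) In) := card_fix hc hI
  rw [h1, Module.natCard_eq_pow_finrank (K := IsLocalRing.ResidueField O)] at hu
  exact Nat.pow_right_injective
    (Finite.one_lt_card : 1 < Nat.card (IsLocalRing.ResidueField O)) hu

/-- THE CONTRIBUTION OF AN INERT PLACE, in terms of the fixed elements of `U`. -/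
theorem locS_inert (p : PlQ.{v} S Sq χ χq e c κ T jp iv) (hs : SDualF S χ κ Θ O act b)
    (s : SplS O act b aU bU aN h Φ) {a : P → ℤ_[2]} {σ τ : P} {q : ℕ}
    (hT : TameF T (fun d => χq (jp d)) a σ τ q In) (hI : ∀ i ∈ In, ∃ g, e g = jp i)
    {ψ : P → ZMod 2} (hψ : ∀ g h, ψ (g * h) = ψ g + ψ h) (hψs : Sm1 T ψ) (hψI : ∃ d ∈ In, ψ d = 1)
    (hiv : iv (fun g h => hf (ep e (jp g) * ψ h)) = hf 1) {τ' : P} (hτ' : τ' ∈ In)
    (hodd : PadicInt.toZMod (a τ') = 1) {Y : Submodule O (P → M × M)}
    (hY : Lag T iv (fun d => ac2 e c κ act (jp d)) (be2 b)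
      (fun (a : O) d => la2 e c κ act b a (jp d)) Y) {r v : ℕ}
    (hr : Nat.card ↥(Y ⊓ zurM T In (p.qm hs).act (p.qm hs).lin) * r = Nat.card Y)
    (hev : EvPow (Nat.card (IsLocalRing.ResidueField O)) (r * Nat.card (fixI e jp In act) *
      Nat.card (IsLocalRing.ResidueField O) ^ v)) {g₀ : G} (hg₀ : e g₀ = jp τ') {f u : ℕ}
    (hf : Nat.card {m : U // aU g₀ m = m} = Nat.card (IsLocalRing.ResidueField O) ^ f)
    (hu : Nat.card (fixI e jp In aU) = Nat.card (IsLocalRing.ResidueField O) ^ u) :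
    LocS T jp iv e c κ (IsLocalRing.ResidueField O) aU bU aN h Φ C Y (f + (u + v)) := by
  have X := p.two
  have q1 : 1 < Nat.card (IsLocalRing.ResidueField O) := Finite.one_lt_card
  have hU := sdualU s hs
  have hN := sdualN s hs
  have lU := lag_zurI p hU hT hI
  have lN := lag_zurI p hN hT hI
  have fU := (p.ldM hU).fin
  have hfinU : Finite (zurM T In (p.qm hU).act (p.qm hU).lin) :=
    Finite.of_injective (fun x => (⟨x.1, lU.coc _ x.2⟩ : {x // Z1 _ _ x}))
      fun x y hxy => Subtype.ext (congrArg (fun z => z.1) hxy)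
  -- the contribution of the unramified classes of `U`
  have hl : LocM T jp iv e c κ (IsLocalRing.ResidueField O) aU bU C
      (zurM T In (p.qm hU).act (p.qm hU).lin) f := by
    refine locM_inert p hU hT hI hψ hψs hψI hiv hτ' hodd (p.qm hU).act (p.qm hU).lin hfinU
      (r := 1) (v := u) (by rw [inf_idem, mul_one]) ?_ fun n iS L A hc => ?_
    · refine ⟨u, ?_⟩
      have h1 : Nat.card {m : U | ∀ g, (∃ i ∈ In, e g = jp i) → aU g m = m} =
        Nat.card (IsLocalRing.ResidueField O) ^ u := hu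
      rw [h1, one_mul, ← pow_add, two_mul]
    · rw [← hg₀, fix1_crd hc hf, fixI_crd hc hI hu]
      exact ⟨f + u, by ring⟩
  have h1 := locS_prod p hs s lU (selfN_of lN) hl
  have l3 := lag_ref p hs s lU (selfN_of lN)
  rw [prod3_zur s X (actM := (p.qm hs).act) (linM := (p.qm hs).lin)] at h1 l3
  refine locS_change p hs s l3 hY ?_ h1
  -- the distance
  have hcard : Nat.card (zurM T In (p.qm hs).act (p.qm hs).lin) = Nat.card Y :=
    lag_card p.loc.toLocH (p.qm hs) (p.ldM hs) l3 hY
  have hfin : Finite (zM (O := O) T (p.qm hs).act (p.qm hs).lin) := (p.ldM hs).fin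
  have fY := lag_fin (p.qm hs) hfin hY
  have f3 : Finite ↥(Y ⊓ zurM T In (p.qm hs).act (p.qm hs).lin) :=
    Finite.of_injective (fun x : ↥(Y ⊓ zurM T In (p.qm hs).act (p.qm hs).lin) =>
      (⟨x.1, x.2.1⟩ : Y)) fun x y hxy => Subtype.ext (by simpa using hxy)
  obtain ⟨j, hj⟩ := pow_fixI (e := e) (jp := jp) (In := In) hN.act hN.lin
  have h5 : EvPow (Nat.card (IsLocalRing.ResidueField O))
      (r * Nat.card (IsLocalRing.ResidueField O) ^ (u + v)) := by
    refine KI.evPow_cancel (r := j) q1 ?_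
    rw [card_fixI s, hu, hj] at hev
    convert hev using 1
    rw [← pow_mul, pow_add, pow_add, mul_comm j 2]
    ring
  have h6 := evPow_mul (evPow_sq (card_pow (O := O) ↥(Y ⊓ zurM T In (p.qm hs).act (p.qm hs).lin))) h5
  unfold dst
  rw [hcard, inf_comm, ← hr]
  convert h6 using 1
  ring

end Pool.Agent.Work.MP_787500_nt.KJ
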