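import Mathlib
import Pool.Agent.Work.MP_787500_nt.KJ.Inr
import Pool.Agent.Work.MP_787500_nt.KJ.Fam
import Pool.Agent.Work.MP_787500_nt.QG.InrC

/-!
# Block KJ: THE INERT PRIMES of the arithmetic family

* `locFS_inr`: THE CONTRIBUTION OF AN INERT PRIME, in terms of the coordinates of `U` (as `KI.locM_inr`); `locFS_inr1`: with the
  data of tame inertia for the full system of subgroups.
* `comm_of_lev`: if inertia acts by commuting automorphisms on the level 1 then it acts by commuting matrices on `V`.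
* `comm_U`: inertia acts by commuting matrices on `U`.
-/

set_option autoImplicit false
set_option linter.unusedSectionVars false

namespace Pool.Agent.Work.MP_787500_nt.KJ

open Matrix NumberField
open Pool.Agent.Work.MP_787500_nt.GP (A0 OE MN actN actQ bN Lat inT stabD IsAct lamN EvPow)
open Pool.Agent.Work.MP_787500_nt.KR (fullK fullC big SDualF Smooth Z1)
open Pool.Agent.Work.MP_787500_nt.PA (cyc)
open Pool.Agent.Work.MP_787500_nt.HP (IsQ Spl IsP inr stb cyQ)
open Pool.Agent.Work.MP_787500_nt.KS (iK ep ep_zero)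
open Pool.Agent.Work.MP_787500_nt.KT (Sy fixv)
open Pool.Agent.Work.MP_787500_nt.QP (InvC)
open Pool.Agent.Work.MP_787500_nt.QS (Two ac2 be2 la2 Lag)
open Pool.Agent.Work.MP_787500_nt.QV (rho2 T2 isoN iso_act)
open Pool.Agent.Work.MP_787500_nt.QU (Inst urV)
open Pool.Agent.Work.MP_787500_nt.QW (famL Ari)
open Pool.Agent.Work.MP_787500_nt.GA (HQ SQ jQ iQ)
open Pool.Agent.Work.MP_787500_nt.QL (TameF zur zurM mem_zurM mem_zur)
open Pool.Agent.Work.MP_787500_nt.KI (plQ lag_fam Crd fixS exists_psi homs_sm1 card_zur_tra rel_card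
  siso_iso card_YM YM exists_crd_res)
open Pool.Agent.Work.MP_787500_nt.QG (inr_iff one_of_lev VI_eq)
open Pool.Agent.Work.MP_787500_nt.RC (SplS)

universe u w

variable {K : Type u} [Field K] [NumberField K] {D : ℕ} {s : K}
  {c : AlgebraicClosure K ≃+* AlgebraicClosure K} {κ : AbsGal K →* AbsGal K} {T : Finset ℕ}
  {P : ℕ → Ideal (𝓞 (AlgebraicClosure K))} {N₀ : Subgroup (AbsGal K)}
  {iv ivF : ∀ w : Option T, (stb (HP.PP P w) → stb (HP.PP P w) → A0) → A0}
  {tr : (((AlgebraicClosure K ≃+* AlgebraicClosure K) → (AlgebraicClosure K ≃+* AlgebraicClosure K) →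
      (AlgebraicClosure K ≃+* AlgebraicClosure K) → A0) ×
      (∀ i : Option (Option T), GA.HQ c P i → GA.HQ c P i → A0)) →+ A0}
  {E : Type w} [NormedField E] [NormedAlgebra ℚ_[2] E] [FiniteDimensional ℚ_[2] E]
  {n : ℕ} {ρ : AbsGal K →* Matrix (Fin n) (Fin n) E} {b : Matrix (Fin n) (Fin n) E}
  {l : OE E} {t : E →ₗ[ℚ_[2]] ℚ_[2]} {L₀ : Submodule (OE E) (Fin n → E)}
  {L : Submodule E (stabD (K := K) (P 2) → Fin n → E)}

variable [IsLocalRing (OE E)] [Finite (IsLocalRing.ResidueField (OE E))]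
  [CharP (IsLocalRing.ResidueField (OE E)) 2] [Algebra (ZMod 2) (IsLocalRing.ResidueField (OE E))]
  {U N : Type w} [AddCommGroup U] [Module (OE E) U] [Finite U] [AddCommGroup N] [Module (OE E) N]
  [Finite N]
  {aU : AbsGal K → U → U} {bU : U →+ U →+ A0} {aN : AbsGal K → N → N} {hN : N →+ N →+ A0}
  {Φ : MN L₀ l 1 ≃ₗ[OE E] U × N × N} {C : U → U}

/-- if inertia acts by commuting automorphisms on the level 1 then it acts by commuting matrices -/
theorem comm_of_lev (I : Inst.{u, w} s c κ D T P N₀ iv ivF tr) (h : Ari s c κ D T P N₀)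
    (hρ : Gn.ConjDual 2 N₀ (inT K T) (Parity.cyclo E) κ ρ b) (hl : Lat b l t L₀)
    (hst : ∀ g, ∀ x ∈ L₀, ρ g *ᵥ x ∈ L₀) {p : T} {a : HQ c P (some (some p)) → ℤ_[2]}
    {σ τ : HQ c P (some (some p))} {q : ℕ}
    (hT : TameF (SQ c P (N₀.map (iK K)) (some (some p))) (fun d => cyQ (jQ c P (some (some p)) d))
      a σ τ q ((inr (P p)).subgroupOf (stb (P p))))
    (hcom : ∀ g ∈ (P p).inertia (AbsGal K), ∀ k ∈ (P p).inertia (AbsGal K), ∀ m : MN L₀ l 1,
      actN l 1 (fun g => ρ g) hst (g * k) m = actN l 1 (fun g => ρ g) hst (k * g) m) :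
    Parity.CommOn ((P p).inertia (AbsGal K)) ρ := by
  intro g hg k hk
  obtain ⟨g', hg', hgg⟩ : ∃ i : HQ c P (some (some p)), i ∈ (inr (P p)).subgroupOf (stb (P p)) ∧
    iK K g = jQ c P (some (some p)) i := (inr_iff (c := c) p).2 hg
  obtain ⟨k', hk', hkk⟩ : ∃ i : HQ c P (some (some p)), i ∈ (inr (P p)).subgroupOf (stb (P p)) ∧
    iK K k = jQ c P (some (some p)) i := (inr_iff (c := c) p).2 hk
  have ha : IsAct (actN l 1 (fun g => ρ g) hst) := (sdual_M I h hρ hl hst).act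
  have h3 : ∀ m : MN L₀ l 1, actN l 1 (fun g => ρ g) hst (g * k * (k * g)⁻¹) m = m := by
    intro m
    obtain ⟨m', rfl⟩ : ∃ m', m = actN l 1 (fun g => ρ g) hst (k * g) m' :=
      ⟨actN l 1 (fun g => ρ g) hst (k * g)⁻¹ m, by rw [← ha.mul, mul_inv_cancel, ha.one]⟩
    rw [← ha.mul, inv_mul_cancel_right, hcom g hg k hk]
  have h4 : (g' * k') * (k' * g')⁻¹ ∈ hT.P := by
    have e1 : (g' * k') * (k' * g')⁻¹ ∈ (inr (P p)).subgroupOf (stb (P p)) :=
      mul_mem (mul_mem hg' hk') (inv_mem (mul_mem hk' hg'))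
    refine ⟨hT.Iχ _ e1, ?_⟩
    have e2 : a (g' * k') = a ((g' * k') * (k' * g')⁻¹) + a (k' * g') := by
      conv_lhs => rw [← inv_mul_cancel_right (g' * k') (k' * g')]
      rw [hT.coc, hT.Iχ _ e1, one_mul]
    rw [hT.coc, hT.coc k', hT.Iχ _ hg', hT.Iχ _ hk', one_mul, one_mul] at e2
    linear_combination -e2
  have h5 : iK K (g * k * (k * g)⁻¹) = jQ c P (some (some p)) ((g' * k') * (k' * g')⁻¹) := by
    rw [map_mul, map_inv, map_mul, map_mul, hgg, hkk]
    rfl
  have h6 := one_of_lev I h hρ hl hst hT h5 h4 h3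
  have h7 : ρ (g * k) = ρ (g * k * (k * g)⁻¹) * ρ (k * g) := by
    rw [← map_mul, inv_mul_cancel_right]
  rw [h6, one_mul, map_mul, map_mul] at h7
  exact h7


/-- the maximal ideal kills `U` -/
theorem max_U (Φ : MN L₀ l 1 ≃ₗ[OE E] U × N × N) (hl : Lat b l t L₀) (a : OE E) (ha : a ∈ IsLocalRing.maximalIdeal (OE E)) (y : U) :
    a • y = 0 := by
  have h1 := congrArg Φ (QF.max_MN hl a ha (Φ.symm (y, 0, 0)))
  rw [map_smul, map_zero, LinearEquiv.apply_symm_apply] at h1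
  exact congrArg Prod.fst h1

/-- the maximal ideal kills `N` -/
theorem max_N (Φ : MN L₀ l 1 ≃ₗ[OE E] U × N × N) (hl : Lat b l t L₀) (a : OE E) (ha : a ∈ IsLocalRing.maximalIdeal (OE E)) (y : N) :
    a • y = 0 := by
  have h1 := congrArg Φ (QF.max_MN hl a ha (Φ.symm (0, y, 0)))
  rw [map_smul, map_zero, LinearEquiv.apply_symm_apply] at h1
  exact congrArg (fun z => z.2.1) h1

/-- commuting automorphisms of `M` give commuting automorphisms of `U` and conversely if `N` has one element -/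
theorem comm_U (hl : Lat b l t L₀) {hst : ∀ g, ∀ x ∈ L₀, ρ g *ᵥ x ∈ L₀}
    (hs : SplS (OE E) (actN l 1 (fun g => ρ g) hst) (bN hl 1) aU bU aN hN Φ) {g k : AbsGal K}
    (hgk : ρ (g * k) = ρ (k * g)) (y : U) : aU (g * k) y = aU (k * g) y := by
  have h1 : ∀ m : MN L₀ l 1, actN l 1 (fun g => ρ g) hst (g * k) m =
      actN l 1 (fun g => ρ g) hst (k * g) m := fun m => by
    apply Subtype.ext
    rw [GP.coe_actN, GP.coe_actN]
    show actQ L₀ (ρ (g * k)) _ = actQ L₀ (ρ (k * g)) _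
    rw [hgk]
  have h2 := spl_U hs (g * k) (Φ.symm (y, 0, 0))
  have h3 := spl_U hs (k * g) (Φ.symm (y, 0, 0))
  rw [h1, h3, Φ.apply_symm_apply] at h2
  exact h2.symm

/-- the data of tame inertia for the smaller system -/
theorem tame_big {Q : Ideal (𝓞 (AlgebraicClosure K))} {a : stb Q → ℤ_[2]} {σ τ : stb Q} {q : ℕ}
    {J : Subgroup (stb Q)}
    (hT : TameF (fullC (stb Q)) (fun d : stb Q => cyQ (d : AlgebraicClosure K ≃+* AlgebraicClosure K))
      a σ τ q J) (N : Subgroup (stb Q)) :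
    TameF (big (fullC (stb Q)) N)
      (fun d : stb Q => cyQ (d : AlgebraicClosure K ≃+* AlgebraicClosure K)) a σ τ q J := by
  refine hT.mono (fun W hW => ?_) (RQ.char_big hT.char N)
  obtain ⟨hn, ⟨W₁, ⟨⟨s, hs⟩, -, hi⟩, hle⟩, -⟩ := hW
  exact ⟨⟨s, fun g hg => hle (hs g hg)⟩, hn, fun h0 =>
    hi (Nat.eq_zero_of_zero_dvd (h0 ▸ Subgroup.index_dvd_of_le hle))⟩

/-- THE CONTRIBUTION OF AN INERT PRIME NUMBER, in terms of the coordinates of `U` and of the full system of
subgroups. -/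
theorem locFS_inr1 (I : Inst.{u, w} s c κ D T P N₀ iv ivF tr) (h : Ari s c κ D T P N₀)
    (hρ : Gn.ConjDual 2 N₀ (inT K T) (Parity.cyclo E) κ ρ b) (hl : Lat b l t L₀)
    (hst : ∀ g, ∀ x ∈ L₀, ρ g *ᵥ x ∈ L₀)
    (hs : SplS (OE E) (actN l 1 (fun g => ρ g) hst) (bN hl 1) aU bU aN hN Φ)
    (hC : InvC κ (OE E) aU bU C)
    (hL : L ≤ Parity.cocycles (fun σ : stabD (K := K) (P 2) => ρ σ))
    (hL0 : Parity.coboundaries (fun σ : stabD (K := K) (P 2) => ρ σ) ≤ L) {p : T} (hp : GA.Inr D p)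
    {δ : ℕ}
    (hδ : ∀ (m : ℕ) (_ : Sy (IsLocalRing.ResidueField (OE E)) m)
      (Lc : U ≃+ (Fin m → IsLocalRing.ResidueField (OE E)))
      (A : (AlgebraicClosure K ≃+* AlgebraicClosure K) →*
        Matrix (Fin m) (Fin m) (IsLocalRing.ResidueField (OE E))),
      Crd (iK K) c (OE E) aU bU C Lc A →
      ∀ (a : stb (P p) → ℤ_[2]) (σ τ τ' : stb (P p)),
        TameF (fullC (stb (P p)))
          (fun d : stb (P p) => cyQ (d : AlgebraicClosure K ≃+* AlgebraicClosure K)) a σ τ p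
          ((inr (P p)).subgroupOf (stb (P p))) →
        τ' ∈ (inr (P p)).subgroupOf (stb (P p)) → PadicInt.toZMod (a τ') = 1 →
        Even (Module.finrank (IsLocalRing.ResidueField (OE E)) (fixv (A τ')) +
          Module.finrank (IsLocalRing.ResidueField (OE E))
            (fixS (A.comp (stb (P p)).subtype) ((inr (P p)).subgroupOf (stb (P p)))) +
          Module.finrank E (EV.VI (iK K) (stb (P p)).subtype ((inr (P p)).subgroupOf (stb (P p)))
            (fun g => ρ g)) + δ)) :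
    LocFS c κ P N₀ ivF aU bU aN hN Φ C (some (some p)) (famL c κ T P N₀ ρ b h.h2 L (some (some p)))
      δ := by
  have hfin : Finite (MN L₀ l 1) := GP.MN_finite hl 1
  have hsd := sdual_M I h hρ hl hst
  have hU := sdualU hs hsd
  have hpl := plQ I (some (some p))
  have hlag := lag_fam I h hρ hl hst hL hL0 (some (some p))
  have hNn : ((N₀.map (iK K)).subgroupOf (stb (P p))).Normal := by
    have := I.norQ
    infer_instance
  obtain ⟨a, σ, τ, hT0⟩ := QL.exists_tameQ (HP.alg_closure K) (I.prime p) (I.odd p) (I.isPrime p)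
    (I.natMem p)
  have hT := tame_big hT0 ((N₀.map (iK K)).subgroupOf (stb (P p)))
  have hI : ∀ i ∈ (inr (P p)).subgroupOf (stb (P p)), ∃ g, iK K g = (stb (P p)).subtype i :=
    fun i hi => I.le_inr hp.2.2.1 hi
  have hεI : ∀ d ∈ (inr (P p)).subgroupOf (stb (P p)), ep (iK K) ((stb (P p)).subtype d) = 0 :=
    fun d hd => I.e_inr hp.2.2.1 hd
  obtain ⟨d₁, hd₁⟩ := I.e_inert hp
  obtain ⟨ψ, hψ, hψI, hv⟩ := exists_psi I.qdat p (I.locF (some p)) (I.ehoms' (stb (P p))) hεI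
    ⟨d₁, by rw [show ep (iK K) (d₁ : AlgebraicClosure K ≃+* AlgebraicClosure K) = 1 from hd₁]; exact one_ne_zero⟩
  have hq := h.qrep hρ hl hst I.glob.glob.char.mul
  have hr := QW.locRep_res hq.rep (GA.jsmQ c P (N₀.map (iK K)) (some (some p)))
  -- the action on the level one
  have hqm := hpl.qm hsd
  have hact0 : ∀ (d : stb (P p)) (m : MN (T2 L₀) l 1),
      (isoN L₀ l 1).toAddEquiv (actN l 1 (fun d : stb (P p) => rho2 (iK K) c κ (fun g => ρ g) d)
        hr.st d m) = ac2 (iK K) c κ (actN l 1 (fun g => ρ g) hst) d ((isoN L₀ l 1).toAddEquiv m) :=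
    fun d m => iso_act I.isTwo hst hq.rep.st _ m
  have hqN := (QV.qm_N hq I.glob.glob.char 1).comp (GA.jsmQ c P (N₀.map (iK K)) (some (some p)))
  have act0 : IsAct (actN l 1 (fun d : stb (P p) => rho2 (iK K) c κ (fun g => ρ g) d) hr.st) :=
    hqN.act
  have lin0 : ∀ (g : stb (P p)) (a : OE E) (m : MN (T2 L₀) l 1),
      actN l 1 (fun d : stb (P p) => rho2 (iK K) c κ (fun g => ρ g) d) hr.st g (a • m) =
        a • actN l 1 (fun d : stb (P p) => rho2 (iK K) c κ (fun g => ρ g) d) hr.st g m :=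
    hqN.lin
  obtain ⟨W, hW, hW1⟩ := GA.jsmQ c P (N₀.map (iK K)) (some (some p)) _ I.memQ
  have hinQ := EV.inert_Q (e := iK K) (κ := κ) (c := c) (HP.alg_closure K) (I.prime p) (I.odd p)
    (I.isPrime p) (I.natMem p) hNn (I.opnL (some p)) I.isTwo hl hst hr hI hW (fun d hd => by
      obtain ⟨g, -, hg⟩ := hW1 d hd
      exact ⟨g, hg⟩) ⟨d₁, fun h1 => by
        exact one_ne_zero (hd₁.symm.trans ((ep_zero _).2 h1))⟩ act0
  have e1 := card_zur_tra (T := big (fullC (stb (P p))) ((N₀.map (iK K)).subgroupOf (stb (P p))))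
    (In := (inr (P p)).subgroupOf (stb (P p))) (siso_iso L₀ l) hact0 act0 lin0 hqm.act hqm.lin
    (lamN (T2 L₀) l 1 (famL c κ T P N₀ ρ b h.h2 L (some (some p))))
  have e2 := rel_card (zur (big (fullC (stb (P p))) ((N₀.map (iK K)).subgroupOf (stb (P p))))
    ((inr (P p)).subgroupOf (stb (P p))) act0)
    (lamN (T2 L₀) l 1 (famL c κ T P N₀ ρ b h.h2 L (some (some p)))).toAddSubgroup
  obtain ⟨g₀, hg₀⟩ := hI τ hT.τI
  obtain ⟨f, hf⟩ := pow_fix1 (O := OE E) hU.act hU.lin g₀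
  obtain ⟨v, hv'⟩ := pow_fixI (O := OE E) (e := iK K) (jp := (stb (P p)).subtype)
    (In := (inr (P p)).subgroupOf (stb (P p))) hU.act hU.lin
  have key := locS_inert (C := C) hpl hsd hs hT hI (fun g h => hψ.2.2 g trivial h trivial)
    (homs_sm1 hψ _) hψI hv hT.τI (by rw [hT.τa, map_one]) hlag (by
      rw [card_YM]
      exact (congrArg (· * _) e1).trans e2) hinQ hg₀ hf hv'
  refine locS_congr ?_ key
  obtain ⟨m, iS, Lc, A, hc⟩ := exists_crd_res I.isTwo
    (fun g => by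
      rw [← Inst.chi]
      exact I.glob.glob.char.odd _) (fun a ha y => max_U Φ hl a ha y) hU hC
  have h5 := hδ m iS Lc A hc a σ τ τ hT0 hT.τI (by rw [hT.τa, map_one])
  rw [fixI_crd hc hI hv'] at h5
  have h6 := fix1_crd hc hf
  rw [hg₀] at h6
  rw [show (A (τ : AlgebraicClosure K ≃+* AlgebraicClosure K)) = A ((stb (P p)).subtype τ) from rfl,
    h6] at h5
  obtain ⟨x, hx⟩ := h5
  refine ⟨x, ?_⟩
  rw [← hx]
  show f + (v + Module.finrank E (EV.VI (iK K) (stb (P p)).subtype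
    ((inr (P p)).subgroupOf (stb (P p))) (fun g => ρ g))) + δ = _
  rw [← add_assoc f v]

/-- THE CONTRIBUTION OF AN INERT PRIME NUMBER, in terms of the coordinates of `U`. -/
theorem locFS_inr (I : Inst.{u, w} s c κ D T P N₀ iv ivF tr) (h : Ari s c κ D T P N₀)
    (hρ : Gn.ConjDual 2 N₀ (inT K T) (Parity.cyclo E) κ ρ b) (hl : Lat b l t L₀)
    (hst : ∀ g, ∀ x ∈ L₀, ρ g *ᵥ x ∈ L₀)
    (hs : SplS (OE E) (actN l 1 (fun g => ρ g) hst) (bN hl 1) aU bU aN hN Φ)
    (hC : InvC κ (OE E) aU bU C)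
    (hL : L ≤ Parity.cocycles (fun σ : stabD (K := K) (P 2) => ρ σ))
    (hL0 : Parity.coboundaries (fun σ : stabD (K := K) (P 2) => ρ σ) ≤ L) {p : T} (hp : GA.Inr D p)
    {δ : ℕ}
    (hδ : ∀ (m : ℕ) (_ : Sy (IsLocalRing.ResidueField (OE E)) m)
      (Lc : U ≃+ (Fin m → IsLocalRing.ResidueField (OE E)))
      (A : (AlgebraicClosure K ≃+* AlgebraicClosure K) →*
        Matrix (Fin m) (Fin m) (IsLocalRing.ResidueField (OE E))),
      Crd (iK K) c (OE E) aU bU C Lc A →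
      ∀ (a : stb (P p) → ℤ_[2]) (σ τ τ' : stb (P p)),
        TameF (big (fullC (stb (P p))) ((N₀.map (iK K)).subgroupOf (stb (P p))))
          (fun d : stb (P p) => cyQ (d : AlgebraicClosure K ≃+* AlgebraicClosure K)) a σ τ p
          ((inr (P p)).subgroupOf (stb (P p))) →
        τ' ∈ (inr (P p)).subgroupOf (stb (P p)) → PadicInt.toZMod (a τ') = 1 →
        Even (Module.finrank (IsLocalRing.ResidueField (OE E)) (fixv (A τ')) +
          Module.finrank (IsLocalRing.ResidueField (OE E))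
            (fixS (A.comp (stb (P p)).subtype) ((inr (P p)).subgroupOf (stb (P p)))) +
          Module.finrank E (EV.VI (iK K) (stb (P p)).subtype ((inr (P p)).subgroupOf (stb (P p)))
            (fun g => ρ g)) + δ)) :
    LocFS c κ P N₀ ivF aU bU aN hN Φ C (some (some p)) (famL c κ T P N₀ ρ b h.h2 L (some (some p)))
      δ := by
  exact locFS_inr1 I h hρ hl hst hs hC hL hL0 hp fun m iS Lc A hc a σ τ τ' hT =>
    hδ m iS Lc A hc a σ τ τ' (tame_big hT _)

end Pool.Agent.Work.MP_787500_nt.KJ
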