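import Mathlib
import Pool.Agent.Work.MP_787500_nt.ER.Rep
import Pool.Agent.Work.MP_787500_nt.ER.YGen
import Pool.Agent.Work.MP_787500_nt.ER.Alt
import Pool.Agent.Work.MP_787500_nt.ER.LamA
import Pool.Agent.Work.MP_787500_nt.KJ.Defs
import Pool.Agent.Work.MP_787500_nt.QL.LagQ

/-!
# Block KJ, places over `D` (definitions, fixed, do not change)

`M` is a self-dual module WITHOUT an involution. At a ramified place (`TameF`, `e s = jp σ`, `e θ * c = jp τ`) the quadratic function of a cocycle `x` with values in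
`M × M` is a quadratic form in the values `u = (x σ).1`, `v = (x (τ τ)).1`:
`b (a v) (κ(θ) u) + b (a u) (κ(θ) u) + ((q ^ 2 - 1) / 8) b (a v) (κ(θ) v)`.

* `gO`: the values `(u, v)`; `pZ`: the plane `{(Z m, m)}`.
* `QB`, `BB`, `LZ`: the quadratic form of a bilinear form `β` over the residue field, its polar form, the plane `{(Z m, m)}`.
* `GForm`: `β x y = β (g y) x`, `g² = 1`; `GPlane`: the conditions on `Z`.
* `LinkB`, `LinkG`: the relation with the lattice.
* `actD`, `bD`, `swD`, `inD`: the module `M × M` with the action `(g, κ g)` and the involution that exchanges the components; the inclusion of `M`.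
* `zM`, `APlane`: the reference map for `M = U × N × N` and its properties.
* `redU`: the reduction of a condition for `M × M` to a condition for `U × U`.
-/

set_option autoImplicit false
set_option linter.unusedSectionVars false

namespace Pool.Agent.Work.MP_787500_nt.KJ

open Matrix
open Pool.Agent.Work.MP_787500_nt.GP (A0 pr0 OE MN bil IsAct)
open Pool.Agent.Work.MP_787500_nt.KS (hfT)
open Pool.Agent.Work.MP_787500_nt.ER (Rq cl)

section forms

variable {F : Type*} [Field F] {W : Type*} [AddCommGroup W] [Module F W]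

/-- the quadratic form on `W × W` -/
def QB (β : LinearMap.BilinForm F W) (l : ℕ) (p : W × W) : F :=
  β p.2 p.1 + β p.1 p.1 + cl F l * β p.2 p.2

/-- its polar form -/
noncomputable def BB (β : LinearMap.BilinForm F W) (l : ℕ) : LinearMap.BilinForm F (W × W) :=
  LinearMap.mk₂ F (fun p q => β p.2 q.1 + β q.2 p.1 + (β p.1 q.1 + β q.1 p.1) +
      cl F l * (β p.2 q.2 + β q.2 p.2))
    (fun p p' q => by
      simp only [Prod.fst_add, Prod.snd_add, map_add, LinearMap.add_apply]
      ring)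
    (fun a p q => by
      simp only [Prod.smul_fst, Prod.smul_snd, map_smul, LinearMap.smul_apply, smul_eq_mul]
      ring)
    (fun p q q' => by
      simp only [Prod.fst_add, Prod.snd_add, map_add, LinearMap.add_apply]
      ring)
    (fun a p q => by
      simp only [Prod.smul_fst, Prod.smul_snd, map_smul, LinearMap.smul_apply, smul_eq_mul]
      ring)

theorem BB_apply (β : LinearMap.BilinForm F W) (l : ℕ) (p q : W × W) :
    BB β l p q = β p.2 q.1 + β q.2 p.1 + (β p.1 q.1 + β q.1 p.1) +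
      cl F l * (β p.2 q.2 + β q.2 p.2) := rfl

/-- the plane `{(Z m, m)}` -/
def LZ (Z : W →ₗ[F] W) : Submodule F (W × W) := LinearMap.range (Z.prod LinearMap.id)

theorem mem_LZ {Z : W →ₗ[F] W} {p : W × W} : p ∈ LZ Z ↔ p.1 = Z p.2 := by
  constructor
  · rintro ⟨m, rfl⟩
    rfl
  · intro h
    exact ⟨p.2, Prod.ext h.symm rfl⟩

/-- the form of a self-dual module at a ramified place -/
structure GForm (β : LinearMap.BilinForm F W) (g : W →ₗ[F] W) : Prop where
  nd : ∀ x, (∀ y, β x y = 0) → x = 0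
  sy : ∀ x y, β x y = β (g y) x
  gg : ∀ x, g (g x) = x

/-- the conditions on the reference plane -/
structure GPlane (β : LinearMap.BilinForm F W) (g : W →ₗ[F] W) (l : ℕ) (Z : W →ₗ[F] W) : Prop where
  q : ∀ m, QB β l (Z m, m) = 0
  alt : ∀ m, g m = m → β (Z m) m = 0

end forms

section lat

variable {E : Type*} [NormedField E] [NormedAlgebra ℚ_[2] E] {m n : ℕ} {l : OE E}
  {T : Submodule (OE E) (Fin m → E)} {F : Type*} [Field F] [Algebra (OE E) F]

/-- the form `β` is the reduction of `b (x, K y)` -/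
def LinkB [Finite F] [Algebra (ZMod 2) F] (L : MN T l 1 ≃+ (Fin n → F))
    (b : Matrix (Fin m) (Fin m) E) (t : E →ₗ[ℚ_[2]] ℚ_[2]) (K : Matrix (Fin m) (Fin m) E)
    (β : LinearMap.BilinForm F (Fin n → F)) : Prop :=
  ∀ x y u v, Rq L x u → Rq L y v → hfT (β u v) = pr0 (t ((l : E) * bil b x (K *ᵥ y)))

/-- `g` is the reduction of `1 + N` -/
def LinkG (L : MN T l 1 ≃+ (Fin n → F)) (N : Matrix (Fin m) (Fin m) E)
    (g : (Fin n → F) →ₗ[F] (Fin n → F)) : Prop :=
  ∀ x u, Rq L x u → Rq L (x + N *ᵥ x) (g u)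

end lat

section mods

variable {O : Type*} [CommRing O] {M U N : Type*} [AddCommGroup M] [Module O M] [AddCommGroup U]
  [Module O U] [AddCommGroup N] [Module O N] {P : Type*} [Group P] {G : Type*} [Group G]

/-- the values of the first components at `σ` and `τ²` -/
def gO (O : Type*) [CommRing O] {M : Type*} [AddCommGroup M] [Module O M] {P : Type*} [Group P]
    (σ τ : P) : (P → M × M) →ₗ[O] M × M where
  toFun x := ((x σ).1, (x (τ * τ)).1)
  map_add' _ _ := rfl
  map_smul' _ _ := rfl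

theorem gO_apply (σ τ : P) (x : P → M × M) : gO O σ τ x = ((x σ).1, (x (τ * τ)).1) := rfl

/-- the plane `{(Z m, m)}` -/
def pZ (Z : M →ₗ[O] M) : Submodule O (M × M) := LinearMap.range (Z.prod LinearMap.id)

theorem mem_pZ {Z : M →ₗ[O] M} {p : M × M} : p ∈ pZ Z ↔ p.1 = Z p.2 := by
  constructor
  · rintro ⟨m, rfl⟩
    rfl
  · intro h
    exact ⟨p.2, Prod.ext h.symm rfl⟩

/-- the action on `M × M` by `g` and `κ g` -/
def actD (κ : G →* G) (act : G → M → M) : G → M × M → M × M := fun g v => (act g v.1, act (κ g) v.2)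

/-- the form on `M × M` -/
noncomputable def bD (b : M →+ M →+ A0) : (M × M) →+ (M × M) →+ A0 :=
  AddMonoidHom.mk' (fun v => (b v.1).comp (AddMonoidHom.fst M M) + (b v.2).comp (AddMonoidHom.snd M M))
    fun v w => by
      refine DFunLike.ext _ _ fun x => ?_
      show b (v.1 + w.1) x.1 + b (v.2 + w.2) x.2 = b v.1 x.1 + b v.2 x.2 + (b w.1 x.1 + b w.2 x.2)
      rw [map_add, map_add, AddMonoidHom.add_apply, AddMonoidHom.add_apply]
      abel

theorem bD_apply (b : M →+ M →+ A0) (v w : M × M) : bD b v w = b v.1 w.1 + b v.2 w.2 := rfl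

/-- the involution -/
def swD (v : M × M) : M × M := (v.2, v.1)

/-- the inclusion of `M × M` in the square of the double -/
def inD (v : M × M) : (M × M) × (M × M) := ((v.1, 0), (v.2, 0))

/-- the reduction of a condition for `M × M` to `U × U` -/
def redU (Φ : M ≃ₗ[O] U × N × N) (Y : Submodule O (P → M × M)) (YN : Submodule O (P → N × N)) :
    Submodule O (P → U × U) where
  carrier := {u | ∃ y ∈ YN, ∃ z ∈ YN, mk3 Φ u y z ∈ Y}
  add_mem' := by
    rintro u u' ⟨y, hy, z, hz, h⟩ ⟨y', hy', z', hz', h'⟩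
    refine ⟨y + y', YN.add_mem hy hy', z + z', YN.add_mem hz hz', ?_⟩
    have e : mk3 Φ (u + u') (y + y') (z + z') = mk3 Φ u y z + mk3 Φ u' y' z' := by
      funext d
      simp only [mk3, Pi.add_apply, Prod.fst_add, Prod.snd_add, ← Prod.mk_add_mk, map_add]
    rw [e]
    exact Y.add_mem h h'
  zero_mem' := by
    refine ⟨0, YN.zero_mem, 0, YN.zero_mem, ?_⟩
    have e : mk3 Φ (0 : P → U × U) (0 : P → N × N) 0 = 0 := by
      funext d
      simp only [mk3, Pi.zero_apply, Prod.fst_zero, Prod.snd_zero, Prod.mk_zero_zero, map_zero]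
    rw [e]
    exact Y.zero_mem
  smul_mem' := by
    rintro a u ⟨y, hy, z, hz, h⟩
    refine ⟨a • y, YN.smul_mem a hy, a • z, YN.smul_mem a hz, ?_⟩
    have e : mk3 Φ (a • u) (a • y) (a • z) = a • mk3 Φ u y z := by
      funext d
      simp only [mk3, Pi.smul_apply, Prod.smul_fst, Prod.smul_snd, ← Prod.smul_mk, map_smul]
    rw [e]
    exact Y.smul_mem a h

theorem mem_redU {Φ : M ≃ₗ[O] U × N × N} {Y : Submodule O (P → M × M)}
    {YN : Submodule O (P → N × N)} {u : P → U × U} :
    u ∈ redU Φ Y YN ↔ ∃ y ∈ YN, ∃ z ∈ YN, mk3 Φ u y z ∈ Y := Iff.rfl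

/-- the reference map for `M = U × N × N` -/
def zM (Φ : M ≃ₗ[O] U × N × N) (ZU : U →ₗ[O] U) (gN : N →ₗ[O] N) (c₀ : ℕ) : M →ₗ[O] M :=
  Φ.symm.toLinearMap ∘ₗ
    (ZU.prodMap ((c₀ • gN).prodMap (c₀ • (LinearMap.id : N →ₗ[O] N)))) ∘ₗ Φ.toLinearMap

theorem zM_apply (Φ : M ≃ₗ[O] U × N × N) (ZU : U →ₗ[O] U) (gN : N →ₗ[O] N) (c₀ : ℕ) (m : M) :
    zM Φ ZU gN c₀ m = Φ.symm (ZU (Φ m).1, c₀ • gN (Φ m).2.1, c₀ • (Φ m).2.2) := rfl

/-- The conditions on the reference map, with values in `A0`: `k` is the action of `κ θ`, `g` the action of `θ (κ θ)`. -/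
structure APlane (O : Type*) [CommRing O] {M : Type*} [AddCommGroup M] [Module O M]
    (b : M →+ M →+ A0) (k g : M → M) (c₀ : ℕ) (Z : M → M) : Prop where
  q : ∀ (a : O) m, b (a • m) (k (Z m)) + b (a • Z m) (k (Z m)) + c₀ • b (a • m) (k m) = 0
  alt : ∀ (a : O) m, g m = m → b (a • Z m) (k m) = 0

end mods

end Pool.Agent.Work.MP_787500_nt.KJ
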