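import Mathlib
import Pool.Agent.Work.MP_787500_nt.KJ.RDefs

/-!
# KJ/RForm (size S): the quadratic form `QB` of a form `β` with `β x y = β (g y) x`, `g² = 1`

* `polarB`, `BB_symm`: expand (`BB_apply`).
* `BB_nd`: let `BB p p' = 0` for all `p'`. `p' = (u', 0)`: `β (p.2 + p.1 + g p.1) u' = 0` (`sy`), so `p.2 = p.1 + g p.1`; `p' = (0, v')`: `β (g p.1 + cl (p.2 + g p.2)) v' = 0`;
  `p.2 + g p.2 = p.1 + g (g p.1) = 0` (characteristic 2, `gg`), so `g p.1 = 0`, `p.1 = 0`.
* `finrank_LZ`, `QB_LZ`: see `mem_LZ`; models `ER.finrank_LX`, `ER.QX_LX`.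
-/

set_option autoImplicit false
set_option linter.unusedSectionVars false

namespace Pool.Agent.Work.MP_787500_nt.KJ

open Matrix
open Pool.Agent.Work.MP_787500_nt.GP (A0 pr0 OE MN Wq mq mq_add mq_sub mq_smul mq_eq mq_eq_zero lft mq_lft
  bil bil_add_left bil_add_right bil_sub_left bil_sub_right bil_smul_left bil_smul_right bil_symm Lat
  lamN bN bN_val actN actQ actQ_mq IsAct d0 tw cup11)
open Pool.Agent.Work.MP_787500_nt.KR (FSys Sm1 Sm2 IsChar Smooth Z1 Z2 B2 LocH Pair LDual LocRep SDualF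
  sdualF_MN)
open Pool.Agent.Work.MP_787500_nt.KS (hfT hfT_nondeg ep)
open Pool.Agent.Work.MP_787500_nt.KT (Sy ee IsSp)
open Pool.Agent.Work.MP_787500_nt.QL (TameF zurM)
open Pool.Agent.Work.MP_787500_nt.QS (Two ac2 be2 la2 Lag QM pB Zq)
open Pool.Agent.Work.MP_787500_nt.QP (InvC)
open Pool.Agent.Work.MP_787500_nt.KI (SIso Crd PlQ LY LVal R1 Y2 tra siso_f2 bC YM)
open Pool.Agent.Work.MP_787500_nt.RC (SplS)
open Pool.Agent.Work.MP_787500_nt.ER (Rq rq_mem exists_rq rq_unique finrank_imW card_n imW kerN ranN W5 Lam2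
  LamP BT LinkX TR LX QX BX cl gv gY mem_Lam2 mem_imW)

universe v

variable {F : Type*} [Field F] {W : Type*} [AddCommGroup W] [Module F W]
  {β : LinearMap.BilinForm F W} {g Z : W →ₗ[F] W} {l : ℕ}

theorem polarB (β : LinearMap.BilinForm F W) (l : ℕ) (p p' : W × W) :
    QB β l (p + p') = QB β l p + QB β l p' + BB β l p p' := by
  simp only [QB, BB_apply, Prod.fst_add, Prod.snd_add, map_add, LinearMap.add_apply]
  ring

theorem BB_symm (β : LinearMap.BilinForm F W) (l : ℕ) (p p' : W × W) :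
    BB β l p p' = BB β l p' p := by
  simp only [BB_apply]
  ring

theorem BB_nd [CharP F 2] (h : GForm β g) (l : ℕ) {p : W × W} (hp : ∀ p', BB β l p p' = 0) :
    p = 0 := by
  obtain ⟨x, y⟩ := p
  have h2 : ∀ w : W, w + w = 0 := fun w => by
    rw [← two_smul F w, CharTwo.two_eq_zero, zero_smul]
  have h1 : y + x + g x = 0 := by
    refine h.nd _ fun u => ?_
    have e1 := hp (u, 0)
    rw [BB_apply] at e1
    simp only [map_zero, LinearMap.zero_apply, add_zero, mul_zero, h.sy u x] at e1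
    rw [map_add, map_add, LinearMap.add_apply, LinearMap.add_apply, ← e1]
    ring
  have h3 : g x + cl F l • (y + g y) = 0 := by
    refine h.nd _ fun v => ?_
    have e1 := hp (0, v)
    rw [BB_apply] at e1
    simp only [map_zero, LinearMap.zero_apply, add_zero, zero_add, h.sy v x, h.sy v y] at e1
    rw [map_add, map_smul, map_add, LinearMap.add_apply, LinearMap.smul_apply,
      LinearMap.add_apply, smul_eq_mul, ← e1]
  have h4 : y = x + g x := by
    have e1 : y = (y + x + g x) + (x + g x) := by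
      have e2 : (y + x + g x) + (x + g x) = y + ((x + g x) + (x + g x)) := by abel
      rw [e2, h2, add_zero]
    rw [e1, h1, zero_add]
  have h5 : y + g y = 0 := by
    rw [h4, map_add, h.gg, add_comm (g x) x, h2]
  rw [h5, smul_zero, add_zero] at h3
  have h6 : x = 0 := by rw [← h.gg x, h3, map_zero]
  rw [h6, map_zero, add_zero] at h4
  rw [h6, h4]
  rfl

theorem finrank_LZ (Z : W →ₗ[F] W) : Module.finrank F (LZ Z) = Module.finrank F W := by
  unfold LZ
  exact LinearMap.finrank_range_of_inj fun x y h => congrArg Prod.snd h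

theorem QB_LZ (h : GPlane β g l Z) : ∀ p ∈ LZ Z, QB β l p = 0 := by
  rintro _ ⟨m, rfl⟩
  exact h.q m

end Pool.Agent.Work.MP_787500_nt.KJ
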