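import Mathlib
import Pool.Agent.Work.MP_787500_nt.KJ.RDefs

/-!
# KJ/RDbl (size M): the double `M × M` of a self-dual module, with an involution

`κ (κ g) = g` is `Two.kk`. `QS/KQ.lean`: `ac2`, `la2`, `Two.ac_e`, `Two.ac_ec`, `Two.la_e` (use them after `X.cases σ`; for `la2` at `e g * c` unfold with `if_neg`, see `la_cv` in ER/LocI).
* `sdualD`: `eqv`: `b (κ g y) (κ κ g y') = χ g • b y y'`: use `symm` and `eqv g` (`b (κ g y) (g y') = b (g y') (κ g y)`); `sm`: `hs.sm` and `ks`; `nd`: `(x, 0)`, `(0, y)`.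
* `invD`: `alt`: `b (a x) y + b (a y) x = b (a x) y + b (a x) y = b (a x + a x) y = 0` (`symm`, `bal`).
* `ac2_inD`, `be2_inD`, `la2_inD`, `z1_inD`, `zq_inD`: the inclusion `inD` is compatible.
-/

set_option autoImplicit false
set_option linter.unusedSectionVars false

namespace Pool.Agent.Work.MP_787500_nt.KJ

open Matrix
open Pool.Agent.Work.MP_787500_nt.GP (A0 pr0 OE MN Wq mq mq_add mq_sub mq_smul mq_eq mq_eq_zero lft mq_lft
  bil bil_add_left bil_add_right bil_sub_left bil_sub_right bil_smul_left bil_smul_right bil_symm Lat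
  lamN bN bN_val actN actQ actQ_mq IsAct d0 tw cup11)
open Pool.Agent.Work.MP_787500_nt.KR (FSys Sm1 Sm2 IsChar Smooth Z1 Z2 B2 LocH Pair LDual LocRep SDualF
  sdualF_MN)
open Pool.Agent.Work.MP_787500_nt.KS (hfT hfT_nondeg ep)
open Pool.Agent.Work.MP_787500_nt.KT (Sy ee IsSp)
open Pool.Agent.Work.MP_787500_nt.QL (TameF zurM)
open Pool.Agent.Work.MP_787500_nt.QS (Two ac2 be2 la2 Lag QM pB Zq)
open Pool.Agent.Work.MP_787500_nt.QP (InvC)
open Pool.Agent.Work.MP_787500_nt.KI (SIso Crd PlQ LY LVal R1 Y2 tra siso_f2 bC YM)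
open Pool.Agent.Work.MP_787500_nt.RC (SplS)
open Pool.Agent.Work.MP_787500_nt.ER (Rq rq_mem exists_rq rq_unique finrank_imW card_n imW kerN ranN W5 Lam2
  LamP BT LinkX TR LX QX BX cl gv gY mem_Lam2 mem_imW)

universe v

variable {G Γ : Type*} [Group G] [Group Γ] {S : FSys G} {Sq : FSys Γ} {χ : G → ℤ_[2]}
  {χq : Γ → ℤ_[2]} {e : G →* Γ} {c : Γ} {κ : G →* G} {P : Type*} [Group P] {TP : FSys P}
  {jp : P →* Γ} {iv : (P → P → A0) → A0} {a : P → ℤ_[2]} {σ τ : P} {q : ℕ} {In : Subgroup P}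
  {θ s : G} {Θ : Set (G × G)}

variable {O : Type*} [CommRing O] {M : Type*} [AddCommGroup M] [Module O M] {act : G → M → M}
  {b : M →+ M →+ A0}

private theorem act0 (ha : IsAct act) (g : G) : act g 0 = 0 := by
  have h := ha.add g 0 0
  rw [add_zero] at h
  exact left_eq_add.1 h

theorem sdualD (hkk : ∀ g, κ (κ g) = g)
    (ks : ∀ W, S.mem W → ∃ W', S.mem W' ∧ ∀ v ∈ W', κ v ∈ W) (hs : SDualF S χ κ Θ O act b) :
    SDualF S χ κ ∅ O (actD κ act) (bD b) where
  act :=
    { one := fun m => by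
        unfold actD
        rw [map_one, hs.act.one, hs.act.one]
      mul := fun g h m => by
        unfold actD
        rw [map_mul, hs.act.mul, hs.act.mul]
      add := fun g m m' => by
        unfold actD
        rw [Prod.fst_add, Prod.snd_add, hs.act.add, hs.act.add, Prod.mk_add_mk] }
  lin g a m := by
    unfold actD
    rw [Prod.smul_fst, Prod.smul_snd, hs.lin, hs.lin, Prod.smul_mk]
  sm := by
    obtain ⟨W, hW, h1⟩ := hs.sm
    obtain ⟨W', hW', h2⟩ := ks W hW
    refine ⟨W ⊓ W', S.inf hW hW', fun w hw m => ?_⟩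
    unfold actD
    rw [h1 w hw.1, h1 (κ w) (h2 w hw.2)]
  symm m m' := by
    rw [bD_apply, bD_apply, hs.symm m.1, hs.symm m.2]
  bal a m m' := by
    rw [bD_apply, bD_apply, Prod.smul_fst, Prod.smul_snd, Prod.smul_fst, Prod.smul_snd, hs.bal,
      hs.bal]
  eqv g m m' := by
    rw [bD_apply, bD_apply, smul_add]
    unfold actD
    rw [hs.eqv, hkk]
    congr 1
    show b (act (κ g) m.2) (act g m'.2) = χ g • b m.2 m'.2
    rw [hs.symm, hs.eqv, hs.symm]
  nd m hm := by
    refine Prod.ext (hs.nd _ fun m' => ?_) (hs.nd _ fun m' => ?_)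
    · have h := hm (m', 0)
      rw [bD_apply, map_zero, add_zero] at h
      exact h
    · have h := hm (0, m')
      rw [bD_apply, map_zero, zero_add] at h
      exact h
  alt p hp := absurd hp (Set.notMem_empty p)

theorem invD (hkk : ∀ g, κ (κ g) = g) (h2 : ∀ m : M, m + m = 0) (hs : SDualF S χ κ Θ O act b) :
    InvC κ O (actD κ act) (bD b) swD where
  add _ _ := rfl
  lin _ _ := rfl
  sq _ := rfl
  kap g m := by
    unfold actD swD
    rw [hkk]
  alt a m := by
    rw [bD_apply]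
    unfold swD
    show b (a • m.1) m.2 + b (a • m.2) m.1 = 0
    rw [hs.symm (a • m.2) m.1, ← hs.bal, ← AddMonoidHom.add_apply, ← map_add, h2, map_zero,
      AddMonoidHom.zero_apply]

theorem ac2_inD (X : Two e c κ) (ha : IsAct act) (g : Γ) (v : M × M) :
    ac2 e c κ (actD κ act) g (inD v) = inD (ac2 e c κ act g v) := by
  rcases X.cases g with ⟨g, rfl⟩ | ⟨g, rfl⟩
  · rw [X.ac_e, X.ac_e]
    unfold actD inD
    simp only [act0 ha]
  · rw [X.ac_ec, X.ac_ec]
    unfold actD inD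
    simp only [act0 ha]

theorem be2_inD (v w : M × M) : be2 (bD b) (inD v) (inD w) = be2 b v w := by
  show bD b (v.1, 0) (w.2, 0) = b v.1 w.2
  rw [bD_apply, map_zero, add_zero]

theorem la2_inD (X : Two e c κ) (ha : IsAct act) (x : O) (g : Γ) (v : M × M) :
    la2 e c κ (actD κ act) (bD b) x g (inD v) = la2 e c κ act b x g v := by
  rcases X.cases g with ⟨g, rfl⟩ | ⟨g, rfl⟩
  · rw [X.la_e, X.la_e]
  · rw [X.la_ec, X.la_ec, bD_apply]
    unfold actD inD
    simp only [Prod.smul_fst, Prod.smul_snd, act0 ha, map_zero, add_zero]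

private theorem inD_inj {v w : M × M} (h : inD v = inD w) : v = w :=
  Prod.ext (congrArg (fun p => p.1.1) h) (congrArg (fun p => p.2.1) h)

private theorem inD_add (v w : M × M) : inD (v + w) = inD v + inD w := by
  unfold inD
  simp only [Prod.fst_add, Prod.snd_add, Prod.mk_add_mk, add_zero]

private theorem inD_smul (y : O) (v : M × M) : inD (y • v) = y • inD v := by
  unfold inD
  simp only [Prod.smul_fst, Prod.smul_snd, Prod.smul_mk, smul_zero]

theorem z1_inD (X : Two e c κ) (ha : IsAct act) {x : P → M × M} :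
    Z1 TP (fun d => ac2 e c κ (actD κ act) (jp d)) (fun d => inD (x d)) ↔
      Z1 TP (fun d => ac2 e c κ act (jp d)) x := by
  constructor
  · rintro ⟨⟨W, hW, h1⟩, h2⟩
    refine ⟨⟨W, hW, fun a b hab => inD_inj (h1 a b hab)⟩, fun a b => inD_inj ?_⟩
    have h3 := h2 a b
    simp only [ac2_inD X ha] at h3
    rw [inD_add]
    exact h3
  · rintro ⟨⟨W, hW, h1⟩, h2⟩
    refine ⟨⟨W, hW, fun a b hab => congrArg inD (h1 a b hab)⟩, fun a b => ?_⟩
    simp only [ac2_inD X ha]
    rw [h2 a b, inD_add]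

theorem zq_inD (X : Two e c κ) (ha : IsAct act) (y : O) (x : P → M × M) :
    Zq (fun d => ac2 e c κ (actD κ act) (jp d)) (be2 (bD b))
      (fun (a : O) d => la2 e c κ (actD κ act) (bD b) a (jp d)) y (fun d => inD (x d)) =
    Zq (fun d => ac2 e c κ act (jp d)) (be2 b) (fun (a : O) d => la2 e c κ act b a (jp d)) y x := by
  funext s t
  show be2 (bD b) (y • inD (x s)) (ac2 e c κ (actD κ act) (jp s) (inD (x t))) +
    la2 e c κ (actD κ act) (bD b) y (jp s) (inD (x t)) =
    be2 b (y • x s) (ac2 e c κ act (jp s) (x t)) + la2 e c κ act b y (jp s) (x t)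
  rw [ac2_inD X ha, ← inD_smul, be2_inD, la2_inD X ha]

end Pool.Agent.Work.MP_787500_nt.KJ
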