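import Mathlib
import Pool.Agent.Work.MP_787500_nt.KJ.RDefs

/-!
# KJ/RTr (size S): the structure `TR` for a self-dual module with an involution

Copy of `ER.tr_of` (ER/YGen.lean) with the hypothesis `hun` on the action instead of the lattice: `A (e g) ^ 2 = 1` from `hc.ae` (as at the end of the private lemma `sq_one` there).
-/

set_option autoImplicit false
set_option linter.unusedSectionVars false

namespace Pool.Agent.Work.MP_787500_nt.KJ

open Matrix
open Pool.Agent.Work.MP_787500_nt.GP (A0 pr0 OE MN Wq mq mq_add mq_sub mq_smul mq_eq mq_eq_zero lft mq_lft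
  bil bil_add_left bil_add_right bil_sub_left bil_sub_right bil_smul_left bil_smul_right bil_symm Lat
  lamN bN bN_val actN actQ actQ_mq IsAct d0 tw cup11)
open Pool.Agent.Work.MP_787500_nt.KR (FSys Sm1 Sm2 IsChar Smooth Z1 Z2 B2 LocH Pair LDual LocRep SDualF
  sdualF_MN)
open Pool.Agent.Work.MP_787500_nt.KS (hfT hfT_nondeg ep)
open Pool.Agent.Work.MP_787500_nt.KT (Sy ee IsSp)
open Pool.Agent.Work.MP_787500_nt.QL (TameF zurM)
open Pool.Agent.Work.MP_787500_nt.QS (Two ac2 be2 la2 Lag QM pB Zq)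
open Pool.Agent.Work.MP_787500_nt.QP (InvC)
open Pool.Agent.Work.MP_787500_nt.KI (SIso Crd PlQ LY LVal R1 Y2 tra siso_f2 bC YM)
open Pool.Agent.Work.MP_787500_nt.RC (SplS)
open Pool.Agent.Work.MP_787500_nt.ER (Rq rq_mem exists_rq rq_unique finrank_imW card_n imW kerN ranN W5 Lam2
  LamP BT LinkX TR LX QX BX cl gv gY mem_Lam2 mem_imW)

universe v

variable {G Γ : Type*} [Group G] [Group Γ] {S : FSys G} {Sq : FSys Γ} {χ : G → ℤ_[2]}
  {χq : Γ → ℤ_[2]} {e : G →* Γ} {c : Γ} {κ : G →* G} {P : Type*} [Group P] {TP : FSys P}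
  {jp : P →* Γ} {iv : (P → P → A0) → A0} {a : P → ℤ_[2]} {σ τ : P} {q : ℕ} {In : Subgroup P}
  {θ s : G} {Θ : Set (G × G)}

variable {F : Type v} [Field F] [Finite F] [CharP F 2] [Algebra (ZMod 2) F] {n : ℕ} [Sy F n]
  {M : Type v} [AddCommGroup M] [Finite M] {O : Type*} [CommRing O] [Algebra O F] [Module O M]
  {act : G → M → M} {b : M →+ M →+ A0} {C : M → M} {L : M ≃+ (Fin n → F)}
  {A : Γ →* Matrix (Fin n) (Fin n) F}

theorem tr_abs (p : PlQ.{v} S Sq χ χq e c κ TP jp iv) (hsd : SDualF S χ κ Θ O act b)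
    (h : TameF TP (fun d => χq (jp d)) a σ τ q In)
    (hun : ∀ g, (∃ d ∈ In, jp d = e g) → ∀ m, act g (act g m) = m) (hθ : e θ * c = jp τ)
    (hs : e s = jp σ) (hc : Crd e c O act b C L A) :
    TR TP (fun d => χq (jp d)) a σ τ q In iv (A.comp jp) (fun d => ep e (jp d)) := by
  have hch := p.loc.toLocH.char
  have sq1 : ∀ g, (∀ m, act g (act g m) = m) → A (e g) ^ 2 = 1 := by
    intro g hg
    have h1 : ∀ u, A (e g) *ᵥ (A (e g) *ᵥ u) = u := by
      intro u
      obtain ⟨x, rfl⟩ := L.surjective u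
      have h2 := hc.ae g x
      have h3 := hc.ae g (act g x)
      rw [h2, h3, hg]
    have h2 : (A (e g) * A (e g)).mulVec = (1 : Matrix (Fin n) (Fin n) _).mulVec := by
      funext u
      rw [← mulVec_mulVec, h1, one_mulVec]
    rw [pow_two]
    exact Matrix.mulVec_injective h2
  have i4 : ∀ g ∈ In, (A.comp jp) g ^ 4 = 1 := by
    intro d hd
    show A (jp d) ^ 4 = 1
    rcases p.two.cases (jp d) with ⟨g, hg⟩ | ⟨g, hg⟩
    · have h1 := sq1 g (hun g ⟨d, hd, hg.symm⟩)
      rw [← hg, show (4 : ℕ) = 2 * 2 from rfl, pow_mul, h1, one_pow]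
    · have h0 : jp (d * d) = e (g * κ g) := by
        rw [map_mul, ← hg, map_mul, p.two.kap]
        group
      have h1 := sq1 (g * κ g) (hun (g * κ g) ⟨d * d, In.mul_mem hd hd, h0⟩)
      rw [← h0, map_mul, map_mul, ← pow_two, ← pow_mul] at h1
      exact h1
  exact
    { tame := h
      loc := p.loc.toLocH
      sp := fun g => hc.sp _
      sm := p.smA hc hsd.sm
      ld := p.ldA hc hsd.sm
      ldF := p.loc.ld
        { act := ⟨fun _ => rfl, fun _ _ _ => rfl, fun _ _ _ => rfl⟩
          act' := ⟨fun _ => rfl, fun _ _ _ => rfl, fun _ _ _ => rfl⟩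
          sm := by
            obtain ⟨W, hW⟩ := TP.ex
            exact ⟨W, hW, fun _ _ _ => rfl⟩
          sm' := by
            obtain ⟨W, hW⟩ := TP.ex
            exact ⟨W, hW, fun _ _ _ => rfl⟩
          eqv := fun g x y => by
            rw [ER.mF_apply]
            exact (KS.smul_hfT (hch.odd g) (x * y)).symm
          nd := fun x hx => hfT_nondeg fun y => by
            rw [mul_comm]
            exact hx y
          nd' := fun x hx => hfT_nondeg fun y => hx y }
      eadd := fun g k => by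
        rw [map_mul, QP.ep_add2 p.two]
      esm := p.esm
      eσ := by
        rw [← hs, QP.ep_e]
      eτ := by
        rw [← hθ, QP.ep_ec p.two]
      x4 := i4 τ h.τI
      i4 := i4 }

end Pool.Agent.Work.MP_787500_nt.KJ
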