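import Mathlib
import Pool.Agent.Work.MP_787500_nt.KJ.RTr

/-!
# KJ/RIvC (size M): THE QUADRATIC FUNCTION in terms of the values at `σ` and `τ²`, for a module with an involution

In the coordinates `hc`: `f2 L (x d) = cv (p.1 d, p.2 d)` with `cv (v, w) = (v, A c (v + w))` (ER/LocI.lean: copy the private lemmas `cv`, `cc_vec`, `ep_e'`, `ep_ec'`, `cv_smul`, `cv_inj`, `cv_surj`, `ac_cv`, `be_cv`, `la_cv`, `Zq_cv`,
`exists_pair`, `d0_cv`); `ZP` for the pair `p` as in `KI.lkr_of_lag` (or `ER.lr_of_lag`: `lkr.coc`). `ER.iv_zq` with `tr_abs` gives `iv (hfT (α zq)) = hfT (α QX (A τ) q (gv p))`, `α = algebraMap a'`,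
`gv p = (L (x σ).1, L (x (τ τ)).1)`. Then `QX X q (L u, L v) = ee (X L u) (L v) + ee (L u) (X L u) + cl ee (L v) (X L v)` and `hfT (α ee (L v) (X (L u))) = b (a' v) (act (κ θ) u)`: `X = A (jp τ) = A c * A (e (κ θ))`
(`jp τ = c * e (κ θ)`), `hc.ae`, `hc.fr`, `KI.bC_apply` (model: `ER.link_of` in ER/Rep.lean); `ee (X L u) (L v) = ee (L v) (X L u)` (`KT.ee_comm`); the number `cl F q = (((q ^ 2 - 1) / 8 : ℕ) : F)` becomes `•` (`map_nsmul`).
The identity of cochains `Zq_O a' x = Zq_F (algebraMap a') (f2 L x)`: see `lag_art` / `KI.lag_tra` (`hc.act2`, `hc.be`, `hc.la`, `SIso.smul`).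
* `ker_C`: a cocycle with both values 0 is `d0 (0, w)`: `ER.ker_gv` gives the pair `(ε d A d b, A d b + b)`, which is `d0` of `cv (0, b)` (`d0_cv`).
-/

set_option autoImplicit false
set_option linter.unusedSectionVars false

namespace Pool.Agent.Work.MP_787500_nt.KJ

open Matrix
open Pool.Agent.Work.MP_787500_nt.GP (A0 pr0 OE MN Wq mq mq_add mq_sub mq_smul mq_eq mq_eq_zero lft mq_lft
  bil bil_add_left bil_add_right bil_sub_left bil_sub_right bil_smul_left bil_smul_right bil_symm Lat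
  lamN bN bN_val actN actQ actQ_mq IsAct d0 tw cup11)
open Pool.Agent.Work.MP_787500_nt.KR (FSys Sm1 Sm2 IsChar Smooth Z1 Z2 B2 LocH Pair LDual LocRep SDualF
  sdualF_MN)
open Pool.Agent.Work.MP_787500_nt.KS (hfT hfT_nondeg ep)
open Pool.Agent.Work.MP_787500_nt.KT (Sy ee IsSp)
open Pool.Agent.Work.MP_787500_nt.QL (TameF zurM)
open Pool.Agent.Work.MP_787500_nt.QS (Two ac2 be2 la2 Lag QM pB Zq)
open Pool.Agent.Work.MP_787500_nt.QP (InvC)
open Pool.Agent.Work.MP_787500_nt.KI (SIso Crd PlQ LY LVal R1 Y2 tra siso_f2 bC YM)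
open Pool.Agent.Work.MP_787500_nt.RC (SplS)
open Pool.Agent.Work.MP_787500_nt.ER (Rq rq_mem exists_rq rq_unique finrank_imW card_n imW kerN ranN W5 Lam2
  LamP BT LinkX TR LX QX BX cl gv gY mem_Lam2 mem_imW)

universe v

variable {G Γ : Type*} [Group G] [Group Γ] {S : FSys G} {Sq : FSys Γ} {χ : G → ℤ_[2]}
  {χq : Γ → ℤ_[2]} {e : G →* Γ} {c : Γ} {κ : G →* G} {P : Type*} [Group P] {TP : FSys P}
  {jp : P →* Γ} {iv : (P → P → A0) → A0} {a : P → ℤ_[2]} {σ τ : P} {q : ℕ} {In : Subgroup P}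
  {θ s : G} {Θ : Set (G × G)}

variable {F : Type v} [Field F] [Finite F] [CharP F 2] [Algebra (ZMod 2) F] {n : ℕ} [Sy F n]
  {M : Type v} [AddCommGroup M] [Finite M] {O : Type*} [CommRing O] [Algebra O F] [Module O M]
  {act : G → M → M} {b : M →+ M →+ A0} {C : M → M} {L : M ≃+ (Fin n → F)}
  {A : Γ →* Matrix (Fin n) (Fin n) F}


section coord

open Pool.Agent.Work.MP_787500_nt.KT hiding Str Rel Sel KH Ai IsP cc ff TT
open Pool.Agent.Work.MP_787500_nt.KS (hfT hfT_neg smul_hfT smul_F)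
open Pool.Agent.Work.MP_787500_nt.ER (ZP zq iv_zq ker_gv gv_apply)
open Pool.Agent.Work.MP_787500_nt.KI (f2)

variable {T : FSys P}

/-- the change of coordinates -/
private def cv (A : Γ →* Matrix (Fin n) (Fin n) F) (c : Γ) (p : (Fin n → F) × (Fin n → F)) :
    (Fin n → F) × (Fin n → F) := (p.1, A c *ᵥ (p.1 + p.2))

private theorem cc_vec (X : Two e c κ) (m : Fin n → F) : A c *ᵥ (A c *ᵥ m) = m := by
  rw [mulVec_mulVec, ← map_mul, X.cc, map_one, one_mulVec]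

private theorem ep_e' (g : G) : ep e (e g) = 0 := if_pos ⟨g, rfl⟩

private theorem ep_ec' (X : Two e c κ) (g : G) : ep e (e g * c) = 1 :=
  if_neg fun ⟨g', h⟩ => X.out g g' h

private theorem cv_add (p q : (Fin n → F) × (Fin n → F)) : cv A c (p + q) = cv A c p + cv A c q := by
  refine Prod.ext rfl ?_
  show A c *ᵥ (p.1 + q.1 + (p.2 + q.2)) = A c *ᵥ (p.1 + p.2) + A c *ᵥ (q.1 + q.2)
  rw [← mulVec_add]
  congr 1
  abel

private theorem cv_smul (a : F) (p : (Fin n → F) × (Fin n → F)) : cv A c (a • p) = a • cv A c p := by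
  refine Prod.ext rfl ?_
  show A c *ᵥ (a • p.1 + a • p.2) = a • (A c *ᵥ (p.1 + p.2))
  rw [← smul_add, mulVec_smul]

private theorem cv_inj (X : Two e c κ) {p q : (Fin n → F) × (Fin n → F)} (h : cv A c p = cv A c q) :
    p = q := by
  have h1 : (cv A c p).1 = (cv A c q).1 := congrArg Prod.fst h
  have h2 : (cv A c p).2 = (cv A c q).2 := congrArg Prod.snd h
  change p.1 = q.1 at h1
  change A c *ᵥ (p.1 + p.2) = A c *ᵥ (q.1 + q.2) at h2
  have h3 := congrArg (fun m => A c *ᵥ m) h2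
  beta_reduce at h3
  rw [cc_vec X, cc_vec X, h1] at h3
  exact Prod.ext h1 (add_left_cancel h3)

private theorem cv_surj (X : Two e c κ) (v : (Fin n → F) × (Fin n → F)) :
    cv A c (v.1, v.1 + A c *ᵥ v.2) = v := by
  refine Prod.ext rfl ?_
  show A c *ᵥ (v.1 + (v.1 + A c *ᵥ v.2)) = v.2
  rw [← add_assoc, QP.vadd_self, zero_add, cc_vec X]

private theorem ac_cv (X : Two e c κ) (σ : Γ) (p : (Fin n → F) × (Fin n → F)) :
    ac2 e c κ (KT.act (A.comp e)) σ (cv A c p) =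
      cv A c (A σ *ᵥ (p.1 + ep e σ • p.2), A σ *ᵥ p.2) := by
  rcases X.cases σ with ⟨g, rfl⟩ | ⟨g, rfl⟩
  · rw [X.ac_e, ep_e', zero_smul, add_zero]
    refine Prod.ext rfl ?_
    show A (e (κ g)) *ᵥ (A c *ᵥ (p.1 + p.2)) = A c *ᵥ (A (e g) *ᵥ p.1 + A (e g) *ᵥ p.2)
    rw [← mulVec_add, X.kap, map_mul, map_mul, ← mulVec_mulVec, ← mulVec_mulVec, cc_vec X]
  · rw [X.ac_ec, ep_ec' X, one_smul]
    refine Prod.ext ?_ ?_
    · show A (e g) *ᵥ (A c *ᵥ (p.1 + p.2)) = A (e g * c) *ᵥ (p.1 + p.2)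
      rw [mulVec_mulVec, map_mul]
    · show A (e (κ g)) *ᵥ p.1 = A c *ᵥ (A (e g * c) *ᵥ (p.1 + p.2) + A (e g * c) *ᵥ p.2)
      rw [← mulVec_add, add_assoc, QP.vadd_self, add_zero, X.kap, map_mul, map_mul, map_mul,
        ← mulVec_mulVec, ← mulVec_mulVec, ← mulVec_mulVec]

private theorem be_cv (X : Two e c κ) (p q : (Fin n → F) × (Fin n → F)) :
    be2 (bC A c) (cv A c p) (cv A c q) = hfT (ee p.1 (q.1 + q.2)) := by
  rw [QS.be2_apply, KI.bC_apply]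
  show hfT (ee p.1 (A c *ᵥ (A c *ᵥ (q.1 + q.2)))) = _
  rw [cc_vec X]

private theorem la_cv (X : Two e c κ) (hsp : ∀ g, IsSp (A g)) (α : F) (σ : Γ)
    (p : (Fin n → F) × (Fin n → F)) :
    la2 e c κ (KT.act (A.comp e)) (bC A c) α σ (cv A c p) = hfT (ep e σ • (α * ee p.1 p.2)) := by
  rcases X.cases σ with ⟨g, rfl⟩ | ⟨g, rfl⟩
  · rw [X.la_e, ep_e', zero_smul, map_zero]
  · have h0 : ¬∃ g', e g' = e g * c := fun ⟨g', h⟩ => X.out g g' h
    unfold la2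
    rw [if_neg h0, ac_cv X, ← cv_smul, be_cv X, ep_ec' X, one_smul, one_smul]
    congr 1
    show ee (α • (A (e g * c) *ᵥ (p.1 + p.2))) (A (e g * c) *ᵥ (p.1 + p.2) + A (e g * c) *ᵥ p.2) = _
    rw [ee_smul_left, ← mulVec_add, ee_mulVec (hsp _)]
    simp only [ee_add_left, ee_add_right, ee_self, zero_add, add_zero]

private theorem Zq_cv (X : Two e c κ) (hsp : ∀ g, IsSp (A g)) (α : F)
    (p : (P → Fin n → F) × (P → Fin n → F)) (s t : P) :
    Zq (fun d => ac2 e c κ (KT.act (A.comp e)) (jp d)) (be2 (bC A c))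
      (fun (a : F) d => la2 e c κ (KT.act (A.comp e)) (bC A c) a (jp d)) α
      (fun d => cv A c (p.1 d, p.2 d)) s t =
    hfT (α * (ee (p.1 s) (A (jp s) *ᵥ p.1 t) + ee (p.1 s) (A (jp s) *ᵥ p.2 t) +
      ep e (jp s) • ee (p.1 s) (A (jp s) *ᵥ p.2 t)) +
      ep e (jp s) • (α * ee (p.1 t) (p.2 t))) := by
  show be2 (bC A c) (α • cv A c (p.1 s, p.2 s))
    (ac2 e c κ (KT.act (A.comp e)) (jp s) (cv A c (p.1 t, p.2 t))) +
    la2 e c κ (KT.act (A.comp e)) (bC A c) α (jp s) (cv A c (p.1 t, p.2 t)) = _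
  rw [← cv_smul, ac_cv X, be_cv X, la_cv X hsp, ← map_add]
  congr 1
  show ee (α • p.1 s) (A (jp s) *ᵥ (p.1 t + ep e (jp s) • p.2 t) + A (jp s) *ᵥ p.2 t) +
    ep e (jp s) • (α * ee (p.1 t) (p.2 t)) = _
  rw [ee_smul_left, mulVec_add, ee_add_right, ee_add_right, smul_U (ep e (jp s)) (p.2 t), mulVec_smul,
    ee_smul_right, smul_F (ep e (jp s)) (ee (p.1 s) (A (jp s) *ᵥ p.2 t))]
  ring

private theorem Z1_cv (X : Two e c κ) (p : (P → Fin n → F) × (P → Fin n → F)) :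
    Z1 T (fun d => ac2 e c κ (KT.act (A.comp e)) (jp d)) (fun d => cv A c (p.1 d, p.2 d)) ↔
      Z1 T (KT.act (A.comp jp)) p.2 ∧ Sm1 T p.1 ∧
        IsLift (A.comp jp : P → Matrix (Fin n) (Fin n) F) (fun d => ep e (jp d)) p.1 p.2 := by
  have key : ∀ s t, (fun d => cv A c (p.1 d, p.2 d)) (s * t) =
      (fun d => cv A c (p.1 d, p.2 d)) s + ac2 e c κ (KT.act (A.comp e)) (jp s)
        ((fun d => cv A c (p.1 d, p.2 d)) t) ↔
      (p.1 (s * t) = p.1 s + A (jp s) *ᵥ (p.1 t + ep e (jp s) • p.2 t) ∧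
        p.2 (s * t) = p.2 s + A (jp s) *ᵥ p.2 t) := by
    intro s t
    beta_reduce
    rw [ac_cv X, ← cv_add]
    constructor
    · intro h
      have h1 := cv_inj X h
      exact ⟨congrArg Prod.fst h1, congrArg Prod.snd h1⟩
    · rintro ⟨h1, h2⟩
      exact congrArg (cv A c) (Prod.ext h1 h2)
  have hl : ∀ s t, p.1 s + A (jp s) *ᵥ (p.1 t + ep e (jp s) • p.2 t) =
      p.1 s + A (jp s) *ᵥ p.1 t + ep e (jp s) • (A (jp s) *ᵥ p.2 t) := by
    intro s t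
    rw [mulVec_add, smul_U (ep e (jp s)) (p.2 t), mulVec_smul, smul_U (ep e (jp s)) (A (jp s) *ᵥ p.2 t),
      add_assoc]
  constructor
  · rintro ⟨⟨W, hW, h1⟩, h2⟩
    have h3 : ∀ g, ∀ w ∈ W, p.1 (g * w) = p.1 g ∧ p.2 (g * w) = p.2 g := by
      intro g w hw
      have h4 := cv_inj X (h1 g w hw)
      exact ⟨congrArg Prod.fst h4, congrArg Prod.snd h4⟩
    refine ⟨⟨⟨W, hW, fun g w hw => (h3 g w hw).2⟩, fun s t => ((key s t).1 (h2 s t)).2⟩,
      ⟨W, hW, fun g w hw => (h3 g w hw).1⟩, fun s t => ?_⟩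
    rw [((key s t).1 (h2 s t)).1, hl]
    rfl
  · rintro ⟨⟨⟨W, hW, h1⟩, h2⟩, ⟨W', hW', h1'⟩, h3⟩
    refine ⟨⟨W ⊓ W', T.inf hW hW', fun g w hw => ?_⟩, fun s t => (key s t).2 ⟨?_, h2 s t⟩⟩
    · beta_reduce
      rw [h1 g w hw.1, h1' g w hw.2]
    · rw [hl]
      exact h3 s t

private theorem sub_U (u v : Fin n → F) : u - v = u + v := by
  ext i
  rw [Pi.sub_apply, Pi.add_apply, sub_eq_add_neg, CharTwo.neg_eq]

private theorem cv_sub (p q : (Fin n → F) × (Fin n → F)) : cv A c p - cv A c q = cv A c (p + q) := by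
  refine Prod.ext (sub_U _ _) ?_
  show A c *ᵥ (p.1 + p.2) - A c *ᵥ (q.1 + q.2) = A c *ᵥ (p.1 + q.1 + (p.2 + q.2))
  rw [sub_U, ← mulVec_add]
  congr 1
  abel

private theorem d0_cv (X : Two e c κ) (a m : Fin n → F) :
    d0 (fun d => ac2 e c κ (KT.act (A.comp e)) (jp d)) (cv A c (a, m)) =
      fun d => cv A c (A (jp d) *ᵥ (a + ep e (jp d) • m) + a, A (jp d) *ᵥ m + m) := by
  funext d
  show ac2 e c κ (KT.act (A.comp e)) (jp d) (cv A c (a, m)) - cv A c (a, m) = _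
  rw [ac_cv X, cv_sub]
  rfl

private theorem exists_pair (X : Two e c κ) (y : P → (Fin n → F) × (Fin n → F)) :
    ∃ p : (P → Fin n → F) × (P → Fin n → F), (fun d => cv A c (p.1 d, p.2 d)) = y :=
  ⟨(fun d => (y d).1, fun d => (y d).1 + A c *ᵥ (y d).2), funext fun d => cv_surj X (y d)⟩


private theorem zp_of (p : PlQ.{v} S Sq χ χq e c κ TP jp iv)
    (hc : Crd e c O act b C L A) {x : P → M × M}
    (hx : Z1 TP (fun d => ac2 e c κ act (jp d)) x)
    {pr : (P → Fin n → F) × (P → Fin n → F)} (hpr : ∀ d, cv A c (pr.1 d, pr.2 d) = f2 L (x d)) :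
    ZP TP (A.comp jp) (fun d => ep e (jp d)) pr := by
  have X := p.two
  refine (Z1_cv X pr).1 ?_
  obtain ⟨⟨W, hW, h1⟩, h2⟩ := hx
  refine ⟨⟨W, hW, fun g w hw => ?_⟩, fun s t => ?_⟩
  · beta_reduce
    rw [hpr, hpr, h1 g w hw]
  · beta_reduce
    rw [hpr, hpr, hpr, h2 s t, map_add, hc.act2 X]

/-- THE QUADRATIC FUNCTION. -/
theorem iv_ZqC (p : PlQ.{v} S Sq χ χq e c κ TP jp iv) (hsd : SDualF S χ κ Θ O act b)
    (h : TameF TP (fun d => χq (jp d)) a σ τ q In)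
    (hun : ∀ g, (∃ d ∈ In, jp d = e g) → ∀ m, act g (act g m) = m) (hθ : e θ * c = jp τ)
    (hs : e s = jp σ) (hc : Crd e c O act b C L A) {x : P → M × M}
    (hx : Z1 TP (fun d => ac2 e c κ act (jp d)) x) (y : O) :
    iv (Zq (fun d => ac2 e c κ act (jp d)) (be2 b) (fun (a : O) d => la2 e c κ act b a (jp d)) y x) =
      b (y • (x (τ * τ)).1) (act (κ θ) (x σ).1) + b (y • (x σ).1) (act (κ θ) (x σ).1) +
        ((q ^ 2 - 1) / 8) • b (y • (x (τ * τ)).1) (act (κ θ) (x (τ * τ)).1) := by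
  have X := p.two
  have h' := tr_abs p hsd h hun hθ hs hc
  obtain ⟨pr, hpr⟩ := exists_pair (A := A) X (fun d => f2 L (x d))
  have hpr' : ∀ d, cv A c (pr.1 d, pr.2 d) = f2 L (x d) := fun d => congrFun hpr d
  have hZ := zp_of p hc hx hpr'
  have e1 : Zq (fun d => ac2 e c κ act (jp d)) (be2 b)
      (fun (a : O) d => la2 e c κ act b a (jp d)) y x =
      fun s t => hfT (algebraMap O F y * zq (A.comp jp) (fun d => ep e (jp d)) pr s t) := by
    funext s t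
    have e2 : Zq (fun d => ac2 e c κ act (jp d)) (be2 b)
        (fun (a : O) d => la2 e c κ act b a (jp d)) y x s t =
        Zq (fun d => ac2 e c κ (KT.act (A.comp e)) (jp d)) (be2 (bC A c))
          (fun (a : F) d => la2 e c κ (KT.act (A.comp e)) (bC A c) a (jp d)) (algebraMap O F y)
          (fun d => cv A c (pr.1 d, pr.2 d)) s t := by
      show be2 b (y • x s) (ac2 e c κ act (jp s) (x t)) + la2 e c κ act b y (jp s) (x t) =
        be2 (bC A c) (algebraMap O F y • cv A c (pr.1 s, pr.2 s))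
          (ac2 e c κ (KT.act (A.comp e)) (jp s) (cv A c (pr.1 t, pr.2 t))) +
        la2 e c κ (KT.act (A.comp e)) (bC A c) (algebraMap O F y) (jp s)
          (cv A c (pr.1 t, pr.2 t))
      rw [hpr', hpr', hc.be, hc.la X, hc.act2 X, (siso_f2 hc.iso).smul]
    rw [e2, Zq_cv X hc.sp]
    congr 1
    show _ = algebraMap O F y * (ee (pr.1 s) (A (jp s) *ᵥ pr.1 t) +
      ee (pr.1 s) (A (jp s) *ᵥ pr.2 t) +
      ep e (jp s) • ee (pr.1 s) (A (jp s) *ᵥ pr.2 t) + ep e (jp s) • ee (pr.1 t) (pr.2 t))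
    rw [mul_add (algebraMap O F y) (_ + _ + _) (ep e (jp s) • ee (pr.1 t) (pr.2 t)),
      mul_smul_comm (ep e (jp s)) (algebraMap O F y) (ee (pr.1 t) (pr.2 t))]
  rw [e1, iv_zq h' hZ, gv_apply]
  have hu : pr.1 σ = L (x σ).1 := congrArg Prod.fst (hpr' σ)
  have hv : pr.1 (τ * τ) = L (x (τ * τ)).1 := congrArg Prod.fst (hpr' (τ * τ))
  rw [hu, hv]
  have hX : ∀ u : M, (A.comp jp) τ *ᵥ L u = A c *ᵥ L (act (κ θ) u) := by
    intro u
    have h3 : jp τ = c * e (κ θ) := by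
      rw [← hθ, X.kap]
      rw [← mul_assoc, ← mul_assoc, X.cc, one_mul]
    rw [MonoidHom.comp_apply, h3, map_mul, ← mulVec_mulVec, hc.ae]
  have hb : ∀ u w : M, b (y • u) (act (κ θ) w) =
      hfT (algebraMap O F y * ee (L u) ((A.comp jp) τ *ᵥ L w)) := by
    intro u w
    rw [hc.fr, KI.bC_apply, hc.iso.smul, ee_smul_left, hX]
  rw [hb, hb, hb, ← map_nsmul, ← map_add, ← map_add]
  congr 1
  unfold QX cl
  rw [ee_comm ((A.comp jp) τ *ᵥ L (x σ).1) (L (x (τ * τ)).1), nsmul_eq_mul]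
  ring

theorem ker_C (p : PlQ.{v} S Sq χ χq e c κ TP jp iv) (hsd : SDualF S χ κ Θ O act b)
    (h : TameF TP (fun d => χq (jp d)) a σ τ q In)
    (hun : ∀ g, (∃ d ∈ In, jp d = e g) → ∀ m, act g (act g m) = m) (hθ : e θ * c = jp τ)
    (hs : e s = jp σ) (hc : Crd e c O act b C L A) {x : P → M × M}
    (hx : Z1 TP (fun d => ac2 e c κ act (jp d)) x) (h0 : gO O σ τ x = 0) :
    ∃ w : M, x = d0 (fun d => ac2 e c κ act (jp d)) (0, w) := by
  have X := p.two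
  have h' := tr_abs p hsd h hun hθ hs hc
  obtain ⟨pr, hpr⟩ := exists_pair (A := A) X (fun d => f2 L (x d))
  have hpr' : ∀ d, cv A c (pr.1 d, pr.2 d) = f2 L (x d) := fun d => congrFun hpr d
  have hZ := zp_of p hc hx hpr'
  have hu : pr.1 σ = L (x σ).1 := congrArg Prod.fst (hpr' σ)
  have hv : pr.1 (τ * τ) = L (x (τ * τ)).1 := congrArg Prod.fst (hpr' (τ * τ))
  have h1 : (x σ).1 = 0 := congrArg Prod.fst h0
  have h2 : (x (τ * τ)).1 = 0 := congrArg Prod.snd h0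
  have h3 : gv σ τ pr = 0 := by
    rw [gv_apply, hu, hv, h1, h2, map_zero]
    rfl
  obtain ⟨b', hb'⟩ := ker_gv h' hZ h3
  refine ⟨L.symm (A c *ᵥ b'), ?_⟩
  funext d
  apply (f2 L).injective
  have e1 : f2 L (0, L.symm (A c *ᵥ b')) = cv A c (0, b') := by
    refine Prod.ext (map_zero L) ?_
    show L (L.symm (A c *ᵥ b')) = A c *ᵥ ((0 : Fin n → F) + b')
    rw [L.apply_symm_apply, zero_add]
  have e2 : f2 L (d0 (fun d => ac2 e c κ act (jp d)) (0, L.symm (A c *ᵥ b')) d) =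
      d0 (fun d => ac2 e c κ (KT.act (A.comp e)) (jp d)) (cv A c (0, b')) d := by
    show f2 L (ac2 e c κ act (jp d) (0, L.symm (A c *ᵥ b')) - (0, L.symm (A c *ᵥ b'))) =
      ac2 e c κ (KT.act (A.comp e)) (jp d) (cv A c (0, b')) - cv A c (0, b')
    rw [map_sub, hc.act2 X, e1]
  rw [e2, d0_cv X, ← hpr', hb']
  show cv A c (ep e (jp d) • (A (jp d) *ᵥ b'), A (jp d) *ᵥ b' + b') =
    cv A c (A (jp d) *ᵥ ((0 : Fin n → F) + ep e (jp d) • b') + 0, A (jp d) *ᵥ b' + b')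
  rw [zero_add, add_zero, smul_U (ep e (jp d)) b', mulVec_smul,
    smul_U (ep e (jp d)) (A (jp d) *ᵥ b')]

end coord

end Pool.Agent.Work.MP_787500_nt.KJ
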