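import Mathlib
import Pool.Agent.Work.MP_787500_nt.KJ.RIvC
import Pool.Agent.Work.MP_787500_nt.KJ.RDbl

/-!
# KJ/RIvM (size M): THE QUADRATIC FUNCTION for a module without an involution

Apply `iv_ZqC`, `ker_C` to the double `M × M` (KJ/RDbl: `sdualD`, `invD`, coordinates from `KI.exists_crd_res`; `hM` for `M × M` componentwise) and the cocycle `fun d => inD (x d)` (`z1_inD`, `zq_inD`): `((inD v).1) = (v.1, 0)`, `bD_apply`,
`actD κ act (κ θ) (u, 0) = (act (κ θ) u, 0)` (`hsd.act.zero` or the lemma of `IsAct` for 0). `m + m = 0`: `2` is in the maximal ideal (`CharP` 2).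
* `ker_M`: `inD (x d) = d0 (0, (w, w')) d`: take first components.
* `two_M`: `m + m = 0`.
-/

set_option autoImplicit false
set_option linter.unusedSectionVars false

namespace Pool.Agent.Work.MP_787500_nt.KJ

open Matrix
open Pool.Agent.Work.MP_787500_nt.GP (A0 pr0 OE MN Wq mq mq_add mq_sub mq_smul mq_eq mq_eq_zero lft mq_lft
  bil bil_add_left bil_add_right bil_sub_left bil_sub_right bil_smul_left bil_smul_right bil_symm Lat
  lamN bN bN_val actN actQ actQ_mq IsAct d0 tw cup11)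
open Pool.Agent.Work.MP_787500_nt.KR (FSys Sm1 Sm2 IsChar Smooth Z1 Z2 B2 LocH Pair LDual LocRep SDualF
  sdualF_MN)
open Pool.Agent.Work.MP_787500_nt.KS (hfT hfT_nondeg ep)
open Pool.Agent.Work.MP_787500_nt.KT (Sy ee IsSp)
open Pool.Agent.Work.MP_787500_nt.QL (TameF zurM)
open Pool.Agent.Work.MP_787500_nt.QS (Two ac2 be2 la2 Lag QM pB Zq)
open Pool.Agent.Work.MP_787500_nt.QP (InvC)
open Pool.Agent.Work.MP_787500_nt.KI (SIso Crd PlQ LY LVal R1 Y2 tra siso_f2 bC YM)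
open Pool.Agent.Work.MP_787500_nt.RC (SplS)
open Pool.Agent.Work.MP_787500_nt.ER (Rq rq_mem exists_rq rq_unique finrank_imW card_n imW kerN ranN W5 Lam2
  LamP BT LinkX TR LX QX BX cl gv gY mem_Lam2 mem_imW)

universe v

variable {G Γ : Type*} [Group G] [Group Γ] {S : FSys G} {Sq : FSys Γ} {χ : G → ℤ_[2]}
  {χq : Γ → ℤ_[2]} {e : G →* Γ} {c : Γ} {κ : G →* G} {P : Type*} [Group P] {TP : FSys P}
  {jp : P →* Γ} {iv : (P → P → A0) → A0} {a : P → ℤ_[2]} {σ τ : P} {q : ℕ} {In : Subgroup P}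
  {θ s : G} {Θ : Set (G × G)}

variable {O : Type v} [CommRing O] [IsLocalRing O] [Finite (IsLocalRing.ResidueField O)]
  [CharP (IsLocalRing.ResidueField O) 2] [Algebra (ZMod 2) (IsLocalRing.ResidueField O)]
  {M : Type v} [AddCommGroup M] [Module O M] [Finite M] {act : G → M → M} {b : M →+ M →+ A0}

theorem two_M (hM : ∀ x ∈ IsLocalRing.maximalIdeal O, ∀ m : M, x • m = 0) (m : M) : m + m = 0 := by
  have h1 : (2 : O) ∈ IsLocalRing.maximalIdeal O := by
    rw [← IsLocalRing.residue_eq_zero_iff, map_ofNat]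
    exact CharTwo.two_eq_zero
  have h2 := hM 2 h1 m
  rwa [two_smul] at h2

private theorem hunD (p : PlQ.{v} S Sq χ χq e c κ TP jp iv) (ha : IsAct act)
    (h : TameF TP (fun d => χq (jp d)) a σ τ q In)
    (hun : ∀ g, (∃ d ∈ In, jp d = e g) → ∀ m, act g (act g m) = m) (hθ : e θ * c = jp τ) (g : G)
    (hg : ∃ d ∈ In, jp d = e g) (m : M × M) : actD κ act g (actD κ act g m) = m := by
  refine Prod.ext (hun g hg m.1) ?_
  show act (κ g) (act (κ g) m.2) = m.2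
  obtain ⟨d, hd, hjd⟩ := hg
  have h1 : jp (τ * d * τ⁻¹) = e (θ * κ g * θ⁻¹) := by
    have hcc : c⁻¹ = c := inv_eq_of_mul_eq_one_left p.two.cc
    rw [map_mul, map_mul, map_inv, ← hθ, hjd, map_mul, map_mul, map_inv, p.two.kap, _root_.mul_inv_rev,
      hcc]
    group
  have h2 := hun _ ⟨_, h.In.conj_mem d hd τ, h1⟩ (act θ m.2)
  rw [← ha.mul, ← ha.mul] at h2
  have h3 := congrArg (act θ⁻¹) h2
  rw [← ha.mul, ← ha.mul, inv_mul_cancel, ha.one] at h3
  have h4 : θ⁻¹ * (θ * κ g * θ⁻¹ * (θ * κ g * θ⁻¹) * θ) = κ g * κ g := by group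
  rw [h4, ha.mul] at h3
  exact h3

/-- THE QUADRATIC FUNCTION. -/
theorem iv_ZqM (p : PlQ.{v} S Sq χ χq e c κ TP jp iv) (hodd : ∀ g, (2 : ℤ_[2]) ∣ χ g - 1)
    (hM : ∀ x ∈ IsLocalRing.maximalIdeal O, ∀ m : M, x • m = 0) (hsd : SDualF S χ κ Θ O act b)
    (h : TameF TP (fun d => χq (jp d)) a σ τ q In)
    (hun : ∀ g, (∃ d ∈ In, jp d = e g) → ∀ m, act g (act g m) = m) (hθ : e θ * c = jp τ)
    (hs : e s = jp σ) {x : P → M × M}
    (hx : Z1 TP (fun d => ac2 e c κ act (jp d)) x) (y : O) :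
    iv (Zq (fun d => ac2 e c κ act (jp d)) (be2 b) (fun (a : O) d => la2 e c κ act b a (jp d)) y x) =
      b (y • (x (τ * τ)).1) (act (κ θ) (x σ).1) + b (y • (x σ).1) (act (κ θ) (x σ).1) +
        ((q ^ 2 - 1) / 8) • b (y • (x (τ * τ)).1) (act (κ θ) (x (τ * τ)).1) := by
  have hkk := p.two.kk
  have hsD := sdualD (O := O) hkk p.ks hsd
  have hC := invD (O := O) hkk (two_M hM) hsd
  obtain ⟨n, iS, L, A, hc⟩ := KI.exists_crd_res (M := M × M) p.two hodd
    (fun x hx m => Prod.ext (hM x hx m.1) (hM x hx m.2)) hsD hC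
  have h1 := iv_ZqC p hsD h (hunD p hsd.act h hun hθ) hθ hs hc ((z1_inD p.two hsd.act).2 hx) y
  rw [zq_inD p.two hsd.act] at h1
  rw [h1]
  have h2 : ∀ u w : M, bD b (y • ((u, 0) : M × M)) (actD κ act (κ θ) (w, 0)) =
      b (y • u) (act (κ θ) w) := by
    intro u w
    rw [bD_apply]
    show b (y • u) (act (κ θ) w) + b (y • 0) (act (κ (κ θ)) 0) = _
    rw [hsd.act.zero, map_zero, add_zero]
  show bD b (y • (((x (τ * τ)).1, 0) : M × M)) (actD κ act (κ θ) ((x σ).1, 0)) +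
    bD b (y • (((x σ).1, 0) : M × M)) (actD κ act (κ θ) ((x σ).1, 0)) +
    ((q ^ 2 - 1) / 8) • bD b (y • (((x (τ * τ)).1, 0) : M × M))
      (actD κ act (κ θ) ((x (τ * τ)).1, 0)) = _
  rw [h2, h2, h2]

theorem ker_M (p : PlQ.{v} S Sq χ χq e c κ TP jp iv) (hodd : ∀ g, (2 : ℤ_[2]) ∣ χ g - 1)
    (hM : ∀ x ∈ IsLocalRing.maximalIdeal O, ∀ m : M, x • m = 0) (hsd : SDualF S χ κ Θ O act b)
    (h : TameF TP (fun d => χq (jp d)) a σ τ q In)
    (hun : ∀ g, (∃ d ∈ In, jp d = e g) → ∀ m, act g (act g m) = m) (hθ : e θ * c = jp τ)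
    (hs : e s = jp σ) {x : P → M × M}
    (hx : Z1 TP (fun d => ac2 e c κ act (jp d)) x) (h0 : gO O σ τ x = 0) :
    ∃ w : M, x = d0 (fun d => ac2 e c κ act (jp d)) (0, w) := by
  have hkk := p.two.kk
  have hsD := sdualD (O := O) hkk p.ks hsd
  have hC := invD (O := O) hkk (two_M hM) hsd
  obtain ⟨n, iS, L, A, hc⟩ := KI.exists_crd_res (M := M × M) p.two hodd
    (fun x hx m => Prod.ext (hM x hx m.1) (hM x hx m.2)) hsD hC
  have h00 : gO O σ τ (fun d => inD (x d)) = 0 := by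
    have e1 : (x σ).1 = 0 := congrArg Prod.fst h0
    have e2 : (x (τ * τ)).1 = 0 := congrArg Prod.snd h0
    show ((((x σ).1, 0) : M × M), (((x (τ * τ)).1, 0) : M × M)) = 0
    rw [e1, e2]
    rfl
  obtain ⟨w, hw⟩ := ker_C p hsD h (hunD p hsd.act h hun hθ) hθ hs hc
    ((z1_inD p.two hsd.act).2 hx) h00
  refine ⟨w.1, funext fun d => ?_⟩
  have h1 : inD (x d) = ac2 e c κ (actD κ act) (jp d) (0, w) - (0, w) := congrFun hw d
  show x d = ac2 e c κ act (jp d) (0, w.1) - (0, w.1)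
  rcases p.two.cases (jp d) with ⟨g, hg⟩ | ⟨g, hg⟩
  · rw [← hg, p.two.ac_e] at h1
    rw [← hg, p.two.ac_e]
    exact Prod.ext (congrArg (fun z : (M × M) × (M × M) => z.1.1) h1)
      (congrArg (fun z : (M × M) × (M × M) => z.2.1) h1)
  · rw [← hg, p.two.ac_ec] at h1
    rw [← hg, p.two.ac_ec]
    exact Prod.ext (congrArg (fun z : (M × M) × (M × M) => z.1.1) h1)
      (congrArg (fun z : (M × M) × (M × M) => z.2.1) h1)

end Pool.Agent.Work.MP_787500_nt.KJ
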