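import Mathlib
import Pool.Agent.Work.MP_787500_nt.KJ.RForm
import Pool.Agent.Work.MP_787500_nt.KJ.RIvM

/-!
# KJ/RBeta (size M): the form `β` and the map `g` in coordinates

* `exists_siso`: coordinates: `M` is a vector space over the residue field (see the proof of `KI.exists_crd_res`: `Module.IsTorsionBySet.module`), finite; a basis.
* `exists_beta`: `ω (u, v) = b (L⁻¹ u) (act (κ θ) (L⁻¹ v))` is biadditive and balanced over `F` (`hL.surj`, `hsd.bal`, `hsd.lin`): `KS.trace_trick` (see `QP.exists_form2` in QP/M7.lean) gives `β`. `nd`: `hsd.nd`, `act (κ θ)` is surjective.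
  `sy`: `b (y m) (κθ m') = b (θ (κθ m'))(κθ (y m)) = b (g m') (κθ (y m))`, up to `χ θ` (odd, values of exponent 2: `KS.smul_hfT` or `m + m = 0`) by `hsd.eqv θ`, `hsd.symm`: `b (κθ m', y m) = b (θ κθ m', κθ (y m))`; `act_mul`. `g = L ∘ act (θ κθ) ∘ L⁻¹`.
* `linkB_of`, `linkG_of`: as `ER.link_of` (ER/Rep.lean): `GP.bN_val`, `GP.coe_actN`, `actQ_mq`; `x + (ρ g - 1) x = ρ g x`.
-/

set_option autoImplicit false
set_option linter.unusedSectionVars false

namespace Pool.Agent.Work.MP_787500_nt.KJ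

open Matrix
open Pool.Agent.Work.MP_787500_nt.GP (A0 pr0 OE MN Wq mq mq_add mq_sub mq_smul mq_eq mq_eq_zero lft mq_lft
  bil bil_add_left bil_add_right bil_sub_left bil_sub_right bil_smul_left bil_smul_right bil_symm Lat
  lamN bN bN_val actN actQ actQ_mq IsAct d0 tw cup11)
open Pool.Agent.Work.MP_787500_nt.KR (FSys Sm1 Sm2 IsChar Smooth Z1 Z2 B2 LocH Pair LDual LocRep SDualF
  sdualF_MN)
open Pool.Agent.Work.MP_787500_nt.KS (hfT hfT_nondeg ep)
open Pool.Agent.Work.MP_787500_nt.KT (Sy ee IsSp)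
open Pool.Agent.Work.MP_787500_nt.QL (TameF zurM)
open Pool.Agent.Work.MP_787500_nt.QS (Two ac2 be2 la2 Lag QM pB Zq)
open Pool.Agent.Work.MP_787500_nt.QP (InvC)
open Pool.Agent.Work.MP_787500_nt.KI (SIso Crd PlQ LY LVal R1 Y2 tra siso_f2 bC YM)
open Pool.Agent.Work.MP_787500_nt.RC (SplS)
open Pool.Agent.Work.MP_787500_nt.ER (Rq rq_mem exists_rq rq_unique finrank_imW card_n imW kerN ranN W5 Lam2
  LamP BT LinkX TR LX QX BX cl gv gY mem_Lam2 mem_imW)

universe v

variable {G Γ : Type*} [Group G] [Group Γ] {S : FSys G} {Sq : FSys Γ} {χ : G → ℤ_[2]}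
  {χq : Γ → ℤ_[2]} {e : G →* Γ} {c : Γ} {κ : G →* G} {P : Type*} [Group P] {TP : FSys P}
  {jp : P →* Γ} {iv : (P → P → A0) → A0} {a : P → ℤ_[2]} {σ τ : P} {q : ℕ} {In : Subgroup P}
  {θ s : G} {Θ : Set (G × G)}

section siso

variable {O : Type v} [CommRing O] [IsLocalRing O] [Finite (IsLocalRing.ResidueField O)]
  {M : Type v} [AddCommGroup M] [Module O M] [Finite M]

theorem exists_siso (hM : ∀ x ∈ IsLocalRing.maximalIdeal O, ∀ m : M, x • m = 0) :
    ∃ (n : ℕ) (L : M ≃+ (Fin n → IsLocalRing.ResidueField O)),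
      SIso O (IsLocalRing.ResidueField O) L := by
  classical
  have hM' : Module.IsTorsionBySet O M (IsLocalRing.maximalIdeal O : Set O) := fun m a => hM a a.2 m
  let iM : Module (IsLocalRing.ResidueField O) M :=
    (hM'.module : Module (O ⧸ IsLocalRing.maximalIdeal O) M)
  have h5 : ∀ (y : O) (m : M), IsLocalRing.residue O y • m = y • m := fun _ _ => rfl
  have hfdM : FiniteDimensional (IsLocalRing.ResidueField O) M := Module.Finite.of_finite
  refine ⟨Module.finrank (IsLocalRing.ResidueField O) M,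
    (Module.finBasis (IsLocalRing.ResidueField O) M).equivFun.toAddEquiv,
    IsLocalRing.residue_surjective, fun a m => ?_⟩
  show (Module.finBasis (IsLocalRing.ResidueField O) M).equivFun (a • m) =
    IsLocalRing.residue O a • (Module.finBasis (IsLocalRing.ResidueField O) M).equivFun m
  rw [← h5, map_smul]

end siso

section beta

variable {F : Type v} [Field F] [Finite F] [CharP F 2] [Algebra (ZMod 2) F] {n : ℕ}
  {M : Type v} [AddCommGroup M] [Finite M] {O : Type*} [CommRing O] [Algebra O F] [Module O M]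
  {act : G → M → M} {b : M →+ M →+ A0} {L : M ≃+ (Fin n → F)}

theorem exists_beta (hL : SIso O F L) (X : Two e c κ) (hodd : ∀ g, (2 : ℤ_[2]) ∣ χ g - 1)
    (hsd : SDualF S χ κ Θ O act b) (hgg : ∀ m, act (θ * κ θ) (act (θ * κ θ) m) = m) :
    ∃ (β : LinearMap.BilinForm F (Fin n → F)) (g : (Fin n → F) →ₗ[F] (Fin n → F)),
      (∀ (y : O) m m', hfT (algebraMap O F y * β (L m) (L m')) = b (y • m) (act (κ θ) m')) ∧
      (∀ m, g (L m) = L (act (θ * κ θ) m)) ∧ GForm β g := by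
  classical
  obtain ⟨ω, hω⟩ : ∃ ω : (Fin n → F) →+ (Fin n → F) →+ A0,
      ∀ x y, ω x y = b (L.symm x) (act (κ θ) (L.symm y)) :=
    ⟨AddMonoidHom.mk' (fun x => AddMonoidHom.mk' (fun y => b (L.symm x) (act (κ θ) (L.symm y)))
      (fun y y' => by rw [map_add, hsd.act.add, map_add])) (fun x x' => by
        refine DFunLike.ext _ _ fun y => ?_
        show b (L.symm (x + x')) (act (κ θ) (L.symm y)) =
          b (L.symm x) (act (κ θ) (L.symm y)) + b (L.symm x') (act (κ θ) (L.symm y))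
        rw [map_add, map_add, AddMonoidHom.add_apply]), fun _ _ => rfl⟩
  obtain ⟨β, hβ⟩ := KS.trace_trick (F := F) ω (fun a x y => by
    obtain ⟨a', rfl⟩ := hL.surj a
    rw [hω, hω, hL.symm_smul, hL.symm_smul, hsd.bal, hsd.lin])
  have hβ' : ∀ (y : O) m m',
      hfT (algebraMap O F y * β (L m) (L m')) = b (y • m) (act (κ θ) m') := by
    intro y m m'
    rw [← hβ, hω, hL.symm_smul, L.symm_apply_apply, L.symm_apply_apply]
  obtain ⟨g, hg⟩ : ∃ g : (Fin n → F) →ₗ[F] (Fin n → F), ∀ v, g v = L (act (θ * κ θ) (L.symm v)) :=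
    ⟨{ toFun := fun v => L (act (θ * κ θ) (L.symm v))
       map_add' := fun v w => by rw [map_add, hsd.act.add, map_add]
       map_smul' := fun a v => by
        obtain ⟨a', rfl⟩ := hL.surj a
        rw [hL.symm_smul, hsd.lin, hL.smul, RingHom.id_apply] }, fun _ => rfl⟩
  have hg' : ∀ m, g (L m) = L (act (θ * κ θ) m) := fun m => by rw [hg, L.symm_apply_apply]
  refine ⟨β, g, hβ', hg', fun x hx => ?_, fun x y => ?_, fun x => ?_⟩
  · obtain ⟨m, rfl⟩ := L.surjective x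
    have h0 : m = 0 := hsd.nd m fun m' => by
      have h1 := hβ' 1 m (act (κ θ)⁻¹ m')
      rw [hx, mul_zero, map_zero, one_smul, ← hsd.act.mul, mul_inv_cancel, hsd.act.one] at h1
      exact h1.symm
    rw [h0, map_zero]
  · obtain ⟨m, rfl⟩ := L.surjective x
    obtain ⟨m', rfl⟩ := L.surjective y
    refine KS.hfT_eq fun a => ?_
    obtain ⟨y0, rfl⟩ := hL.surj a
    have h1 := hsd.eqv θ (y0 • act (κ θ) m') m
    have h2 : b (y0 • act (κ θ) m') m = hfT (algebraMap O F y0 * β (L m) (L m')) := by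
      rw [hβ', hsd.bal, hsd.symm]
    rw [h2, KS.smul_hfT (hodd θ)] at h1
    rw [← h1, hg', hβ', hsd.lin, hsd.act.mul]
  · obtain ⟨m, rfl⟩ := L.surjective x
    rw [hg', hg', hgg]

end beta

section lat

variable {E : Type v} [NormedField E] [NormedAlgebra ℚ_[2] E] [FiniteDimensional ℚ_[2] E]
  [IsLocalRing (OE E)] [Finite (IsLocalRing.ResidueField (OE E))]
  [CharP (IsLocalRing.ResidueField (OE E)) 2] [Algebra (ZMod 2) (IsLocalRing.ResidueField (OE E))]
  {m n : ℕ} {b : Matrix (Fin m) (Fin m) E} {l : OE E} {t : E →ₗ[ℚ_[2]] ℚ_[2]}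
  {T : Submodule (OE E) (Fin m → E)} {ρ : G → Matrix (Fin m) (Fin m) E}
  {L : MN T l 1 ≃+ (Fin n → IsLocalRing.ResidueField (OE E))}
  {β : LinearMap.BilinForm (IsLocalRing.ResidueField (OE E))
    (Fin n → IsLocalRing.ResidueField (OE E))}
  {g : (Fin n → IsLocalRing.ResidueField (OE E)) →ₗ[IsLocalRing.ResidueField (OE E)]
    (Fin n → IsLocalRing.ResidueField (OE E))}

theorem linkB_of (hl : Lat b l t T) (hr : LocRep S χ T b ρ (fun g => ρ (κ g)))
    (hβ : ∀ (y : OE E) m m', hfT (algebraMap (OE E) _ y * β (L m) (L m')) =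
      bN hl 1 (y • m) (actN l 1 ρ hr.st (κ θ) m')) : LinkB L b t (ρ (κ θ)) β := by
  rintro x y u v ⟨zx, h1, rfl⟩ ⟨zy, h2, rfl⟩
  have h4 := hβ 1 zx zy
  rw [map_one, one_mul, one_smul] at h4
  rw [h4]
  have h5 : mq T (ρ (κ θ) *ᵥ y) = (actN l 1 ρ hr.st (κ θ) zy : Wq T) := by
    rw [GP.coe_actN, h2, actQ_mq (hr.st _)]
  rw [GP.bN_val hl 1 zx (actN l 1 ρ hr.st (κ θ) zy) h1.symm h5, pow_one]

theorem linkG_of (hr : LocRep S χ T b ρ (fun g => ρ (κ g)))
    (hg : ∀ m, g (L m) = L (actN l 1 ρ hr.st (θ * κ θ) m)) :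
    LinkG L (ρ (θ * κ θ) - 1) g := by
  rintro x u ⟨z, h1, rfl⟩
  refine ⟨actN l 1 ρ hr.st (θ * κ θ) z, ?_, (hg z).symm⟩
  rw [GP.coe_actN, h1, actQ_mq (hr.st _), sub_mulVec, one_mulVec, add_sub_cancel]

end lat

end Pool.Agent.Work.MP_787500_nt.KJ
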