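import Mathlib
import Pool.Agent.Work.MP_787500_nt.KJ.RIvM

/-!
# KJ/RCard (size M): numbers of elements of conditions and of their values `gO`

* `card_lag`: the first half of the private lemma `dim_Y` in ER/LocI.lean (`GP.card_perp` for `QL.zB h.loc hp`, `QL.card_radL`, `QL.h1_eq`, `QL.card_b1s`, `KR.card_z1s`).
* `card_gO`: the map `gO` on `Y` has the kernel `{d0 (0, w)} ≃ M` (`ker_M`, `hB`, injectivity of `w ↦ d0 (0, w)`: the first component at `τ` is `act θ w` (`Two.ac_ec`, `hθ`); its values at `σ` and `τ τ` have the first component 0 (`Two.ac_e`; `jp (τ τ) = e (θ * κ θ)`)).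
* `map_inf_gO`: if `gO y = gO y'` then `y - y'` is `d0 (0, w)`, in both conditions.
-/

set_option autoImplicit false
set_option linter.unusedSectionVars false

namespace Pool.Agent.Work.MP_787500_nt.KJ

open Matrix
open Pool.Agent.Work.MP_787500_nt.GP (A0 pr0 OE MN Wq mq mq_add mq_sub mq_smul mq_eq mq_eq_zero lft mq_lft
  bil bil_add_left bil_add_right bil_sub_left bil_sub_right bil_smul_left bil_smul_right bil_symm Lat
  lamN bN bN_val actN actQ actQ_mq IsAct d0 tw cup11)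
open Pool.Agent.Work.MP_787500_nt.KR (FSys Sm1 Sm2 IsChar Smooth Z1 Z2 B2 LocH Pair LDual LocRep SDualF
  sdualF_MN z1s)
open Pool.Agent.Work.MP_787500_nt.KS (hfT hfT_nondeg ep)
open Pool.Agent.Work.MP_787500_nt.KT (Sy ee IsSp)
open Pool.Agent.Work.MP_787500_nt.QL (TameF zurM)
open Pool.Agent.Work.MP_787500_nt.QS (Two ac2 be2 la2 Lag QM pB Zq)
open Pool.Agent.Work.MP_787500_nt.QP (InvC)
open Pool.Agent.Work.MP_787500_nt.KI (SIso Crd PlQ LY LVal R1 Y2 tra siso_f2 bC YM)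
open Pool.Agent.Work.MP_787500_nt.RC (SplS)
open Pool.Agent.Work.MP_787500_nt.ER (Rq rq_mem exists_rq rq_unique finrank_imW card_n imW kerN ranN W5 Lam2
  LamP BT LinkX TR LX QX BX cl gv gY mem_Lam2 mem_imW)

universe v

variable {G Γ : Type*} [Group G] [Group Γ] {S : FSys G} {Sq : FSys Γ} {χ : G → ℤ_[2]}
  {χq : Γ → ℤ_[2]} {e : G →* Γ} {c : Γ} {κ : G →* G} {P : Type*} [Group P] {TP : FSys P}
  {jp : P →* Γ} {iv : (P → P → A0) → A0} {a : P → ℤ_[2]} {σ τ : P} {q : ℕ} {In : Subgroup P}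
  {θ s : G} {Θ : Set (G × G)}

section lag

variable {O : Type*} [CommRing O] {V : Type*} [AddCommGroup V] [Module O V] [Finite V]
  {ρ : P → V → V} {β : V →+ V →+ A0} {lam : O → P → V → A0} {χ' : P → ℤ_[2]}

theorem card_lag (h : TameF TP χ' a σ τ q In) (hL : LocH TP χ' iv) (hq : QM TP χ' O ρ β lam)
    (hl : LDual TP iv ρ ρ (pB β)) {Y : Submodule O (P → V)} (hY : Lag TP iv ρ β lam Y) :
    Nat.card Y = Nat.card V := by
  have hp := hq.pair
  have f1 : Finite (z1s TP hp.act) := hl.fin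
  have hle : Y.toAddSubgroup ≤ z1s TP hp.act := fun x hx => hY.coc x hx
  have e := GP.card_perp (QL.zB hL hp) (Y.toAddSubgroup.addSubgroupOf (z1s TP hp.act))
    (fun x hx => by
      obtain ⟨m, hm⟩ := hl.one x.1 x.2 fun y hy => hx ⟨y, hy⟩
      rw [AddSubgroup.mem_addSubgroupOf]
      show x.1 ∈ Y
      rw [hm]
      exact QS.Lag.cob hL hq hY m)
  rw [QL.card_radL hL hp hl] at e
  have e1 : GP.perpL (QL.zB hL hp) (Y.toAddSubgroup.addSubgroupOf (z1s TP hp.act)) =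
      Y.toAddSubgroup.addSubgroupOf (z1s TP hp.act) := by
    ext y
    constructor
    · intro hy
      rw [AddSubgroup.mem_addSubgroupOf]
      show y.1 ∈ Y
      refine (hY.self _ y.2).2 fun x hx => ?_
      rw [QS.iv_symm hL hq y.2 (hY.coc x hx)]
      exact hy ⟨x, hY.coc x hx⟩ hx
    · intro hy x hx
      have hy' : y.1 ∈ Y := hy
      have hx' : x.1 ∈ Y := hx
      exact (hY.self _ x.2).1 hx' _ hy'
  rw [e1] at e
  have e2 : Nat.card (Y.toAddSubgroup.addSubgroupOf (z1s TP hp.act)) = Nat.card Y :=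
    Nat.card_congr (AddSubgroup.addSubgroupOfEquivOfLe hle).toEquiv
  rw [e2, ← KR.card_z1s hp, QL.h1_eq h hL hp hl] at e
  have e3 := QL.card_b1s hp
  have e4 : Nat.card (QL.fixG hp.act') = Nat.card (QL.fixG hp.act) := rfl
  rw [e4] at e
  have e5 : Nat.card Y * Nat.card Y = Nat.card V * Nat.card V := by
    rw [e, ← e3]
    ring
  exact Nat.mul_self_inj.1 e5

end lag

variable {O : Type v} [CommRing O] [IsLocalRing O] [Finite (IsLocalRing.ResidueField O)]
  [CharP (IsLocalRing.ResidueField O) 2] [Algebra (ZMod 2) (IsLocalRing.ResidueField O)]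
  {M : Type v} [AddCommGroup M] [Module O M] [Finite M] {act : G → M → M} {b : M →+ M →+ A0}

private theorem act_zero' {act : G → M → M} (ha : GP.IsAct act) (g : G) : act g 0 = 0 := by
  have h := ha.add g 0 0
  rw [add_zero] at h
  exact left_eq_add.1 h

private theorem act_inj {act : G → M → M} (ha : GP.IsAct act) (g : G) :
    Function.Injective (act g) := fun x y hxy => by
  have h := congrArg (act g⁻¹) hxy
  rwa [← ha.mul, ← ha.mul, inv_mul_cancel, ha.one, ha.one] at h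

private theorem gO_d0 (X : Two e c κ) (ha : GP.IsAct act) (hθ : e θ * c = jp τ)
    (hs : e s = jp σ) (w : M) :
    gO O σ τ (d0 (fun d => ac2 e c κ act (jp d)) (0, w)) = 0 := by
  have h1 : jp (τ * τ) = e (θ * κ θ) := by
    rw [map_mul, ← hθ, map_mul, X.kap]
    group
  refine Prod.ext ?_ ?_
  · show (ac2 e c κ act (jp σ) (0, w) - (0, w)).1 = 0
    rw [← hs, X.ac_e]
    show act s 0 - 0 = 0
    rw [act_zero' ha, sub_zero]
  · show (ac2 e c κ act (jp (τ * τ)) (0, w) - (0, w)).1 = 0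
    rw [h1, X.ac_e]
    show act (θ * κ θ) 0 - 0 = 0
    rw [act_zero' ha, sub_zero]

private theorem d0_inj (X : Two e c κ) (ha : GP.IsAct act) (hθ : e θ * c = jp τ) :
    Function.Injective fun w : M => d0 (fun d => ac2 e c κ act (jp d)) ((0 : M), w) := by
  intro w w' hw
  have h1 : (ac2 e c κ act (jp τ) (0, w) - (0, w)).1 = (ac2 e c κ act (jp τ) (0, w') - (0, w')).1 :=
    congrArg Prod.fst (congrFun hw τ)
  rw [← hθ, X.ac_ec, X.ac_ec] at h1
  have h2 : act θ w - 0 = act θ w' - 0 := h1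
  rw [sub_zero, sub_zero] at h2
  exact act_inj ha θ h2

theorem card_gO (p : PlQ.{v} S Sq χ χq e c κ TP jp iv) (hodd : ∀ g, (2 : ℤ_[2]) ∣ χ g - 1)
    (hM : ∀ x ∈ IsLocalRing.maximalIdeal O, ∀ m : M, x • m = 0) (hsd : SDualF S χ κ Θ O act b)
    (h : TameF TP (fun d => χq (jp d)) a σ τ q In)
    (hun : ∀ g, (∃ d ∈ In, jp d = e g) → ∀ m, act g (act g m) = m) (hθ : e θ * c = jp τ)
    (hs : e s = jp σ) {Y : Submodule O (P → M × M)}
    (hY : ∀ x ∈ Y, Z1 TP (fun d => ac2 e c κ act (jp d)) x)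
    (hB : ∀ v, d0 (fun d => ac2 e c κ act (jp d)) v ∈ Y) :
    Nat.card Y = Nat.card M * Nat.card (Y.map (gO O σ τ)) := by
  have X := p.two
  have ha := hsd.act
  let f : Y →ₗ[O] M × M := (gO O σ τ).comp Y.subtype
  have e1 : Nat.card Y = Nat.card (Y ⧸ f.toAddMonoidHom.ker) * Nat.card f.toAddMonoidHom.ker :=
    AddSubgroup.card_eq_card_quotient_mul_card_addSubgroup _
  have e2 : Nat.card (Y ⧸ f.toAddMonoidHom.ker) = Nat.card (Y.map (gO O σ τ)) := by
    rw [Nat.card_congr (QuotientAddGroup.quotientKerEquivRange f.toAddMonoidHom).toEquiv]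
    refine Nat.card_congr (Equiv.setCongr ?_)
    ext v
    constructor
    · rintro ⟨y, rfl⟩
      exact ⟨y.1, y.2, rfl⟩
    · rintro ⟨y, hy, rfl⟩
      exact ⟨⟨y, hy⟩, rfl⟩
  have e3 : Nat.card f.toAddMonoidHom.ker = Nat.card M := by
    symm
    refine Nat.card_congr (Equiv.ofBijective (fun w : M =>
      (⟨⟨d0 (fun d => ac2 e c κ act (jp d)) (0, w), hB _⟩, gO_d0 (O := O) X ha hθ hs w⟩ :
        f.toAddMonoidHom.ker)) ⟨?_, ?_⟩)
    · intro w w' hw
      exact d0_inj X ha hθ (congrArg (fun z => z.1.1) hw)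
    · rintro ⟨⟨y, hy⟩, hy0⟩
      have hy0' : gO O σ τ y = 0 := hy0
      obtain ⟨w, hw⟩ := ker_M p hodd hM hsd h hun hθ hs (hY y hy) hy0'
      exact ⟨w, Subtype.ext (Subtype.ext hw.symm)⟩
  rw [e1, e2, e3, mul_comm]

theorem map_inf_gO (p : PlQ.{v} S Sq χ χq e c κ TP jp iv) (hodd : ∀ g, (2 : ℤ_[2]) ∣ χ g - 1)
    (hM : ∀ x ∈ IsLocalRing.maximalIdeal O, ∀ m : M, x • m = 0) (hsd : SDualF S χ κ Θ O act b)
    (h : TameF TP (fun d => χq (jp d)) a σ τ q In)
    (hun : ∀ g, (∃ d ∈ In, jp d = e g) → ∀ m, act g (act g m) = m) (hθ : e θ * c = jp τ)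
    (hs : e s = jp σ) {Y Y' : Submodule O (P → M × M)}
    (hY : ∀ x ∈ Y, Z1 TP (fun d => ac2 e c κ act (jp d)) x)
    (hY' : ∀ x ∈ Y', Z1 TP (fun d => ac2 e c κ act (jp d)) x)
    (hB : ∀ v, d0 (fun d => ac2 e c κ act (jp d)) v ∈ Y)
    (hB' : ∀ v, d0 (fun d => ac2 e c κ act (jp d)) v ∈ Y') :
    (Y ⊓ Y').map (gO O σ τ) = Y.map (gO O σ τ) ⊓ Y'.map (gO O σ τ) := by
  ext v
  constructor
  · rintro ⟨y, hy, rfl⟩
    exact ⟨⟨y, hy.1, rfl⟩, ⟨y, hy.2, rfl⟩⟩
  · rintro ⟨⟨y, hy, rfl⟩, ⟨y', hy', he⟩⟩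
    have ha := p.two.act hsd.act
    have ha' : GP.IsAct fun d => ac2 e c κ act (jp d) := by
      refine ⟨fun v => ?_, fun g k v => ?_, fun g v w => ha.add _ v w⟩
      · rw [map_one]
        exact ha.one v
      · rw [map_mul]
        exact ha.mul _ _ v
    have hsub : Z1 TP (fun d => ac2 e c κ act (jp d)) (y' - y) :=
      (z1s TP ha').sub_mem (hY' y' hy') (hY y hy)
    obtain ⟨w, hw⟩ := ker_M p hodd hM hsd h hun hθ hs hsub (by rw [map_sub, he, sub_self])
    have hy2 : y' ∈ Y := by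
      have h1 : y' = d0 (fun d => ac2 e c κ act (jp d)) (0, w) + y := by rw [← hw, sub_add_cancel]
      rw [h1]
      exact Y.add_mem (hB _) hy
    exact ⟨y', ⟨hy2, hy'⟩, he⟩

end Pool.Agent.Work.MP_787500_nt.KJ
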