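import Mathlib
import Pool.Agent.Work.MP_787500_nt.KJ.RForm

/-!
# KJ/RLatA (size M): the plane `LamP` for a form `β` without symplectic coordinates

Models: `ER.lamP_q`, `ER.mem_kp`, `ER.lamP_ref` in ER/LamA.lean (read that file first; `ee u (X v)` becomes `β u v`; the private lemmas `Lk`, `lk_of`, `lk_add`, `lk_zero`, `link0`, `be_kk` have to be copied
with `LinkB`; `be_Nk`, `be_NN` are in ER/Gam).
* `lamP_qB`: `u` from `z ∈ ker N`, `v` from `N w`: `β v u = 0` (`be_Nk`), `β u u = 0` (`be_kk`), `β v v = 0` (`be_NN`).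
* `lamP_refB`: `P = imW (ranN N)`, `K' = imW (kerN N)`; `K' = {u | ∀ v ∈ P, β v u = 0}` (inclusion by `be_Nk`, equality by dimensions: `β` nondegenerate (`GForm`), `finrank_imW`);
  for `v ∈ P`: `g v = v` (`LinkG`: `v` is the reduction of `N w`, `g v` of `N w + N N w = N w`, `B.nn`; `rq_unique`), so also `K' = {u | ∀ v ∈ P, β u v = 0}` (`β u v = β (g v) u`).
  `LZ Z ⊓ LamP ≃ {v ∈ P | Z v ∈ K'}` = the radical of the form `(v, v') ↦ β (Z v) v'` on `P`, which is alternating (`GPlane.alt`, `g v = v`), so its rank is even (`KS.alt_even`, see the end of `ER.lamP_ref`),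
  `finrank P = finrank (ranN N)` (`finrank_imW`).
-/

set_option autoImplicit false
set_option linter.unusedSectionVars false

namespace Pool.Agent.Work.MP_787500_nt.KJ

open Matrix
open Pool.Agent.Work.MP_787500_nt.GP (A0 pr0 OE MN Wq mq mq_add mq_sub mq_smul mq_eq mq_eq_zero lft mq_lft
  bil bil_add_left bil_add_right bil_sub_left bil_sub_right bil_smul_left bil_smul_right bil_symm Lat
  lamN bN bN_val actN actQ actQ_mq IsAct d0 tw cup11)
open Pool.Agent.Work.MP_787500_nt.KR (FSys Sm1 Sm2 IsChar Smooth Z1 Z2 B2 LocH Pair LDual LocRep SDualF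
  sdualF_MN)
open Pool.Agent.Work.MP_787500_nt.KS (hfT hfT_nondeg ep)
open Pool.Agent.Work.MP_787500_nt.KT (Sy ee IsSp)
open Pool.Agent.Work.MP_787500_nt.QL (TameF zurM)
open Pool.Agent.Work.MP_787500_nt.QS (Two ac2 be2 la2 Lag QM pB Zq)
open Pool.Agent.Work.MP_787500_nt.QP (InvC)
open Pool.Agent.Work.MP_787500_nt.KI (SIso Crd PlQ LY LVal R1 Y2 tra siso_f2 bC YM)
open Pool.Agent.Work.MP_787500_nt.RC (SplS)
open Pool.Agent.Work.MP_787500_nt.ER (Rq rq_mem exists_rq rq_unique finrank_imW card_n imW kerN ranN W5 Lam2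
  LamP BT LinkX TR LX QX BX cl gv gY mem_Lam2 mem_imW)

universe v

variable {E : Type v} [NormedField E] [NormedAlgebra ℚ_[2] E] [FiniteDimensional ℚ_[2] E]
  [IsLocalRing (OE E)] [Finite (IsLocalRing.ResidueField (OE E))]
  [CharP (IsLocalRing.ResidueField (OE E)) 2] [Algebra (ZMod 2) (IsLocalRing.ResidueField (OE E))]
  {m n : ℕ} {b : Matrix (Fin m) (Fin m) E} {l : OE E} {t : E →ₗ[ℚ_[2]] ℚ_[2]}
  {T : Submodule (OE E) (Fin m → E)} {N s K : Matrix (Fin m) (Fin m) E}
  {L : MN T l 1 ≃+ (Fin n → IsLocalRing.ResidueField (OE E))}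
  {β : LinearMap.BilinForm (IsLocalRing.ResidueField (OE E))
    (Fin n → IsLocalRing.ResidueField (OE E))}
  {g Z : (Fin n → IsLocalRing.ResidueField (OE E)) →ₗ[IsLocalRing.ResidueField (OE E)]
    (Fin n → IsLocalRing.ResidueField (OE E))}

/-- `z` is the reduction of `l² y` in the sense of the pairing with all scalars -/
private def Lk (l : OE E) (t : E →ₗ[ℚ_[2]] ℚ_[2]) (z : (IsLocalRing.ResidueField (OE E))) (y : E) : Prop :=
  ∀ a : OE E, hfT (algebraMap (OE E) (IsLocalRing.ResidueField (OE E)) a * z) = pr0 (t ((l : E) * ((a : E) * y)))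

private theorem lk_of (hL : SIso (OE E) (IsLocalRing.ResidueField (OE E)) L) (hβ : LinkB L b t K β) {x y : Fin m → E}
    {u v : Fin n → (IsLocalRing.ResidueField (OE E))} (h : Rq L x u) (h' : Rq L y v) :
    Lk l t (β u v) (bil b x (K *ᵥ y)) := by
  intro a
  have h1 := hβ _ _ _ _ (h.smul hL a) h'
  rw [map_smul, LinearMap.smul_apply, smul_eq_mul, bil_smul_left] at h1
  exact h1

private theorem lk_add {z z' : (IsLocalRing.ResidueField (OE E))} {y y' : E} (h : Lk l t z y) (h' : Lk l t z' y') :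
    Lk l t (z + z') (y + y') := by
  intro a
  rw [mul_add, map_add, h a, h' a, mul_add, mul_add, map_add, map_add]

private theorem lk_zero (hl : Lat b l t T) (hL : SIso (OE E) (IsLocalRing.ResidueField (OE E)) L) {z : (IsLocalRing.ResidueField (OE E))} {y : E}
    (h : Lk l t z y) (hy : ‖(l : E) * y‖ ≤ 1) : z = 0 := by
  refine hfT_nondeg fun a' => ?_
  obtain ⟨a, rfl⟩ := hL.surj a'
  rw [h a]
  refine GP.pr0_zero_of_norm (hl.tint _ ?_)
  have e1 : (l : E) * ((a : E) * y) = (a : E) * ((l : E) * y) := by ring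
  rw [e1, norm_mul]
  exact mul_le_one₀ a.2 (norm_nonneg _) hy

private theorem link0 (hl : Lat b l t T) (hL : SIso (OE E) (IsLocalRing.ResidueField (OE E)) L) (hβ : LinkB L b t K β)
    {x y : Fin m → E} {u v : Fin n → (IsLocalRing.ResidueField (OE E))} (h : Rq L x u) (h' : Rq L y v)
    (h0 : bil b x (K *ᵥ y) = 0) : β u v = 0 := by
  refine lk_zero hl hL (lk_of hL hβ h h') ?_
  rw [h0, mul_zero, norm_zero]
  exact zero_le_one

private theorem two_ne : (2 : E) ≠ 0 := by
  have h2 : (algebraMap ℚ_[2] E) (2 : ℚ_[2]) ≠ 0 := by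
    rw [map_ne_zero_iff _ (algebraMap ℚ_[2] E).injective]
    exact two_ne_zero
  rwa [map_ofNat] at h2

/-- the values on the kernel of `N` -/
private theorem be_kk (B : BT b T N s K) {z z' : Fin m → E} (hz : N *ᵥ z = 0) :
    bil b z (K *ᵥ z) = 0 := by
  have h1 := B.skew z z
  rw [hz, add_zero] at h1
  have h2 : (2 : E) * bil b z (K *ᵥ z) = 0 := by linear_combination h1
  exact (mul_eq_zero.1 h2).resolve_left two_ne

theorem lamP_qB (hl : Lat b l t T) (B : BT b T N s K)
    (hL : SIso (OE E) (IsLocalRing.ResidueField (OE E)) L) (hβ : LinkB L b t K β) (q : ℕ) :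
    ∀ p ∈ LamP hL N, QB β q p = 0 := by
  rintro ⟨u, v⟩ ⟨⟨z, hz, hu⟩, x, ⟨w, hw⟩, hv⟩
  have hw' : N *ᵥ w = x := hw
  subst hw'
  unfold QB
  dsimp only at hu hv ⊢
  rw [link0 hl hL hβ hv hu (ER.be_Nk B w hz).1,
    link0 hl hL hβ hu hu (be_kk B (z' := z) hz), link0 hl hL hβ hv hv (ER.be_NN B w w), mul_zero,
    add_zero, add_zero]

/-- the kernel plane is the orthogonal of the image plane -/
private theorem mem_kp (hl : Lat b l t T) (B : BT b T N s K)
    (hL : SIso (OE E) (IsLocalRing.ResidueField (OE E)) L) (hβ : LinkB L b t K β)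
    (hG : GForm β g) (u : Fin n → (IsLocalRing.ResidueField (OE E))) :
    u ∈ imW hL (kerN N) ↔ ∀ v ∈ imW hL (ranN N), β v u = 0 := by
  have hnd : β.Nondegenerate := by
    refine ⟨fun x h => hG.nd x h, fun x h => ?_⟩
    rw [← hG.gg x, hG.nd (g x) fun y => (hG.sy y x).symm.trans (h y), map_zero]
  have hle : imW hL (kerN N) ≤ LinearMap.BilinForm.orthogonal β (imW hL (ranN N)) := by
    rintro u ⟨z, hz, hu⟩ v ⟨x, ⟨w, hw⟩, hv⟩
    have hw' : N *ᵥ w = x := hw
    subst hw'
    exact link0 hl hL hβ hv hu (ER.be_Nk B w hz).1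
  have heq : imW hL (kerN N) = LinearMap.BilinForm.orthogonal β (imW hL (ranN N)) := by
    refine Submodule.eq_of_le_of_finrank_eq hle ?_
    rw [LinearMap.BilinForm.finrank_orthogonal hnd, Module.finrank_fin_fun, finrank_imW hl,
      finrank_imW hl]
    have h2 := LinearMap.finrank_range_add_finrank_ker N.mulVecLin
    rw [Module.finrank_fin_fun] at h2
    have hnm := card_n hl hL
    have h5 : Module.finrank E (ranN N) + Module.finrank E (kerN N) = m := h2
    omega
  rw [heq]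
  exact Iff.rfl

theorem lamP_refB (hl : Lat b l t T) (B : BT b T N s K)
    (hL : SIso (OE E) (IsLocalRing.ResidueField (OE E)) L) (hβ : LinkB L b t K β)
    (hg : LinkG L N g) (hG : GForm β g) {q : ℕ} (hZ : GPlane β g q Z) :
    Even (Module.finrank (IsLocalRing.ResidueField (OE E)) ↥(LZ Z ⊓ LamP hL N) +
      Module.finrank E (ranN N)) := by
  set R : Submodule (IsLocalRing.ResidueField (OE E))
    (Fin n → (IsLocalRing.ResidueField (OE E))) := imW hL (ranN N) ⊓
    (imW hL (kerN N)).comap Z with hR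
  have e1 : LZ Z ⊓ LamP hL N = R.map (Z.prod LinearMap.id) := by
    ext ⟨u, v⟩
    rw [Submodule.mem_inf, mem_LZ, Submodule.mem_map]
    constructor
    · rintro ⟨h1, h2, h3⟩
      have h1' : u = Z v := h1
      refine ⟨v, ⟨h3, ?_⟩, Prod.ext h1'.symm rfl⟩
      show Z v ∈ imW hL (kerN N)
      rw [← h1']
      exact h2
    · rintro ⟨v', ⟨h1, h2⟩, h3⟩
      have e1 : Z v' = u := congrArg Prod.fst h3
      have e2 : v' = v := congrArg Prod.snd h3
      subst e2
      refine ⟨e1.symm, ?_, h1⟩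
      rw [← e1]
      exact h2
  have hinj : Function.Injective (Z.prod (LinearMap.id :
      (Fin n → (IsLocalRing.ResidueField (OE E))) →ₗ[(IsLocalRing.ResidueField (OE E))]
        (Fin n → (IsLocalRing.ResidueField (OE E))))) := fun x y h => congrArg Prod.snd h
  rw [e1, ← (Submodule.equivMapOfInjective _ hinj R).finrank_eq, ← finrank_imW hl hL]
  have hfix : ∀ v ∈ imW hL (ranN N), g v = v := by
    rintro v ⟨x, ⟨w, hw⟩, hv⟩
    have hw' : N *ᵥ w = x := hw
    subst hw'
    have h1 := hg _ _ hv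
    rw [mulVec_mulVec, B.nn, zero_mulVec, add_zero] at h1
    rw [rq_unique h1 hv, sub_self]
    exact T.zero_mem
  obtain ⟨F, hF⟩ : ∃ F : (imW hL (ranN N)) →ₗ[IsLocalRing.ResidueField (OE E)]
      (imW hL (ranN N)) →ₗ[IsLocalRing.ResidueField (OE E)] IsLocalRing.ResidueField (OE E),
      ∀ x y, F x y = β (Z x) y :=
    ⟨(β ∘ₗ Z).domRestrict₁₂ (imW hL (ranN N)) (imW hL (ranN N)), fun x y => rfl⟩
  obtain ⟨k, hk⟩ := KS.alt_even F (fun x => by
    rw [hF]
    exact hZ.alt _ (hfix _ x.2))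
  have e2 : R = (LinearMap.ker F).map (imW hL (ranN N)).subtype := by
    ext v
    rw [hR, Submodule.mem_inf, Submodule.mem_map, Submodule.mem_comap]
    constructor
    · rintro ⟨h1, h2⟩
      refine ⟨⟨v, h1⟩, ?_, rfl⟩
      rw [LinearMap.mem_ker]
      ext y
      rw [hF, hG.sy, hfix _ y.2]
      exact (mem_kp hl B hL hβ hG _).1 h2 y y.2
    · rintro ⟨⟨v', h1⟩, h2, rfl⟩
      refine ⟨h1, (mem_kp hl B hL hβ hG _).2 fun y hy => ?_⟩
      rw [LinearMap.mem_ker] at h2
      have h3 := DFunLike.congr_fun h2 (⟨y, hy⟩ : imW hL (ranN N))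
      rw [hF] at h3
      rw [← hfix y hy, ← hG.sy]
      exact h3
  rw [e2, Submodule.finrank_map_subtype_eq, hk]
  exact ⟨Module.finrank (IsLocalRing.ResidueField (OE E)) (LinearMap.ker F) + k, by ring⟩

end Pool.Agent.Work.MP_787500_nt.KJ
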