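import Mathlib
import Pool.Agent.Work.MP_787500_nt.KJ.RLatA
import Pool.Agent.Work.MP_787500_nt.ER.Res2

/-!
# KJ/RLatB (size M): the parity for the unramified plane, for a form `β` without symplectic coordinates

Models: `ER.lam2_B` (in ER/LamA.lean) and `ER.res2` (in ER/Res2.lean).
* `lam2_BB`: as `ER.lam2_B` with `β u v` instead of `ee u (X v)` (copy the private lemmas with `LinkB`).
* `resB`: as `ER.res2`, with `BB β q` instead of `BL X q`, `polarB`, `BB_symm`, `BB_nd hG q`, `finrank_LZ`, `QB_LZ hZ`, `lamP_qB`, `lamP_refB`, and `ER.lamP_dim`, `ER.lam2_dim`, `ER.alt_even`, `ER.card_n`,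
  `ER.triple0`. The number `n` is even or odd does not matter? In `ER.res2` the evenness of `n` is used only through `omega`: here use the evenness hypothesis `hn`.
-/

set_option autoImplicit false
set_option linter.unusedSectionVars false

namespace Pool.Agent.Work.MP_787500_nt.KJ

open Matrix
open Pool.Agent.Work.MP_787500_nt.GP (A0 pr0 OE MN Wq mq mq_add mq_sub mq_smul mq_eq mq_eq_zero lft mq_lft
  bil bil_add_left bil_add_right bil_sub_left bil_sub_right bil_smul_left bil_smul_right bil_symm Lat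
  lamN bN bN_val actN actQ actQ_mq IsAct d0 tw cup11)
open Pool.Agent.Work.MP_787500_nt.KR (FSys Sm1 Sm2 IsChar Smooth Z1 Z2 B2 LocH Pair LDual LocRep SDualF
  sdualF_MN)
open Pool.Agent.Work.MP_787500_nt.KS (hfT hfT_nondeg ep)
open Pool.Agent.Work.MP_787500_nt.KT (Sy ee IsSp)
open Pool.Agent.Work.MP_787500_nt.QL (TameF zurM)
open Pool.Agent.Work.MP_787500_nt.QS (Two ac2 be2 la2 Lag QM pB Zq)
open Pool.Agent.Work.MP_787500_nt.QP (InvC)
open Pool.Agent.Work.MP_787500_nt.KI (SIso Crd PlQ LY LVal R1 Y2 tra siso_f2 bC YM)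
open Pool.Agent.Work.MP_787500_nt.RC (SplS)
open Pool.Agent.Work.MP_787500_nt.ER (Rq rq_mem exists_rq rq_unique finrank_imW card_n imW kerN ranN W5 Lam2
  LamP BT LinkX TR LX QX BX cl gv gY mem_Lam2 mem_imW)

universe v

variable {E : Type v} [NormedField E] [NormedAlgebra ℚ_[2] E] [FiniteDimensional ℚ_[2] E]
  [IsLocalRing (OE E)] [Finite (IsLocalRing.ResidueField (OE E))]
  [CharP (IsLocalRing.ResidueField (OE E)) 2] [Algebra (ZMod 2) (IsLocalRing.ResidueField (OE E))]
  {m n : ℕ} {b : Matrix (Fin m) (Fin m) E} {l : OE E} {t : E →ₗ[ℚ_[2]] ℚ_[2]}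
  {T : Submodule (OE E) (Fin m → E)} {N s K : Matrix (Fin m) (Fin m) E}
  {L : MN T l 1 ≃+ (Fin n → IsLocalRing.ResidueField (OE E))}
  {β : LinearMap.BilinForm (IsLocalRing.ResidueField (OE E))
    (Fin n → IsLocalRing.ResidueField (OE E))}
  {g Z : (Fin n → IsLocalRing.ResidueField (OE E)) →ₗ[IsLocalRing.ResidueField (OE E)]
    (Fin n → IsLocalRing.ResidueField (OE E))}

/-- `z` is the reduction of `l² y` in the sense of the pairing with all scalars -/
private def Lk (l : OE E) (t : E →ₗ[ℚ_[2]] ℚ_[2]) (z : (IsLocalRing.ResidueField (OE E))) (y : E) : Prop :=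
  ∀ a : OE E, hfT (algebraMap (OE E) (IsLocalRing.ResidueField (OE E)) a * z) = pr0 (t ((l : E) * ((a : E) * y)))

private theorem lk_of (hL : SIso (OE E) (IsLocalRing.ResidueField (OE E)) L) (hβ : LinkB L b t K β) {x y : Fin m → E}
    {u v : Fin n → (IsLocalRing.ResidueField (OE E))} (h : Rq L x u) (h' : Rq L y v) :
    Lk l t (β u v) (bil b x (K *ᵥ y)) := by
  intro a
  have h1 := hβ _ _ _ _ (h.smul hL a) h'
  rw [map_smul, LinearMap.smul_apply, smul_eq_mul, bil_smul_left] at h1
  exact h1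

private theorem lk_add {z z' : (IsLocalRing.ResidueField (OE E))} {y y' : E} (h : Lk l t z y) (h' : Lk l t z' y') :
    Lk l t (z + z') (y + y') := by
  intro a
  rw [mul_add, map_add, h a, h' a, mul_add, mul_add, map_add, map_add]

private theorem lk_zero (hl : Lat b l t T) (hL : SIso (OE E) (IsLocalRing.ResidueField (OE E)) L) {z : (IsLocalRing.ResidueField (OE E))} {y : E}
    (h : Lk l t z y) (hy : ‖(l : E) * y‖ ≤ 1) : z = 0 := by
  refine hfT_nondeg fun a' => ?_
  obtain ⟨a, rfl⟩ := hL.surj a'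
  rw [h a]
  refine GP.pr0_zero_of_norm (hl.tint _ ?_)
  have e1 : (l : E) * ((a : E) * y) = (a : E) * ((l : E) * y) := by ring
  rw [e1, norm_mul]
  exact mul_le_one₀ a.2 (norm_nonneg _) hy

private theorem link0 (hl : Lat b l t T) (hL : SIso (OE E) (IsLocalRing.ResidueField (OE E)) L) (hβ : LinkB L b t K β)
    {x y : Fin m → E} {u v : Fin n → (IsLocalRing.ResidueField (OE E))} (h : Rq L x u) (h' : Rq L y v)
    (h0 : bil b x (K *ᵥ y) = 0) : β u v = 0 := by
  refine lk_zero hl hL (lk_of hL hβ h h') ?_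
  rw [h0, mul_zero, norm_zero]
  exact zero_le_one

private theorem norm_two_lt : ‖(2 : E)‖ < 1 := by
  rw [← map_ofNat (algebraMap ℚ_[2] E) 2, norm_algebraMap']
  have := Padic.norm_p_lt_one (p := 2)
  exact_mod_cast this

private theorem dim_fst {F W W' : Type*} [Field F] [AddCommGroup W] [Module F W] [AddCommGroup W']
    [Module F W'] [FiniteDimensional F W] [FiniteDimensional F W'] (Λ : Submodule F (W × W')) :
    Module.finrank F Λ = Module.finrank F (Λ.map (LinearMap.fst F W W')) +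
      Module.finrank F ↥(Λ ⊓ LinearMap.ker (LinearMap.fst F W W')) := by
  have h1 := LinearMap.finrank_range_add_finrank_ker ((LinearMap.fst F W W').domRestrict Λ)
  rw [← h1]
  congr 1
  · have e1 : LinearMap.range ((LinearMap.fst F W W').domRestrict Λ) =
        Λ.map (LinearMap.fst F W W') := by
      show LinearMap.range ((LinearMap.fst F W W').comp Λ.subtype) = _
      rw [LinearMap.range_comp, Submodule.range_subtype]
    rw [e1]
  · have e1 : LinearMap.ker ((LinearMap.fst F W W').domRestrict Λ) =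
        (LinearMap.ker (LinearMap.fst F W W')).comap Λ.subtype := by
      show LinearMap.ker ((LinearMap.fst F W W').comp Λ.subtype) = _
      rw [LinearMap.ker_comp]
    rw [e1, ← Submodule.finrank_map_subtype_eq, Submodule.map_comap_subtype]

private theorem dim_prod {F W W' : Type*} [Field F] [AddCommGroup W] [Module F W] [AddCommGroup W']
    [Module F W'] [FiniteDimensional F W] [FiniteDimensional F W'] (A : Submodule F W)
    (B : Submodule F W') :
    Module.finrank F (A.prod B) = Module.finrank F A + Module.finrank F B := by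
  rw [dim_fst (A.prod B)]
  congr 1
  · rw [Submodule.prod_map_fst]
  · have e1 : A.prod B ⊓ LinearMap.ker (LinearMap.fst F W W') = B.map (LinearMap.inr F W W') := by
      ext ⟨x, y⟩
      simp only [Submodule.mem_inf, Submodule.mem_prod, LinearMap.mem_ker, LinearMap.fst_apply,
        Submodule.mem_map, LinearMap.inr_apply, Prod.mk.injEq]
      constructor
      · rintro ⟨⟨-, h2⟩, h3⟩
        exact ⟨y, h2, h3.symm, rfl⟩
      · rintro ⟨y', h2, h3, rfl⟩
        rw [← h3]
        exact ⟨⟨A.zero_mem, h2⟩, rfl⟩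
    rw [e1]
    exact (Submodule.equivMapOfInjective _ LinearMap.inr_injective B).finrank_eq.symm

private theorem lamP_dim (hl : Lat b l t T) (hL : SIso (OE E) (IsLocalRing.ResidueField (OE E)) L) :
    Module.finrank (IsLocalRing.ResidueField (OE E)) (LamP hL N) = n := by
  unfold LamP
  rw [dim_prod, finrank_imW hl, finrank_imW hl, card_n hl hL, add_comm]
  have h1 := LinearMap.finrank_range_add_finrank_ker N.mulVecLin
  rw [Module.finrank_fin_fun] at h1
  exact h1

/-- the bound for two vectors with a reduction -/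
private theorem norm_be (hl : Lat b l t T) (B : BT b T N s K) {x y : Fin m → E}
    (hx : (l : E) • x ∈ T) (hy : (l : E) • y ∈ T) : ‖(l : E) * (2 * bil b x (K *ᵥ y))‖ ≤ 1 := by
  have h1 : ‖bil b ((l : E) • x) (K *ᵥ ((l : E) • y))‖ ≤ 1 := (hl.dual _).1 hx _ ((B.kT _).2 hy)
  rw [bil_smul_left, mulVec_smul, bil_smul_right, norm_mul, norm_mul] at h1
  have h2 : ‖(2 : E)‖ ≤ ‖(l : E)‖ := hl.lmax _ norm_two_lt
  rw [norm_mul, norm_mul]
  refine le_trans ?_ h1
  exact mul_le_mul_of_nonneg_left (mul_le_mul_of_nonneg_right h2 (norm_nonneg _)) (norm_nonneg _)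

private theorem lam2_snd (hL : SIso (OE E) (IsLocalRing.ResidueField (OE E)) L)
    {p : (Fin n → IsLocalRing.ResidueField (OE E)) × (Fin n → IsLocalRing.ResidueField (OE E))}
    (hp : p ∈ Lam2 hL N s) : p.2 ∈ imW hL (ranN N) := by
  obtain ⟨x, w, -, h2, -⟩ := hp
  exact ⟨_, ⟨w, rfl⟩, h2⟩

private theorem lam2_dim (hl : Lat b l t T) (hL : SIso (OE E) (IsLocalRing.ResidueField (OE E)) L) :
    Module.finrank (IsLocalRing.ResidueField (OE E)) (Lam2 hL N s) + Module.finrank E (kerN N) =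
      Module.finrank (IsLocalRing.ResidueField (OE E)) ↥(Lam2 hL N s ⊓ LamP hL N) +
      Module.finrank (IsLocalRing.ResidueField (OE E))
      ((Lam2 hL N s).map (LinearMap.fst _ (Fin n → IsLocalRing.ResidueField (OE E))
        (Fin n → IsLocalRing.ResidueField (OE E)))) := by
  rw [dim_fst (Lam2 hL N s), dim_fst (Lam2 hL N s ⊓ LamP hL N), ← finrank_imW hl hL]
  have e1 : (Lam2 hL N s ⊓ LamP hL N).map (LinearMap.fst (IsLocalRing.ResidueField (OE E)) (Fin n → (IsLocalRing.ResidueField (OE E))) (Fin n → (IsLocalRing.ResidueField (OE E)))) =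
      imW hL (kerN N) := by
    ext u
    rw [Submodule.mem_map]
    constructor
    · rintro ⟨⟨u', v⟩, ⟨-, h2, -⟩, rfl⟩
      exact h2
    · rintro ⟨z, hz, hu⟩
      refine ⟨(u, 0), ⟨⟨z, 0, hu, ?_, ?_⟩, ⟨z, hz, hu⟩, Submodule.zero_mem _⟩, rfl⟩
      · rw [mulVec_zero]
        exact ER.Rq.zero
      · rw [mulVec_zero, sub_zero, sub_zero]
        exact hz
  have e2 : Lam2 hL N s ⊓ LamP hL N ⊓ LinearMap.ker (LinearMap.fst (IsLocalRing.ResidueField (OE E)) (Fin n → (IsLocalRing.ResidueField (OE E))) (Fin n → (IsLocalRing.ResidueField (OE E)))) =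
      Lam2 hL N s ⊓ LinearMap.ker (LinearMap.fst (IsLocalRing.ResidueField (OE E)) (Fin n → (IsLocalRing.ResidueField (OE E))) (Fin n → (IsLocalRing.ResidueField (OE E)))) := by
    ext ⟨u, v⟩
    simp only [Submodule.mem_inf, LinearMap.mem_ker, LinearMap.fst_apply]
    constructor
    · rintro ⟨⟨h1, -⟩, h3⟩
      exact ⟨h1, h3⟩
    · rintro ⟨h1, h3⟩
      subst h3
      exact ⟨⟨h1, Submodule.zero_mem _, lam2_snd hL h1⟩, rfl⟩
  rw [e1, e2]
  omega

theorem lam2_BB (hl : Lat b l t T) (B : BT b T N s K)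
    (hL : SIso (OE E) (IsLocalRing.ResidueField (OE E)) L) (hβ : LinkB L b t K β) (q : ℕ) :
    ∀ p ∈ Lam2 hL N s, ∀ p' ∈ Lam2 hL N s, BB β q p p' = 0 := by
  rintro ⟨u, v⟩ ⟨x, w, h1, h2, h3⟩ ⟨u', v'⟩ ⟨x', w', h1', h2', h3'⟩
  dsimp only at h1 h2 h1' h2'
  rw [BB_apply]
  dsimp only
  rw [link0 hl hL hβ h2 h2' (ER.be_NN B w w'), link0 hl hL hβ h2' h2 (ER.be_NN B w' w), add_zero,
    mul_zero, add_zero]
  have hs1 := lk_add (lk_add (lk_of hL hβ h2 h1') (lk_of hL hβ h2' h1))
    (lk_add (lk_of hL hβ h1 h1') (lk_of hL hβ h1' h1))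
  refine lk_zero hl hL hs1 ?_
  have e1 := ER.p_symm B h3 h3'
  have e2 := ER.ga_skew B x x'
  have e3 : bil b (N *ᵥ w) (K *ᵥ x') + bil b (N *ᵥ w') (K *ᵥ x) +
      (bil b x (K *ᵥ x') + bil b x' (K *ᵥ x)) =
      2 * bil b x (K *ᵥ x') + 2 * bil b x' (K *ᵥ x) := by
    linear_combination e1 - e2
  rw [e3, mul_add]
  have := Gn.ultra 2 E
  exact (IsUltrametricDist.norm_add_le_max _ _).trans
    (max_le (norm_be hl B (rq_mem h1) (rq_mem h1')) (norm_be hl B (rq_mem h1') (rq_mem h1)))

/-- THE PARITY FOR THE UNRAMIFIED PLANE. -/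
theorem resB (hl : Lat b l t T) (B : BT b T N s K)
    (hL : SIso (OE E) (IsLocalRing.ResidueField (OE E)) L) (hβ : LinkB L b t K β)
    (hg : LinkG L N g) (hG : GForm β g) {q : ℕ} (hZ : GPlane β g q Z) (hn : Even n)
    {Λ : Submodule (IsLocalRing.ResidueField (OE E))
      ((Fin n → IsLocalRing.ResidueField (OE E)) × (Fin n → IsLocalRing.ResidueField (OE E)))}
    (hle : Λ ≤ Lam2 hL N s) (hd : Module.finrank (IsLocalRing.ResidueField (OE E)) Λ = n)
    (hq : ∀ x ∈ Λ, QB β q x = 0) :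
    Even (Module.finrank (IsLocalRing.ResidueField (OE E)) ↥(Λ ⊓ LZ Z) +
      Module.finrank E (W5 N s)) := by
  have hW : Module.finrank (IsLocalRing.ResidueField (OE E))
      ((Fin n → IsLocalRing.ResidueField (OE E)) × (Fin n → IsLocalRing.ResidueField (OE E))) =
      2 * n := by
    rw [Module.finrank_prod, Module.finrank_fin_fun]
    omega
  have hsy : ∀ x y, BB β q x y = BB β q y x := fun x y => BB_symm β q x y
  have hnd : ∀ x, (∀ y, BB β q x y = 0) → x = 0 := fun x hx => BB_nd hG q hx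
  have hND : (BB β q).Nondegenerate :=
    ⟨fun x h => hnd x h, fun x h => hnd x fun y => (hsy x y).trans (h y)⟩
  have h1 : Module.finrank (IsLocalRing.ResidueField (OE E)) (Lam2 hL N s) ≤ n := by
    have e1 := LinearMap.BilinForm.finrank_orthogonal hND (Lam2 hL N s)
    have e2 : Lam2 hL N s ≤ LinearMap.BilinForm.orthogonal (BB β q) (Lam2 hL N s) := by
      intro x hx y hy
      exact lam2_BB hl B hL hβ q y hy x hx
    have e3 := Submodule.finrank_mono e2
    rw [e1, hW] at e3
    have e4 : Module.finrank (IsLocalRing.ResidueField (OE E)) (Lam2 hL N s) ≤ 2 * n := by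
      rw [← hW]
      exact Submodule.finrank_le _
    omega
  have h2 : Λ = Lam2 hL N s := Submodule.eq_of_le_of_finrank_le hle (by rw [hd]; exact h1)
  have hLZ : Module.finrank (IsLocalRing.ResidueField (OE E)) (LZ Z) = n := by
    rw [finrank_LZ, Module.finrank_fin_fun]
  have h3 := ER.triple0 (BB β q) (QB β q) hsy (fun x y => polarB β q x y) hnd hW hd hLZ
    (lamP_dim (N := N) hl hL) hq (QB_LZ hZ) (lamP_qB hl B hL hβ q)
  have h5 := lamP_refB hl B hL hβ hg hG hZ
  have h6 := lam2_dim (N := N) (s := s) hl hL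
  have h7 := ER.alt_even hl B hL
  have h8 : Module.finrank E (ranN N) + Module.finrank E (kerN N) = m := by
    have := LinearMap.finrank_range_add_finrank_ker N.mulVecLin
    rwa [Module.finrank_fin_fun] at this
  have h9 := card_n hl hL
  rw [← h2, hd] at h6
  rw [← h2] at h7
  obtain ⟨a1, h3⟩ := h3
  obtain ⟨a2, h5⟩ := h5
  obtain ⟨a3, h7⟩ := h7
  obtain ⟨a4, h10⟩ := hn
  rw [Nat.even_iff]
  omega

end Pool.Agent.Work.MP_787500_nt.KJ
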