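import Mathlib
import Pool.Agent.Work.MP_787500_nt.KJ.RForm
import Pool.Agent.Work.MP_787500_nt.KJ.RDefs

/-!
# KJ/RPl (size M): the reference plane

`c₀ = (q ^ 2 - 1) / 8`; multiples by `c₀` depend on the parity of `c₀` (`m + m = 0`).
* `gplane_of`: transport of `APlane` to coordinates: `Z' = L ∘ Z ∘ L⁻¹`; `q`: `hfT_nondeg` (multiply by `algebraMap y`, `hL.surj`); `cl F q = ((c₀ : ℕ) : F)`.
* `aplane_U`: `ZU u = c₀ (t (t (t u)))`, `t u = aU θ (C u)`, which is `X = A (jp τ)` in coordinates (`jp τ = e θ * c`, `hc.ae`, `hc.ac`). `q` is `ER.QX_LX` (ER/Ref.lean), `alt`: `hfT (α ee (X³ m) (X m)) = hfT (α ee (X² m) m)`, `X² m = m`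
  (`X ^ 2 = A (e (θ * κ θ))`), `ee m m = 0`. `bU x (aU (κ θ) y) = hfT (ee (L x) (X (L y)))` as in `ER.link_of` (ER/Rep.lean).
* `aplane_M`: `b m m' = bU m_b m'_b + h m₁ m'₂ + h m'₁ m₂` (`sp.form`). Write `η (x, y) = hN x (k y)`, `k = aN (κ θ)`, `g = aN (θ * κ θ)`: `η (x, y) = η (g y, x)` up to the odd number `χ θ` (`hsN.eqv θ`, `hsN.symm`) and `g (g x) = x`; values have exponent 2.
  If `c₀` is odd: `Z (x, y) = (g x, y)` on `N × N`: `b (m, k Z m) = η (x, y) + η (y, g x) = 2 η (x, y) = 0`; `b (Z m, k Z m) = η (g x, y) + η (y, g x) = η (g x, y) + η (x, y)`; `b (m, k m) = η (x, y) + η (y, x) = η (x, y) + η (g x, y)`;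
  `b (Z m, k m) = η (g x, y) + η (y, x) = 2 η (g x, y) = 0` (all with a scalar `y`: `hsd.bal`, `lin`). If `c₀` is even: `Z = 0` on `N × N`.
* `card_plane`: `(x, y) ↦` components is a bijection of the intersection with the product; for the first component `N`: `(c₀ gN v, v)`, `gN v = v` by `hg`.
-/

/-!
# KJ/RPl (size M): the reference plane

`c₀ = (q ^ 2 - 1) / 8`; multiples by `c₀` depend on the parity of `c₀` (`m + m = 0`).
* `gplane_of`: transport of `APlane` to coordinates: `Z' = L ∘ Z ∘ L⁻¹`; `q`: `hfT_nondeg` (multiply by `algebraMap y`, `hL.surj`); `cl F q = ((c₀ : ℕ) : F)`.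
* `aplane_U`: `ZU u = c₀ (t (t (t u)))`, `t u = aU θ (C u)`, which is `X = A (jp τ)` in coordinates (`jp τ = e θ * c`, `hc.ae`, `hc.ac`). `q` is `ER.QX_LX` (ER/Ref.lean), `alt`: `hfT (α ee (X³ m) (X m)) = hfT (α ee (X² m) m)`, `X² m = m`
  (`X ^ 2 = A (e (θ * κ θ))`), `ee m m = 0`. `bU x (aU (κ θ) y) = hfT (ee (L x) (X (L y)))` as in `ER.link_of` (ER/Rep.lean).
* `aplane_M`: `b m m' = bU m_b m'_b + h m₁ m'₂ + h m'₁ m₂` (`sp.form`). Write `η (x, y) = hN x (k y)`, `k = aN (κ θ)`, `g = aN (θ * κ θ)`: `η (x, y) = η (g y, x)` up to the odd number `χ θ` (`hsN.eqv θ`, `hsN.symm`) and `g (g x) = x`; values have exponent 2.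
  If `c₀` is odd: `Z (x, y) = (g x, y)` on `N × N`: `b (m, k Z m) = η (x, y) + η (y, g x) = 2 η (x, y) = 0`; `b (Z m, k Z m) = η (g x, y) + η (y, g x) = η (g x, y) + η (x, y)`; `b (m, k m) = η (x, y) + η (y, x) = η (x, y) + η (g x, y)`;
  `b (Z m, k m) = η (g x, y) + η (y, x) = 2 η (g x, y) = 0` (all with a scalar `y`: `hsd.bal`, `lin`). If `c₀` is even: `Z = 0` on `N × N`.
* `card_plane`: `(x, y) ↦` components is a bijection of the intersection with the product; for the first component `N`: `(c₀ gN v, v)`, `gN v = v` by `hg`.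
-/

set_option autoImplicit false
set_option linter.unusedSectionVars false

namespace Pool.Agent.Work.MP_787500_nt.KJ

open Matrix
open Pool.Agent.Work.MP_787500_nt.GP (A0 pr0 OE MN Wq mq mq_add mq_sub mq_smul mq_eq mq_eq_zero lft mq_lft
  bil bil_add_left bil_add_right bil_sub_left bil_sub_right bil_smul_left bil_smul_right bil_symm Lat
  lamN bN bN_val actN actQ actQ_mq IsAct d0 tw cup11)
open Pool.Agent.Work.MP_787500_nt.KR (FSys Sm1 Sm2 IsChar Smooth Z1 Z2 B2 LocH Pair LDual LocRep SDualF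
  sdualF_MN)
open Pool.Agent.Work.MP_787500_nt.KS (hfT hfT_nondeg ep)
open Pool.Agent.Work.MP_787500_nt.KT (Sy ee IsSp)
open Pool.Agent.Work.MP_787500_nt.QL (TameF zurM)
open Pool.Agent.Work.MP_787500_nt.QS (Two ac2 be2 la2 Lag QM pB Zq)
open Pool.Agent.Work.MP_787500_nt.QP (InvC)
open Pool.Agent.Work.MP_787500_nt.KI (SIso Crd PlQ LY LVal R1 Y2 tra siso_f2 bC YM)
open Pool.Agent.Work.MP_787500_nt.RC (SplS)
open Pool.Agent.Work.MP_787500_nt.ER (Rq rq_mem exists_rq rq_unique finrank_imW card_n imW kerN ranN W5 Lam2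
  LamP BT LinkX TR LX QX BX cl gv gY mem_Lam2 mem_imW)

universe v

variable {G Γ : Type*} [Group G] [Group Γ] {S : FSys G} {Sq : FSys Γ} {χ : G → ℤ_[2]}
  {χq : Γ → ℤ_[2]} {e : G →* Γ} {c : Γ} {κ : G →* G} {P : Type*} [Group P] {TP : FSys P}
  {jp : P →* Γ} {iv : (P → P → A0) → A0} {a : P → ℤ_[2]} {σ τ : P} {q : ℕ} {In : Subgroup P}
  {θ s : G} {Θ : Set (G × G)}

section co

variable {F : Type v} [Field F] [Finite F] [CharP F 2] [Algebra (ZMod 2) F] {n : ℕ}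
  {M : Type v} [AddCommGroup M] [Finite M] {O : Type*} [CommRing O] [Algebra O F] [Module O M]
  {act : G → M → M} {b : M →+ M →+ A0} {L : M ≃+ (Fin n → F)}

private theorem zero_of_alg (hs : Function.Surjective (algebraMap O F)) {x : F}
    (h : ∀ a : O, hfT (algebraMap O F a * x) = 0) : x = 0 := by
  refine hfT_nondeg fun y => ?_
  obtain ⟨a, rfl⟩ := hs y
  exact h a

theorem gplane_of (hL : SIso O F L) {β : LinearMap.BilinForm F (Fin n → F)}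
    {g : (Fin n → F) →ₗ[F] (Fin n → F)}
    (hβ : ∀ (y : O) m m', hfT (algebraMap O F y * β (L m) (L m')) = b (y • m) (act (κ θ) m'))
    (hg : ∀ m, g (L m) = L (act (θ * κ θ) m)) {Z : M →ₗ[O] M}
    (hZ : APlane O b (act (κ θ)) (act (θ * κ θ)) ((q ^ 2 - 1) / 8) Z) :
    ∃ Z' : (Fin n → F) →ₗ[F] (Fin n → F), (∀ m, Z' (L m) = L (Z m)) ∧ GPlane β g q Z' := by
  let Z' : (Fin n → F) →ₗ[F] (Fin n → F) :=
    { toFun := fun v => L (Z (L.symm v))
      map_add' := fun v w => by rw [map_add, map_add, map_add]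
      map_smul' := fun y v => by
        obtain ⟨a, rfl⟩ := hL.surj y
        rw [hL.symm_smul, map_smul, hL.smul]
        rfl }
  have hZ' : ∀ m, Z' (L m) = L (Z m) := fun m => by
    show L (Z (L.symm (L m))) = L (Z m)
    rw [L.symm_apply_apply]
  refine ⟨Z', hZ', ⟨fun v => ?_, fun v hv => ?_⟩⟩
  · obtain ⟨m, rfl⟩ := L.surjective v
    refine zero_of_alg hL.surj fun a => ?_
    have h1 := hZ.q a m
    rw [← hβ, ← hβ, ← hβ, ← map_add] at h1
    unfold QB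
    simp only [hZ']
    rw [← h1, ← map_nsmul, ← map_add]
    congr 1
    rw [nsmul_eq_mul]
    unfold cl
    ring
  · obtain ⟨m, rfl⟩ := L.surjective v
    refine zero_of_alg hL.surj fun a => ?_
    rw [hg] at hv
    rw [hZ', hβ]
    exact hZ.alt a m (L.injective hv)

end co

section crd

variable {F : Type v} [Field F] [Finite F] [CharP F 2] [Algebra (ZMod 2) F] {n : ℕ} [Sy F n]
  {U : Type v} [AddCommGroup U] [Finite U] {O : Type*} [CommRing O] [Algebra O F] [Module O U]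
  {aU : G → U → U} {bU : U →+ U →+ A0} {C : U → U} {LU : U ≃+ (Fin n → F)}
  {A : Γ →* Matrix (Fin n) (Fin n) F}

theorem aplane_U (X : Two e c κ) (hsU : SDualF S χ κ Θ O aU bU) (hc : Crd e c O aU bU C LU A)
    (h4 : A (jp τ) ^ 4 = 1) (hθ : e θ * c = jp τ) (q : ℕ) :
    ∃ ZU : U →ₗ[O] U, (∀ u, LU (ZU u) = cl F q • (A (jp τ) ^ 3 *ᵥ LU u)) ∧
      APlane O bU (aU (κ θ)) (aU (θ * κ θ)) ((q ^ 2 - 1) / 8) ZU := by
  let ZU : U →ₗ[O] U :=
    { toFun := fun u => LU.symm (cl F q • (A (jp τ) ^ 3 *ᵥ LU u))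
      map_add' := fun u v => by rw [map_add, mulVec_add, smul_add, map_add]
      map_smul' := fun a u => by
        rw [hc.iso.smul, mulVec_smul, smul_comm, hc.iso.symm_smul]
        rfl }
  have hZ : ∀ u, LU (ZU u) = cl F q • (A (jp τ) ^ 3 *ᵥ LU u) := fun u => by
    show LU (LU.symm _) = _
    rw [LU.apply_symm_apply]
  have hX : ∀ (a : O) (u v : U), bU (a • u) (aU (κ θ) v) =
      hfT (algebraMap O F a * ee (LU u) (A (jp τ) *ᵥ LU v)) := by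
    intro a u v
    have h3 : jp τ = c * e (κ θ) := by
      rw [← hθ, X.kap]
      rw [← mul_assoc, ← mul_assoc, X.cc, one_mul]
    rw [h3, map_mul A, ← mulVec_mulVec, hc.ae, hc.fr, KI.bC_apply, hc.iso.smul, KT.ee_smul_left]
  have hs : IsSp (A (jp τ)) := hc.sp _
  refine ⟨ZU, hZ, ⟨fun a u => ?_, fun a u hu => ?_⟩⟩
  · rw [hX, hX, hX, ← map_add, ← map_nsmul, ← map_add, hZ]
    have h1 := ER.QX_LX hs h4 q (cl F q • (A (jp τ) ^ 3 *ᵥ LU u), LU u) (ER.mem_LX.2 rfl)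
    unfold QX at h1
    dsimp only at h1
    rw [KT.ee_comm (A (jp τ) *ᵥ (cl F q • (A (jp τ) ^ 3 *ᵥ LU u)))] at h1
    have h2 : algebraMap O F a * ee (LU u) (A (jp τ) *ᵥ (cl F q • (A (jp τ) ^ 3 *ᵥ LU u))) +
        algebraMap O F a * ee (cl F q • (A (jp τ) ^ 3 *ᵥ LU u))
          (A (jp τ) *ᵥ (cl F q • (A (jp τ) ^ 3 *ᵥ LU u))) +
        ((q ^ 2 - 1) / 8) • (algebraMap O F a * ee (LU u) (A (jp τ) *ᵥ LU u)) = 0 := by
      rw [nsmul_eq_mul]
      unfold cl at h1 ⊢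
      linear_combination (algebraMap O F a) * h1
    rw [h2, map_zero]
  · rw [hX, hZ]
    have h1 : A (jp τ) *ᵥ (A (jp τ) *ᵥ LU u) = LU u := by
      have h2 : A (jp τ) * A (jp τ) = A (e (θ * κ θ)) := by
        rw [← map_mul]
        congr 1
        rw [map_mul, ← hθ, X.kap]
        simp only [mul_assoc]
      rw [mulVec_mulVec, h2, hc.ae, hu]
    have h2 : (A (jp τ) ^ 3) *ᵥ LU u = A (jp τ) *ᵥ LU u := by
      rw [pow_succ, pow_two, ← mulVec_mulVec, ← mulVec_mulVec, h1]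
    rw [h2, KT.ee_smul_left, KT.ee_self, mul_zero, mul_zero, map_zero]

end crd

section spl

variable {O : Type*} [CommRing O] {M U N : Type*} [AddCommGroup M] [Module O M] [AddCommGroup U]
  [Module O U] [AddCommGroup N] [Module O N] {act : G → M → M} {b : M →+ M →+ A0}
  {aU : G → U → U} {bU : U →+ U →+ A0} {aN : G → N → N} {hN : N →+ N →+ A0}
  {Φ : M ≃ₗ[O] U × N × N}

private theorem eta_eq (hsN : SDualF S χ κ Θ O aN hN) (hodd : ∀ g, (2 : ℤ_[2]) ∣ χ g - 1)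
    (h2 : ∀ m : N, m + m = 0) (x y : N) :
    hN (aN (θ * κ θ) x) (aN (κ θ) y) = hN (aN (κ θ) x) y := by
  have h1 := hsN.eqv θ (aN (κ θ) x) y
  rw [← hsN.act.mul] at h1
  rw [h1]
  obtain ⟨r, hr⟩ := hodd θ
  have h3 : χ θ = 1 + r * 2 := by linear_combination hr
  have h4 : (2 : ℤ_[2]) • hN (aN (κ θ) x) y = 0 := by
    rw [two_smul, ← AddMonoidHom.add_apply, ← map_add, h2, map_zero, AddMonoidHom.zero_apply]
  rw [h3, add_smul, one_smul, mul_smul, h4, smul_zero, add_zero]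

theorem aplane_M (sp : SplS O act b aU bU aN hN Φ) (hsN : SDualF S χ κ Θ O aN hN)
    (hkk : ∀ g, κ (κ g) = g) (hodd : ∀ g, (2 : ℤ_[2]) ∣ χ g - 1) (h2 : ∀ m : N, m + m = 0)
    (hgg : ∀ m, aN (θ * κ θ) (aN (θ * κ θ) m) = m) {c₀ : ℕ} {ZU : U →ₗ[O] U}
    (hZ : APlane O bU (aU (κ θ)) (aU (θ * κ θ)) c₀ ZU) {gN : N →ₗ[O] N}
    (hgN : ∀ x, gN x = aN (θ * κ θ) x) :
    APlane O b (act (κ θ)) (act (θ * κ θ)) c₀ (zM Φ ZU gN c₀) := by
  have h22 : ∀ x y : N, hN x y + hN x y = 0 := fun x y => by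
    rw [← AddMonoidHom.add_apply, ← map_add, h2, map_zero, AddMonoidHom.zero_apply]
  have hc : (∀ m : N, c₀ • m = 0) ∧ (∀ x y, c₀ • hN x y = 0) ∨
      (∀ m : N, c₀ • m = m) ∧ (∀ x y, c₀ • hN x y = hN x y) := by
    rcases Nat.even_or_odd' c₀ with ⟨k, rfl | rfl⟩
    · left
      refine ⟨fun m => ?_, fun x y => ?_⟩
      · rw [mul_comm, mul_smul, two_smul, h2, smul_zero]
      · rw [mul_comm, mul_smul, two_smul, h22, smul_zero]
    · right
      refine ⟨fun m => ?_, fun x y => ?_⟩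
      · rw [add_smul, one_smul, mul_comm, mul_smul, two_smul, h2, smul_zero, zero_add]
      · rw [add_smul, one_smul, mul_comm, mul_smul, two_smul, h22, smul_zero, zero_add]
  have hk0 : aN (κ θ) (0 : N) = 0 := hsN.act.zero _
  -- the key equality
  have key : ∀ (a : O) (x y : N), hN (a • gN x) (aN (κ θ) y) = hN (aN (κ θ) x) (a • y) := by
    intro a x y
    rw [hsN.bal, ← hsN.lin, hgN, eta_eq hsN hodd h2]
  refine ⟨fun a m => ?_, fun a m hm => ?_⟩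
  · have h1 := hZ.q a (Φ m).1
    rw [sp.form, sp.form, sp.form]
    simp only [sp.act, zM_apply, LinearEquiv.apply_symm_apply, map_smul, Prod.smul_fst,
      Prod.smul_snd]
    rcases hc with ⟨e1, e2⟩ | ⟨e1, e2⟩
    · simp only [e1, hk0, map_zero, smul_zero, AddMonoidHom.zero_apply, add_zero, smul_add, e2]
      exact h1
    · simp only [e1, smul_add, e2]
      have e3 := key a (Φ m).2.1 (Φ m).2.2
      have e4 := h22 (a • (Φ m).2.1) (aN (κ θ) (Φ m).2.2)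
      have e5 := h22 (aN (κ θ) (gN (Φ m).2.1)) (a • (Φ m).2.2)
      have e6 := h22 (aN (κ θ) (Φ m).2.1) (a • (Φ m).2.2)
      rw [e3]
      calc _ = (bU (a • (Φ m).1) (aU (κ θ) (ZU (Φ m).1)) +
          bU (a • ZU (Φ m).1) (aU (κ θ) (ZU (Φ m).1)) +
          c₀ • bU (a • (Φ m).1) (aU (κ θ) (Φ m).1)) +
          (hN (a • (Φ m).2.1) (aN (κ θ) (Φ m).2.2) + hN (a • (Φ m).2.1) (aN (κ θ) (Φ m).2.2)) +
          (hN (aN (κ θ) (gN (Φ m).2.1)) (a • (Φ m).2.2) +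
            hN (aN (κ θ) (gN (Φ m).2.1)) (a • (Φ m).2.2)) +
          (hN (aN (κ θ) (Φ m).2.1) (a • (Φ m).2.2) +
            hN (aN (κ θ) (Φ m).2.1) (a • (Φ m).2.2)) := by abel
        _ = 0 := by rw [h1, e4, e5, e6]; simp
  · have hm1 : aU (θ * κ θ) (Φ m).1 = (Φ m).1 := by
      have h3 := congrArg (fun z => (Φ z).1) hm
      simpa only [sp.act] using h3
    have h1 := hZ.alt a (Φ m).1 hm1
    rw [sp.form]
    simp only [sp.act, zM_apply, LinearEquiv.apply_symm_apply, map_smul, Prod.smul_fst,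
      Prod.smul_snd]
    rcases hc with ⟨e1, e2⟩ | ⟨e1, e2⟩
    · simp only [e1, map_zero, smul_zero, AddMonoidHom.zero_apply, add_zero]
      exact h1
    · simp only [e1]
      rw [h1, key a (Φ m).2.1 (Φ m).2.2, zero_add]
      exact h22 _ _

theorem card_plane {YU : Submodule O (P → U × U)} {YN : Submodule O (P → N × N)}
    (ZU : U →ₗ[O] U) {gN : N →ₗ[O] N} (hg : ∀ x ∈ YN, gN (x (τ * τ)).1 = (x (τ * τ)).1) (c₀ : ℕ) :
    Nat.card ↥((prod3 Φ YU YN).map (gO O σ τ) ⊓ pZ (zM Φ ZU gN c₀)) =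
      Nat.card ↥(YU.map (gO O σ τ) ⊓ pZ ZU) *
        (Nat.card ↥(YN.map (gO O σ τ) ⊓ pZ (c₀ • (LinearMap.id : N →ₗ[O] N))) *
          Nat.card ↥(YN.map (gO O σ τ) ⊓ pZ (c₀ • (LinearMap.id : N →ₗ[O] N)))) := by
  rw [← Nat.card_prod, ← Nat.card_prod]
  refine Nat.card_congr
    { toFun := fun p => (⟨((Φ p.1.1).1, (Φ p.1.2).1), ?_⟩,
        ⟨((Φ p.1.1).2.1, (Φ p.1.2).2.1), ?_⟩, ⟨((Φ p.1.1).2.2, (Φ p.1.2).2.2), ?_⟩)
      invFun := fun s => ⟨(Φ.symm (s.1.1.1, s.2.1.1.1, s.2.2.1.1),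
        Φ.symm (s.1.1.2, s.2.1.1.2, s.2.2.1.2)), ?_⟩
      left_inv := fun p => ?_
      right_inv := fun s => ?_ }
  · obtain ⟨p, ⟨x, hx, rfl⟩, hp⟩ := p
    rw [SetLike.mem_coe, mem_pZ] at hp
    rw [SetLike.mem_coe, mem_prod3] at hx
    refine ⟨⟨pU Φ x, hx.1, rfl⟩, ?_⟩
    show _ ∈ pZ ZU
    rw [mem_pZ]
    show (Φ (gO O σ τ x).1).1 = ZU (Φ (gO O σ τ x).2).1
    rw [hp, zM_apply, LinearEquiv.apply_symm_apply]
  · obtain ⟨p, ⟨x, hx, rfl⟩, hp⟩ := p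
    rw [SetLike.mem_coe, mem_pZ] at hp
    rw [SetLike.mem_coe, mem_prod3] at hx
    refine ⟨⟨pN Φ x, hx.2.1, rfl⟩, ?_⟩
    show _ ∈ pZ (c₀ • (LinearMap.id : N →ₗ[O] N))
    rw [mem_pZ]
    show (Φ (gO O σ τ x).1).2.1 = c₀ • (Φ (gO O σ τ x).2).2.1
    rw [hp, zM_apply, LinearEquiv.apply_symm_apply]
    show c₀ • gN (Φ (gO O σ τ x).2).2.1 = _
    have h1 : gN (Φ (gO O σ τ x).2).2.1 = (Φ (gO O σ τ x).2).2.1 := hg _ hx.2.1
    rw [h1]
  · obtain ⟨p, ⟨x, hx, rfl⟩, hp⟩ := p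
    rw [SetLike.mem_coe, mem_pZ] at hp
    rw [SetLike.mem_coe, mem_prod3] at hx
    refine ⟨⟨pN' Φ x, hx.2.2, rfl⟩, ?_⟩
    show _ ∈ pZ (c₀ • (LinearMap.id : N →ₗ[O] N))
    rw [mem_pZ]
    show (Φ (gO O σ τ x).1).2.2 = c₀ • (Φ (gO O σ τ x).2).2.2
    rw [hp, zM_apply, LinearEquiv.apply_symm_apply]
  · obtain ⟨⟨s1, ⟨x, hx, hx1⟩, h1⟩, ⟨s2, ⟨y, hy, hy1⟩, h2⟩, ⟨s3, ⟨z, hz, hz1⟩, h3⟩⟩ := s
    subst hx1 hy1 hz1
    refine ⟨⟨mk3 Φ x y z, (mk3_mem Φ).2 ⟨hx, hy, hz⟩, rfl⟩, ?_⟩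
    show _ ∈ pZ (zM Φ ZU gN c₀)
    have h1' := mem_pZ.1 h1
    have h2' := mem_pZ.1 h2
    have h3' := mem_pZ.1 h3
    rw [mem_pZ, zM_apply]
    dsimp only
    rw [LinearEquiv.apply_symm_apply]
    congr 1
    refine Prod.ext h1' (Prod.ext ?_ h3')
    show (gO O σ τ y).1 = c₀ • gN (y (τ * τ)).1
    rw [hg y hy]
    exact h2'
  · apply Subtype.ext
    refine Prod.ext ?_ ?_
    · show Φ.symm ((Φ p.1.1).1, (Φ p.1.1).2.1, (Φ p.1.1).2.2) = p.1.1
      exact Φ.symm_apply_apply _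
    · show Φ.symm ((Φ p.1.2).1, (Φ p.1.2).2.1, (Φ p.1.2).2.2) = p.1.2
      exact Φ.symm_apply_apply _
  · obtain ⟨⟨s1, h1⟩, ⟨s2, h2⟩, ⟨s3, h3⟩⟩ := s
    simp only [LinearEquiv.apply_symm_apply]

end spl

end Pool.Agent.Work.MP_787500_nt.KJ
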