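import Mathlib
import Pool.Agent.Work.MP_787500_nt.KJ.RDefs

/-!
# KJ/RYg (size S): the generator values of the unramified classes; transport to coordinates

* `ygenB`: copy of `ER.ygen` (ER/YGen.lean) with `hL : SIso ..` instead of `hc.iso`.
* `gY_tra`: the values in coordinates; `card_trL`: the number of elements (bijection of the subtypes by `L` in both components).
-/

set_option autoImplicit false
set_option linter.unusedSectionVars false

namespace Pool.Agent.Work.MP_787500_nt.KJ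

open Matrix
open Pool.Agent.Work.MP_787500_nt.GP (A0 pr0 OE MN Wq mq mq_add mq_sub mq_smul mq_eq mq_eq_zero lft mq_lft
  bil bil_add_left bil_add_right bil_sub_left bil_sub_right bil_smul_left bil_smul_right bil_symm Lat
  lamN bN bN_val actN actQ actQ_mq IsAct d0 tw cup11)
open Pool.Agent.Work.MP_787500_nt.KR (FSys Sm1 Sm2 IsChar Smooth Z1 Z2 B2 LocH Pair LDual LocRep SDualF
  sdualF_MN)
open Pool.Agent.Work.MP_787500_nt.KS (hfT hfT_nondeg ep)
open Pool.Agent.Work.MP_787500_nt.KT (Sy ee IsSp)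
open Pool.Agent.Work.MP_787500_nt.QL (TameF zurM)
open Pool.Agent.Work.MP_787500_nt.QS (Two ac2 be2 la2 Lag QM pB Zq)
open Pool.Agent.Work.MP_787500_nt.QP (InvC)
open Pool.Agent.Work.MP_787500_nt.KI (SIso Crd PlQ LY LVal R1 Y2 tra siso_f2 bC YM)
open Pool.Agent.Work.MP_787500_nt.RC (SplS)
open Pool.Agent.Work.MP_787500_nt.ER (Rq rq_mem exists_rq rq_unique finrank_imW card_n imW kerN ranN W5 Lam2
  LamP BT LinkX TR LX QX BX cl gv gY mem_Lam2 mem_imW)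

universe v

variable {G Γ : Type*} [Group G] [Group Γ] {S : FSys G} {Sq : FSys Γ} {χ : G → ℤ_[2]}
  {χq : Γ → ℤ_[2]} {e : G →* Γ} {c : Γ} {κ : G →* G} {P : Type*} [Group P] {TP : FSys P}
  {jp : P →* Γ} {iv : (P → P → A0) → A0} {a : P → ℤ_[2]} {σ τ : P} {q : ℕ} {In : Subgroup P}
  {θ s : G} {Θ : Set (G × G)}

section tra

variable {F : Type v} [Field F] [Finite F] [CharP F 2] [Algebra (ZMod 2) F] {n : ℕ} {M : Type v}
  [AddCommGroup M] {O : Type*} [CommRing O] [Algebra O F] [Module O M] {L : M ≃+ (Fin n → F)}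

theorem gY_tra (hL : SIso O F L) {Y : Submodule O (P → M × M)} {p : M × M} :
    (L p.1, L p.2) ∈ (tra (siso_f2 hL) Y).map (gO F σ τ) ↔ p ∈ Y.map (gO O σ τ) := by
  constructor
  · rintro ⟨y, hy, hp⟩
    refine ⟨fun d => (KI.f2 L).symm (y d), (KI.mem_tra (siso_f2 hL)).1 hy, ?_⟩
    have h1 : (y σ).1 = L p.1 := congrArg Prod.fst hp
    have h2 : (y (τ * τ)).1 = L p.2 := congrArg Prod.snd hp
    show (L.symm (y σ).1, L.symm (y (τ * τ)).1) = p
    rw [h1, h2, L.symm_apply_apply, L.symm_apply_apply]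
  · rintro ⟨x, hx, rfl⟩
    exact ⟨fun d => KI.f2 L (x d), (KI.map_tra (siso_f2 hL)).2 hx, rfl⟩

theorem card_trL {Λ : Submodule F ((Fin n → F) × (Fin n → F))} {Λ' : Submodule O (M × M)}
    (h : ∀ p : M × M, (L p.1, L p.2) ∈ Λ ↔ p ∈ Λ') : Nat.card Λ = Nat.card Λ' :=
  (Nat.card_congr ((KI.f2 L).toEquiv.subtypeEquiv fun p => (h p).symm)).symm

end tra

variable {E : Type v} [NormedField E] [NormedAlgebra ℚ_[2] E] [FiniteDimensional ℚ_[2] E]
  [IsLocalRing (OE E)] [Finite (IsLocalRing.ResidueField (OE E))]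
  [CharP (IsLocalRing.ResidueField (OE E)) 2] [Algebra (ZMod 2) (IsLocalRing.ResidueField (OE E))]
  {m n : ℕ} {b : Matrix (Fin m) (Fin m) E} {l : OE E} {t : E →ₗ[ℚ_[2]] ℚ_[2]}
  {T : Submodule (OE E) (Fin m → E)} {ρ : G → Matrix (Fin m) (Fin m) E}
  {L : MN T l 1 ≃+ (Fin n → IsLocalRing.ResidueField (OE E))}

private theorem v1_add' {k : ℕ} (v w : Fin (k + k) → E) : QV.v1 (v + w) = QV.v1 v + QV.v1 w := rfl

private theorem v1_sub' {k : ℕ} (v w : Fin (k + k) → E) : QV.v1 (v - w) = QV.v1 v - QV.v1 w := rfl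

private theorem rq_of {x : P → MN (QV.T2 T) l 1} {X : P → Fin (m + m) → E}
    (hX : ∀ d, (x d : Wq (QV.T2 T)) = mq (QV.T2 T) (X d))
    {y : P → (Fin n → IsLocalRing.ResidueField (OE E)) × (Fin n → IsLocalRing.ResidueField (OE E))}
    (hy : ∀ d, KI.f2 L (QV.isoN T l 1 (x d)) = y d) (d : P) : Rq L (QV.v1 (X d)) (y d).1 := by
  refine ⟨(QV.isoN T l 1 (x d)).1, QV.iso_one (hX d), ?_⟩
  rw [← hy d]
  rfl

theorem ygenB (X : Two e c κ) (hr : LocRep S χ T b ρ (fun g => ρ (κ g)))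
    (h : TameF TP (fun d => χq (jp d)) a σ τ q In) (hθ : e θ * c = jp τ) (hs : e s = jp σ)
    (hL : SIso (OE E) (IsLocalRing.ResidueField (OE E)) L) :
    (tra (siso_f2 hL) (YM T l (QU.urV TP In (fun d => QV.rho2 e c κ ρ (jp d))))).map (gO (IsLocalRing.ResidueField (OE E)) σ τ) ≤
      Lam2 hL (ρ (θ * κ θ) - 1) (ρ s) := by
  rintro _ ⟨y, hy, rfl⟩
  have hy1 := (KI.mem_tra (siso_f2 hL)).1 hy
  obtain ⟨X0, hX0, hXY⟩ := (KI.mem_tra (KI.siso_iso T l)).1 hy1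
  obtain ⟨hZ, W, hW⟩ := QU.mem_urV.1 hX0
  have hrq := rq_of (L := L) (X := X0) (y := y) hXY fun d => by
    have h1 : QV.isoN T l 1 ((QV.isoN T l 1).symm ((KI.f2 L).symm (y d))) = (KI.f2 L).symm (y d) :=
      (QV.isoN T l 1).apply_symm_apply _
    exact (congrArg (KI.f2 L) h1).trans ((KI.f2 L).apply_symm_apply _)
  have hττ : τ * τ ∈ In := In.mul_mem h.τI h.τI
  have hjτ : jp (τ * τ) = e (θ * κ θ) := by
    rw [map_mul, ← hθ, map_mul, X.kap]
    group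
  refine mem_Lam2.2 ⟨QV.v1 (X0 σ), QV.v1 W, hrq σ, ?_, ?_⟩
  · have h1 := hrq (τ * τ)
    have h2 : QV.v1 (X0 (τ * τ)) = (ρ (θ * κ θ) - 1) *ᵥ QV.v1 W := by
      rw [hW _ hττ, v1_sub', hjτ, QV.v1_rho X, sub_mulVec, one_mulVec]
    rw [h2] at h1
    exact h1
  · have hk : σ⁻¹ * (τ * τ) * σ ∈ In := by
      have := h.In.conj_mem _ hττ σ⁻¹
      rwa [inv_inv] at this
    have e1 : τ * τ * σ = σ * (σ⁻¹ * (τ * τ) * σ) := by group
    have hc1 := hZ.2 (τ * τ) σ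
    have hc2 := hZ.2 σ (σ⁻¹ * (τ * τ) * σ)
    beta_reduce at hc1 hc2
    rw [e1, hc2, hW _ hττ, hW _ hk] at hc1
    have e2 : QV.rho2 e c κ ρ (jp σ) *ᵥ (QV.rho2 e c κ ρ (jp (σ⁻¹ * (τ * τ) * σ)) *ᵥ W - W) =
        QV.rho2 e c κ ρ (jp (τ * τ)) *ᵥ (QV.rho2 e c κ ρ (jp σ) *ᵥ W) -
          QV.rho2 e c κ ρ (jp σ) *ᵥ W := by
      rw [mulVec_sub, mulVec_mulVec, mulVec_mulVec, ← QV.rho2_mul X hr.mul,
        ← QV.rho2_mul X hr.mul, ← map_mul, ← map_mul, ← e1]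
    rw [e2] at hc1
    have hc3 := congrArg QV.v1 hc1
    rw [v1_add', v1_sub', v1_add', v1_sub', hjτ, QV.v1_rho X, QV.v1_rho X, QV.v1_rho X,
      ← hs, QV.v1_rho X] at hc3
    rw [sub_mulVec, one_mulVec, mulVec_sub, mulVec_sub]
    linear_combination (exp := 1) -hc3

end Pool.Agent.Work.MP_787500_nt.KJ
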