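import Mathlib
import Pool.Agent.Work.MP_787500_nt.KJ.RDefs
import Pool.Agent.Work.MP_787500_nt.KJ.Loc

/-!
# KJ/Red (size M): the reduction of a Lagrangian condition for `M × M` to `U × U` is Lagrangian

`M = U × N × N`. Write `x = mk3 u y z` (`mk3_p`); `iv_spl` (KJ/Bas): the pairing in components. `YN` is its own annihilator (`SelfN`).
* `coc`: `z1_spl`. `iso`: the quadratic function in components (see the proof of `lag_prod3` in KJ/Bas: `Zq` of `mk3 u y z` is `Zq u` plus the pairing of `y` and `z`, which is 0 for `y, z ∈ YN`).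
* `self`, left to right: both in `redU`: `0 = iv (mk3 u y z, mk3 u' y' z') = iv (u, u')` + pairings of elements of `YN`.
* right to left: finite groups, `GP.card_perp` or `GP.perpL` double annihilator. Let `Z` be the group of cocycles (finite, `p.ldM hs`), `J = {mk3 0 y z : y, z ∈ YN}` + coboundaries, `J^⊥ = {x : pN x, pN' x ∈ YN}` (`SelfN`), `Y^⊥ = Y`.
  Let `u` be a cocycle orthogonal to `redU`. Then `x = mk3 u 0 0` is orthogonal to `Y ⊓ J^⊥` (its elements are `mk3 u' y' z'`, `u' ∈ redU`), so `x ∈ (Y ⊓ J^⊥)^⊥ = Y + J` (annihilators of annihilators in the finite group `Z` with the perfect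
  pairing modulo coboundaries; coboundaries are in `Y`), `x = w + mk3 0 y z + coboundary`, `w ∈ Y`: `w = mk3 (u + coboundary) (- y ..) (- z ..)`, so `u ∈ redU` (coboundaries are in `Y`, `YN`).
  Look for existing lemmas on double annihilators first: `GP/F01_Card.lean`, `OL/*.lean` (`dst`, `lag_fin`), `QL/Lag.lean`, `KJ/Bas.lean`.
-/

set_option autoImplicit false
set_option linter.unusedSectionVars false

namespace Pool.Agent.Work.MP_787500_nt.KJ

open Matrix
open Pool.Agent.Work.MP_787500_nt.GP (A0 pr0 OE MN Wq mq mq_add mq_sub mq_smul mq_eq mq_eq_zero lft mq_lft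
  bil bil_add_left bil_add_right bil_sub_left bil_sub_right bil_smul_left bil_smul_right bil_symm Lat
  lamN bN bN_val actN actQ actQ_mq IsAct d0 tw cup11)
open Pool.Agent.Work.MP_787500_nt.KR (FSys Sm1 Sm2 IsChar Smooth Z1 Z2 B2 LocH Pair LDual LocRep SDualF
  sdualF_MN)
open Pool.Agent.Work.MP_787500_nt.KS (hfT hfT_nondeg ep)
open Pool.Agent.Work.MP_787500_nt.KT (Sy ee IsSp)
open Pool.Agent.Work.MP_787500_nt.QL (TameF zurM)
open Pool.Agent.Work.MP_787500_nt.QS (Two ac2 be2 la2 Lag QM pB Zq)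
open Pool.Agent.Work.MP_787500_nt.QP (InvC)
open Pool.Agent.Work.MP_787500_nt.KI (SIso Crd PlQ LY LVal R1 Y2 tra siso_f2 bC YM)
open Pool.Agent.Work.MP_787500_nt.RC (SplS)
open Pool.Agent.Work.MP_787500_nt.ER (Rq rq_mem exists_rq rq_unique finrank_imW card_n imW kerN ranN W5 Lam2
  LamP BT LinkX TR LX QX BX cl gv gY mem_Lam2 mem_imW)

universe v

variable {G Γ : Type*} [Group G] [Group Γ] {S : FSys G} {Sq : FSys Γ} {χ : G → ℤ_[2]}
  {χq : Γ → ℤ_[2]} {e : G →* Γ} {c : Γ} {κ : G →* G} {P : Type*} [Group P] {TP : FSys P}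
  {jp : P →* Γ} {iv : (P → P → A0) → A0} {a : P → ℤ_[2]} {σ τ : P} {q : ℕ} {In : Subgroup P}
  {θ s : G} {Θ : Set (G × G)}

variable {O : Type v} [CommRing O] [IsLocalRing O]
  [Finite (IsLocalRing.ResidueField O)] [CharP (IsLocalRing.ResidueField O) 2]
  [Algebra (ZMod 2) (IsLocalRing.ResidueField O)] {M U N : Type v} [AddCommGroup M] [Module O M]
  [Finite M] [AddCommGroup U] [Module O U] [Finite U] [AddCommGroup N] [Module O N] [Finite N]
  {act : G → M → M}
  {b : M →+ M →+ A0} {aU : G → U → U} {bU : U →+ U →+ A0} {aN : G → N → N} {hN : N →+ N →+ A0}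
  {Φ : M ≃ₗ[O] U × N × N}

private theorem cyc3 (p : PlQ.{v} S Sq χ χq e c κ TP jp iv)
    (sp : SplS O act b aU bU aN hN Φ) {u : P → U × U} {y z : P → N × N}
    (h1 : Z1 TP (fun d => ac2 e c κ aU (jp d)) u) (h2 : Z1 TP (fun d => ac2 e c κ aN (jp d)) y)
    (h3 : Z1 TP (fun d => ac2 e c κ aN (jp d)) z) :
    Z1 TP (fun d => ac2 e c κ act (jp d)) (mk3 Φ u y z) := by
  refine (z1_spl sp p.two).2 ⟨?_, ?_, ?_⟩
  · rw [pU_mk3]
    exact h1
  · rw [pN_mk3]
    exact h2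
  · rw [pN'_mk3]
    exact h3

/-- the quadratic function in components -/
private theorem zq_mk3 (p : PlQ.{v} S Sq χ χq e c κ TP jp iv) (hsd : SDualF S χ κ Θ O act b)
    (sp : SplS O act b aU bU aN hN Φ) {YN : Submodule O (P → N × N)}
    (hYN : SelfN TP iv (fun d => ac2 e c κ aN (jp d)) (pB (be2 hN)) YN) (a : O) {u : P → U × U}
    {y z : P → N × N} (hu : Z1 TP (fun d => ac2 e c κ aU (jp d)) u) (hy : y ∈ YN) (hz : z ∈ YN) :
    iv (Zq (fun d => ac2 e c κ act (jp d)) (be2 b)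
        (fun (a : O) d => la2 e c κ act b a (jp d)) a (mk3 Φ u y z)) =
      iv (Zq (fun d => ac2 e c κ aU (jp d)) (be2 bU)
        (fun (a : O) d => la2 e c κ aU bU a (jp d)) a u) := by
  classical
  have L := p.loc.toLocH
  have hM := p.qm hsd
  have hU := p.qm (sdualU sp hsd)
  have hNq := p.qm (sdualN sp hsd)
  have u0 : Z1 TP (fun d => ac2 e c κ aU (jp d)) (0 : P → U × U) := z1_zero hU.act
  have n0 : Z1 TP (fun d => ac2 e c κ aN (jp d)) (0 : P → N × N) := z1_zero hNq.act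
  have m1 := cyc3 (Φ := Φ) p sp hu n0 n0
  have m2 := cyc3 (Φ := Φ) p sp u0 (hYN.coc y hy) n0
  have m3 := cyc3 (Φ := Φ) p sp u0 n0 (hYN.coc z hz)
  have m23 : Z1 TP (fun d => ac2 e c κ act (jp d)) (mk3 Φ 0 y 0 + mk3 Φ 0 0 z) :=
    Z1.add hM.act m2 m3
  have ex : mk3 Φ u y z = mk3 Φ u 0 0 + (mk3 Φ 0 y 0 + mk3 Φ 0 0 z) := by
    rw [← mk3_add, ← mk3_add]
    simp only [add_zero, zero_add]
  have esm : ∀ (u : P → U × U) (y z : P → N × N),
      a • mk3 Φ u y z = mk3 Φ (a • u) (a • y) (a • z) := by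
    intro u y z
    funext d
    simp only [mk3, Pi.smul_apply, Prod.smul_fst, Prod.smul_snd, ← Prod.smul_mk, map_smul]
  have s0 : a • (0 : P → U × U) = 0 := smul_zero a
  have s0' : a • (0 : P → N × N) = 0 := smul_zero a
  have c1 : iv (cup11 (fun d => ac2 e c κ act (jp d)) (pB (be2 b))
      (a • (mk3 Φ 0 y 0 + mk3 Φ 0 0 z)) (mk3 Φ u 0 0)) = 0 := by
    rw [← mk3_add]
    simp only [add_zero, zero_add]
    rw [esm, s0]
    have t1 := cyc3 (Φ := Φ) p sp u0 (hYN.coc _ (YN.smul_mem a hy)) (hYN.coc _ (YN.smul_mem a hz))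
    rw [iv_spl sp p.two L hU hNq t1 m1, pU_mk3, pU_mk3, pN_mk3, pN_mk3, pN'_mk3, pN'_mk3,
      iv_cup_zero L, iv_cup_zero' L hNq.act, iv_cup_zero' L hNq.act, add_zero, add_zero]
  have c2 : iv (cup11 (fun d => ac2 e c κ act (jp d)) (pB (be2 b))
      (a • mk3 Φ 0 0 z) (mk3 Φ 0 y 0)) = 0 := by
    rw [esm, s0, s0']
    have t1 := cyc3 (Φ := Φ) p sp u0 n0 (hYN.coc _ (YN.smul_mem a hz))
    rw [iv_spl sp p.two L hU hNq t1 m2, pU_mk3, pU_mk3, pN_mk3, pN_mk3, pN'_mk3, pN'_mk3,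
      iv_cup_zero L, iv_cup_zero L,
      (hYN.self _ (hYN.coc _ (YN.smul_mem a hz))).1 (YN.smul_mem a hz) _ hy, add_zero, add_zero]
  rw [ex, QS.iv_Zq_add L hM m1 m23, QS.iv_Zq_add L hM m2 m3, c1, c2]
  have ec : ∀ (v : P → M × M) (d d' : P), Zq (fun d => ac2 e c κ act (jp d)) (be2 b)
      (fun (a : O) d => la2 e c κ act b a (jp d)) a v d d' =
      Zq (fun d => ac2 e c κ aU (jp d)) (be2 bU) (fun (a : O) d => la2 e c κ aU bU a (jp d)) a
        (pU Φ v) d d' +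
      (be2 hN (a • pN Φ v d) (ac2 e c κ aN (jp d) (pN' Φ v d')) +
        be2 hN (a • pN' Φ v d) (ac2 e c κ aN (jp d) (pN Φ v d')) +
      (if ∃ g, e g = jp d then 0 else
        be2 hN (a • ac2 e c κ aN (jp d) (pN Φ v d')) (ac2 e c κ aN (jp d) (pN' Φ v d')) +
        be2 hN (a • ac2 e c κ aN (jp d) (pN' Φ v d')) (ac2 e c κ aN (jp d) (pN Φ v d')))) := by
    intro v d d'
    show be2 b (a • v d) (ac2 e c κ act (jp d) (v d')) + la2 e c κ act b a (jp d) (v d') =
      be2 bU (a • qU Φ (v d)) (ac2 e c κ aU (jp d) (qU Φ (v d'))) +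
        la2 e c κ aU bU a (jp d) (qU Φ (v d')) + _
    rw [be2_spl sp, la2_spl sp p.two, qU_smul, qN_smul, qN'_smul, ac2_U sp p.two, ac2_N sp p.two,
      ac2_N' sp p.two]
    show _ = _ + _ + (be2 hN (a • qN Φ (v d)) (ac2 e c κ aN (jp d) (qN' Φ (v d'))) +
        be2 hN (a • qN' Φ (v d)) (ac2 e c κ aN (jp d) (qN Φ (v d'))) +
      (if ∃ g, e g = jp d then 0 else
        be2 hN (a • ac2 e c κ aN (jp d) (qN Φ (v d'))) (ac2 e c κ aN (jp d) (qN' Φ (v d'))) +
        be2 hN (a • ac2 e c κ aN (jp d) (qN' Φ (v d'))) (ac2 e c κ aN (jp d) (qN Φ (v d')))))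
    abel
  have hN0 := hNq.act.zero
  have z0 : iv (Zq (fun d => ac2 e c κ aU (jp d)) (be2 bU)
      (fun (a : O) d => la2 e c κ aU bU a (jp d)) a 0) = 0 := by
    have h1 := QS.iv_Zq_add L hU u0 u0 a
    rw [s0, iv_cup_zero L, add_zero, add_zero] at h1
    exact left_eq_add.1 h1
  have key : ∀ (w : P → U × U) (y' z' : P → N × N), (y' = 0 ∨ z' = 0) →
      Zq (fun d => ac2 e c κ act (jp d)) (be2 b)
        (fun (a : O) d => la2 e c κ act b a (jp d)) a (mk3 Φ w y' z') =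
        Zq (fun d => ac2 e c κ aU (jp d)) (be2 bU)
          (fun (a : O) d => la2 e c κ aU bU a (jp d)) a w := by
    intro w y' z' hyz
    funext d d'
    rw [ec, pU_mk3, pN_mk3, pN'_mk3]
    have e2 : ac2 e c κ aN (jp d) ((0 : P → N × N) d') = 0 := hN0 d
    have e3 : a • (0 : P → N × N) d = 0 := smul_zero a
    rcases hyz with rfl | rfl
    · rw [e2, e3, smul_zero]
      simp only [map_zero, add_zero, ite_self, AddMonoidHom.zero_apply]
    · rw [e2, e3, smul_zero]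
      simp only [map_zero, add_zero, ite_self, AddMonoidHom.zero_apply]
  rw [key u 0 0 (Or.inl rfl), key 0 y 0 (Or.inr rfl), key 0 0 z (Or.inl rfl), z0, add_zero, add_zero,
    add_zero, add_zero]

theorem lag_redU (p : PlQ.{v} S Sq χ χq e c κ TP jp iv) (hsd : SDualF S χ κ Θ O act b)
    (sp : SplS O act b aU bU aN hN Φ) {Y : Submodule O (P → M × M)}
    (hY : Lag TP iv (fun d => ac2 e c κ act (jp d)) (be2 b)
      (fun (a : O) d => la2 e c κ act b a (jp d)) Y) {YN : Submodule O (P → N × N)}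
    (hYN : SelfN TP iv (fun d => ac2 e c κ aN (jp d)) (pB (be2 hN)) YN) :
    Lag TP iv (fun d => ac2 e c κ aU (jp d)) (be2 bU)
      (fun (a : O) d => la2 e c κ aU bU a (jp d)) (redU Φ Y YN) := by
  have L := p.loc.toLocH
  have hM := p.qm hsd
  have hU := p.qm (sdualU sp hsd)
  have hNq := p.qm (sdualN sp hsd)
  have u0 : Z1 TP (fun d => ac2 e c κ aU (jp d)) (0 : P → U × U) := z1_zero hU.act
  have n0 : Z1 TP (fun d => ac2 e c κ aN (jp d)) (0 : P → N × N) := z1_zero hNq.act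
  have hcoc : ∀ u ∈ redU Φ Y YN, Z1 TP (fun d => ac2 e c κ aU (jp d)) u := by
    rintro u ⟨y, hy, z, hz, h1⟩
    have h2 := ((z1_spl sp p.two).1 (hY.coc _ h1)).1
    rw [pU_mk3] at h2
    exact h2
  refine ⟨hcoc, fun u hu => ⟨?_, ?_⟩, ?_⟩
  · rintro ⟨y, hy, z, hz, h1⟩ u' ⟨y', hy', z', hz', h1'⟩
    have h2 := (hY.self _ (hY.coc _ h1)).1 h1 _ h1'
    rw [iv_spl sp p.two L hU hNq (hY.coc _ h1) (hY.coc _ h1'), pU_mk3, pU_mk3, pN_mk3, pN_mk3,
      pN'_mk3, pN'_mk3, (hYN.self _ (hYN.coc _ hy)).1 hy _ hz',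
      (hYN.self _ (hYN.coc _ hz)).1 hz _ hy', add_zero, add_zero] at h2
    exact h2
  · intro hperp
    have hfin : Finite (KR.zM (O := O) TP hM.act hM.lin) := (p.ldM hsd).fin
    -- the submodule of cocycles whose components are in `YN`
    let V : Submodule O (KR.zM (O := O) TP hM.act hM.lin) :=
      (prod3 Φ ⊤ YN).comap (KR.zM (O := O) TP hM.act hM.lin).subtype
    have memV : ∀ x : KR.zM (O := O) TP hM.act hM.lin,
        x ∈ V ↔ pN Φ x.1 ∈ YN ∧ pN' Φ x.1 ∈ YN := fun x =>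
      ⟨fun h => ⟨h.2.1, h.2.2⟩, fun h => ⟨trivial, h.1, h.2⟩⟩
    let X : Submodule O (KR.zM (O := O) TP hM.act hM.lin) :=
      Y.comap (KR.zM (O := O) TP hM.act hM.lin).subtype
    -- components of elements orthogonal to `V`
    have hor : ∀ x : KR.zM (O := O) TP hM.act hM.lin,
        x ∈ KR.perpS (QS.locB L hM) (QS.locB_bal L hM) V →
        (∀ u', Z1 TP (fun d => ac2 e c κ aU (jp d)) u' →
          iv (cup11 (fun d => ac2 e c κ aU (jp d)) (pB (be2 bU)) (pU Φ x.1) u') = 0) ∧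
        pN Φ x.1 ∈ YN ∧ pN' Φ x.1 ∈ YN := by
      intro x hx
      obtain ⟨x1, x2, x3⟩ := (z1_spl sp p.two).1 x.2
      refine ⟨fun u' hu' => ?_, (hYN.self _ x2).2 fun y hy => ?_, (hYN.self _ x3).2 fun y hy => ?_⟩
      · have c := cyc3 (Φ := Φ) p sp hu' n0 n0
        have h1 := hx ⟨_, c⟩ ((memV _).2 ⟨by
          show pN Φ (mk3 Φ u' 0 0) ∈ YN
          rw [pN_mk3]
          exact YN.zero_mem, by
          show pN' Φ (mk3 Φ u' 0 0) ∈ YN
          rw [pN'_mk3]
          exact YN.zero_mem⟩)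
        rw [QS.locB_symm, QS.locB_apply, iv_spl sp p.two L hU hNq x.2 c, pU_mk3, pN_mk3, pN'_mk3,
          iv_cup_zero' L hNq.act, iv_cup_zero' L hNq.act, add_zero, add_zero] at h1
        exact h1
      · have c := cyc3 (Φ := Φ) p sp u0 n0 (hYN.coc _ hy)
        have h1 := hx ⟨_, c⟩ ((memV _).2 ⟨by
          show pN Φ (mk3 Φ 0 0 y) ∈ YN
          rw [pN_mk3]
          exact YN.zero_mem, by
          show pN' Φ (mk3 Φ 0 0 y) ∈ YN
          rw [pN'_mk3]
          exact hy⟩)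
        rw [QS.locB_symm, QS.locB_apply, iv_spl sp p.two L hU hNq x.2 c, pU_mk3, pN_mk3, pN'_mk3,
          iv_cup_zero' L hU.act, iv_cup_zero' L hNq.act, add_zero, zero_add] at h1
        exact h1
      · have c := cyc3 (Φ := Φ) p sp u0 (hYN.coc _ hy) n0
        have h1 := hx ⟨_, c⟩ ((memV _).2 ⟨by
          show pN Φ (mk3 Φ 0 y 0) ∈ YN
          rw [pN_mk3]
          exact hy, by
          show pN' Φ (mk3 Φ 0 y 0) ∈ YN
          rw [pN'_mk3]
          exact YN.zero_mem⟩)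
        rw [QS.locB_symm, QS.locB_apply, iv_spl sp p.two L hU hNq x.2 c, pU_mk3, pN_mk3, pN'_mk3,
          iv_cup_zero' L hU.act, iv_cup_zero' L hNq.act, zero_add, zero_add] at h1
        exact h1
    have hV : KR.perpS (QS.locB L hM) (QS.locB_bal L hM) ⊤ ≤ V := by
      intro x hx
      have h1 := hor x (KR.perpS_top_le (QS.locB L hM) (QS.locB_bal L hM) V hx)
      exact (memV x).2 h1.2
    have hX : KR.perpS (QS.locB L hM) (QS.locB_bal L hM) X =
        X ⊔ KR.perpS (QS.locB L hM) (QS.locB_bal L hM) ⊤ := by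
      have h0 : KR.perpS (QS.locB L hM) (QS.locB_bal L hM) X = X := hY.perp L hM
      rw [h0]
      refine (sup_eq_left.2 ?_).symm
      have h1 := KR.perpS_top_le (QS.locB L hM) (QS.locB_bal L hM) X
      rw [h0] at h1
      exact h1
    have hinf := KR.perpS_inf (QS.locB L hM) (QS.locB_bal L hM) (QS.locB_symm L hM) X V hX hV
    have cx := cyc3 (Φ := Φ) p sp hu n0 n0
    have hx : (⟨mk3 Φ u 0 0, cx⟩ : KR.zM (O := O) TP hM.act hM.lin) ∈
        KR.perpS (QS.locB L hM) (QS.locB_bal L hM) (X ⊓ V) := by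
      rintro w ⟨hwX, hwV⟩
      obtain ⟨w2, w3⟩ := (memV w).1 hwV
      have hred : pU Φ w.1 ∈ redU Φ Y YN := by
        refine ⟨_, w2, _, w3, ?_⟩
        rw [mk3_p]
        exact hwX
      have h1 := hperp _ hred
      rw [QS.locB_symm, QS.locB_apply, iv_spl sp p.two L hU hNq cx w.2, pU_mk3, pN_mk3, pN'_mk3,
        iv_cup_zero L, iv_cup_zero L, add_zero, add_zero]
      exact h1
    rw [hinf] at hx
    obtain ⟨w, hw, v, hv, hwv⟩ := Submodule.mem_sup.1 hx
    obtain ⟨v1, v2, v3⟩ := hor v hv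
    have hwv' : w.1 + v.1 = mk3 Φ u 0 0 := congrArg Subtype.val hwv
    obtain ⟨q1, q2, q3⟩ := (z1_spl sp p.two).1 v.2
    -- the radical part
    have cr := cyc3 (Φ := Φ) p sp q1 n0 n0
    have hr : mk3 Φ (pU Φ v.1) 0 0 ∈ Y := by
      refine (hY.self _ cr).2 fun t ht => ?_
      have ct := hY.coc _ ht
      rw [iv_spl sp p.two L hU hNq cr ct, pU_mk3, pN_mk3, pN'_mk3, iv_cup_zero L, iv_cup_zero L,
        add_zero, add_zero]
      exact v1 _ ((z1_spl sp p.two).1 ct).1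
    have eN : pN Φ w.1 = -pN Φ v.1 := by
      have h1 : pN Φ (w.1 + v.1) = 0 := by rw [hwv', pN_mk3]
      have h2 : pN Φ (w.1 + v.1) = pN Φ w.1 + pN Φ v.1 := by
        funext d
        simp [pN]
      rw [h2] at h1
      exact eq_neg_of_add_eq_zero_left h1
    have eN' : pN' Φ w.1 = -pN' Φ v.1 := by
      have h1 : pN' Φ (w.1 + v.1) = 0 := by rw [hwv', pN'_mk3]
      have h2 : pN' Φ (w.1 + v.1) = pN' Φ w.1 + pN' Φ v.1 := by
        funext d
        simp [pN']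
      rw [h2] at h1
      exact eq_neg_of_add_eq_zero_left h1
    have eU : pU Φ w.1 + pU Φ v.1 = u := by
      have h1 : pU Φ (w.1 + v.1) = u := by rw [hwv', pU_mk3]
      have h2 : pU Φ (w.1 + v.1) = pU Φ w.1 + pU Φ v.1 := by
        funext d
        simp [pU]
      rw [h2] at h1
      exact h1
    refine ⟨pN Φ w.1, ?_, pN' Φ w.1, ?_, ?_⟩
    · rw [eN]
      exact YN.neg_mem v2
    · rw [eN']
      exact YN.neg_mem v3
    · have h1 : mk3 Φ u (pN Φ w.1) (pN' Φ w.1) = w.1 + mk3 Φ (pU Φ v.1) 0 0 := by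
        have h2 := mk3_add (Φ := Φ) (pU Φ w.1) (pU Φ v.1) (pN Φ w.1) 0 (pN' Φ w.1) 0
        rw [eU, add_zero, add_zero, mk3_p] at h2
        exact h2
      rw [h1]
      exact Y.add_mem hw hr
  · rintro a u ⟨y, hy, z, hz, h1⟩
    rw [← zq_mk3 p hsd sp hYN a (hcoc u ⟨y, hy, z, hz, h1⟩) hy hz]
    exact hY.iso a _ h1

end Pool.Agent.Work.MP_787500_nt.KJ
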