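import Mathlib
import Pool.Agent.Work.MP_787500_nt.KJ.RDefs

/-!
# KJ/ZurN (size S): the unramified condition for `N × N`

* `selfN_zur`: `QL.perp_zur` (pair `(p.qm hsN).pair`, duality `p.ldM hsN`), `QS.iv_symm` to exchange the arguments; `QL.mem_zurM`. Model: `QL.lag_zur` in QL/LagQ.lean.
* `zur_g`: `x (τ τ) = d0 .. v (τ τ) = ac2 (jp (τ τ)) v - v`, `jp (τ τ) = e (θ * κ θ)` (as in `ER.ygen`), so `(x (τ τ)).1 = g w - w` with `w = v.1`, `g = aN (θ * κ θ)`, `g (g w) = w` (`hun`): `g (g w - w) = w - g w = g w - w` (`h2`).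
-/

set_option autoImplicit false
set_option linter.unusedSectionVars false

namespace Pool.Agent.Work.MP_787500_nt.KJ

open Matrix
open Pool.Agent.Work.MP_787500_nt.GP (A0 pr0 OE MN Wq mq mq_add mq_sub mq_smul mq_eq mq_eq_zero lft mq_lft
  bil bil_add_left bil_add_right bil_sub_left bil_sub_right bil_smul_left bil_smul_right bil_symm Lat
  lamN bN bN_val actN actQ actQ_mq IsAct d0 tw cup11)
open Pool.Agent.Work.MP_787500_nt.KR (FSys Sm1 Sm2 IsChar Smooth Z1 Z2 B2 LocH Pair LDual LocRep SDualF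
  sdualF_MN)
open Pool.Agent.Work.MP_787500_nt.KS (hfT hfT_nondeg ep)
open Pool.Agent.Work.MP_787500_nt.KT (Sy ee IsSp)
open Pool.Agent.Work.MP_787500_nt.QL (TameF zurM)
open Pool.Agent.Work.MP_787500_nt.QS (Two ac2 be2 la2 Lag QM pB Zq)
open Pool.Agent.Work.MP_787500_nt.QP (InvC)
open Pool.Agent.Work.MP_787500_nt.KI (SIso Crd PlQ LY LVal R1 Y2 tra siso_f2 bC YM)
open Pool.Agent.Work.MP_787500_nt.RC (SplS)
open Pool.Agent.Work.MP_787500_nt.ER (Rq rq_mem exists_rq rq_unique finrank_imW card_n imW kerN ranN W5 Lam2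
  LamP BT LinkX TR LX QX BX cl gv gY mem_Lam2 mem_imW)

universe v

variable {G Γ : Type*} [Group G] [Group Γ] {S : FSys G} {Sq : FSys Γ} {χ : G → ℤ_[2]}
  {χq : Γ → ℤ_[2]} {e : G →* Γ} {c : Γ} {κ : G →* G} {P : Type*} [Group P] {TP : FSys P}
  {jp : P →* Γ} {iv : (P → P → A0) → A0} {a : P → ℤ_[2]} {σ τ : P} {q : ℕ} {In : Subgroup P}
  {θ s : G} {Θ : Set (G × G)}

variable {O : Type v} [CommRing O] {N : Type v} [AddCommGroup N] [Module O N] [Finite N]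
  {aN : G → N → N} {hN : N →+ N →+ A0}

theorem selfN_zur (p : PlQ.{v} S Sq χ χq e c κ TP jp iv) (hsN : SDualF S χ κ Θ O aN hN)
    (h : TameF TP (fun d => χq (jp d)) a σ τ q In) :
    SelfN TP iv (fun d => ac2 e c κ aN (jp d)) (pB (be2 hN))
      (zurM TP In (p.qm hsN).act (p.qm hsN).lin) := by
  have hq := p.qm hsN
  refine ⟨fun x hx => hx.1, fun x hx => ?_⟩
  have h1 := QL.perp_zur h p.loc.toLocH hq.pair (p.ldM hsN) hx
  rw [QL.mem_zurM]
  constructor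
  · intro h2 y hy
    rw [QS.iv_symm p.loc.toLocH hq hx hy.1]
    exact h1.2 h2 y hy
  · intro h2
    refine h1.1 fun y hy => ?_
    rw [QS.iv_symm p.loc.toLocH hq hy.1 hx]
    exact h2 y hy

theorem zur_g (p : PlQ.{v} S Sq χ χq e c κ TP jp iv) (hsN : SDualF S χ κ Θ O aN hN)
    (h2 : ∀ m : N, m + m = 0) (h : TameF TP (fun d => χq (jp d)) a σ τ q In)
    (hun : ∀ g, (∃ d ∈ In, jp d = e g) → ∀ m, aN g (aN g m) = m) (hθ : e θ * c = jp τ)
    {x : P → N × N} (hx : x ∈ zurM TP In (p.qm hsN).act (p.qm hsN).lin) :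
    aN (θ * κ θ) (x (τ * τ)).1 = (x (τ * τ)).1 := by
  obtain ⟨v, hv⟩ := hx.2
  have hττ : τ * τ ∈ In := In.mul_mem h.τI h.τI
  have hjτ : jp (τ * τ) = e (θ * κ θ) := by
    rw [map_mul, ← hθ, map_mul, p.two.kap]
    group
  have h1 : (x (τ * τ)).1 = aN (θ * κ θ) v.1 - v.1 := by
    have h3 := congrArg Prod.fst (hv (τ * τ) hττ)
    rw [h3]
    show (ac2 e c κ aN (jp (τ * τ)) v - v).1 = _
    rw [hjτ, p.two.ac_e]
    rfl
  have hsub : ∀ u w : N, u - w = u + w := fun u w => by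
    rw [sub_eq_iff_eq_add, add_assoc, h2, add_zero]
  rw [h1, hsub, hsN.act.add, hun _ ⟨τ * τ, hττ, hjτ⟩, add_comm]

end Pool.Agent.Work.MP_787500_nt.KJ
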