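import Mathlib
import Pool.Agent.Work.MP_787500_nt.KJ.RLatB
import Pool.Agent.Work.MP_787500_nt.KJ.RCard
import Pool.Agent.Work.MP_787500_nt.KJ.Red
import Pool.Agent.Work.MP_787500_nt.KJ.ZurN
import Pool.Agent.Work.MP_787500_nt.KJ.RBeta
import Pool.Agent.Work.MP_787500_nt.KJ.RPl
import Pool.Agent.Work.MP_787500_nt.KJ.RYg
import Pool.Agent.Work.MP_787500_nt.KJ.Loc
import Pool.Agent.Work.MP_787500_nt.ER.LocI
import Pool.Agent.Work.MP_787500_nt.ER.FixR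
import Pool.Agent.Work.MP_787500_nt.ER.Sig

/-!
# KJ/RLoc: THE CONTRIBUTION `LocS` OF A RAMIFIED PLACE

`YN` = the unramified classes, `YU` = the reduction of `Y`. With `Λ` the values of `Y`, `Λ₀` those of `Y₀ = YU × YN × YN`, `P` the reference plane:
`dim (Y ⊓ Y₀) = n + dim (Λ ⊓ Λ₀)`, `dim (Λ ⊓ Λ₀) + dim (Λ ⊓ P) + dim (Λ₀ ⊓ P) + n` is even (`triple0`), `dim (Λ ⊓ P) = dim W5` (`resB`), `dim (Λ₀ ⊓ P) = dim (ΛU ⊓ LX)` (`card_plane`),
`m + t = dim (ΛU ⊓ LX)` (`main_res`).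
-/

set_option autoImplicit false
set_option linter.unusedSectionVars false

namespace Pool.Agent.Work.MP_787500_nt.KJ

open Matrix
open Pool.Agent.Work.MP_787500_nt.GP (A0 pr0 OE MN Wq mq mq_add mq_sub mq_smul mq_eq mq_eq_zero lft mq_lft
  bil bil_add_left bil_add_right bil_sub_left bil_sub_right bil_smul_left bil_smul_right bil_symm Lat
  lamN bN bN_val actN actQ actQ_mq IsAct d0 tw cup11)
open Pool.Agent.Work.MP_787500_nt.KR (FSys Sm1 Sm2 IsChar Smooth Z1 Z2 B2 LocH Pair LDual LocRep SDualF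
  sdualF_MN)
open Pool.Agent.Work.MP_787500_nt.KS (hfT hfT_nondeg ep)
open Pool.Agent.Work.MP_787500_nt.KT (Sy ee IsSp)
open Pool.Agent.Work.MP_787500_nt.QL (TameF zurM)
open Pool.Agent.Work.MP_787500_nt.QS (Two ac2 be2 la2 Lag QM pB Zq)
open Pool.Agent.Work.MP_787500_nt.QV (rho2 blk T2 J2 v1 v2 isoN)
open Pool.Agent.Work.MP_787500_nt.QU (urV)
open Pool.Agent.Work.MP_787500_nt.QP (InvC ep_e ep_ec ep_add2)
open Pool.Agent.Work.MP_787500_nt.KI (SIso Crd PlQ LY LVal R1 Y2 tra siso_f2 bC YM)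
open Pool.Agent.Work.MP_787500_nt.RC (SplS)
open Pool.Agent.Work.MP_787500_nt.ER (Rq rq_mem exists_rq rq_unique finrank_imW card_n imW kerN ranN W5 Lam2
  LamP BT LinkX TR LX QX BX cl gv gY gvY mem_Lam2 mem_imW bt_of lr_of_lag main_res triple0 VI QI dim_W5
  exists_sig eps_tau)

universe w

section un

variable {E : Type w} [NormedField E] [NormedAlgebra ℚ_[2] E] {m : ℕ} {b : Matrix (Fin m) (Fin m) E}
  {l : OE E} {t : E →ₗ[ℚ_[2]] ℚ_[2]} {T : Submodule (OE E) (Fin m → E)} {G : Type*} [Group G]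
  {S : FSys G} {χ : G → ℤ_[2]} {ρ ρ' : G → Matrix (Fin m) (Fin m) E}

/-- twice an element of level one is in the lattice -/
private theorem two_mem (hl : Lat b l t T) {v : Fin m → E} (hv : (l : E) • v ∈ T) : v + v ∈ T := by
  have h2 : ‖(2 : E)‖ = 2⁻¹ := by
    have h := Gn.norm_p 2 E
    push_cast at h
    exact h
  have h3 : ‖(2 : E)‖ ≤ ‖(l : E)‖ := hl.lmax _ (by rw [h2]; norm_num)
  have h4 : ‖(2 : E) * (l : E)⁻¹‖ ≤ 1 := by
    rw [norm_mul, norm_inv, ← div_eq_mul_inv]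
    exact div_le_one_of_le₀ h3 (norm_nonneg _)
  have h5 := T.smul_mem (⟨(2 : E) * (l : E)⁻¹, h4⟩ : OE E) hv
  have h6 : (⟨(2 : E) * (l : E)⁻¹, h4⟩ : OE E) • ((l : E) • v) = v + v := by
    show ((2 : E) * (l : E)⁻¹) • ((l : E) • v) = v + v
    rw [smul_smul, mul_assoc, inv_mul_cancel₀ hl.lne, mul_one, two_smul]
  rwa [h6] at h5

/-- an element with `(ρ g - 1) ^ 2 = 0` acts on the level 1 by an involution -/
theorem act_act (hl : Lat b l t T) (hr : LocRep S χ T b ρ ρ') {g : G}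
    (hg : (ρ g - 1) * (ρ g - 1) = 0) (x : MN T l 1) :
    actN l 1 ρ hr.st g (actN l 1 ρ hr.st g x) = x := by
  apply Subtype.ext
  rw [GP.coe_actN, GP.coe_actN]
  obtain ⟨v, hv⟩ : ∃ v, v = lft (x : Wq T) := ⟨_, rfl⟩
  have h1 : mq T v = (x : Wq T) := by rw [hv, mq_lft]
  have h2 : (l : E) • v ∈ T := by
    have := x.lft_mem
    rw [pow_one] at this
    rw [hv]
    exact this
  rw [← h1, actQ_mq (hr.st _), actQ_mq (hr.st _), mq_eq]
  have h3 : ρ g * ρ g - 1 = (ρ g - 1) + (ρ g - 1) := by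
    have h4 : (ρ g - 1) * (ρ g - 1) = ρ g * ρ g - 1 - ((ρ g - 1) + (ρ g - 1)) := by
      noncomm_ring
    rw [hg] at h4
    exact (sub_eq_zero.1 h4.symm)
  have h5 : ρ g *ᵥ (ρ g *ᵥ v) - v = ρ g *ᵥ (v + v) - (v + v) := by
    have h6 : ρ g *ᵥ (ρ g *ᵥ v) - v = (ρ g * ρ g - 1) *ᵥ v := by
      rw [sub_mulVec, one_mulVec, mulVec_mulVec]
    rw [h6, h3, add_mulVec, sub_mulVec, one_mulVec, mulVec_add]
    abel
  rw [h5]
  have h7 := two_mem hl h2
  exact T.sub_mem (hr.st _ _ h7) h7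

end un

section dim

variable {F : Type w} [Field F] [Finite F] {V : Type*} [AddCommGroup V] [Module F V] [Finite V]

private theorem card_dim (Λ : Submodule F V) : Nat.card Λ = Nat.card F ^ Module.finrank F Λ :=
  Module.natCard_eq_pow_finrank (K := F) (V := Λ)

end dim

variable {G Γ : Type*} [Group G] [Group Γ] {S : FSys G} {Sq : FSys Γ} {χ : G → ℤ_[2]}
  {χq : Γ → ℤ_[2]} {e : G →* Γ} {c : Γ} {κ : G →* G} {P : Type*} [Group P] {TP : FSys P}
  {jp : P →* Γ} {iv : (P → P → A0) → A0} {E : Type w} [NormedField E] [NormedAlgebra ℚ_[2] E]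
  [FiniteDimensional ℚ_[2] E] {m : ℕ} {b : Matrix (Fin m) (Fin m) E} {l : OE E}
  {t : E →ₗ[ℚ_[2]] ℚ_[2]} {T : Submodule (OE E) (Fin m → E)} {ρ : G → Matrix (Fin m) (Fin m) E}
  {a : P → ℤ_[2]} {σ τ : P} {q : ℕ} {In : Subgroup P} {θ s : G}

variable [IsLocalRing (OE E)] [Finite (IsLocalRing.ResidueField (OE E))]
  [CharP (IsLocalRing.ResidueField (OE E)) 2] [Algebra (ZMod 2) (IsLocalRing.ResidueField (OE E))]
  {U N : Type w} [AddCommGroup U] [Module (OE E) U] [Finite U] [AddCommGroup N] [Module (OE E) N]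
  [Finite N] {aU : G → U → U} {bU : U →+ U →+ A0} {aN : G → N → N} {hN : N →+ N →+ A0}
  {Φ : MN T l 1 ≃ₗ[OE E] U × N × N}

/-- THE CONTRIBUTION OF A RAMIFIED PLACE. -/
theorem locS_R (p : PlQ.{w} S Sq χ χq e c κ TP jp iv) (hodd : ∀ g, (2 : ℤ_[2]) ∣ χ g - 1)
    (hl : Lat b l t T) (hr : LocRep S χ T b ρ (fun g => ρ (κ g)))
    (h : TameF TP (fun d => χq (jp d)) a σ τ q In)
    (hun : ∀ g, (∃ d ∈ In, jp d = e g) → (ρ g - 1) * (ρ g - 1) = 0) (hθ : e θ * c = jp τ)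
    (hs : e s = jp σ) (sp : SplS (OE E) (actN l 1 ρ hr.st) (bN hl 1) aU bU aN hN Φ) {C : U → U}
    (hm : Even m)
    (hY : Lag TP iv (fun d => ac2 e c κ (actN l 1 ρ hr.st) (jp d)) (be2 (bN hl 1))
      (fun (x : OE E) d => la2 e c κ (actN l 1 ρ hr.st) (bN hl 1) x (jp d))
      (YM T l (urV TP In (fun d => rho2 e c κ ρ (jp d))))) {δ : ℕ}
    (hδ : Even (Module.finrank E (W5 (ρ (θ * κ θ) - 1) (ρ s)) + δ)) :
    LocS TP jp iv e c κ (IsLocalRing.ResidueField (OE E)) aU bU aN hN Φ C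
      (YM T l (urV TP In (fun d => rho2 e c κ ρ (jp d)))) δ := by
  intro nb iS LU A hc
  have X := p.two
  have hfin : Finite (MN T l 1) := GP.MN_finite hl 1
  have hsd : SDualF S χ κ ∅ (OE E) (actN l 1 ρ hr.st) (bN hl 1) :=
    sdualF_MN hl hr (fun p hp => absurd hp (Set.notMem_empty p)) 1
  have hsU := sdualU sp hsd
  have hsN := sdualN sp hsd
  have hM := QF.max_MN hl
  have h2M : ∀ m : MN T l 1, m + m = 0 := two_M hM
  have h2N : ∀ m : N, m + m = 0 := fun m => by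
    have h1 := congrArg Φ (h2M (Φ.symm (0, m, 0)))
    rw [map_add, map_zero, LinearEquiv.apply_symm_apply] at h1
    exact congrArg (fun z : U × N × N => z.2.1) h1
  have hunM : ∀ g, (∃ d ∈ In, jp d = e g) → ∀ m, actN l 1 ρ hr.st g (actN l 1 ρ hr.st g m) = m :=
    fun g hg m => act_act hl hr (hun g hg) m
  have hunU : ∀ g, (∃ d ∈ In, jp d = e g) → ∀ m, aU g (aU g m) = m := fun g hg m => by
    have h1 := congrArg Φ (hunM g hg (Φ.symm (m, 0, 0)))
    rw [sp.act, sp.act, LinearEquiv.apply_symm_apply] at h1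
    exact congrArg Prod.fst h1
  have hunN : ∀ g, (∃ d ∈ In, jp d = e g) → ∀ m, aN g (aN g m) = m := fun g hg m => by
    have h1 := congrArg Φ (hunM g hg (Φ.symm (0, m, 0)))
    rw [sp.act, sp.act, LinearEquiv.apply_symm_apply] at h1
    exact congrArg (fun z : U × N × N => z.2.1) h1
  -- the element `τ²`
  have hjτ : jp (τ * τ) = e (θ * κ θ) := by
    rw [map_mul, ← hθ, map_mul, X.kap]
    group
  have hgIn : ∃ d ∈ In, jp d = e (θ * κ θ) := ⟨τ * τ, In.mul_mem h.τI h.τI, hjτ⟩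
  -- the coordinates
  obtain ⟨n, L, hL⟩ := exists_siso (O := OE E) (M := MN T l 1) hM
  obtain ⟨β, g, hβ, hg, hG⟩ := exists_beta (θ := θ) hL X hodd hsd (hunM _ hgIn)
  -- the conditions
  have hYN := selfN_zur p hsN h
  have hYU := lag_redU p hsd sp hY hYN
  obtain ⟨YN, hYNdef⟩ : ∃ YN, YN = zurM TP In (p.qm hsN).act (p.qm hsN).lin := ⟨_, rfl⟩
  rw [← hYNdef] at hYN hYU
  obtain ⟨Y, hYdef⟩ : ∃ Y, Y = YM T l (urV TP In (fun d => rho2 e c κ ρ (jp d))) := ⟨_, rfl⟩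
  rw [← hYdef] at hY hYU ⊢
  obtain ⟨YU, hYUdef⟩ : ∃ YU, YU = redU Φ Y YN := ⟨_, rfl⟩
  rw [← hYUdef] at hYU
  have hY0 := lag_ref p hsd sp hYU hYN
  obtain ⟨Y₀, hY0def⟩ : ∃ Y₀, Y₀ = prod3 Φ YU YN := ⟨_, rfl⟩
  rw [← hY0def] at hY0
  -- the contribution for `U`
  have hqU : QM TP (fun d => χq (jp d)) (IsLocalRing.ResidueField (OE E))
      (fun d => ac2 e c κ (KT.act (A.comp e)) (jp d)) (be2 (bC A c))
      (fun (a : IsLocalRing.ResidueField (OE E)) d =>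
        la2 e c κ (KT.act (A.comp e)) (bC A c) a (jp d)) :=
    KI.qm_tra (siso_f2 hc.iso) (fun d v => hc.act2 X (jp d) v) hc.be
      (fun a d v => hc.la X a (jp d) v) (p.qm hsU)
  have hYU' : Lag TP iv (fun d => ac2 e c κ (KT.act (A.comp e)) (jp d)) (be2 (bC A c))
      (fun (a : IsLocalRing.ResidueField (OE E)) d =>
        la2 e c κ (KT.act (A.comp e)) (bC A c) a (jp d)) (tra (siso_f2 hc.iso) YU) :=
    KI.lag_tra (siso_f2 hc.iso) (fun d v => hc.act2 X (jp d) v) hc.be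
      (fun a d v => hc.la X a (jp d) v) hYU
  have hldU := p.loc.ld hqU.pair
  have htU := tr_abs p hsU h hunU hθ hs hc
  obtain ⟨t', m', h3, h4, h5⟩ := main_res htU (lr_of_lag X htU hc.sp hqU hldU hYU')
  rw [gvY (A := A) X] at h5
  have h6 : Even (m' + t' + Module.finrank (IsLocalRing.ResidueField (OE E))
      ↥((tra (siso_f2 hc.iso) YU).map (gY σ τ) ⊓ LX (A (jp τ)) q)) := h5
  -- the planes
  obtain ⟨ZU, hZU1, hZU⟩ := aplane_U X hsU hc htU.x4 hθ q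
  obtain ⟨gN, hgN⟩ : ∃ gN : N →ₗ[OE E] N, ∀ x, gN x = aN (θ * κ θ) x :=
    ⟨{ toFun := aN (θ * κ θ), map_add' := hsN.act.add _, map_smul' := fun x y => hsN.lin _ x y },
      fun _ => rfl⟩
  have hZM := aplane_M sp hsN X.kk hodd h2N (hunN _ hgIn) hZU hgN
  obtain ⟨Z, hZ1, hZ⟩ := gplane_of (q := q) hL hβ hg hZM
  have hgYN : ∀ x ∈ YN, gN (x (τ * τ)).1 = (x (τ * τ)).1 := fun x hx => by
    rw [hgN]
    rw [hYNdef] at hx
    exact zur_g p hsN h2N h hunN hθ hx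
  -- notation
  obtain ⟨F, hF⟩ : ∃ F, F = IsLocalRing.ResidueField (OE E) := ⟨_, rfl⟩
  have q1 : 1 < Nat.card (IsLocalRing.ResidueField (OE E)) := Finite.one_lt_card
  have hnm : n = m := card_n hl hL
  -- the values of `Y` and `Y₀` in coordinates
  obtain ⟨Λ, hΛ⟩ : ∃ Λ, Λ = (tra (siso_f2 hL) Y).map
    (gO (IsLocalRing.ResidueField (OE E)) σ τ) := ⟨_, rfl⟩
  obtain ⟨Λ₀, hΛ₀⟩ : ∃ Λ, Λ = (tra (siso_f2 hL) Y₀).map
    (gO (IsLocalRing.ResidueField (OE E)) σ τ) := ⟨_, rfl⟩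
  have mΛ : ∀ v : MN T l 1 × MN T l 1, (L v.1, L v.2) ∈ Λ ↔ v ∈ Y.map (gO (OE E) σ τ) := fun v => by
    rw [hΛ]
    exact gY_tra hL
  have mΛ₀ : ∀ v : MN T l 1 × MN T l 1, (L v.1, L v.2) ∈ Λ₀ ↔ v ∈ Y₀.map (gO (OE E) σ τ) :=
    fun v => by
      rw [hΛ₀]
      exact gY_tra hL
  have mZ : ∀ v : MN T l 1 × MN T l 1,
      (L v.1, L v.2) ∈ LZ Z ↔ v ∈ pZ (zM Φ ZU gN ((q ^ 2 - 1) / 8)) := fun v => by
    rw [mem_LZ, mem_pZ]
    show L v.1 = Z (L v.2) ↔ _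
    rw [hZ1]
    exact ⟨fun h1 => L.injective h1, fun h1 => by rw [h1]⟩
  -- dimensions
  have hldM := p.ldM hsd
  have cM : Nat.card (MN T l 1) = Nat.card (IsLocalRing.ResidueField (OE E)) ^ n := by
    rw [Nat.card_congr L.toEquiv, Module.natCard_eq_pow_finrank
      (K := IsLocalRing.ResidueField (OE E)), Module.finrank_fin_fun]
  have key : ∀ {W : Submodule (OE E) (P → MN T l 1 × MN T l 1)}
      (_ : Lag TP iv (fun d => ac2 e c κ (actN l 1 ρ hr.st) (jp d)) (be2 (bN hl 1))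
      (fun (x : OE E) d => la2 e c κ (actN l 1 ρ hr.st) (bN hl 1) x (jp d)) W)
      {Ω : Submodule (IsLocalRing.ResidueField (OE E)) ((Fin n → IsLocalRing.ResidueField (OE E)) ×
        (Fin n → IsLocalRing.ResidueField (OE E)))}
      (_ : ∀ v : MN T l 1 × MN T l 1, (L v.1, L v.2) ∈ Ω ↔ v ∈ W.map (gO (OE E) σ τ)),
      Module.finrank (IsLocalRing.ResidueField (OE E)) Ω = n ∧ ∀ x ∈ Ω, QB β q x = 0 := by
    intro W hW Ω hΩ
    have c1 := card_lag h p.loc.toLocH (p.qm hsd) hldM hW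
    have c2 := card_gO p hodd hM hsd h hunM hθ hs hW.coc
      (fun v => QS.Lag.cob p.loc.toLocH (p.qm hsd) hW v)
    have c3 := card_trL hΩ
    constructor
    · rw [c1, ← c3, Nat.card_prod] at c2
      have c4 : Nat.card Ω = Nat.card (MN T l 1) :=
        (Nat.mul_left_cancel Nat.card_pos c2).symm
      rw [cM, card_dim] at c4
      exact Nat.pow_right_injective q1 c4
    · intro x hx
      obtain ⟨v, rfl⟩ : ∃ v : MN T l 1 × MN T l 1, x = (L v.1, L v.2) :=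
        ⟨(L.symm x.1, L.symm x.2), by simp⟩
      obtain ⟨y, hy, rfl⟩ := (hΩ v).1 hx
      refine hfT_nondeg fun α => ?_
      obtain ⟨α, rfl⟩ := hL.surj α
      have e1 := iv_ZqM p hodd hM hsd h hunM hθ hs (hW.coc y hy) α
      rw [hW.iso α y hy, ← hβ, ← hβ, ← hβ] at e1
      rw [QB, mul_add, mul_add, map_add, map_add, gO_apply]
      dsimp only
      have e2 : algebraMap (OE E) (IsLocalRing.ResidueField (OE E)) α *
          (cl (IsLocalRing.ResidueField (OE E)) q * β (L (y (τ * τ)).1) (L (y (τ * τ)).1)) =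
          ((q ^ 2 - 1) / 8) • (algebraMap (OE E) (IsLocalRing.ResidueField (OE E)) α *
            β (L (y (τ * τ)).1) (L (y (τ * τ)).1)) := by
        rw [nsmul_eq_mul]
        unfold cl
        ring
      rw [e2, map_nsmul]
      exact e1.symm
  obtain ⟨dΛ, qΛ⟩ := key hY mΛ
  obtain ⟨dΛ₀, qΛ₀⟩ := key hY0 mΛ₀
  -- the triple lemma
  have hW : Module.finrank (IsLocalRing.ResidueField (OE E))
      ((Fin n → IsLocalRing.ResidueField (OE E)) × (Fin n → IsLocalRing.ResidueField (OE E))) =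
      2 * n := by
    rw [Module.finrank_prod, Module.finrank_fin_fun]
    omega
  have k1 := triple0 (BB β q) (QB β q) (BB_symm β q) (polarB β q)
    (fun x hx => BB_nd hG q hx) hW dΛ dΛ₀ (by rw [finrank_LZ, Module.finrank_fin_fun]) qΛ qΛ₀
    (QB_LZ hZ)
  -- the parity for the unramified plane
  have k2 : Even (Module.finrank (IsLocalRing.ResidueField (OE E)) ↥(Λ ⊓ LZ Z) +
      Module.finrank E (W5 (ρ (θ * κ θ) - 1) (ρ s))) := by
    refine resB hl (bt_of p hl hr h hun hθ hs) hL (linkB_of hl hr hβ) (linkG_of hr hg) hG hZ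
      (by rw [hnm]; exact hm) ?_ dΛ qΛ
    rw [hΛ, hYdef]
    exact ygenB X hr h hθ hs hL
  -- the intersection with the plane
  obtain ⟨j, hj⟩ : ∃ j, Nat.card ↥(YN.map (gO (OE E) σ τ) ⊓
      pZ (((q ^ 2 - 1) / 8) • (LinearMap.id : N →ₗ[OE E] N))) =
      Nat.card (IsLocalRing.ResidueField (OE E)) ^ j := GP.card_pow (O := OE E) _
  have k3 : Module.finrank (IsLocalRing.ResidueField (OE E)) ↥(Λ₀ ⊓ LZ Z) =
      Module.finrank (IsLocalRing.ResidueField (OE E))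
        ↥((tra (siso_f2 hc.iso) YU).map (gY σ τ) ⊓ LX (A (jp τ)) q) + 2 * j := by
    have c1 : Nat.card ↥(Λ₀ ⊓ LZ Z) = Nat.card ↥(Y₀.map (gO (OE E) σ τ) ⊓
        pZ (zM Φ ZU gN ((q ^ 2 - 1) / 8))) := card_trL fun v => by
      rw [Submodule.mem_inf, Submodule.mem_inf, mΛ₀, mZ]
    have c2 : Nat.card ↥((tra (siso_f2 hc.iso) YU).map (gY σ τ) ⊓ LX (A (jp τ)) q) =
        Nat.card ↥(YU.map (gO (OE E) σ τ) ⊓ pZ ZU) := card_trL (L := LU) fun v => by
      rw [Submodule.mem_inf, Submodule.mem_inf, mem_pZ, ER.mem_LX]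
      refine and_congr (gY_tra hc.iso) ?_
      show LU v.1 = _ ↔ _
      rw [← hZU1]
      exact ⟨fun h1 => LU.injective h1, fun h1 => by rw [h1]⟩
    have c3 := card_plane (σ := σ) (Φ := Φ) (YU := YU) ZU hgYN ((q ^ 2 - 1) / 8)
    rw [← hY0def, ← c1, ← c2, hj, card_dim, card_dim, ← pow_add, ← pow_add] at c3
    have := Nat.pow_right_injective q1 c3
    omega
  -- the number of elements of `Y ⊓ Y₀`
  have k4 : Nat.card Y * Nat.card ↥(Y ⊓ Y₀) = Nat.card (IsLocalRing.ResidueField (OE E)) ^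
      (3 * n + Module.finrank (IsLocalRing.ResidueField (OE E)) ↥(Λ ⊓ Λ₀)) := by
    have hB := fun v => QS.Lag.cob p.loc.toLocH (p.qm hsd) hY v
    have hB0 := fun v => QS.Lag.cob p.loc.toLocH (p.qm hsd) hY0 v
    have c1 := card_lag h p.loc.toLocH (p.qm hsd) hldM hY
    have c2 := card_gO p hodd hM hsd h hunM hθ hs (Y := Y ⊓ Y₀) (fun x hx => hY.coc x hx.1)
      (fun v => ⟨hB v, hB0 v⟩)
    have c3 := map_inf_gO p hodd hM hsd h hunM hθ hs hY.coc hY0.coc hB hB0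
    have c4 : Nat.card ↥(Λ ⊓ Λ₀) = Nat.card ↥(Y.map (gO (OE E) σ τ) ⊓ Y₀.map (gO (OE E) σ τ)) :=
      card_trL fun v => by
        rw [Submodule.mem_inf, Submodule.mem_inf, mΛ, mΛ₀]
    rw [c1, c2, c3, ← c4, card_dim, Nat.card_prod, cM]
    ring
  refine ⟨YU, YN, t', m', 3 * n + Module.finrank (IsLocalRing.ResidueField (OE E)) ↥(Λ ⊓ Λ₀), hYU,
    h3, h4, hYN, ?_, ?_⟩
  · rw [← hY0def]
    exact k4
  · rw [Int.even_iff] at h6 ⊢
    rw [Nat.even_iff] at k1 k2 hδ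
    push_cast
    omega

/-- THE CONTRIBUTION OF A RAMIFIED PLACE, in terms of the invariants of inertia. -/
theorem locS_RI (p : PlQ.{w} S Sq χ χq e c κ TP jp iv) (hodd : ∀ g, (2 : ℤ_[2]) ∣ χ g - 1)
    (hl : Lat b l t T) (hr : LocRep S χ T b ρ (fun g => ρ (κ g)))
    (h : TameF TP (fun d => χq (jp d)) a σ τ q In) (hI : ∃ d ∈ In, ep e (jp d) ≠ 0)
    (hun : ∀ g, (∃ d ∈ In, jp d = e g) → (ρ g - 1) * (ρ g - 1) = 0)
    (sp : SplS (OE E) (actN l 1 ρ hr.st) (bN hl 1) aU bU aN hN Φ) {C : U → U}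
    (hY : Lag TP iv (fun d => ac2 e c κ (actN l 1 ρ hr.st) (jp d)) (be2 (bN hl 1))
      (fun (x : OE E) d => la2 e c κ (actN l 1 ρ hr.st) (bN hl 1) x (jp d))
      (YM T l (urV TP In (fun d => rho2 e c κ ρ (jp d))))) (hm : Even m) {δ : ℕ}
    (hδ : Even (Module.finrank E (QI e jp In ρ) + Module.finrank E (VI e jp In ρ) + δ)) :
    LocS TP jp iv e c κ (IsLocalRing.ResidueField (OE E)) aU bU aN hN Φ C
      (YM T l (urV TP In (fun d => rho2 e c κ ρ (jp d)))) δ := by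
  have hε : ∀ g k : P, ep e (jp (g * k)) = ep e (jp g) + ep e (jp k) := fun g k => by
    rw [map_mul, ep_add2 p.two]
  have hτ : ep e (jp τ) = 1 := eps_tau h (ε := fun d => ep e (jp d)) hε p.esm hI
  obtain ⟨a', σ', h', hσ', -⟩ := exists_sig h (ε := fun d => ep e (jp d)) hε hτ
  obtain ⟨s, hs⟩ : ∃ s, e s = jp σ' := by
    rcases p.two.cases (jp σ') with h1 | ⟨g, h1⟩
    · exact h1
    · exfalso
      have h2 : ep e (jp σ') = 0 := hσ'
      rw [← h1, ep_ec p.two] at h2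
      exact one_ne_zero h2
  obtain ⟨θ, hθ⟩ : ∃ θ, e θ * c = jp τ := by
    rcases p.two.cases (jp τ) with ⟨g, h1⟩ | h1
    · exfalso
      rw [← h1, ep_e] at hτ
      exact zero_ne_one hτ
    · exact h1
  refine locS_R p hodd hl hr h' hun hθ hs sp hm hY ?_
  have h1 := dim_W5 p hl hr h' hun hθ hs
  obtain ⟨x, hx⟩ := hm
  obtain ⟨y, hy⟩ := hδ
  have h2 : Module.finrank E (W5 (ρ (θ * κ θ) - 1) (ρ s)) + δ =
      2 * (x + y) - 2 * Module.finrank E (QI e jp In ρ) := by omega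
  rw [h2, ← Nat.mul_sub]
  exact even_two_mul _

end Pool.Agent.Work.MP_787500_nt.KJ
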