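import Mathlib
import Pool.Agent.Work.MP_787500_nt.KJ.Fam
import Pool.Agent.Work.MP_787500_nt.KJ.RFam

/-!
# Block KJ: THE CONTRIBUTION OF THE PRIME DIVISORS OF `D` (shape used by KJ/Main)
-/

set_option autoImplicit false
set_option linter.unusedSectionVars false

namespace Pool.Agent.Work.MP_787500_nt.KJ

open Matrix NumberField
open Pool.Agent.Work.MP_787500_nt.GP (A0 OE MN actN bN Lat inT stabD)
open Pool.Agent.Work.MP_787500_nt.HP (IsQ Spl IsP inr stb cyQ)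
open Pool.Agent.Work.MP_787500_nt.KS (iK)
open Pool.Agent.Work.MP_787500_nt.QP (InvC)
open Pool.Agent.Work.MP_787500_nt.QU (Inst)
open Pool.Agent.Work.MP_787500_nt.QW (famL Ari)
open Pool.Agent.Work.MP_787500_nt.RC (SplS)

universe u w

variable {K : Type u} [Field K] [NumberField K] {D : ℕ} {s : K}
  {c : AlgebraicClosure K ≃+* AlgebraicClosure K} {κ : AbsGal K →* AbsGal K} {T : Finset ℕ}
  {P : ℕ → Ideal (𝓞 (AlgebraicClosure K))} {N₀ : Subgroup (AbsGal K)}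
  {iv ivF : ∀ w : Option T, (stb (HP.PP P w) → stb (HP.PP P w) → A0) → A0}
  {tr : (((AlgebraicClosure K ≃+* AlgebraicClosure K) → (AlgebraicClosure K ≃+* AlgebraicClosure K) →
      (AlgebraicClosure K ≃+* AlgebraicClosure K) → A0) ×
      (∀ i : Option (Option T), GA.HQ c P i → GA.HQ c P i → A0)) →+ A0}
  {E : Type w} [NormedField E] [NormedAlgebra ℚ_[2] E] [FiniteDimensional ℚ_[2] E]
  [IsLocalRing (OE E)] [Finite (IsLocalRing.ResidueField (OE E))]
  [CharP (IsLocalRing.ResidueField (OE E)) 2] [Algebra (ZMod 2) (IsLocalRing.ResidueField (OE E))]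
  {n : ℕ} {ρ : AbsGal K →* Matrix (Fin n) (Fin n) E} {b : Matrix (Fin n) (Fin n) E}
  {l : OE E} {t : E →ₗ[ℚ_[2]] ℚ_[2]} {L₀ : Submodule (OE E) (Fin n → E)}
  {U N : Type w} [AddCommGroup U] [Module (OE E) U] [Finite U] [AddCommGroup N] [Module (OE E) N]
  [Finite N]
  {aU : AbsGal K → U → U} {bU : U →+ U →+ A0} {aN : AbsGal K → N → N} {hN : N →+ N →+ A0}
  {Φ : MN L₀ l 1 ≃ₗ[OE E] U × N × N} {C : U → U}
  {L : Submodule E (stabD (K := K) (P 2) → Fin n → E)}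

theorem locFS_pD (I : Inst.{u, w} s c κ D T P N₀ iv ivF tr) (h : Ari s c κ D T P N₀)
    (hρ : Gn.ConjDual 2 N₀ (inT K T) (Parity.cyclo E) κ ρ b) (hl : Lat b l t L₀)
    (hst : ∀ g, ∀ x ∈ L₀, ρ g *ᵥ x ∈ L₀)
    (hs : SplS (OE E) (actN l 1 (fun g => ρ g) hst) (bN hl 1) aU bU aN hN Φ)
    (hC : InvC κ (OE E) aU bU C) (hn : Even n)
    (hL : L ≤ Parity.cocycles (fun σ : stabD (K := K) (P 2) => ρ σ))
    (hL0 : Parity.coboundaries (fun σ : stabD (K := K) (P 2) => ρ σ) ≤ L) {p : T} (hp : (p : ℕ) ∣ D)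
    (hun : Parity.SemistableOn ((P p).inertia (AbsGal K)) ρ) :
    LocFS c κ P N₀ ivF aU bU aN hN Φ C (some (some p)) (famL c κ T P N₀ ρ b h.h2 L (some (some p)))
      (Parity.quotDim (stabD (P p)) ((P p).inertia (AbsGal K)) ρ) :=
  locS_pDE I h hρ hl hst hs hn hL hL0 hp hun

end Pool.Agent.Work.MP_787500_nt.KJ
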