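import Mathlib
import Pool.Agent.Work.MP_787500_nt.KJ.Fam
import Pool.Agent.Work.MP_787500_nt.ER.Fam
import Pool.Agent.Work.MP_787500_nt.KJ.InrF

/-!
# Block KJ: THE CONTRIBUTION OF THE INERT PRIMES (shape used by KJ/Main)
-/

set_option autoImplicit false
set_option linter.unusedSectionVars false

namespace Pool.Agent.Work.MP_787500_nt.KJ

open Matrix NumberField
open Pool.Agent.Work.MP_787500_nt.GP (A0 OE MN actN bN Lat inT stabD)
open Pool.Agent.Work.MP_787500_nt.HP (IsQ Spl IsP inr stb cyQ)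
open Pool.Agent.Work.MP_787500_nt.KS (iK)
open Pool.Agent.Work.MP_787500_nt.QP (InvC)
open Pool.Agent.Work.MP_787500_nt.QU (Inst)
open Pool.Agent.Work.MP_787500_nt.QW (famL Ari)
open Pool.Agent.Work.MP_787500_nt.RC (SplS)

universe u w

section one

variable {O : Type*} [CommRing O] [IsLocalRing O] [Finite (IsLocalRing.ResidueField O)]
  {V : Type*} [AddCommGroup V] [Module O V] [Finite V]

/-- linear maps of a module of length 1 commute -/
private theorem comm_one (hV : Nat.card V = Nat.card (IsLocalRing.ResidueField O)) {f g : V → V}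
    (hf : ∀ (a : O) v, f (a • v) = a • f v) (hg : ∀ (a : O) v, g (a • v) = a • g v) (v : V) :
    f (g v) = g (f v) := by
  have q1 : 1 < Nat.card (IsLocalRing.ResidueField O) := Finite.one_lt_card
  have hnt : Nontrivial V := by
    rw [← Finite.one_lt_card_iff_nontrivial, hV]
    exact q1
  obtain ⟨y, hy⟩ := exists_ne (0 : V)
  have key : ∀ v : V, ∃ a : O, v = a • y := by
    obtain ⟨i, hi⟩ := GP.card_pow (O := O) (Submodule.span O {y})
    have h1 : Nontrivial (Submodule.span O {y}) :=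
      ⟨⟨⟨y, Submodule.mem_span_singleton_self y⟩, 0, fun h => hy (congrArg Subtype.val h)⟩⟩
    have h2 : 1 < Nat.card (Submodule.span O {y}) := Finite.one_lt_card
    have h3 : Nat.card (Submodule.span O {y}) ≤ Nat.card V :=
      Nat.card_le_card_of_injective _ Subtype.val_injective
    have h4 : i = 1 := by
      rw [hi] at h2 h3
      rw [hV] at h3
      have h5 : i ≤ 1 := (Nat.pow_le_pow_iff_right q1).1 (by rwa [pow_one])
      have h6 : i ≠ 0 := by
        rintro rfl
        rw [pow_zero] at h2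
        exact absurd h2 (lt_irrefl 1)
      omega
    rw [h4, pow_one, ← hV] at hi
    intro v
    have h7 : (Submodule.span O {y}).toAddSubgroup = ⊤ :=
      AddSubgroup.eq_top_of_card_eq _ hi
    have h8 : v ∈ (Submodule.span O {y}).toAddSubgroup := by
      rw [h7]
      exact AddSubgroup.mem_top v
    obtain ⟨a, ha⟩ := Submodule.mem_span_singleton.1 h8
    exact ⟨a, ha.symm⟩
  obtain ⟨a, rfl⟩ := key v
  obtain ⟨x, hx⟩ := key (f y)
  obtain ⟨z, hz⟩ := key (g y)
  rw [hg, hf, hf, hg, hx, hz, hf, hg, hx, hz, smul_comm z x y]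

end one

variable {K : Type u} [Field K] [NumberField K] {D : ℕ} {s : K}
  {c : AlgebraicClosure K ≃+* AlgebraicClosure K} {κ : AbsGal K →* AbsGal K} {T : Finset ℕ}
  {P : ℕ → Ideal (𝓞 (AlgebraicClosure K))} {N₀ : Subgroup (AbsGal K)}
  {iv ivF : ∀ w : Option T, (stb (HP.PP P w) → stb (HP.PP P w) → A0) → A0}
  {tr : (((AlgebraicClosure K ≃+* AlgebraicClosure K) → (AlgebraicClosure K ≃+* AlgebraicClosure K) →
      (AlgebraicClosure K ≃+* AlgebraicClosure K) → A0) ×
      (∀ i : Option (Option T), GA.HQ c P i → GA.HQ c P i → A0)) →+ A0}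
  {E : Type w} [NormedField E] [NormedAlgebra ℚ_[2] E] [FiniteDimensional ℚ_[2] E]
  [IsLocalRing (OE E)] [Finite (IsLocalRing.ResidueField (OE E))]
  [CharP (IsLocalRing.ResidueField (OE E)) 2] [Algebra (ZMod 2) (IsLocalRing.ResidueField (OE E))]
  {n : ℕ} {ρ : AbsGal K →* Matrix (Fin n) (Fin n) E} {b : Matrix (Fin n) (Fin n) E}
  {l : OE E} {t : E →ₗ[ℚ_[2]] ℚ_[2]} {L₀ : Submodule (OE E) (Fin n → E)}
  {U N : Type w} [AddCommGroup U] [Module (OE E) U] [Finite U] [AddCommGroup N] [Module (OE E) N]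
  [Finite N]
  {aU : AbsGal K → U → U} {bU : U →+ U →+ A0} {aN : AbsGal K → N → N} {hN : N →+ N →+ A0}
  {Φ : MN L₀ l 1 ≃ₗ[OE E] U × N × N} {C : U → U}
  {L : Submodule E (stabD (K := K) (P 2) → Fin n → E)}

theorem locFS_inert (I : Inst.{u, w} s c κ D T P N₀ iv ivF tr) (h : Ari s c κ D T P N₀)
    (hρ : Gn.ConjDual 2 N₀ (inT K T) (Parity.cyclo E) κ ρ b) (hl : Lat b l t L₀)
    (hst : ∀ g, ∀ x ∈ L₀, ρ g *ᵥ x ∈ L₀)
    (hs : SplS (OE E) (actN l 1 (fun g => ρ g) hst) (bN hl 1) aU bU aN hN Φ)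
    (hC : InvC κ (OE E) aU bU C) (hn : Even n)
    (hL : L ≤ Parity.cocycles (fun σ : stabD (K := K) (P 2) => ρ σ))
    (hL0 : Parity.coboundaries (fun σ : stabD (K := K) (P 2) => ρ σ) ≤ L) {p : T} (hp : GA.Inr D p)
    (hcn : Parity.CommOn ((P p).inertia (AbsGal K)) ρ ∨ n = 2) :
    LocFS c κ P N₀ ivF aU bU aN hN Φ C (some (some p)) (famL c κ T P N₀ ρ b h.h2 L (some (some p)))
      (Parity.condExp ((P p).inertia (AbsGal K)) ρ) := by
  classical
  refine locFS_inr I h hρ hl hst hs hC hL hL0 hp fun m iS Lc A hc a σ τ τ' hT hτ' hodd => ?_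
  have hfin : Finite (MN L₀ l 1) := GP.MN_finite hl 1
  have hsd := sdual_M I h hρ hl hst
  have hU := sdualU hs hsd
  have hN' := sdualN hs hsd
  have q1 : 1 < Nat.card (IsLocalRing.ResidueField (OE E)) := Finite.one_lt_card
  have hsm : KR.Smooth (KR.big (KR.fullC (stb (P p))) ((N₀.map (iK K)).subgroupOf (stb (P p))))
      (KT.act (A.comp (stb (P p)).subtype : stb (P p) → Matrix (Fin m) (Fin m)
        (IsLocalRing.ResidueField (OE E)))) := (KI.plQ I (some (some p))).smA hc hU.sm
  -- the dimensions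
  obtain ⟨j, hj⟩ := GP.card_pow (O := OE E) N
  have hnm : n = m + 2 * j := by
    have h1 : Nat.card (MN L₀ l 1) = Nat.card U * (Nat.card N * Nat.card N) := by
      rw [Nat.card_congr Φ.toEquiv, Nat.card_prod, Nat.card_prod]
    rw [KR.card_MN hl 1, one_mul, hj,
      KI.card_of_iso (F := IsLocalRing.ResidueField (OE E)) (Nat.card_congr Lc.toEquiv), ← pow_add,
      ← pow_add] at h1
    have h2 := Nat.pow_right_injective q1 h1
    have h3 : n = m + (j + j) := h2
    omega
  have hle : ∀ g' : stb (P p), g' ∈ (inr (P p)).subgroupOf (stb (P p)) →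
      ∃ g, iK K g = (g' : AlgebraicClosure K ≃+* AlgebraicClosure K) ∧
        g ∈ (P p).inertia (AbsGal K) := by
    intro g' hg'
    obtain ⟨g, hg⟩ := I.le_inr hp.2.2.1 hg'
    exact ⟨g, hg, (QG.inr_iff (c := c) p).1 ⟨g', hg', hg⟩⟩
  -- commuting matrices on `U`
  have hAU : (∀ g ∈ (inr (P p)).subgroupOf (stb (P p)), ∀ k ∈ (inr (P p)).subgroupOf (stb (P p)),
      A.comp (stb (P p)).subtype g * A.comp (stb (P p)).subtype k =
        A.comp (stb (P p)).subtype k * A.comp (stb (P p)).subtype g) ↔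
      ∀ g ∈ (P p).inertia (AbsGal K), ∀ k ∈ (P p).inertia (AbsGal K), ∀ y : U,
        aU (g * k) y = aU (k * g) y := by
    constructor
    · intro hcom g hg k hk y
      have hg' : iK K g ∈ inr (P p) := QW.emb_refl_inr.2 hg
      have hk' : iK K k ∈ inr (P p) := QW.emb_refl_inr.2 hk
      have h1 := hcom ⟨iK K g, HP.inr_le_stb _ hg'⟩ hg' ⟨iK K k, HP.inr_le_stb _ hk'⟩ hk'
      change A (iK K g) * A (iK K k) = A (iK K k) * A (iK K g) at h1
      apply Lc.injective
      rw [← hc.ae, ← hc.ae, map_mul, map_mul, map_mul, map_mul, h1]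
    · intro hcom g' hg' k' hk'
      obtain ⟨g, hg, hg1⟩ := hle g' hg'
      obtain ⟨k, hk, hk1⟩ := hle k' hk'
      have h4 : A (iK K (g * k)) = A (iK K (k * g)) := by
        apply Matrix.toLin'.injective
        refine LinearMap.ext fun x => ?_
        rw [Matrix.toLin'_apply, Matrix.toLin'_apply]
        obtain ⟨y, rfl⟩ := Lc.surjective x
        rw [hc.ae, hc.ae, hcom g hg1 k hk1]
      rw [map_mul, map_mul, map_mul, map_mul, hg, hk] at h4
      exact h4
  have h2 : Module.finrank E (EV.VI (iK K) (stb (P p)).subtype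
      ((inr (P p)).subgroupOf (stb (P p))) (fun g => ρ g)) =
      Module.finrank E (Parity.fixedBy (fun σ : (P p).inertia (AbsGal K) => ρ σ)) := by
    have h3 := QG.VI_eq (c := c) (P := P) p (fun g => ρ g)
    exact congrArg (fun W : Submodule E (Fin n → E) => Module.finrank E W) h3
  have h4 : Module.finrank E (Parity.fixedBy (fun σ : (P p).inertia (AbsGal K) => ρ σ)) ≤ n := by
    have h5 := GP.finrank_cob (fun σ : (P p).inertia (AbsGal K) => ρ σ)
    omega
  have h6 : Module.finrank (IsLocalRing.ResidueField (OE E))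
      (KT.fixv (A.comp (stb (P p)).subtype τ')) =
    Module.finrank (IsLocalRing.ResidueField (OE E))
      (KT.fixv (A (τ' : AlgebraicClosure K ≃+* AlgebraicClosure K))) := rfl
  rw [h2]
  unfold Parity.condExp
  by_cases hcm : Parity.CommOn ((P p).inertia (AbsGal K)) ρ
  · have h7 := hAU.2 fun g hg k hk y => comm_U hl hs (by
      rw [map_mul, map_mul]
      exact hcm g hg k hk) y
    have h1 := KI.fix_par (A := A.comp (stb (P p)).subtype) hT hsm (fun g => hc.sp _) (Or.inl h7)
      hτ' hodd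
    rw [if_pos h7, h6] at h1
    rw [if_pos hcm]
    obtain ⟨a₁, ha₁⟩ := h1
    obtain ⟨a₂, ha₂⟩ := hn
    refine ⟨a₁ + a₂, ?_⟩
    omega
  · have hn2 : n = 2 := hcn.resolve_left hcm
    have hlev : ¬ ∀ g ∈ (P p).inertia (AbsGal K), ∀ k ∈ (P p).inertia (AbsGal K), ∀ m : MN L₀ l 1,
        actN l 1 (fun g => ρ g) hst (g * k) m = actN l 1 (fun g => ρ g) hst (k * g) m :=
      fun h7 => hcm (comm_of_lev I h hρ hl hst hT h7)
    have hj0 : j = 0 := by
      by_contra hj1
      have hj2 : j = 1 := by omega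
      have hm0 : m = 0 := by omega
      have hU0 : Subsingleton U := by
        subst hm0
        exact Lc.toEquiv.subsingleton
      rw [hj2, pow_one] at hj
      refine hlev fun g hg k hk y => ?_
      apply Φ.injective
      rw [hs.act, hs.act]
      have h8 : ∀ y : N, aN (g * k) y = aN (k * g) y := fun y => by
        rw [hN'.act.mul, hN'.act.mul]
        exact comm_one (O := OE E) hj (fun a v => hN'.lin g a v) (fun a v => hN'.lin k a v) y
      rw [h8, h8, Subsingleton.elim (aU (g * k) (Φ y).1) (aU (k * g) (Φ y).1)]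
    have hm2 : m = 2 := by omega
    have hN0 : Subsingleton N := by
      rw [hj0, pow_zero] at hj
      exact (Nat.card_eq_one_iff_unique.1 hj).1
    have h7 : ¬ ∀ g ∈ (inr (P p)).subgroupOf (stb (P p)), ∀ k ∈ (inr (P p)).subgroupOf (stb (P p)),
        A.comp (stb (P p)).subtype g * A.comp (stb (P p)).subtype k =
          A.comp (stb (P p)).subtype k * A.comp (stb (P p)).subtype g := by
      intro h8
      have h9 := hAU.1 h8
      refine hlev fun g hg k hk y => ?_
      apply Φ.injective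
      rw [hs.act, hs.act, h9 g hg k hk, Subsingleton.elim (aN (g * k) (Φ y).2.1) (aN (k * g) (Φ y).2.1),
        Subsingleton.elim (aN (g * k) (Φ y).2.2) (aN (k * g) (Φ y).2.2)]
    have h1 := KI.fix_par (A := A.comp (stb (P p)).subtype) hT hsm (fun g => hc.sp _) (Or.inr hm2)
      hτ' hodd
    rw [if_neg h7, h6] at h1
    rw [if_neg hcm]
    obtain ⟨a₁, ha₁⟩ := h1
    obtain ⟨a₂, ha₂⟩ := hn
    refine ⟨a₁ + a₂, ?_⟩
    omega

end Pool.Agent.Work.MP_787500_nt.KJ
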