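import Mathlib
import Pool.Agent.Work.MP_787500_nt.RB.ExtSelf

/-!
# KJ/FinSP: the converse of `RB.selfPerp_fin`

Copy of the section `descent` of UV/GrN.lean (there private).
-/

set_option autoImplicit false
set_option linter.unusedSectionVars false

namespace Pool.Agent.Work.MP_787500_nt.KJ

open Matrix NumberField
open Pool.Agent.Work.MP_787500_nt.PA (toE cyc)

section descent

open Module
open Pool.Agent.Work.MP_787500_nt.RB (FinExt)
open Pool.Agent.Work.MP_787500_nt.LX (mapRep mapRep_apply map_toE)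

variable {E E' : Type*} [NormedField E] [NormedAlgebra ℚ_[2] E] [FiniteDimensional ℚ_[2] E]
  [NormedField E'] [NormedAlgebra ℚ_[2] E'] [FiniteDimensional ℚ_[2] E'] {ι : E →ₐ[ℚ_[2]] E'}
  {d : ℕ} {β : Fin d → E'} {n : ℕ} {G : Type*} [Group G] [TopologicalSpace G]

private theorem co_ext (h : FinExt ι β) {z w : E'} (e : ∀ j, h.co z j = h.co w j) : z = w := by
  rw [h.co_spec z, h.co_spec w]
  exact Finset.sum_congr rfl fun j _ => by rw [e j]

private theorem co_sub (h : FinExt ι β) (z w : E') (j : Fin d) :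
    h.co (z - w) j = h.co z j - h.co w j := by
  have h1 := h.co_add (z - w) w j
  rw [sub_add_cancel] at h1
  rw [h1, add_sub_cancel_right]

private theorem co_mulVec (h : FinExt ι β) (A : Matrix (Fin n) (Fin n) E) (z : Fin n → E')
    (j : Fin d) : (fun i => h.co ((A.map ι *ᵥ z) i) j) = A *ᵥ fun i => h.co (z i) j := by
  funext i
  show h.co (∑ k, (A.map ι) i k * z k) j = ∑ k, A i k * h.co (z k) j
  rw [h.co_sum]
  exact Finset.sum_congr rfl fun k _ => h.co_smul _ _ _

private theorem co_act (h : FinExt ι β) (A : Matrix (Fin n) (Fin n) E) (x v : Fin n → E')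
    (j : Fin d) : (fun i => h.co ((x - (A.map ι *ᵥ v - v)) i) j) =
      (fun i => h.co (x i) j) - (A *ᵥ (fun i => h.co (v i) j) - fun i => h.co (v i) j) := by
  rw [← co_mulVec h A v j]
  funext i
  simp only [Pi.sub_apply, co_sub h]

private theorem co_dot (h : FinExt ι β) (x w : Fin n → E') : x ⬝ᵥ w = ∑ j, ∑ k, β j * β k *
    ι ((fun i => h.co (x i) j) ⬝ᵥ fun i => h.co (w i) k) := by
  have e3 : ∀ i, x i * w i = ∑ j, ∑ k, β j * β k * ι (h.co (x i) j * h.co (w i) k) := by
    intro i
    conv_lhs => rw [h.co_spec (x i), h.co_spec (w i)]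
    rw [Finset.sum_mul_sum]
    refine Finset.sum_congr rfl fun j _ => Finset.sum_congr rfl fun k _ => ?_
    rw [map_mul]
    ring
  show ∑ i, x i * w i = _
  rw [Finset.sum_congr rfl fun i _ => e3 i, Finset.sum_comm]
  refine Finset.sum_congr rfl fun j _ => ?_
  rw [Finset.sum_comm]
  refine Finset.sum_congr rfl fun k _ => ?_
  rw [← Finset.mul_sum, ← map_sum]
  rfl

private theorem co_dot' (h : FinExt ι β) (x : Fin n → E) (w : Fin n → E') (j : Fin d) :
    h.co ((fun i => ι (x i)) ⬝ᵥ w) j = x ⬝ᵥ fun i => h.co (w i) j := by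
  show h.co (∑ i, ι (x i) * w i) j = ∑ i, x i * h.co (w i) j
  rw [h.co_sum]
  exact Finset.sum_congr rfl fun i _ => h.co_smul _ _ _

private theorem cobM_iff (h : FinExt ι β) {X : Type*} (A : X → Matrix (Fin n) (Fin n) E)
    (W : Submodule E (Fin n → E)) (z : X → Fin n → E') :
    (∃ v : Fin n → E', ∀ t, z t - ((A t).map ι *ᵥ v - v) ∈ h.extV W) ↔
      ∀ j, ∃ v, ∀ t, (fun i => h.co (z t i) j) - (A t *ᵥ v - v) ∈ W := by
  constructor
  · rintro ⟨v, hv⟩ j
    refine ⟨fun i => h.co (v i) j, fun t => ?_⟩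
    have h1 := hv t j
    rw [co_act h] at h1
    exact h1
  · intro hv
    choose v hv using hv
    obtain ⟨w, hw⟩ : ∃ w : Fin n → E', w = fun i => ∑ j, ι (v j i) * β j := ⟨_, rfl⟩
    have h2 : ∀ j, (fun i => h.co (w i) j) = v j := by
      intro j
      funext i
      have h3 : w i = ∑ j, ι ((fun j => v j i) j) * β j := by rw [hw]
      exact congrFun (h.co_eq h3) j
    refine ⟨w, fun t j => ?_⟩
    rw [co_act h, h2]
    exact hv j t

private theorem cob_iff (h : FinExt ι β) {X : Type*} (A : X → Matrix (Fin n) (Fin n) E)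
    (z : X → Fin n → E') : (∃ v : Fin n → E', ∀ t, z t = (A t).map ι *ᵥ v - v) ↔
      ∀ j, ∃ v, ∀ t, (fun i => h.co (z t i) j) = A t *ᵥ v - v := by
  have h1 := cobM_iff h A ⊥ z
  have h2 : ∀ z : Fin n → E', z ∈ h.extV (⊥ : Submodule E (Fin n → E)) ↔ z = 0 := by
    intro z
    constructor
    · intro hz
      funext i
      refine co_ext h fun j => ?_
      rw [Pi.zero_apply, h.co_zero]
      exact congrFun ((Submodule.mem_bot E).1 (hz j)) i
    · rintro rfl
      exact Submodule.zero_mem _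
  simp only [h2, Submodule.mem_bot, sub_eq_zero] at h1
  exact h1

private theorem cont_of (h : FinExt ι β) {X : Type*} [TopologicalSpace X] {z : X → Fin n → E'}
    (hz : ∀ j, Continuous fun t i => h.co (z t i) j) : Continuous z := by
  have hι : Continuous ι := ι.toLinearMap.continuous_of_finiteDimensional
  refine continuous_pi fun i => ?_
  have e1 : (fun t => z t i) = fun t => ∑ j, ι (h.co (z t i) j) * β j :=
    funext fun t => h.co_spec _
  rw [e1]
  exact continuous_finsetSum _ fun j _ =>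
    (hι.comp ((continuous_apply i).comp (hz j))).mul continuous_const

private theorem coc_iff (h : FinExt ι β) {X : Type*} [Group X] [TopologicalSpace X]
    (A : X → Matrix (Fin n) (Fin n) E) (z : X → Fin n → E') :
    Parity.IsCocycle (fun t => (A t).map ι) z ↔
      ∀ j, Parity.IsCocycle A (fun t i => h.co (z t i) j) := by
  constructor
  · rintro ⟨hc, hz⟩ j
    refine ⟨continuous_pi fun i => (h.cont j).comp ((continuous_apply i).comp hc), fun s t => ?_⟩
    rw [← co_mulVec h (A s) (z t) j]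
    funext i
    show h.co (z (s * t) i) j = h.co (z s i) j + h.co (((A s).map ι *ᵥ z t) i) j
    rw [hz s t]
    exact h.co_add _ _ _
  · intro hz
    refine ⟨cont_of h fun j => (hz j).1, fun s t => ?_⟩
    funext i
    refine co_ext h fun j => ?_
    have h1 := congrFun ((hz j).2 s t) i
    rw [← co_mulVec h (A s) (z t) j] at h1
    rw [Pi.add_apply, h.co_add]
    exact h1

private theorem perp_iff (h : FinExt ι β) {X : Type*} [Group X] [TopologicalSpace X]
    {χ : X → ℤ_[2]} (B : X → Matrix (Fin n) (Fin n) E) (b : Matrix (Fin n) (Fin n) E)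
    (L : Submodule E (X → Fin n → E)) (y : X → Fin n → E') :
    Parity.IsPerp (fun t => toE E' (χ t)) (fun t => (B t).map ι) (b.map ι) (h.ext L) y ↔
      ∀ j, Parity.IsPerp (fun t => toE E (χ t)) B b L (fun t i => h.co (y t i) j) := by
  have hι : Continuous ι := ι.toLinearMap.continuous_of_finiteDimensional
  have key : ∀ (s t : X) (j : Fin d), (fun i => h.co ((b.map ι *ᵥ ((B s).map ι *ᵥ y t)) i) j) =
      b *ᵥ (B s *ᵥ fun i => h.co (y t i) j) := by
    intro s t j
    rw [co_mulVec h b, co_mulVec h (B s)]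
  constructor
  · rintro ⟨hc, hz⟩ j
    refine ⟨(coc_iff h B y).1 hc j, fun v hv => ?_⟩
    have h1 : (fun (t : X) i => ι (v t i)) ∈ h.ext L := by
      intro k
      have e1 : (fun (t : X) i => h.co (ι (v t i)) k) = h.co 1 k • v := by
        funext t i
        have e2 := h.co_smul (v t i) 1 k
        rw [mul_one] at e2
        rw [e2, mul_comm]
        rfl
      rw [e1]
      exact L.smul_mem _ hv
    obtain ⟨z, hzc, hz'⟩ := hz _ h1
    refine ⟨fun t => h.co (z t) j, (h.cont j).comp hzc, fun s t => ?_⟩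
    have h2 := congrArg (fun w => h.co w j) (hz' s t)
    beta_reduce at h2
    rw [co_dot' h, key, co_sub h, h.co_add, ← map_toE ι, h.co_smul] at h2
    exact h2
  · intro hy
    refine ⟨(coc_iff h B y).2 fun j => (hy j).1, fun v' hv' => ?_⟩
    have h1 : ∀ k j, ∃ z : X → E, Continuous z ∧ ∀ s t, (fun i => h.co (v' s i) k) ⬝ᵥ
        (b *ᵥ (B s *ᵥ fun i => h.co (y t i) j)) = z s + toE E (χ s) * z t - z (s * t) :=
      fun k j => (hy j).2 _ (hv' k)
    choose z hzc hz using h1
    refine ⟨fun t => ∑ k, ∑ j, β k * β j * ι (z k j t), ?_, fun s t => ?_⟩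
    · exact continuous_finsetSum _ fun k _ => continuous_finsetSum _ fun j _ =>
        continuous_const.mul (hι.comp (hzc k j))
    · rw [co_dot h]
      simp only [key, hz]
      rw [← map_toE ι, Finset.mul_sum, ← Finset.sum_add_distrib, ← Finset.sum_sub_distrib]
      refine Finset.sum_congr rfl fun k _ => ?_
      rw [Finset.mul_sum, ← Finset.sum_add_distrib, ← Finset.sum_sub_distrib]
      refine Finset.sum_congr rfl fun j _ => ?_
      simp only [map_add, map_sub, map_mul]
      ring

private theorem cobs_fin (h : FinExt ι β) {X : Type*} (A : X → Matrix (Fin n) (Fin n) E) :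
    Parity.coboundaries (fun t => (A t).map ι) = h.ext (Parity.coboundaries A) := by
  ext z
  exact cob_iff h A z

private theorem cocs_fin (h : FinExt ι β) {X : Type*} [Group X] [TopologicalSpace X]
    (A : X → Matrix (Fin n) (Fin n) E) :
    Parity.cocycles (fun t => (A t).map ι) = h.ext (Parity.cocycles A) := by
  ext z
  exact coc_iff h A z

/-- the converse of `RB.selfPerp_fin` -/
theorem selfPerp_of_fin (h : FinExt ι β) {χ : G → ℤ_[2]} {κ : G → G}
    {ρ : G →* Matrix (Fin n) (Fin n) E} {b A : Matrix (Fin n) (Fin n) E} {D : Subgroup G}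
    {k : D → D} {L : Submodule E (D → Fin n → E)}
    (hL : Parity.IsSelfPerp (fun g => toE E' (χ g)) κ (mapRep ι ρ) (b.map ι) D (A.map ι) k
      (h.ext L)) :
    Parity.IsSelfPerp (fun g => toE E (χ g)) κ ρ b D A k L := by
  have hne : ∃ j : Fin d, True := by
    by_contra hcon
    have h1 : ∀ z : E', z = 0 := fun z => co_ext h fun j => (hcon ⟨j, trivial⟩).elim
    exact one_ne_zero (h1 1)
  obtain ⟨j₀, -⟩ := hne
  have c1 : Parity.coboundaries (fun σ : D => mapRep ι ρ σ) =
      h.ext (Parity.coboundaries fun σ : D => ρ σ) := cobs_fin h fun σ : D => ρ σ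
  have c2 : Parity.cocycles (fun σ : D => mapRep ι ρ σ) =
      h.ext (Parity.cocycles fun σ : D => ρ σ) := cocs_fin h fun σ : D => ρ σ
  have hle : ∀ W W' : Submodule E (D → Fin n → E), h.ext W ≤ h.ext W' → W ≤ W' := by
    intro W W' hWW x hx
    exact (h.ext_iff _ fun _ => x).1 (hWW ((h.ext_iff _ fun _ => x).2 fun _ => hx)) j₀
  obtain ⟨hL1, hL2⟩ := hL
  rw [c1, c2] at hL1
  refine ⟨⟨hle _ _ hL1.1, hle _ _ hL1.2⟩, fun y hy => ?_⟩
  obtain ⟨z, hz⟩ : ∃ z : D → Fin n → E', z = fun t i => ∑ j, ι ((fun _ : Fin d => y) j t i) * β j :=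
    ⟨_, rfl⟩
  have hco : ∀ t i j, h.co (z t i) j = y t i := by
    intro t i j
    have h3 : z t i = ∑ j, ι ((fun _ : Fin d => y t i) j) * β j := by rw [hz]
    exact congrFun (h.co_eq h3) j
  have hzc : z ∈ Parity.cocycles (fun σ : D => mapRep ι ρ σ) := by
    rw [c2, hz]
    exact (h.ext_iff _ fun _ => y).2 fun _ => hy
  have h4 := hL2 z hzc
  have h5 : z ∈ h.ext L ↔ y ∈ L := by
    rw [hz]
    exact (h.ext_iff _ fun _ => y).trans ⟨fun h6 => h6 j₀, fun h6 _ => h6⟩
  have e1 : ∀ j, (fun (σ : D) i => h.co ((A.map ι *ᵥ z (k σ)) i) j) =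
      fun σ : D => A *ᵥ y (k σ) := fun j => funext fun σ => by
    rw [co_mulVec h A (z (k σ)) j]
    congr 1
    funext i
    exact hco _ _ _
  have e2 := perp_iff h (χ := fun σ : D => χ σ) (fun σ : D => ρ (κ σ)) b L
    (fun σ : D => A.map ι *ᵥ z (k σ))
  rw [← h5, h4]
  refine e2.trans ?_
  constructor
  · intro h6
    have h7 := h6 j₀
    rw [e1] at h7
    exact h7
  · intro h6 j
    rw [e1]
    exact h6

end descent

end Pool.Agent.Work.MP_787500_nt.KJ
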