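import Mathlib
import Pool.Agent.Work.MP_787500_nt.KJ.Fam
import Pool.Agent.Work.MP_787500_nt.QX.Lev

/-!
# KJ/XLev: THE LEVEL ONE `U × N × N` of the arithmetic family for an arbitrary imaginary quadratic field

* `sdual_MX`, `even_UX`, `num_UN`: the module of level 1, the dimensions.
* `locXS_inf`: infinity; `locXS_spl`: the odd primes that split.
* `hP_XS`: THE HYPOTHESIS `hP` of `QX.parity_X` from the contributions of the place 2 and the places of `T`.
-/

set_option autoImplicit false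
set_option linter.unusedSectionVars false

namespace Pool.Agent.Work.MP_787500_nt.KJ

open Matrix NumberField
open Pool.Agent.Work.MP_787500_nt.GP (A0 OE bil Lat inT stabD EvPow actN lamN MN bN mq Wq actQ IsAct)
open Pool.Agent.Work.MP_787500_nt.KR (FSys IsChar ZV zV LocRep LocD fullC fullD fullK fullQ big SDualF
  sdualF_MN)
open Pool.Agent.Work.MP_787500_nt.PA (toE cyc)
open Pool.Agent.Work.MP_787500_nt.HP (IsQ Spl IsP inr stb cyQ)
open Pool.Agent.Work.MP_787500_nt.KS (iK ep)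
open Pool.Agent.Work.MP_787500_nt.QS (Two Lag ac2 be2 la2 prY)
open Pool.Agent.Work.MP_787500_nt.QV (rho2 selNQ QRep T2 J2 blk beN laN isoN iso_one iso_two)
open Pool.Agent.Work.MP_787500_nt.QU (urV)
open Pool.Agent.Work.MP_787500_nt.QW (sysQ eSt eSt_symm)
open Pool.Agent.Work.MP_787500_nt.GA (HQ SQ jQ iQ)
open Pool.Agent.Work.MP_787500_nt.QP (InvC)
open Pool.Agent.Work.MP_787500_nt.KI (YM mem_YM lag_YM exists_crd_res card_of_iso evPow_cancel jS jS_e
  finrank_odd cnt_tame)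
open Pool.Agent.Work.MP_787500_nt.RC (SplS)
open Pool.Agent.Work.MP_787500_nt.QX (InX famX chi chic sq_c lag_X lag_odd jS_contX famX_lag)

universe u w

variable {K : Type u} [Field K] [NumberField K]
  {c : AlgebraicClosure K ≃+* AlgebraicClosure K} {κ : AbsGal K →* AbsGal K} {T : Finset ℕ}
  {P : ℕ → Ideal (𝓞 (AlgebraicClosure K))} {N₀ : Subgroup (AbsGal K)}
  {iv ivF : ∀ w : Option T, (stb (HP.PP P w) → stb (HP.PP P w) → A0) → A0}
  {tr : (((AlgebraicClosure K ≃+* AlgebraicClosure K) → (AlgebraicClosure K ≃+* AlgebraicClosure K) →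
      (AlgebraicClosure K ≃+* AlgebraicClosure K) → A0) ×
      (∀ i : Option (Option T), HQ c P i → HQ c P i → A0)) →+ A0}
  {E : Type w} [NormedField E] [NormedAlgebra ℚ_[2] E] [FiniteDimensional ℚ_[2] E]
  [IsLocalRing (OE E)] [Finite (IsLocalRing.ResidueField (OE E))]
  [CharP (IsLocalRing.ResidueField (OE E)) 2] [Algebra (ZMod 2) (IsLocalRing.ResidueField (OE E))]
  {n : ℕ} {ρ : AbsGal K →* Matrix (Fin n) (Fin n) E} {b : Matrix (Fin n) (Fin n) E}
  {l : OE E} {t : E →ₗ[ℚ_[2]] ℚ_[2]} {L₀ : Submodule (OE E) (Fin n → E)}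
  {L₂ : Submodule E (stb (P 2) → Fin (n + n) → E)}
  {U N : Type w} [AddCommGroup U] [Module (OE E) U] [Finite U] [AddCommGroup N] [Module (OE E) N]
  [Finite N]
  {aU : AbsGal K → U → U} {bU : U →+ U →+ A0} {aN : AbsGal K → N → N} {hN : N →+ N →+ A0}
  {Φ : MN L₀ l 1 ≃ₗ[OE E] U × N × N} {C : U → U}

/-- the module of level 1 is self-dual -/
theorem sdual_MX (I : InX.{u, w} c κ T P N₀ iv ivF tr)
    (hρ : Gn.ConjDual 2 N₀ (inT K T) (Parity.cyclo E) κ ρ b) (hl : Lat b l t L₀)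
    (hst : ∀ g, ∀ x ∈ L₀, ρ g *ᵥ x ∈ L₀) :
    SDualF (big (fullK (K := K) T) N₀) cyc κ ∅ (OE E) (actN l 1 (fun g => ρ g) hst) (bN hl 1) :=
  sdualF_MN hl (I.toArX.rep hρ hst) (fun p hp => absurd hp (Set.notMem_empty p)) 1

/-- the dimension of `U` is even -/
theorem even_UX (I : InX.{u, w} c κ T P N₀ iv ivF tr)
    (hρ : Gn.ConjDual 2 N₀ (inT K T) (Parity.cyclo E) κ ρ b) (hl : Lat b l t L₀)
    (hst : ∀ g, ∀ x ∈ L₀, ρ g *ᵥ x ∈ L₀)
    (hs : SplS (OE E) (actN l 1 (fun g => ρ g) hst) (bN hl 1) aU bU aN hN Φ)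
    (hC : InvC κ (OE E) aU bU C) :
    ∃ r, Nat.card U = Nat.card (IsLocalRing.ResidueField (OE E)) ^ (2 * r) := by
  have hsU := sdualU hs (sdual_MX I hρ hl hst)
  have hMU : ∀ a ∈ IsLocalRing.maximalIdeal (OE E), ∀ u : U, a • u = 0 := by
    intro a ha u
    have h1 := congrArg Φ (QF.max_MN hl a ha (Φ.symm (u, 0, 0)))
    rw [map_smul, map_zero, LinearEquiv.apply_symm_apply] at h1
    exact congrArg Prod.fst h1
  obtain ⟨m, iS, L, A, hc⟩ := exists_crd_res I.two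
    (fun g => by
      rw [← chi]
      exact I.glob.glob.char.odd _) hMU hsU hC
  obtain ⟨r, hr⟩ := KT.n_even (IsLocalRing.ResidueField (OE E)) m
  refine ⟨r, ?_⟩
  rw [card_of_iso (F := IsLocalRing.ResidueField (OE E)) (Nat.card_congr L.toEquiv), hr]
  congr 1
  ring

/-- the dimensions -/
theorem num_UN (hl : Lat b l t L₀) (Φ : MN L₀ l 1 ≃ₗ[OE E] U × N × N) {r j : ℕ}
    (hr : Nat.card U = Nat.card (IsLocalRing.ResidueField (OE E)) ^ (2 * r))
    (hj : Nat.card N = Nat.card (IsLocalRing.ResidueField (OE E)) ^ j) : n = 2 * (r + j) := by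
  have h1 : Nat.card (MN L₀ l 1) = Nat.card U * (Nat.card N * Nat.card N) := by
    rw [Nat.card_congr Φ.toEquiv, Nat.card_prod, Nat.card_prod]
  rw [KR.card_MN hl 1, one_mul, hr, hj, ← pow_add, ← pow_add] at h1
  have h2 := Nat.pow_right_injective
    (Finite.one_lt_card : 1 < Nat.card (IsLocalRing.ResidueField (OE E))) h1
  have h3 : n = 2 * r + (j + j) := h2
  omega

/-- THE CONTRIBUTION OF INFINITY. -/
theorem locXS_inf (I : InX.{u, w} c κ T P N₀ iv ivF tr)
    {hρ : Gn.ConjDual 2 N₀ (inT K T) (Parity.cyclo E) κ ρ b} {hl : Lat b l t L₀}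
    {hst : ∀ g, ∀ x ∈ L₀, ρ g *ᵥ x ∈ L₀}
    (hCn : QX.Cnd I.toArX hρ hl hst I.glob.glob.char.mul ivF L₂)
    (hs : SplS (OE E) (actN l 1 (fun g => ρ g) hst) (bN hl 1) aU bU aN hN Φ) {r : ℕ}
    (hr : Nat.card U = Nat.card (IsLocalRing.ResidueField (OE E)) ^ (2 * r)) :
    LocFS c κ P N₀ ivF aU bU aN hN Φ C none (famX c κ T P N₀ ρ L₂ none) r := by
  have hfin : Finite (MN L₀ l 1) := GP.MN_finite hl 1
  exact locS_inf (I.plQ none) (sdual_MX I hρ hl hst) hs I.inf
    (QL.ramI_Q (fun x => sq_c I.two x) fun d hd => absurd hd (Set.notMem_empty d))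
    (lag_X I hCn none) hr

/-- THE CONTRIBUTION OF AN ODD PRIME THAT SPLITS. -/
theorem locXS_spl (I : InX.{u, w} c κ T P N₀ iv ivF tr)
    (hρ : Gn.ConjDual 2 N₀ (inT K T) (Parity.cyclo E) κ ρ b) (hl : Lat b l t L₀)
    (hst : ∀ g, ∀ x ∈ L₀, ρ g *ᵥ x ∈ L₀)
    (hs : SplS (OE E) (actN l 1 (fun g => ρ g) hst) (bN hl 1) aU bU aN hN Φ)
    (hC : InvC κ (OE E) aU bU C) {p : T}
    (hle : stb (P p) ≤ (iK K).range) (L₂ : Submodule E (stb (P 2) → Fin (n + n) → E)) :
    LocFS c κ P N₀ ivF aU bU aN hN Φ C (some (some p))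
      (famX c κ T P N₀ ρ L₂ (some (some p))) 0 := by
  obtain ⟨r, hr⟩ := even_UX I hρ hl hst hs hC
  obtain ⟨j, hj⟩ := GP.card_pow (O := OE E) N
  have hn' := num_UN hl Φ hr hj
  have hj : ∀ d, jQ c P (some (some p)) d = iK K (jS hle d) := jS_e hle
  have hR := QV.locRep_j (j := jS hle) (I.toArX.rep hρ hst) (jS_contX I.toArX (some p) hle)
  have hn := I.norQ
  obtain ⟨hfd, hdim⟩ := finrank_odd (HP.alg_closure K) (I.prime p) (I.odd p) (I.isPrime p) (I.natMem p)
    (inferInstance : ((N₀.map (iK K)).subgroupOf (stb (P p))).Normal) (I.opnL (some p)) hR.one hR.mul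
    hR.sm
  obtain ⟨a, σ, τ, hT⟩ := QL.exists_tameQ_big (HP.alg_closure K) (I.prime p) (I.odd p) (I.isPrime p)
    (I.natMem p) ((N₀.map (iK K)).subgroupOf (stb (P p)))
  exact locS_urS (I.plQ (some (some p))) hj hl (I.toArX.rep hρ hst)
    (I.toArX.qrep hρ hl hst I.glob.glob.char.mul) hs (lag_odd I hρ hl hst 1 p) hfd hdim
    (cnt_tame hT (I.locD (some (some p)))) hn' hr

/-- THE HYPOTHESIS `hP` of `parity_X`, from the contributions at 2 and at the places of `T`. -/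
theorem hP_XS (I : InX.{u, w} c κ T P N₀ iv ivF tr)
    {hρ : Gn.ConjDual 2 N₀ (inT K T) (Parity.cyclo E) κ ρ b} {hl : Lat b l t L₀}
    {hst : ∀ g, ∀ x ∈ L₀, ρ g *ᵥ x ∈ L₀}
    (hCn : QX.Cnd I.toArX hρ hl hst I.glob.glob.char.mul ivF L₂)
    (hs : SplS (OE E) (actN l 1 (fun g => ρ g) hst) (bN hl 1) aU bU aN hN Φ)
    (hC : InvC κ (OE E) aU bU C) {d : ℕ}
    (h2 : ∀ r, Nat.card U = Nat.card (IsLocalRing.ResidueField (OE E)) ^ (2 * r) →
      LocFS c κ P N₀ ivF aU bU aN hN Φ C (some none) (famX c κ T P N₀ ρ L₂ (some none)) (d + r))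
    {δ : T → ℕ} (hT : ∀ p : T, LocFS c κ P N₀ ivF aU bU aN hN Φ C (some (some p))
      (famX c κ T P N₀ ρ L₂ (some (some p))) (δ p)) :
    EvPow (Nat.card (IsLocalRing.ResidueField (OE E)))
      (Nat.card (selNQ (sysQ T N₀) (jQ c P) (rho2 (iK K) c κ fun g => ρ g)
        (famX c κ T P N₀ ρ L₂) (I.toArX.qrep hρ hl hst I.glob.glob.char.mul) 1) *
        Nat.card (IsLocalRing.ResidueField (OE E)) ^ (d + ∑ p, δ p)) := by
  obtain ⟨r, hr⟩ := even_UX I hρ hl hst hs hC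
  let δ' : Option (Option T) → ℕ := fun i => match i with
    | none => r
    | some none => d + r
    | some (some p) => δ p
  have h1 := hP_of_locS (δ := δ') I.glob I.two chi (chic I.two) (fun _ hW => I.up hW)
    (fun _ hW => ⟨_, I.ks hW, fun _ hv => hv⟩) hl
    (I.toArX.rep hρ hst) (I.toArX.qrep hρ hl hst I.glob.glob.char.mul) hs hC
    (L := famX c κ T P N₀ ρ L₂)
    (famX_lag hCn I.glob.glob.char (fun i => I.locD i) 1) (fun i => ?_)
  · have h3 : ∑ i, δ' i = (d + ∑ p, δ p) + 2 * r := by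
      rw [Fintype.sum_option, Fintype.sum_option]
      show r + (d + r + ∑ p, δ p) = _
      ring
    rw [h3] at h1
    exact evPow_cancel Finite.one_lt_card h1
  · match i with
    | none => exact locXS_inf I hCn hs hr
    | some none => exact h2 r hr
    | some (some p) => exact hT p

end Pool.Agent.Work.MP_787500_nt.KJ
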