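import Mathlib
import Pool.Agent.Work.MP_787500_nt.KJ.XLev
import Pool.Agent.Work.MP_787500_nt.KJ.RLoc
import Pool.Agent.Work.MP_787500_nt.AR.LocInS
import Pool.Agent.Work.MP_787500_nt.ER.Fam
import Pool.Agent.Work.MP_787500_nt.QX.LocL

/-!
# KJ/XFam: THE CONTRIBUTIONS for an arbitrary imaginary quadratic field, level one `U × N × N`

* `locXS_inrA`: an inert prime number, with `artK`.
* `locXS_ram`: the ramified primes.
* `locXS_sL`: an arbitrary self-annihilating condition at the place 2 that does not split.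
-/

set_option autoImplicit false
set_option linter.unusedSectionVars false

namespace Pool.Agent.Work.MP_787500_nt.KJ

open Matrix NumberField
open Pool.Agent.Work.MP_787500_nt.GP (A0 OE bil Lat inT stabD EvPow actN lamN MN bN mq Wq actQ IsAct)
open Pool.Agent.Work.MP_787500_nt.KR (FSys IsChar ZV zV LocRep LocD fullC fullD fullK fullQ big SDualF
  sdualF_MN Smooth Z1)
open Pool.Agent.Work.MP_787500_nt.KT (Sy fixv)
open Pool.Agent.Work.MP_787500_nt.PA (toE cyc homs)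
open Pool.Agent.Work.MP_787500_nt.HP (IsQ Spl IsP inr stb cyQ fsys)
open Pool.Agent.Work.MP_787500_nt.KS (iK ep ep_zero)
open Pool.Agent.Work.MP_787500_nt.QS (Two Lag ac2 be2 la2 prY)
open Pool.Agent.Work.MP_787500_nt.QV (LagV rho2 selNQ QRep T2 J2 blk beN laN isoN iso_one iso_two iso_act)
open Pool.Agent.Work.MP_787500_nt.QU (urV)
open Pool.Agent.Work.MP_787500_nt.QW (sysQ)
open Pool.Agent.Work.MP_787500_nt.GA (HQ SQ jQ iQ)
open Pool.Agent.Work.MP_787500_nt.QP (InvC)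
open Pool.Agent.Work.MP_787500_nt.QL (TameF zur zurM mem_zurM mem_zur)
open Pool.Agent.Work.MP_787500_nt.KI (PlQ YM mem_YM lag_YM Crd fixS exists_psi homs_sm1 card_zur_tra rel_card
  siso_iso card_YM exists_crd_res)
open Pool.Agent.Work.MP_787500_nt.QG (inr_iff VI_eq)
open Pool.Agent.Work.MP_787500_nt.RC (SplS)
open Pool.Agent.Work.MP_787500_nt.QX (InX famX chi chic sq_c lag_X lag_odd jS_contX famX_lag ep_homs sL
  lagV_sL lpl sysH sysD coc_H up_H dn_H jj)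
open Pool.Agent.Work.MP_787500_nt.OL (shp)
open Pool.Agent.Work.MP_787500_nt.AR (wildSet artK swanK crdS_even)

universe u v w

section lag

variable {E : Type v} [NormedField E] [NormedAlgebra ℚ_[2] E] [FiniteDimensional ℚ_[2] E]
  [IsLocalRing (OE E)]
  [Finite (IsLocalRing.ResidueField (OE E))] [CharP (IsLocalRing.ResidueField (OE E)) 2]
  [Algebra (ZMod 2) (IsLocalRing.ResidueField (OE E))] {n : ℕ}
  {G Γ : Type*} [Group G] [Group Γ] {e : G →* Γ} {c : Γ} {κ : G →* G}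
  {ρ : G → Matrix (Fin n) (Fin n) E} {S : FSys G} {Sq : FSys Γ} {χ : G → ℤ_[2]} {χq : Γ → ℤ_[2]}
  {l : OE E} {t : E →ₗ[ℚ_[2]] ℚ_[2]} {T : Submodule (OE E) (Fin n → E)}
  {b : Matrix (Fin n) (Fin n) E} {P : Type*} [Group P] {TP : FSys P} {jp : P →* Γ}
  {iv : (P → P → A0) → A0}
  {U N : Type v} [AddCommGroup U] [Module (OE E) U] [Finite U] [AddCommGroup N] [Module (OE E) N]
  [Finite N] {aU : G → U → U} {bU : U →+ U →+ A0} {aN : G → N → N} {hN : N →+ N →+ A0}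
  {Φ : MN T l 1 ≃ₗ[OE E] U × N × N} {C : U → U}

/-- THE CONTRIBUTION OF AN ARBITRARY LAGRANGIAN SUBSPACE. -/
theorem locS_lag (p : PlQ.{v} S Sq χ χq e c κ TP jp iv) (H : LocD.{v} TP (fun d => χq (jp d)) iv)
    (hχq : IsChar Sq χq) (hj : ∀ W, Sq.mem W → ∃ W', TP.mem W' ∧ ∀ w ∈ W', jp w ∈ W)
    (hl : Lat b l t T) (hr : LocRep S χ T b ρ (fun g => ρ (κ g)))
    {Sm J : Matrix (Fin (n + n)) (Fin (n + n)) E}
    (h : QRep Sq χq l t (T2 T) (blk 0 b 0 0) Sm J (rho2 e c κ ρ))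
    (hs : SplS (OE E) (actN l 1 ρ hr.st) (bN hl 1) aU bU aN hN Φ)
    {L L' : Submodule E (P → Fin (n + n) → E)} [FiniteDimensional E L] [FiniteDimensional E L']
    (hL : LagV TP (fun d => χq (jp d)) Sm J (fun d => rho2 e c κ ρ (jp d)) L)
    (hL' : LagV TP (fun d => χq (jp d)) Sm J (fun d => rho2 e c κ ρ (jp d)) L') {δ : ℕ}
    (hloc : LocS TP jp iv e c κ (IsLocalRing.ResidueField (OE E)) aU bU aN hN Φ C (YM T l L) δ) :
    LocS TP jp iv e c κ (IsLocalRing.ResidueField (OE E)) aU bU aN hN Φ C (YM T l L')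
      (δ + (Module.finrank E L + Module.finrank E ↥(L ⊓ L'))) := by
  have hfin : Finite (MN T l 1) := GP.MN_finite hl 1
  have hsd : SDualF S χ κ ∅ (OE E) (actN l 1 ρ hr.st) (bN hl 1) :=
    sdualF_MN hl hr (fun p hp => absurd hp (Set.notMem_empty p)) 1
  have l1 := lag_YM p.two p.chi p.chic p.mul hl hr h (QV.lag_N H h hχq hj hL 1)
  have l2 := lag_YM p.two p.chi p.chic p.mul hl hr h (QV.lag_N H h hχq hj hL' 1)
  refine locS_change p hsd hs l1 l2 ?_ hloc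
  have k := OL.dst_one H h hχq hj hL hL'
  have e1 : OL.dst (YM T l L) (YM T l L') = OL.dst (lamN (T2 T) l 1 L) (lamN (T2 T) l 1 L') :=
    OL.dst_tra (siso_iso T l) _ _
  rw [e1]
  exact k

end lag

variable {K : Type u} [Field K] [NumberField K]
  {c : AlgebraicClosure K ≃+* AlgebraicClosure K} {κ : AbsGal K →* AbsGal K} {T : Finset ℕ}
  {P : ℕ → Ideal (𝓞 (AlgebraicClosure K))} {N₀ : Subgroup (AbsGal K)}
  {iv ivF : ∀ w : Option T, (stb (HP.PP P w) → stb (HP.PP P w) → A0) → A0}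
  {tr : (((AlgebraicClosure K ≃+* AlgebraicClosure K) → (AlgebraicClosure K ≃+* AlgebraicClosure K) →
      (AlgebraicClosure K ≃+* AlgebraicClosure K) → A0) ×
      (∀ i : Option (Option T), HQ c P i → HQ c P i → A0)) →+ A0}
  {E : Type w} [NormedField E] [NormedAlgebra ℚ_[2] E] [FiniteDimensional ℚ_[2] E]
  [IsLocalRing (OE E)] [Finite (IsLocalRing.ResidueField (OE E))]
  [CharP (IsLocalRing.ResidueField (OE E)) 2] [Algebra (ZMod 2) (IsLocalRing.ResidueField (OE E))]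
  {n : ℕ} {ρ : AbsGal K →* Matrix (Fin n) (Fin n) E} {b : Matrix (Fin n) (Fin n) E}
  {l : OE E} {t : E →ₗ[ℚ_[2]] ℚ_[2]} {L₀ : Submodule (OE E) (Fin n → E)}
  {U N : Type w} [AddCommGroup U] [Module (OE E) U] [Finite U] [AddCommGroup N] [Module (OE E) N]
  [Finite N]
  {aU : AbsGal K → U → U} {bU : U →+ U →+ A0} {aN : AbsGal K → N → N} {hN : N →+ N →+ A0}
  {Φ : MN L₀ l 1 ≃ₗ[OE E] U × N × N} {C : U → U}

/-- the contribution of an inert prime number, in terms of the coordinates of `U` -/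
theorem locXS_inr1 (I : InX.{u, w} c κ T P N₀ iv ivF tr)
    (hρ : Gn.ConjDual 2 N₀ (inT K T) (Parity.cyclo E) κ ρ b) (hl : Lat b l t L₀)
    (hst : ∀ g, ∀ x ∈ L₀, ρ g *ᵥ x ∈ L₀)
    (hs : SplS (OE E) (actN l 1 (fun g => ρ g) hst) (bN hl 1) aU bU aN hN Φ)
    (hC : InvC κ (OE E) aU bU C) {p : T}
    (hIr : inr (P p) ≤ (iK K).range) {g₀ : AbsGal K} (hg₀ : iK K g₀ * c ∈ stb (P p))
    (L₂ : Submodule E (stb (P 2) → Fin (n + n) → E)) {δ : ℕ}
    (hδ : ∀ (m : ℕ) (_ : Sy (IsLocalRing.ResidueField (OE E)) m)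
      (Lc : U ≃+ (Fin m → IsLocalRing.ResidueField (OE E)))
      (A : (AlgebraicClosure K ≃+* AlgebraicClosure K) →*
        Matrix (Fin m) (Fin m) (IsLocalRing.ResidueField (OE E))),
      Crd (iK K) c (OE E) aU bU C Lc A →
      ∀ (a : stb (P p) → ℤ_[2]) (σ τ τ' : stb (P p)),
        TameF (fullC (stb (P p))) (fun d : stb (P p) => cyQ (d : AlgebraicClosure K ≃+* AlgebraicClosure K)) a σ τ p
          ((inr (P p)).subgroupOf (stb (P p))) →
        τ' ∈ (inr (P p)).subgroupOf (stb (P p)) → PadicInt.toZMod (a τ') = 1 →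
        Even (Module.finrank (IsLocalRing.ResidueField (OE E)) (fixv (A τ')) +
          Module.finrank (IsLocalRing.ResidueField (OE E))
            (fixS (A.comp (stb (P p)).subtype) ((inr (P p)).subgroupOf (stb (P p)))) +
          Module.finrank E (EV.VI (iK K) (stb (P p)).subtype ((inr (P p)).subgroupOf (stb (P p)))
            (fun g => ρ g)) + δ)) :
    LocFS c κ P N₀ ivF aU bU aN hN Φ C (some (some p)) (famX c κ T P N₀ ρ L₂ (some (some p))) δ := by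
  have hfin : Finite (MN L₀ l 1) := GP.MN_finite hl 1
  have hsd := sdual_MX I hρ hl hst
  have hU := sdualU hs hsd
  have hpl := I.plQ (some (some p))
  have hlag := lag_YM I.two chi (chic I.two) I.glob.glob.char.mul hl (I.toArX.rep hρ hst)
    (I.toArX.qrep hρ hl hst I.glob.glob.char.mul) (lag_odd I hρ hl hst 1 p)
  have hNQ := I.norQ
  have hNn : ((N₀.map (iK K)).subgroupOf (stb (P p))).Normal := inferInstance
  obtain ⟨a, σ, τ, hT0⟩ := QL.exists_tameQ (HP.alg_closure K) (I.prime p) (I.odd p) (I.isPrime p)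
    (I.natMem p)
  have hT := AR.tame_big ((N₀.map (iK K)).subgroupOf (stb (P p))) hT0
  have hI : ∀ i ∈ (inr (P p)).subgroupOf (stb (P p)), ∃ g, iK K g = (stb (P p)).subtype i :=
    fun i hi => hIr hi
  have hεI : ∀ d ∈ (inr (P p)).subgroupOf (stb (P p)), ep (iK K) ((stb (P p)).subtype d) = 0 :=
    fun d hd => (ep_zero _).2 (hIr hd)
  obtain ⟨d₁, hd₁⟩ : ∃ d₁ : stb (P p), ep (iK K) (d₁ : AlgebraicClosure K ≃+* AlgebraicClosure K) = 1 :=
    ⟨⟨iK K g₀ * c, hg₀⟩, if_neg fun h => by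
      obtain ⟨m, hm⟩ := h
      exact I.two.out g₀ m hm⟩
  have heh : (fun d : stb (P p) => ep (iK K) (d : AlgebraicClosure K ≃+* AlgebraicClosure K)) ∈
      homs (fsys (stb (P p))) (⊤ : Subgroup (stb (P p))) := by
    rw [← KR.two_fullC]
    exact ep_homs I.two I.unr (stb (P p))
  obtain ⟨ψ, hψ, hψI, hv⟩ := exists_psi I.qdat p (I.locF (some p)) heh hεI
    ⟨d₁, by rw [hd₁]; exact one_ne_zero⟩
  have hq := I.toArX.qrep hρ hl hst I.glob.glob.char.mul
  have hr := QW.locRep_res hq.rep (GA.jsmQ c P (N₀.map (iK K)) (some (some p)))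
  -- the action on the level one
  have hqm := hpl.qm hsd
  have hact0 : ∀ (d : stb (P p)) (m : MN (T2 L₀) l 1),
      (isoN L₀ l 1).toAddEquiv (actN l 1 (fun d : stb (P p) => rho2 (iK K) c κ (fun g => ρ g) d)
        hr.st d m) = ac2 (iK K) c κ (actN l 1 (fun g => ρ g) hst) d ((isoN L₀ l 1).toAddEquiv m) :=
    fun d m => iso_act I.two hst hq.rep.st _ m
  have hqN := (QV.qm_N hq I.glob.glob.char 1).comp (GA.jsmQ c P (N₀.map (iK K)) (some (some p)))
  have act0 : IsAct (actN l 1 (fun d : stb (P p) => rho2 (iK K) c κ (fun g => ρ g) d) hr.st) :=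
    hqN.act
  have lin0 : ∀ (g : stb (P p)) (a : OE E) (m : MN (T2 L₀) l 1),
      actN l 1 (fun d : stb (P p) => rho2 (iK K) c κ (fun g => ρ g) d) hr.st g (a • m) =
        a • actN l 1 (fun d : stb (P p) => rho2 (iK K) c κ (fun g => ρ g) d) hr.st g m :=
    hqN.lin
  obtain ⟨W, hW, hW1⟩ := GA.jsmQ c P (N₀.map (iK K)) (some (some p)) _ I.memQ
  have hinQ := EV.inert_Q (e := iK K) (κ := κ) (c := c) (HP.alg_closure K) (I.prime p) (I.odd p)
    (I.isPrime p) (I.natMem p) hNn (I.opnL (some p)) I.two hl hst hr hI hW (fun d hd => by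
      obtain ⟨g, -, hg⟩ := hW1 d hd
      exact ⟨g, hg⟩) ⟨d₁, fun h1 => by
        exact one_ne_zero (hd₁.symm.trans ((ep_zero _).2 h1))⟩ act0
  have e1 := card_zur_tra (T := big (fullC (stb (P p))) ((N₀.map (iK K)).subgroupOf (stb (P p))))
    (In := (inr (P p)).subgroupOf (stb (P p))) (siso_iso L₀ l) hact0 act0 lin0 hqm.act hqm.lin
    (lamN (T2 L₀) l 1 (famX c κ T P N₀ ρ L₂ (some (some p))))
  have e2 := rel_card (zur (big (fullC (stb (P p))) ((N₀.map (iK K)).subgroupOf (stb (P p))))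
    ((inr (P p)).subgroupOf (stb (P p))) act0)
    (lamN (T2 L₀) l 1 (famX c κ T P N₀ ρ L₂ (some (some p)))).toAddSubgroup
  obtain ⟨g₁, hg₁⟩ := hI τ hT.τI
  obtain ⟨f, hf⟩ := pow_fix1 (O := OE E) hU.act hU.lin g₁
  obtain ⟨v, hv'⟩ := pow_fixI (O := OE E) (e := iK K) (jp := (stb (P p)).subtype)
    (In := (inr (P p)).subgroupOf (stb (P p))) hU.act hU.lin
  have key := locS_inert (C := C) hpl hsd hs hT hI (fun g h => hψ.2.2 g trivial h trivial)
    (homs_sm1 hψ _) hψI hv hT.τI (by rw [hT.τa, map_one]) hlag (by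
      rw [card_YM]
      exact (congrArg (· * _) e1).trans e2) hinQ hg₁ hf hv'
  refine locS_congr ?_ key
  obtain ⟨m, iS, Lc, A, hc⟩ := exists_crd_res I.two
    (fun g => by
      rw [← chi]
      exact I.glob.glob.char.odd _) (fun a ha y => max_U Φ hl a ha y) hU hC
  have h5 := hδ m iS Lc A hc a σ τ τ hT0 hT.τI (by rw [hT.τa, map_one])
  rw [fixI_crd hc hI hv'] at h5
  have h6 := fix1_crd hc hf
  rw [hg₁] at h6
  rw [show (A (τ : AlgebraicClosure K ≃+* AlgebraicClosure K)) = A ((stb (P p)).subtype τ) from rfl,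
    h6] at h5
  obtain ⟨x, hx⟩ := h5
  refine ⟨x, ?_⟩
  rw [← hx]
  show f + (v + Module.finrank E (EV.VI (iK K) (stb (P p)).subtype
    ((inr (P p)).subgroupOf (stb (P p))) (fun g => ρ g))) + δ = _
  rw [← add_assoc f v]

/-- THE CONTRIBUTION OF AN INERT PRIME NUMBER. -/
theorem locXS_inrA (I : InX.{u, w} c κ T P N₀ iv ivF tr)
    (hρ : Gn.ConjDual 2 N₀ (inT K T) (Parity.cyclo E) κ ρ b) (hl : Lat b l t L₀)
    (hst : ∀ g, ∀ x ∈ L₀, ρ g *ᵥ x ∈ L₀)
    (hs : SplS (OE E) (actN l 1 (fun g => ρ g) hst) (bN hl 1) aU bU aN hN Φ)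
    (hC : InvC κ (OE E) aU bU C) {p : T}
    (hIr : inr (P p) ≤ (iK K).range) {g₀ : AbsGal K} (hg₀ : iK K g₀ * c ∈ stb (P p))
    {W : Subgroup (AbsGal K)} (hWo : IsOpen (W : Set (AbsGal K))) (hWn : W.Normal)
    (hWt : ∀ g ∈ W, g ∈ wildSet p (P p) → ρ g = 1)
    (L₂ : Submodule E (stb (P 2) → Fin (n + n) → E)) :
    LocFS c κ P N₀ ivF aU bU aN hN Φ C (some (some p)) (famX c κ T P N₀ ρ L₂ (some (some p)))
      (artK p W (P p) ρ) := by
  refine locXS_inr1 I hρ hl hst hs hC hIr hg₀ L₂ fun m iS Lc A hc a σ τ τ' hT hτ' hodd => ?_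
  have hfin : Finite (MN L₀ l 1) := GP.MN_finite hl 1
  have hsd := sdual_MX I hρ hl hst
  have hN' := sdualN hs hsd
  obtain ⟨W₀, ⟨-, ⟨W', hW', hle⟩, -⟩, h3⟩ := hsd.sm
  have h1 := crdS_even (I.isPrime p) (I.prime p) (I.odd p) (I.natMem p) hl hst hs hN'.act hN'.lin hc
    hWo hWn hWt hW'.2.1 (fun g hg m => h3 g (hle hg) m) hT hτ' hodd hIr
  have h2 : Module.finrank E (EV.VI (iK K) (stb (P p)).subtype
      ((inr (P p)).subgroupOf (stb (P p))) (fun g => ρ g)) =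
      Module.finrank E (Parity.fixedBy (fun σ : (P p).inertia (AbsGal K) => ρ σ)) := by
    have h3 := VI_eq (c := c) (P := P) p (fun g => ρ g)
    exact congrArg (fun W : Submodule E (Fin n → E) => Module.finrank E W) h3
  rw [h2]
  unfold artK
  rw [Nat.even_iff] at h1 ⊢
  omega

/-- THE CONTRIBUTION OF THE RAMIFIED PRIMES. -/
theorem locXS_ram (I : InX.{u, w} c κ T P N₀ iv ivF tr)
    (hρ : Gn.ConjDual 2 N₀ (inT K T) (Parity.cyclo E) κ ρ b) (hl : Lat b l t L₀)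
    (hst : ∀ g, ∀ x ∈ L₀, ρ g *ᵥ x ∈ L₀)
    (hs : SplS (OE E) (actN l 1 (fun g => ρ g) hst) (bN hl 1) aU bU aN hN Φ) (hn : Even n) {p : T}
    (hp : ¬ inr (P p) ≤ (iK K).range)
    (hun : Parity.SemistableOn ((P p).inertia (AbsGal K)) ρ)
    (L₂ : Submodule E (stb (P 2) → Fin (n + n) → E)) :
    LocFS c κ P N₀ ivF aU bU aN hN Φ C (some (some p)) (famX c κ T P N₀ ρ L₂ (some (some p)))
      (Parity.quotDim (stabD (P p)) ((P p).inertia (AbsGal K)) ρ) := by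
  obtain ⟨a, σ, τ, hT⟩ := QL.exists_tameQ_big (HP.alg_closure K) (I.prime p) (I.odd p) (I.isPrime p)
    (I.natMem p) ((N₀.map (iK K)).subgroupOf (stb (P p)))
  refine locS_RI (jp := (stb (P p)).subtype) (I.plQ (some (some p)))
    (fun g => by
      rw [← chi]
      exact I.glob.glob.char.odd _) hl (I.toArX.rep hρ hst) hT ?_ ?_ hs
    (lag_YM I.two chi (chic I.two) I.glob.glob.char.mul hl (I.toArX.rep hρ hst)
      (I.toArX.qrep hρ hl hst I.glob.glob.char.mul) (lag_odd I hρ hl hst 1 p)) hn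
    (ER.even_quot (P p))
  · obtain ⟨d, hd, hd'⟩ := SetLike.not_le_iff_exists.1 hp
    refine ⟨⟨d, HP.inr_le_stb _ hd⟩, hd, fun h0 => hd' ?_⟩
    obtain ⟨g, hg⟩ := (KS.ep_zero _).1 h0
    exact ⟨g, hg⟩
  · rintro g ⟨d, hd, hdg⟩
    refine hun g (QW.emb_refl_inr.1 ?_)
    rw [← hdg]
    exact hd

/-- THE CONTRIBUTION OF A CONDITION `M` from the contribution of a condition `M₀`: the codimension of `M ⊓ M₀` in `M`
is added. -/
theorem locXS_sL (I : InX.{u, w} c κ T P N₀ iv ivF tr)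
    (hρ : Gn.ConjDual 2 N₀ (inT K T) (Parity.cyclo E) κ ρ b) (hl : Lat b l t L₀)
    (hst : ∀ g, ∀ x ∈ L₀, ρ g *ᵥ x ∈ L₀)
    (hs : SplS (OE E) (actN l 1 (fun g => ρ g) hst) (bN hl 1) aU bU aN hN Φ) {g₀ : AbsGal K}
    (h0 : iK K g₀ * c ∈ stb (P 2)) {k : stabD (K := K) (P 2) → stabD (K := K) (P 2)}
    (hk : ∀ a, (k a : AbsGal K) = g₀ * κ a * g₀⁻¹)
    {M M₀ : Submodule E (stabD (K := K) (P 2) → Fin n → E)}
    (hM : Parity.IsSelfPerp (Parity.cyclo E) κ ρ b (stabD (K := K) (P 2)) (ρ g₀⁻¹) k M)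
    (hM₀ : Parity.IsSelfPerp (Parity.cyclo E) κ ρ b (stabD (K := K) (P 2)) (ρ g₀⁻¹) k M₀) {δ : ℕ}
    (hloc : LocFS c κ P N₀ ivF aU bU aN hN Φ C (some none) (sL c κ P N₀ ρ M₀) δ) :
    ∃ r, FiniteDimensional E M ∧ LocFS c κ P N₀ ivF aU bU aN hN Φ C (some none) (sL c κ P N₀ ρ M)
      (δ + Parity.dimModulo M (M ⊓ M₀) + 2 * r) := by
  have hq := I.toArX.qrep hρ hl hst I.glob.glob.char.mul
  have hL := lagV_sL I.toArX (I.locD (some none)) hρ hl hst I.glob.glob.char.mul h0 hk hM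
  have hL₀ := lagV_sL I.toArX (I.locD (some none)) hρ hl hst I.glob.glob.char.mul h0 hk hM₀
  have HD : LocD.{w} (SQ c P (N₀.map (iK K)) (some (none : Option T)))
    (fun d => cyQ (GA.jQ c P (some none) d)) (GA.iQ c P ivF (some none)) := I.locD (some none)
  have r1 : rho2 (iK K) c κ (fun g => ρ g) (GA.jQ c P (some (none : Option T)) 1) = 1 := by
    rw [map_one]
    exact QV.rho2_one I.two (map_one ρ)
  have rm : ∀ s u, rho2 (iK K) c κ (fun g => ρ g) (GA.jQ c P (some (none : Option T)) (s * u)) =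
      rho2 (iK K) c κ (fun g => ρ g) (GA.jQ c P (some none) s) *
        rho2 (iK K) c κ (fun g => ρ g) (GA.jQ c P (some none) u) := fun s u => by
    rw [map_mul]
    exact QV.rho2_mul I.two (fun s t => map_mul ρ s t) _ _
  have hfd : FiniteDimensional E (zV (SQ c P (N₀.map (iK K)) (some (none : Option T)))
      (fun d => rho2 (iK K) c κ (fun g => ρ g) (GA.jQ c P (some none) d))) := KR.zV_fd HD.gens r1 rm
  obtain ⟨S, hS⟩ : ∃ S : Submodule E (HQ c P (some (none : Option T)) → Fin (n + n) → E),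
    S = sL c κ P N₀ ρ M := ⟨_, rfl⟩
  obtain ⟨S₀, hS₀⟩ : ∃ S : Submodule E (HQ c P (some (none : Option T)) → Fin (n + n) → E),
    S = sL c κ P N₀ ρ M₀ := ⟨_, rfl⟩
  rw [← hS] at hL
  rw [← hS₀] at hL₀ hloc
  have f1 : FiniteDimensional E S := OL.lag_fd HD r1 rm hL
  have f2 : FiniteDimensional E S₀ := OL.lag_fd HD r1 rm hL₀
  have h1 := locS_lag (I.plQ (some none)) HD I.glob.glob.char (I.jsm (some none)) hl
    (I.toArX.rep hρ hst) hq hs hL₀ hL hloc
  have h2 := OL.lag_rank HD hq I.glob.glob.char (I.jsm (some none)) hL₀ hL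
  obtain ⟨t', X⟩ := lpl I.two h0 hk
  have hz : ∀ {M : Submodule E (stabD (K := K) (P 2) → Fin n → E)},
      M ≤ Parity.cocycles (fun σ : stabD (K := K) (P 2) => ρ σ) →
      ∀ x ∈ M, ZV (sysH N₀ (P 2)) (fun a : stabD (K := K) (P 2) => ρ ((stabD (K := K) (P 2)).subtype a)) x :=
    fun h x hx => (coc_H I.toArX hρ).1 (h hx)
  obtain ⟨k1, k2⟩ := OL.finrank_shp (hfd := hfd) X (up_H I.toArX X) (dn_H N₀ (P 2)) (map_one ρ)
    (fun s u => map_mul ρ s u) (hz hM.1.2)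
  obtain ⟨-, k3⟩ := OL.finrank_shp (hfd := hfd) X (up_H I.toArX X) (dn_H N₀ (P 2)) (map_one ρ)
    (fun s u => map_mul ρ s u) (M := M ⊓ M₀) (hz (inf_le_left.trans hM.1.2))
  have k4 := GP.dimModulo_add (inf_le_left : M ⊓ M₀ ≤ M) k1
  have e1 : S₀ ⊓ S = sL c κ P N₀ ρ (M ⊓ M₀) := by
    rw [hS, hS₀]
    ext Y
    constructor
    · rintro ⟨h3, h4⟩
      exact ⟨h3.1, h4.2, h3.2⟩
    · rintro ⟨h3, h4, h5⟩
      exact ⟨⟨h3, h5⟩, ⟨h3, h4⟩⟩
  rw [e1, h2] at h1
  obtain ⟨k₀, hk₀⟩ : ∃ k₀, k₀ = Module.finrank E (shp (sysD N₀ (P 2)) (fun d : stb (P 2) =>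
    rho2 (iK K) c κ (fun g => ρ g) ((stb (P 2)).subtype d)) (jj (P 2))
      (⊥ : Submodule E (stabD (K := K) (P 2) → Fin n → E))) := ⟨_, rfl⟩
  rw [← hk₀] at k2 k3
  have k2' : Module.finrank E S = Module.finrank E M + k₀ := by
    rw [hS]
    exact k2
  have k3' : Module.finrank E (sL c κ P N₀ ρ (M ⊓ M₀)) = Module.finrank E ↥(M ⊓ M₀) + k₀ := k3
  refine ⟨Module.finrank E ↥(M ⊓ M₀) + k₀, k1, ?_⟩
  rw [k2'] at h1
  have h1' : LocFS c κ P N₀ ivF aU bU aN hN Φ C (some none) S (δ + (Module.finrank E M + k₀ +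
    Module.finrank E (sL c κ P N₀ ρ (M ⊓ M₀)))) := h1
  rw [k3', hS] at h1'
  have e2 : δ + Parity.dimModulo M (M ⊓ M₀) + 2 * (Module.finrank E ↥(M ⊓ M₀) + k₀) =
      δ + (Module.finrank E M + k₀ + (Module.finrank E ↥(M ⊓ M₀) + k₀)) := by
    rw [← k4]
    ring
  rw [e2]
  exact h1'

end Pool.Agent.Work.MP_787500_nt.KJ
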