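import Mathlib
import Pool.Agent.Work.MP_787500_nt.KI.MainK
import Pool.Agent.Work.MP_787500_nt.KR.T05
import Pool.Agent.Work.MP_787500_nt.KR.T04b

/-!
# KJ/XToy: THE KRAMER STEP AT ONE PLACE

The local group is used as a global group with two places, with the invariants `iv` and `- iv`. The Selmer group for the
conditions `L₁`, `L₂` is their intersection.
-/

set_option autoImplicit false
set_option linter.unusedSectionVars false

namespace Pool.Agent.Work.MP_787500_nt.KJ

open Matrix
open Pool.Agent.Work.MP_787500_nt.GP (A0 hf hf_neg IsAct d0 d1 d2 tw cup11 cup21 cup12)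
open Pool.Agent.Work.MP_787500_nt.KR (FSys Sm1 Sm2 IsChar Smooth Z1 Z2 B2 LocH Pair LDual GlobH IsTr PP
  exists_tr cup11_sm cup11_Z2 leib11)
open Pool.Agent.Work.MP_787500_nt.KT (Sy IsSp BU pair_BU IsLift isAct_act)
open Pool.Agent.Work.MP_787500_nt.KI (LVal R1 Y2 LKr kramer KH Sel mem_Sel)

/-- the invariants of the two places -/
noncomputable def inv2 {P : Type*} (iv : (P → P → A0) → A0) : Bool → (P → P → A0) → A0 :=
  fun i f => if i then iv f else -iv f

section

variable {P : Type*} [Group P] {T : FSys P} {χ : P → ℤ_[2]} {iv : (P → P → A0) → A0}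

private theorem iv_zero (L : LocH T χ iv) : iv (fun _ _ => 0) = 0 := by
  have h := L.add (fun _ _ => 0) (fun _ _ => 0) ?_ ?_
  · have e : (fun a b : P => (0 : A0) + 0) = fun _ _ => 0 := by
      funext a b
      rw [add_zero]
    rw [e] at h
    exact left_eq_add.1 h
  all_goals
    obtain ⟨W, hW⟩ := T.ex
    refine ⟨⟨W, hW, fun _ _ _ _ _ _ => rfl⟩, fun u v w => ?_⟩
    show χ u • (0 : A0) - 0 + 0 - 0 = 0
    rw [smul_zero]
    simp

private theorem glob2 (L : LocH T χ iv) :
    GlobH T (fun _ : Bool => T) (fun _ => MonoidHom.id P) χ (inv2 iv) where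
  char := L.char
  jsm _ W hW := ⟨W, hW, fun _ hw => hw⟩
  loc i := by
    cases i
    · refine ⟨L.char, fun f f' hf hf' => ?_, fun z hz => ?_⟩
      · show -iv (fun a b => f a b + f' a b) = -iv f + -iv f'
        rw [L.add f f' hf hf', neg_add]
      · show -iv (d1 (tw χ) z) = 0
        rw [L.cob z hz, neg_zero]
    · exact L
  recip f hf := by
    rw [Fintype.sum_bool]
    exact add_neg_cancel _

private theorem ld2 {M M' : Type*} [AddCommGroup M] [AddCommGroup M'] {ρ : P → M → M}
    {ρ' : P → M' → M'} {B : M →+ M' →+ A0} (h : LDual T iv ρ ρ' B) (i : Bool) :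
    LDual T (inv2 iv i) ρ ρ' B := by
  cases i
  · exact ⟨h.fin, h.fin', fun x hx h1 => h.one x hx fun y hy => neg_eq_zero.1 (h1 y hy),
      fun y hy h1 => h.one' y hy fun x hx => neg_eq_zero.1 (h1 x hx),
      fun F hF h1 => h.two F hF fun z hz => neg_eq_zero.1 (h1 z hz)⟩
  · exact h

private theorem pp2 (L : LocH T χ iv) {M M' : Type*} [AddCommGroup M] [AddCommGroup M']
    {ρ : P → M → M} {ρ' : P → M' → M'} {B : M →+ M' →+ A0} (hp : Pair T χ ρ ρ' B)
    (h : LDual T iv ρ ρ' B) {tr : ((P → P → P → A0) × (∀ _ : Bool, P → P → A0)) →+ A0}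
    (htr : IsTr T (fun _ : Bool => T) (fun _ => MonoidHom.id P) χ (inv2 iv) tr) :
    PP T (fun _ : Bool => T) (fun _ => MonoidHom.id P) tr ρ ρ' B := by
  intro F g hF hg hd ho
  have hd' : ∀ (i : Bool) (a b : P), g i a + ρ a (g i b) - g i (a * b) = F a b := hd
  have hc : Z1 T ρ (fun d => g true d - g false d) := by
    obtain ⟨W, hW, h1⟩ := hg true
    obtain ⟨W', hW', h2⟩ := hg false
    refine ⟨⟨W ⊓ W', T.inf hW hW', fun a w hw => ?_⟩, fun a b => ?_⟩
    · beta_reduce
      rw [h1 a w hw.1, h2 a w hw.2]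
    · have e1 := hd' true a b
      have e2 := hd' false a b
      beta_reduce
      rw [hp.act.sub]
      have e3 : g true a + ρ a (g true b) - g true (a * b) =
        g false a + ρ a (g false b) - g false (a * b) := e1.trans e2.symm
      have e4 : g true (a * b) = g true a + ρ a (g true b) -
          (g false a + ρ a (g false b) - g false (a * b)) := by
        rw [← e3]
        abel
      rw [e4]
      abel
  have hF1 : ∀ a b, F a b = d1 ρ (g false) a b := fun a b => (hd false a b).symm
  obtain ⟨m, hm⟩ := h.one _ hc fun x hx => by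
    have hb : Sm2 T (cup11 ρ' B (g false) x) := cup11_sm hp.sm' hp.act' (hg false) hx.1
    have ez : ∀ i u v, cup11 ρ' B (g i) x u v - cup11 ρ' B (g false) x u v =
        cup11 ρ' B (fun d => g i d - g false d) x u v := fun i u v => by
      show B (g i u) (ρ' u (x v)) - B (g false u) (ρ' u (x v)) =
        B (g i u - g false u) (ρ' u (x v))
      rw [map_sub, AddMonoidHom.sub_apply]
    have e0 : (fun u v => cup11 ρ' B (g false) x u v - cup11 ρ' B (g false) x u v) =
        fun _ _ : P => (0 : A0) := by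
      funext u v
      exact sub_self _
    have e1 : (fun u v => cup11 ρ' B (g true) x u v - cup11 ρ' B (g false) x u v) =
        cup11 ρ' B (fun d => g true d - g false d) x := by
      funext u v
      exact ez true u v
    have hz : ∀ i : Bool, Z2 T (tw fun d => χ d)
        (fun u v => cup11 ρ' B (g i) x u v - cup11 ρ' B (g false) x u v) := by
      intro i
      cases i
      · rw [e0]
        obtain ⟨W, hW⟩ := T.ex
        refine ⟨⟨W, hW, fun _ _ _ _ _ _ => rfl⟩, fun u v w => ?_⟩
        show χ u • (0 : A0) - 0 + 0 - 0 = 0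
        rw [smul_zero]
        simp
      · rw [e1]
        exact cup11_Z2 hp hc hx
    have key := htr (cup11 ρ' B (g false) x) (fun i => cup11 ρ' B (g i) x) hb hz
    have e2 : d2 (tw χ) (cup11 ρ' B (g false) x) = cup21 ρ' B F x := by
      funext a b c
      rw [leib11 hp.act' hp.eqv]
      have e3 : cup12 ρ' B (g false) (d1 ρ' x) a b c = 0 := by
        have e4 : d1 ρ' x b c = 0 := by
          show x b + ρ' b (x c) - x (b * c) = 0
          rw [hx.2 b c]
          abel
        show B (g false a) (ρ' a (d1 ρ' x b c)) = 0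
        rw [e4, hp.act'.zero, map_zero]
      rw [e3, sub_zero]
      show B (d1 ρ (g false) a b) _ = B (F a b) _
      rw [hF1]
    rw [e2] at key
    have key2 := (ho x hx).symm.trans key
    rw [Fintype.sum_bool] at key2
    have e5 : inv2 iv true (fun u v => cup11 ρ' B (g true) x u v - cup11 ρ' B (g false) x u v) +
        inv2 iv false (fun u v => cup11 ρ' B (g false) x u v - cup11 ρ' B (g false) x u v) =
        iv (cup11 ρ' B (fun d => g true d - g false d) x) := by
      show iv _ + -iv _ = _
      rw [e0, e1, iv_zero L, neg_zero, add_zero]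
    exact (key2.trans e5).symm
  refine ⟨g false, fun i => if i then -m else 0, hg false, ?_, fun i d => ?_⟩
  · funext a b
    exact hF1 a b
  · cases i
    · show g false d = g false d - (ρ d 0 - 0)
      rw [hp.act.zero, sub_zero, sub_zero]
    · have h1 : g true d - g false d = ρ d m - m := congrFun hm d
      show g true d = g false d - (ρ d (-m) - -m)
      have h2 : ρ d (-m) = -ρ d m := by
        have h3 := hp.act.add d m (-m)
        rw [add_neg_cancel, hp.act.zero] at h3
        exact (neg_eq_of_add_eq_zero_right h3.symm).symm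
      rw [h2]
      have h4 : g true d = g false d + (ρ d m - m) := by
        rw [← h1]
        abel
      rw [h4]
      abel

variable {F : Type*} [Field F] [Finite F] [CharP F 2] [Algebra (ZMod 2) F] {n : ℕ} [Sy F n]

/-- THE KRAMER STEP AT ONE PLACE. -/
theorem toy (L : LocH T χ iv) {A : P →* Matrix (Fin n) (Fin n) F} {ε : P → ZMod 2}
    (hsp : ∀ g, IsSp (A g)) (hsm : Smooth T (KT.act A))
    (eadd : ∀ g h, ε (g * h) = ε g + ε h) (esm : Sm1 T ε)
    (ld : LDual T iv (KT.act A) (KT.act A) (BU : (Fin n → F) →+ (Fin n → F) →+ A0))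
    {L₁ L₂ : Submodule F ((P → Fin n → F) × (P → Fin n → F))} (h₁ : LKr T iv A ε L₁)
    (h₂ : LKr T iv A ε L₂) {t₁ t₂ : ℕ} (ht₁ : LVal iv A ε L₁ t₁) (ht₂ : LVal iv A ε L₂ t₂)
    {m₁ m₂ : ℤ} (hm₁ : (Module.finrank F (R1 L₁) : ℤ) = Module.finrank F (Y2 L₁) + 2 * m₁)
    (hm₂ : (Module.finrank F (R1 L₂) : ℤ) = Module.finrank F (Y2 L₂) + 2 * m₂) :
    Even ((Module.finrank F ↥(L₁ ⊓ L₂) : ℤ) + (m₁ + t₁) + (m₂ + t₂)) := by
  have H := glob2 L
  obtain ⟨tr, htr⟩ := exists_tr H
  have hK : KH T (fun _ : Bool => T) (fun _ => MonoidHom.id P) χ (inv2 iv) tr A ε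
      (fun i => if i then L₁ else L₂) :=
    { glob := H
      istr := htr
      pp := pp2 L (pair_BU L.char hsp hsm) ld htr
      ld := fun i => ld2 ld i
      fin := ld.fin
      det := hsp
      sm := hsm
      eadd := eadd
      esm := esm
      loc := fun i => by
        cases i
        · refine ⟨h₂.coc, fun r => (h₂.rel r).trans (and_congr Iff.rfl (forall_congr' fun p =>
            forall_congr' fun _ => neg_eq_zero.symm)), h₂.cob, fun p hp q hq => ?_,
            fun p hp a ha α => ?_, h₂.kmem⟩
          · exact neg_eq_zero.2 (h₂.symm p hp q hq)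
          · exact neg_eq_zero.2 (h₂.diag p hp a ha α)
        · exact h₁ }
  have key := (kramer hK (t := fun i => if i then t₁ else t₂) (m := fun i => if i then m₁ else m₂)
    (fun i => by
      cases i
      · intro a ha α
        exact (congrArg (fun z : A0 => -z) (ht₂ a ha α)).trans (hf_neg _)
      · exact ht₁) (fun i => by
      cases i
      · exact hm₂
      · exact hm₁)).2
  have e : Sel T (fun _ : Bool => MonoidHom.id P) A ε (fun i => if i then L₁ else L₂) =
      L₁ ⊓ L₂ := by
    ext p
    rw [mem_Sel, Submodule.mem_inf]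
    constructor
    · rintro ⟨-, -, -, h⟩
      exact ⟨h true, h false⟩
    · rintro ⟨k1, k2⟩
      obtain ⟨a1, a2, a3⟩ := h₁.coc p k1
      refine ⟨a1, a2, a3, fun i => ?_⟩
      cases i
      · exact k2
      · exact k1
  rw [e, Fintype.sum_bool] at key
  have key' : Even ((Module.finrank F ↥(L₁ ⊓ L₂) : ℤ) + ((m₁ + t₁) + (m₂ + t₂))) := key
  rwa [← add_assoc] at key'

end

end Pool.Agent.Work.MP_787500_nt.KJ
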