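import Mathlib
import Pool.Agent.Work.MP_787500_nt.KJ.XToy
import Pool.Agent.Work.MP_787500_nt.KI.OfLag
import Pool.Agent.Work.MP_787500_nt.KI.LocM
import Pool.Agent.Work.MP_787500_nt.OL.LevN

/-!
# KJ/XCmp: the intersection of two conditions with known contributions

* `locPar_cmp`: in coordinates; `locM_cmp`: for `M × M`: the dimension of `Y ⊓ Y'` is congruent to the sum of the
  contributions of `Y` and `Y'`.
-/

set_option autoImplicit false
set_option linter.unusedSectionVars false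

namespace Pool.Agent.Work.MP_787500_nt.KJ

open Matrix
open Pool.Agent.Work.MP_787500_nt.GP (A0 IsAct EvPow IsPow card_pow)
open Pool.Agent.Work.MP_787500_nt.KR (FSys Sm1 IsChar Smooth Z1 LocH Pair LDual SDualF zM)
open Pool.Agent.Work.MP_787500_nt.KS (ep)
open Pool.Agent.Work.MP_787500_nt.KT (Sy IsSp BU)
open Pool.Agent.Work.MP_787500_nt.QS (Two ac2 be2 la2 Lag QM pB)
open Pool.Agent.Work.MP_787500_nt.QP (InvC)
open Pool.Agent.Work.MP_787500_nt.KI (LVal R1 Y2 LY mem_LY lkr_of_lag LocPar LocM bC PlQ tra card_tra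
  tra_inf siso_f2 lag_tra exists_crd_res finite_res card_res qm_tra)
open Pool.Agent.Work.MP_787500_nt.OL (dst dst_trans lag_fin lag_card ev_iff)

universe v

section crd

variable {F : Type v} [Field F] [Finite F] [CharP F 2] [Algebra (ZMod 2) F] {n : ℕ} [Sy F n]
  {G Γ : Type*} [Group G] [Group Γ] {e : G →* Γ} {c : Γ} {κ : G →* G}
  {A : Γ →* Matrix (Fin n) (Fin n) F} {P : Type*} [Group P] {T : FSys P} {jp : P →* Γ}
  {χq : Γ → ℤ_[2]} {iv : (P → P → A0) → A0}

private theorem fr_LY (X : Two e c κ) (Y Y' : Submodule F (P → (Fin n → F) × (Fin n → F))) :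
    Module.finrank F ↥(LY A c Y ⊓ LY A c Y') = Module.finrank F ↥(Y ⊓ Y') := by
  have hcc : ∀ v : Fin n → F, A c *ᵥ (A c *ᵥ v) = v := fun v => by
    rw [mulVec_mulVec, ← map_mul, X.cc, map_one, one_mulVec]
  let E : ((P → Fin n → F) × (P → Fin n → F)) ≃ₗ[F] (P → (Fin n → F) × (Fin n → F)) :=
    { toFun := fun p d => (p.1 d, A c *ᵥ (p.1 d + p.2 d))
      map_add' := fun p q => by
        funext d
        refine Prod.ext rfl ?_
        show A c *ᵥ (p.1 d + q.1 d + (p.2 d + q.2 d)) =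
          A c *ᵥ (p.1 d + p.2 d) + A c *ᵥ (q.1 d + q.2 d)
        rw [← mulVec_add]
        congr 1
        abel
      map_smul' := fun a p => by
        funext d
        refine Prod.ext rfl ?_
        show A c *ᵥ (a • p.1 d + a • p.2 d) = a • (A c *ᵥ (p.1 d + p.2 d))
        rw [← smul_add, mulVec_smul]
      invFun := fun x => (fun d => (x d).1, fun d => A c *ᵥ (x d).2 - (x d).1)
      left_inv := fun p => by
        refine Prod.ext rfl ?_
        funext d
        show A c *ᵥ (A c *ᵥ (p.1 d + p.2 d)) - p.1 d = p.2 d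
        rw [hcc, add_sub_cancel_left]
      right_inv := fun x => by
        funext d
        refine Prod.ext rfl ?_
        show A c *ᵥ ((x d).1 + (A c *ᵥ (x d).2 - (x d).1)) = (x d).2
        rw [add_sub_cancel, hcc] }
  have e1 : LY A c Y ⊓ LY A c Y' = (Y ⊓ Y').comap (E : _ →ₗ[F] _) := by
    ext p
    exact Iff.rfl
  rw [e1, Submodule.comap_equiv_eq_map_symm]
  exact E.symm.finrank_map_eq (Y ⊓ Y')

/-- THE INTERSECTION OF TWO CONDITIONS, in coordinates. -/
theorem locPar_cmp (X : Two e c κ) (Lc : LocH T (fun d => χq (jp d)) iv) (hsp : ∀ g, IsSp (A g))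
    (hsm : Smooth T (KT.act (A.comp jp))) (hes : Sm1 T fun d => ep e (jp d))
    (ld : LDual T iv (KT.act (A.comp jp)) (KT.act (A.comp jp))
      (BU : (Fin n → F) →+ (Fin n → F) →+ A0))
    (hq : QM T (fun d => χq (jp d)) F (fun d => ac2 e c κ (KT.act (A.comp e)) (jp d))
      (be2 (bC A c)) (fun (a : F) d => la2 e c κ (KT.act (A.comp e)) (bC A c) a (jp d)))
    (hf : Finite (zM (O := F) T hq.act hq.lin))
    (hlq : LDual T iv (fun d => ac2 e c κ (KT.act (A.comp e)) (jp d))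
      (fun d => ac2 e c κ (KT.act (A.comp e)) (jp d)) (pB (be2 (bC A c))))
    {Y Y' : Submodule F (P → (Fin n → F) × (Fin n → F))}
    (hY : Lag T iv (fun d => ac2 e c κ (KT.act (A.comp e)) (jp d)) (be2 (bC A c))
      (fun (a : F) d => la2 e c κ (KT.act (A.comp e)) (bC A c) a (jp d)) Y)
    (hY' : Lag T iv (fun d => ac2 e c κ (KT.act (A.comp e)) (jp d)) (be2 (bC A c))
      (fun (a : F) d => la2 e c κ (KT.act (A.comp e)) (bC A c) a (jp d)) Y') {δ δ' : ℕ}
    (h : LocPar T jp iv e c κ A Y δ) (h' : LocPar T jp iv e c κ A Y' δ') :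
    Even (Module.finrank F ↥(Y ⊓ Y') + δ + δ') := by
  obtain ⟨Y₀, t, m, h1, h2, h3, h4⟩ := h
  obtain ⟨Y₁, t', m', h1', h2', h3', h4'⟩ := h'
  have eadd : ∀ g h, ep e (jp (g * h)) = ep e (jp g) + ep e (jp h) := fun g h => by
    rw [map_mul, QP.ep_add2 X]
  have key := toy Lc (A := A.comp jp) (fun g => hsp _) hsm eadd hes ld
    (lkr_of_lag X Lc hsp hsm hes ld h1) (lkr_of_lag X Lc hsp hsm hes ld h1') h2 h2' h3 h3'
  rw [fr_LY X] at key
  have hres := finite_res (F := F)
  have hFV : Finite ((Fin n → F) × (Fin n → F)) := inferInstance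
  have t1 := dst_trans Lc hq hf hY hY' h1'
  have t2 := dst_trans Lc hq hf hY h1 h1'
  have c1 := lag_card Lc hq hlq hY hY'
  have c2 := lag_card Lc hq hlq hY h1
  have c3 := lag_card Lc hq hlq hY h1'
  have fin : ∀ {Z : Submodule F (P → (Fin n → F) × (Fin n → F))},
      Lag T iv (fun d => ac2 e c κ (KT.act (A.comp e)) (jp d)) (be2 (bC A c))
        (fun (a : F) d => la2 e c κ (KT.act (A.comp e)) (bC A c) a (jp d)) Z → Finite Z :=
    fun hZ => lag_fin hq hf hZ
  have q2 : 2 ≤ Nat.card F := Finite.one_lt_card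
  have f1 := fin hY
  have f2 := fin hY'
  have f3 := fin h1
  have f4 := fin h1'
  have finI : ∀ {Z Z' : Submodule F (P → (Fin n → F) × (Fin n → F))}, Finite Z → Finite ↥(Z ⊓ Z') :=
    fun {Z Z'} hZ => Finite.of_injective (fun x : ↥(Z ⊓ Z') => (⟨x.1, x.2.1⟩ : Z)) fun x y hxy =>
      Subtype.ext (by simpa using hxy)
  have i1 := finI (Z' := Y') f1
  have i2 := finI (Z' := Y₁) f2
  have i3 := finI (Z' := Y₁) f1
  have i4 := finI (Z' := Y₀) f1
  have i5 := finI (Z' := Y₁) f3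
  unfold dst at t1 t2
  rw [card_res] at t1 t2
  rw [Module.natCard_eq_pow_finrank (K := F) (V := Y), Module.natCard_eq_pow_finrank (K := F) (V := Y')] at c1
  rw [Module.natCard_eq_pow_finrank (K := F) (V := Y), Module.natCard_eq_pow_finrank (K := F) (V := Y₀)] at c2
  rw [Module.natCard_eq_pow_finrank (K := F) (V := Y), Module.natCard_eq_pow_finrank (K := F) (V := Y₁)] at c3
  have c1' := Nat.pow_right_injective q2 c1
  have c2' := Nat.pow_right_injective q2 c2
  have c3' := Nat.pow_right_injective q2 c3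
  simp only [Module.natCard_eq_pow_finrank (K := F) (V := Y),
    Module.natCard_eq_pow_finrank (K := F) (V := Y'), Module.natCard_eq_pow_finrank (K := F) (V := Y₀),
    Module.natCard_eq_pow_finrank (K := F) (V := ↥(Y ⊓ Y')),
    Module.natCard_eq_pow_finrank (K := F) (V := ↥(Y' ⊓ Y₁)),
    Module.natCard_eq_pow_finrank (K := F) (V := ↥(Y ⊓ Y₁)),
    Module.natCard_eq_pow_finrank (K := F) (V := ↥(Y ⊓ Y₀)),
    Module.natCard_eq_pow_finrank (K := F) (V := ↥(Y₀ ⊓ Y₁)), ← pow_add, ev_iff q2] at t1 t2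
  rw [Int.even_iff] at key h4 h4'
  rw [Nat.even_iff] at t1 t2 ⊢
  omega

end crd

section mod

variable {G Γ : Type*} [Group G] [Group Γ] {S : FSys G} {Sq : FSys Γ} {χ : G → ℤ_[2]}
  {χq : Γ → ℤ_[2]} {e : G →* Γ} {c : Γ} {κ : G →* G} {P : Type*} [Group P] {T : FSys P}
  {jp : P →* Γ} {iv : (P → P → A0) → A0} {O : Type v} [CommRing O] [IsLocalRing O]
  [Finite (IsLocalRing.ResidueField O)] [CharP (IsLocalRing.ResidueField O) 2]
  [Algebra (ZMod 2) (IsLocalRing.ResidueField O)] {M : Type v} [AddCommGroup M] [Module O M]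
  [Finite M] {ρ : G → M → M} {b : M →+ M →+ A0} {Θ : Set (G × G)} {C : M → M}

/-- THE INTERSECTION OF TWO CONDITIONS with the contributions `δ` and `δ'`. -/
theorem locM_cmp (p : PlQ.{v} S Sq χ χq e c κ T jp iv) (h : SDualF S χ κ Θ O ρ b)
    (hC : InvC κ O ρ b C) (hodd : ∀ g, (2 : ℤ_[2]) ∣ χ g - 1)
    (hM : ∀ a ∈ IsLocalRing.maximalIdeal O, ∀ m : M, a • m = 0) {Y Y' : Submodule O (P → M × M)}
    (hY : Lag T iv (fun d => ac2 e c κ ρ (jp d)) (be2 b)
      (fun (a : O) d => la2 e c κ ρ b a (jp d)) Y)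
    (hY' : Lag T iv (fun d => ac2 e c κ ρ (jp d)) (be2 b)
      (fun (a : O) d => la2 e c κ ρ b a (jp d)) Y') {δ δ' : ℕ}
    (h1 : LocM T jp iv e c κ (IsLocalRing.ResidueField O) ρ b C Y δ)
    (h2 : LocM T jp iv e c κ (IsLocalRing.ResidueField O) ρ b C Y' δ') :
    EvPow (Nat.card (IsLocalRing.ResidueField O)) (Nat.card ↥(Y ⊓ Y') *
      Nat.card (IsLocalRing.ResidueField O) ^ (δ + δ')) := by
  obtain ⟨n, iS, L, A, hc⟩ := exists_crd_res p.two hodd hM h hC
  have X := p.two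
  have hq : QM T (fun d => χq (jp d)) (IsLocalRing.ResidueField O)
      (fun d => ac2 e c κ (KT.act (A.comp e)) (jp d)) (be2 (bC A c))
      (fun (a : IsLocalRing.ResidueField O) d => la2 e c κ (KT.act (A.comp e)) (bC A c) a (jp d)) :=
    qm_tra (siso_f2 hc.iso) (fun d v => hc.act2 X (jp d) v) hc.be
      (fun a d v => hc.la X a (jp d) v) (p.qm h)
  have hlq := p.loc.ld hq.pair
  have hfz : Finite (zM (O := IsLocalRing.ResidueField O) T hq.act hq.lin) := hlq.fin
  have l1 := lag_tra (l' := fun (a : IsLocalRing.ResidueField O) d =>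
      la2 e c κ (KT.act (A.comp e)) (bC A c) a (jp d))
    (siso_f2 hc.iso) (fun d v => hc.act2 X (jp d) v) hc.be (fun a d v => hc.la X a (jp d) v) hY
  have l2 := lag_tra (l' := fun (a : IsLocalRing.ResidueField O) d =>
      la2 e c κ (KT.act (A.comp e)) (bC A c) a (jp d))
    (siso_f2 hc.iso) (fun d v => hc.act2 X (jp d) v) hc.be (fun a d v => hc.la X a (jp d) v) hY'
  have key := locPar_cmp X p.loc.toLocH hc.sp (p.smA hc h.sm) p.esm (p.ldA hc h.sm) hq hfz hlq l1 l2
    (h1 n iS L A hc) (h2 n iS L A hc)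
  have hfin : Finite (zM (O := O) T (p.qm h).act (p.qm h).lin) := (p.ldM h).fin
  have fY := lag_fin (p.qm h) hfin hY
  have fI : Finite ↥(Y ⊓ Y') := Finite.of_injective (fun x : ↥(Y ⊓ Y') => (⟨x.1, x.2.1⟩ : Y))
    fun x y hxy => Subtype.ext (by simpa using hxy)
  have fI' : Finite ↥(tra (siso_f2 hc.iso) Y ⊓ tra (siso_f2 hc.iso) Y') := by
    refine Nat.finite_of_card_ne_zero ?_
    rw [← tra_inf, card_tra]
    exact Nat.card_pos.ne'
  have e1 : Nat.card ↥(Y ⊓ Y') = Nat.card (IsLocalRing.ResidueField O) ^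
      Module.finrank (IsLocalRing.ResidueField O)
        ↥(tra (siso_f2 hc.iso) Y ⊓ tra (siso_f2 hc.iso) Y') := by
    rw [← Module.natCard_eq_pow_finrank (K := IsLocalRing.ResidueField O), ← tra_inf, card_tra]
  rw [e1, ← pow_add, ev_iff Finite.one_lt_card, ← add_assoc]
  exact key

end mod

end Pool.Agent.Work.MP_787500_nt.KJ
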