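import Mathlib
import Pool.Agent.Work.MP_787500_nt.KJ.XCmp
import Pool.Agent.Work.MP_787500_nt.KJ.RDbl
import Pool.Agent.Work.MP_787500_nt.IU.Fin

/-!
# KJ/XDbl: the intersection of the conditions of two stable submodules

`M` self-dual, `W₁`, `W₂` stable submodules of `M × M` that are their own annihilators, with `b v.1 w.2 = 0`. The parity of
the dimension of `indW W₁ ⊓ indW W₂` (`ind_cmp`), by the comparison of the conditions of `W₁ + W₂` and `W₂ + W₂` for the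
double `M × M` (KJ/RDbl), which has an involution.
-/

set_option autoImplicit false
set_option linter.unusedSectionVars false

namespace Pool.Agent.Work.MP_787500_nt.KJ

open Matrix
open Pool.Agent.Work.MP_787500_nt.GP (A0 IsAct EvPow IsPow card_pow isPow_mul d0)
open Pool.Agent.Work.MP_787500_nt.KR (FSys Sm1 IsChar Smooth Z1 LocH Pair LDual SDualF)
open Pool.Agent.Work.MP_787500_nt.QS (Two ac2 be2 la2 Lag QM pB be2_apply pB_apply)
open Pool.Agent.Work.MP_787500_nt.QP (InvC)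
open Pool.Agent.Work.MP_787500_nt.KI (LocM PlQ)
open Pool.Agent.Work.MP_787500_nt.OR (indW mem_indW fixV mem_fixV lag_indW)
open Pool.Agent.Work.MP_787500_nt.OL (lag_fin ev_iff)
open Pool.Agent.Work.MP_787500_nt.IU (Eul locM_ind)

universe v

variable {G Γ : Type*} [Group G] [Group Γ] {S : FSys G} {Sq : FSys Γ} {χ : G → ℤ_[2]}
  {χq : Γ → ℤ_[2]} {e : G →* Γ} {c : Γ} {κ : G →* G} {P : Type*} [Group P] {T : FSys P}
  {jp : P →* Γ} {iv : (P → P → A0) → A0} {Θ : Set (G × G)}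

section gen

variable {O : Type*} [CommRing O] {M : Type v} [AddCommGroup M] [Module O M] {act : G → M → M}
  {b : M →+ M →+ A0}

/-- the condition of a stable submodule is Lagrangian -/
theorem lag_ind2 [Finite M] (p : PlQ.{v} S Sq χ χq e c κ T jp iv) (h : SDualF S χ κ Θ O act b)
    {W : Submodule O (M × M)} (hst : ∀ d, ∀ w ∈ W, ac2 e c κ act (jp d) w ∈ W)
    (hb : ∀ v ∈ W, ∀ w ∈ W, b v.1 w.2 = 0) (hp : ∀ v, (∀ w ∈ W, pB (be2 b) w v = 0) → v ∈ W) :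
    Lag T iv (fun d => ac2 e c κ act (jp d)) (be2 b)
      (fun (a : O) d => la2 e c κ act b a (jp d)) (indW T (p.qm h).act (p.qm h).lin W) := by
  refine lag_indW p.loc (p.qm h) hst hb (fun a g v hv => ?_) hp
  unfold la2
  split_ifs
  · rfl
  · exact hb _ (W.smul_mem a (hst g v hv)) _ (hst g v hv)

/-- the first components -/
def fs (v : (M × M) × (M × M)) : M × M := (v.1.1, v.2.1)

/-- the second components, exchanged -/
def sn (v : (M × M) × (M × M)) : M × M := (v.2.2, v.1.2)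

/-- the element with given components -/
def jn (v w : M × M) : (M × M) × (M × M) := ((v.1, w.2), (v.2, w.1))

theorem fs_sn {v w : (M × M) × (M × M)} (h1 : fs v = fs w) (h2 : sn v = sn w) : v = w := by
  have k1 : (fs v).1 = (fs w).1 := by rw [h1]
  have k2 : (fs v).2 = (fs w).2 := by rw [h1]
  have k3 : (sn v).1 = (sn w).1 := by rw [h2]
  have k4 : (sn v).2 = (sn w).2 := by rw [h2]
  exact Prod.ext (Prod.ext k1 k4) (Prod.ext k2 k3)

theorem ac2_fs (X : Two e c κ) (ha : IsAct act) (g : Γ) (v : (M × M) × (M × M)) :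
    fs (ac2 e c κ (actD κ act) g v) = ac2 e c κ act g (fs v) := by
  rcases X.cases g with ⟨g, rfl⟩ | ⟨g, rfl⟩
  · rw [X.ac_e, X.ac_e]
    rfl
  · rw [X.ac_ec, X.ac_ec]
    rfl

theorem ac2_sn (X : Two e c κ) (ha : IsAct act) (g : Γ) (v : (M × M) × (M × M)) :
    sn (ac2 e c κ (actD κ act) g v) = ac2 e c κ act g (sn v) := by
  rcases X.cases g with ⟨g, rfl⟩ | ⟨g, rfl⟩
  · rw [X.ac_e, X.ac_e]
    refine Prod.ext ?_ rfl
    show act (κ (κ g)) v.2.2 = act g v.2.2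
    rw [X.kk]
  · rw [X.ac_ec, X.ac_ec]
    refine Prod.ext ?_ rfl
    show act (κ (κ g)) v.1.2 = act g v.1.2
    rw [X.kk]

/-- the sum of `Wa` and `Wb` in the square of the double -/
def dblW (Wa Wb : Submodule O (M × M)) : Submodule O ((M × M) × (M × M)) where
  carrier := {v | fs v ∈ Wa ∧ sn v ∈ Wb}
  add_mem' := fun h h' => ⟨Wa.add_mem h.1 h'.1, Wb.add_mem h.2 h'.2⟩
  zero_mem' := ⟨Wa.zero_mem, Wb.zero_mem⟩
  smul_mem' := fun a _ h => ⟨Wa.smul_mem a h.1, Wb.smul_mem a h.2⟩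

theorem mem_dblW {Wa Wb : Submodule O (M × M)} {v : (M × M) × (M × M)} :
    v ∈ dblW Wa Wb ↔ fs v ∈ Wa ∧ sn v ∈ Wb := Iff.rfl

variable {Wa Wb : Submodule O (M × M)}

private theorem dbl_st (X : Two e c κ) (ha : IsAct act)
    (ha' : ∀ d, ∀ w ∈ Wa, ac2 e c κ act (jp d) w ∈ Wa)
    (hb' : ∀ d, ∀ w ∈ Wb, ac2 e c κ act (jp d) w ∈ Wb) (d : P) {w : (M × M) × (M × M)}
    (hw : w ∈ dblW Wa Wb) : ac2 e c κ (actD κ act) (jp d) w ∈ dblW Wa Wb :=
  ⟨by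
    rw [ac2_fs X ha]
    exact ha' d _ hw.1, by
    rw [ac2_sn X ha]
    exact hb' d _ hw.2⟩

private theorem dbl_iso (hs : ∀ x y, b x y = b y x) (ha' : ∀ v ∈ Wa, ∀ w ∈ Wa, b v.1 w.2 = 0)
    (hb' : ∀ v ∈ Wb, ∀ w ∈ Wb, b v.1 w.2 = 0) {v w : (M × M) × (M × M)} (hv : v ∈ dblW Wa Wb)
    (hw : w ∈ dblW Wa Wb) : bD b v.1 w.2 = 0 := by
  rw [bD_apply]
  have h1 : b v.1.1 w.2.1 = 0 := ha' (fs v) hv.1 (fs w) hw.1
  have h2 : b w.2.2 v.1.2 = 0 := hb' (sn w) hw.2 (sn v) hv.2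
  rw [h1, hs, h2, add_zero]

private theorem dbl_perp (hs : ∀ x y, b x y = b y x)
    (ha' : ∀ v, (∀ w ∈ Wa, pB (be2 b) w v = 0) → v ∈ Wa)
    (hb' : ∀ v, (∀ w ∈ Wb, pB (be2 b) w v = 0) → v ∈ Wb) {v : (M × M) × (M × M)}
    (h : ∀ w ∈ dblW Wa Wb, pB (be2 (bD b)) w v = 0) : v ∈ dblW Wa Wb := by
  refine ⟨ha' _ fun w hw => ?_, hb' _ fun w hw => ?_⟩
  · have h1 := h (jn w 0) ⟨hw, Wb.zero_mem⟩
    rw [pB_apply, be2_apply, be2_apply, bD_apply, bD_apply] at h1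
    rw [pB_apply, be2_apply, be2_apply]
    have e1 : b (jn w 0).1.2 v.2.2 = 0 := by
      show b (0 : M) v.2.2 = 0
      rw [map_zero]
      rfl
    have e2 : b v.1.2 (jn w 0).2.2 = 0 := map_zero _
    rw [e1, e2, add_zero, add_zero] at h1
    exact h1
  · have h1 := h (jn 0 w) ⟨Wa.zero_mem, hw⟩
    rw [pB_apply, be2_apply, be2_apply, bD_apply, bD_apply] at h1
    rw [pB_apply, be2_apply, be2_apply]
    have e1 : b (jn 0 w).1.1 v.2.1 = 0 := by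
      show b (0 : M) v.2.1 = 0
      rw [map_zero]
      rfl
    have e2 : b v.1.1 (jn 0 w).2.1 = 0 := map_zero _
    rw [e1, e2, zero_add, zero_add] at h1
    have h2 : b w.2 v.2.2 - b v.1.2 w.1 = 0 := h1
    show b w.1 v.1.2 - b v.2.2 w.2 = 0
    rw [hs w.1, hs v.2.2, ← neg_sub, h2, neg_zero]

private theorem mem_ind_dbl (X : Two e c κ) (hact : IsAct act)
    {σact : IsAct (fun d => ac2 e c κ (actD κ act) (jp d))}
    {σlin : ∀ g (a : O) m, ac2 e c κ (actD κ act) (jp g) (a • m) =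
      a • ac2 e c κ (actD κ act) (jp g) m}
    {τact : IsAct (fun d => ac2 e c κ act (jp d))}
    {τlin : ∀ g (a : O) m, ac2 e c κ act (jp g) (a • m) = a • ac2 e c κ act (jp g) m}
    {x : P → (M × M) × (M × M)} :
    x ∈ indW T σact σlin (dblW Wa Wb) ↔ (fun d => fs (x d)) ∈ indW T τact τlin Wa ∧
      (fun d => sn (x d)) ∈ indW T τact τlin Wb := by
  have hz : Z1 T (fun d => ac2 e c κ (actD κ act) (jp d)) x ↔
      Z1 T (fun d => ac2 e c κ act (jp d)) (fun d => fs (x d)) ∧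
        Z1 T (fun d => ac2 e c κ act (jp d)) (fun d => sn (x d)) := by
    constructor
    · rintro ⟨⟨W, hW, h1⟩, h2⟩
      refine ⟨⟨⟨W, hW, fun g w hw => congrArg fs (h1 g w hw)⟩, fun a b => ?_⟩,
        ⟨⟨W, hW, fun g w hw => congrArg sn (h1 g w hw)⟩, fun a b => ?_⟩⟩
      · beta_reduce
        rw [h2, ← ac2_fs X hact]
        rfl
      · beta_reduce
        rw [h2, ← ac2_sn X hact]
        rfl
    · rintro ⟨⟨⟨W, hW, h1⟩, h2⟩, ⟨W', hW', h1'⟩, h2'⟩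
      refine ⟨⟨W ⊓ W', T.inf hW hW', fun g w hw => ?_⟩, fun a b => ?_⟩
      · exact fs_sn (h1 g w hw.1) (h1' g w hw.2)
      · have k1 := h2 a b
        have k2 := h2' a b
        beta_reduce at k1 k2
        rw [← ac2_fs X hact] at k1
        rw [← ac2_sn X hact] at k2
        exact fs_sn k1 k2
  rw [mem_indW, mem_indW, mem_indW, hz]
  have hf : ∀ (m : (M × M) × (M × M)) d, fs (x d - d0 (fun d => ac2 e c κ (actD κ act) (jp d)) m d) =
      fs (x d) - d0 (fun d => ac2 e c κ act (jp d)) (fs m) d := fun m d => by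
    show fs (x d - (ac2 e c κ (actD κ act) (jp d) m - m)) = fs (x d) - (ac2 e c κ act (jp d) (fs m) - fs m)
    rw [← ac2_fs X hact]
    rfl
  have hs : ∀ (m : (M × M) × (M × M)) d, sn (x d - d0 (fun d => ac2 e c κ (actD κ act) (jp d)) m d) =
      sn (x d) - d0 (fun d => ac2 e c κ act (jp d)) (sn m) d := fun m d => by
    show sn (x d - (ac2 e c κ (actD κ act) (jp d) m - m)) = sn (x d) - (ac2 e c κ act (jp d) (sn m) - sn m)
    rw [← ac2_sn X hact]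
    rfl
  constructor
  · rintro ⟨⟨h1, h2⟩, m, hm⟩
    refine ⟨⟨h1, fs m, fun d => ?_⟩, h2, sn m, fun d => ?_⟩
    · rw [← hf]
      exact (hm d).1
    · rw [← hs]
      exact (hm d).2
  · rintro ⟨⟨h1, m, hm⟩, h2, m', hm'⟩
    refine ⟨⟨h1, h2⟩, jn m m', fun d => ⟨?_, ?_⟩⟩
    · rw [hf]
      exact hm d
    · rw [hs]
      exact hm' d

private theorem card_spl {A B : Type*} (f : (M × M) × (M × M) → M × M) (X : Set (P → (M × M) × (M × M)))
    (Xa Xb : Set (P → M × M)) (h : ∀ x, x ∈ X ↔ (fun d => fs (x d)) ∈ Xa ∧ (fun d => sn (x d)) ∈ Xb) :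
    Nat.card X = Nat.card Xa * Nat.card Xb := by
  rw [← Nat.card_prod]
  exact Nat.card_congr
    { toFun := fun x => (⟨fun d => fs (x.1 d), ((h _).1 x.2).1⟩, ⟨fun d => sn (x.1 d), ((h _).1 x.2).2⟩)
      invFun := fun z => ⟨fun d => jn (z.1.1 d) (z.2.1 d), (h _).2 ⟨z.1.2, z.2.2⟩⟩
      left_inv := fun x => rfl
      right_inv := fun z => rfl }

private theorem card_fix_dbl (X : Two e c κ) (hact : IsAct act)
    {σact : IsAct (fun d => ac2 e c κ (actD κ act) (jp d))}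
    {σlin : ∀ g (a : O) m, ac2 e c κ (actD κ act) (jp g) (a • m) =
      a • ac2 e c κ (actD κ act) (jp g) m}
    {τact : IsAct (fun d => ac2 e c κ act (jp d))}
    {τlin : ∀ g (a : O) m, ac2 e c κ act (jp g) (a • m) = a • ac2 e c κ act (jp g) m} :
    Nat.card (fixV σact σlin (dblW Wa Wb)) = Nat.card (fixV τact τlin Wa) *
      Nat.card (fixV τact τlin Wb) := by
  have key : ∀ v : (M × M) × (M × M), v ∈ fixV σact σlin (dblW Wa Wb) ↔
      fs v ∈ fixV τact τlin Wa ∧ sn v ∈ fixV τact τlin Wb := by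
    intro v
    rw [mem_fixV, mem_fixV, mem_fixV, ← forall_and]
    refine forall_congr' fun d => ?_
    rw [← ac2_fs X hact, ← ac2_sn X hact]
    exact Iff.rfl
  rw [← Nat.card_prod]
  exact Nat.card_congr
    { toFun := fun x => (⟨fs x.1, ((key _).1 x.2).1⟩, ⟨sn x.1, ((key _).1 x.2).2⟩)
      invFun := fun z => ⟨jn z.1.1 z.2.1, (key _).2 ⟨z.1.2, z.2.2⟩⟩
      left_inv := fun x => rfl
      right_inv := fun z => rfl }

end gen

variable {O : Type v} [CommRing O] [IsLocalRing O]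
  [Finite (IsLocalRing.ResidueField O)] [CharP (IsLocalRing.ResidueField O) 2]
  [Algebra (ZMod 2) (IsLocalRing.ResidueField O)] {M : Type v} [AddCommGroup M] [Module O M]
  [Finite M] {act : G → M → M} {b : M →+ M →+ A0}

/-- THE INTERSECTION of the conditions of two stable submodules. -/
theorem ind_cmp (p : PlQ.{v} S Sq χ χq e c κ T jp iv) (h : SDualF S χ κ Θ O act b)
    (hodd : ∀ g, (2 : ℤ_[2]) ∣ χ g - 1)
    (hM : ∀ a ∈ IsLocalRing.maximalIdeal O, ∀ m : M, a • m = 0) {τ : P} (hτ : ∀ g, e g ≠ jp τ)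
    {k : ℕ} (hE : Eul.{v} T k) {W₁ W₂ : Submodule O (M × M)}
    (hst₁ : ∀ d, ∀ w ∈ W₁, ac2 e c κ act (jp d) w ∈ W₁)
    (hb₁ : ∀ v ∈ W₁, ∀ w ∈ W₁, b v.1 w.2 = 0)
    (hp₁ : ∀ v, (∀ w ∈ W₁, pB (be2 b) w v = 0) → v ∈ W₁)
    (hst₂ : ∀ d, ∀ w ∈ W₂, ac2 e c κ act (jp d) w ∈ W₂)
    (hb₂ : ∀ v ∈ W₂, ∀ w ∈ W₂, b v.1 w.2 = 0)
    (hp₂ : ∀ v, (∀ w ∈ W₂, pB (be2 b) w v = 0) → v ∈ W₂) :
    EvPow (Nat.card (IsLocalRing.ResidueField O))
      (Nat.card ↥(indW T (p.qm h).act (p.qm h).lin W₁ ⊓ indW T (p.qm h).act (p.qm h).lin W₂) *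
        Nat.card (indW T (p.qm h).act (p.qm h).lin W₂) *
        Nat.card (fixV (p.qm h).act (p.qm h).lin W₁) *
        Nat.card (fixV (p.qm h).act (p.qm h).lin W₂)) := by
  have X := p.two
  have q2 : 2 ≤ Nat.card (IsLocalRing.ResidueField O) := Finite.one_lt_card
  have h2 : ∀ m : M, m + m = 0 := by
    intro m
    have h3 : (2 : O) ∈ IsLocalRing.maximalIdeal O := by
      rw [← IsLocalRing.residue_eq_zero_iff, map_ofNat]
      exact CharTwo.two_eq_zero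
    have h4 := hM 2 h3 m
    rwa [two_smul] at h4
  have hD : SDualF S χ κ ∅ O (actD κ act) (bD b) := sdualD X.kk p.ks h
  have hC := invD X.kk h2 h
  have hMD : ∀ a ∈ IsLocalRing.maximalIdeal O, ∀ m : M × M, a • m = 0 := fun a ha m =>
    Prod.ext (hM a ha m.1) (hM a ha m.2)
  have hq := p.qm h
  have hqD := p.qm hD
  have st : ∀ {Wa Wb : Submodule O (M × M)}, (∀ d, ∀ w ∈ Wa, ac2 e c κ act (jp d) w ∈ Wa) →
      (∀ d, ∀ w ∈ Wb, ac2 e c κ act (jp d) w ∈ Wb) → ∀ d, ∀ w ∈ dblW Wa Wb,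
      ac2 e c κ (actD κ act) (jp d) w ∈ dblW Wa Wb := fun h1 h2 d w hw => dbl_st X h.act h1 h2 d hw
  have io : ∀ {Wa Wb : Submodule O (M × M)}, (∀ v ∈ Wa, ∀ w ∈ Wa, b v.1 w.2 = 0) →
      (∀ v ∈ Wb, ∀ w ∈ Wb, b v.1 w.2 = 0) → ∀ v ∈ dblW Wa Wb, ∀ w ∈ dblW Wa Wb,
      bD b v.1 w.2 = 0 := fun h1 h2 v hv w hw => dbl_iso h.symm h1 h2 hv hw
  have pe : ∀ {Wa Wb : Submodule O (M × M)}, (∀ v, (∀ w ∈ Wa, pB (be2 b) w v = 0) → v ∈ Wa) →
      (∀ v, (∀ w ∈ Wb, pB (be2 b) w v = 0) → v ∈ Wb) → ∀ v,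
      (∀ w ∈ dblW Wa Wb, pB (be2 (bD b)) w v = 0) → v ∈ dblW Wa Wb :=
    fun h1 h2 v hv => dbl_perp h.symm h1 h2 hv
  -- the contributions
  have con : ∀ {W : Submodule O ((M × M) × (M × M))},
      (∀ d, ∀ w ∈ W, ac2 e c κ (actD κ act) (jp d) w ∈ W) →
      (∀ v ∈ W, ∀ w ∈ W, bD b v.1 w.2 = 0) → (∀ v, (∀ w ∈ W, pB (be2 (bD b)) w v = 0) → v ∈ W) →
      ∃ δ : ℕ, Nat.card (fixV hqD.act hqD.lin W) = Nat.card (IsLocalRing.ResidueField O) ^ δ ∧
        LocM T jp iv e c κ (IsLocalRing.ResidueField O) (actD κ act) (bD b) swD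
          (indW T hqD.act hqD.lin W) δ := by
    intro W h1 h3 h4
    obtain ⟨δ, hδ⟩ := card_pow (O := O) (fixV hqD.act hqD.lin W)
    refine ⟨δ, hδ, locM_ind p hD hC hτ hE h1 h3 h4 (fun x hx => hx.1) ?_⟩
    have hl := lag_ind2 p hD h1 h3 h4
    have hfz : Finite (KR.zM (O := O) T hqD.act hqD.lin) := (p.ldM hD).fin
    have hfi := lag_fin hqD hfz hl
    obtain ⟨r, hr⟩ := card_pow (O := O) (indW T hqD.act hqD.lin W)
    rw [inf_idem, hδ, hr]
    refine ⟨r + δ, ?_⟩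
    ring
  obtain ⟨δ₁, hδ₁, hl₁⟩ := con (st hst₁ hst₂) (io hb₁ hb₂) (pe hp₁ hp₂)
  obtain ⟨δ₂, hδ₂, hl₂⟩ := con (st hst₂ hst₂) (io hb₂ hb₂) (pe hp₂ hp₂)
  have key := locM_cmp p hD hC hodd hMD
    (lag_ind2 p hD (st hst₁ hst₂) (io hb₁ hb₂) (pe hp₁ hp₂))
    (lag_ind2 p hD (st hst₂ hst₂) (io hb₂ hb₂) (pe hp₂ hp₂)) hl₁ hl₂
  have e1 : Nat.card ↥(indW T hqD.act hqD.lin (dblW W₁ W₂) ⊓
      indW T hqD.act hqD.lin (dblW W₂ W₂)) =
      Nat.card ↥(indW T hq.act hq.lin W₁ ⊓ indW T hq.act hq.lin W₂) *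
        Nat.card (indW T hq.act hq.lin W₂) := by
    refine card_spl (A := M) (B := M) (fun v => v.1)
      (X := ((indW T hqD.act hqD.lin (dblW W₁ W₂) ⊓ indW T hqD.act hqD.lin (dblW W₂ W₂) :
        Submodule O (P → (M × M) × (M × M))) : Set (P → (M × M) × (M × M))))
      (Xa := ((indW T hq.act hq.lin W₁ ⊓ indW T hq.act hq.lin W₂ : Submodule O (P → M × M)) :
        Set (P → M × M)))
      (Xb := ((indW T hq.act hq.lin W₂ : Submodule O (P → M × M)) : Set (P → M × M))) fun x => ?_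
    show (x ∈ indW T hqD.act hqD.lin (dblW W₁ W₂) ∧ x ∈ indW T hqD.act hqD.lin (dblW W₂ W₂)) ↔ _
    rw [mem_ind_dbl (τact := hq.act) (τlin := hq.lin) X h.act,
      mem_ind_dbl (τact := hq.act) (τlin := hq.lin) X h.act]
    exact ⟨fun k => ⟨⟨k.1.1, k.2.1⟩, k.1.2⟩, fun k => ⟨⟨k.1.1, k.2⟩, k.1.2, k.2⟩⟩
  have e2 := card_fix_dbl (Wa := W₁) (Wb := W₂) (σact := hqD.act) (σlin := hqD.lin)
    (τact := hq.act) (τlin := hq.lin) X h.act
  have e3 := card_fix_dbl (Wa := W₂) (Wb := W₂) (σact := hqD.act) (σlin := hqD.lin)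
    (τact := hq.act) (τlin := hq.lin) X h.act
  rw [e1] at key
  have hl := lag_ind2 p h hst₂ hb₂ hp₂
  have hfz : Finite (KR.zM (O := O) T hq.act hq.lin) := (p.ldM h).fin
  have hfi := lag_fin hq hfz hl
  have hfi' : Finite ↥(indW T hq.act hq.lin W₁ ⊓ indW T hq.act hq.lin W₂) :=
    Finite.of_injective (fun x => (⟨x.1, x.2.2⟩ : indW T hq.act hq.lin W₂)) fun x y hxy =>
      Subtype.ext (by simpa using hxy)
  obtain ⟨r1, hr1⟩ := card_pow (O := O) ↥(indW T hq.act hq.lin W₁ ⊓ indW T hq.act hq.lin W₂)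
  obtain ⟨r2, hr2⟩ := card_pow (O := O) (indW T hq.act hq.lin W₂)
  obtain ⟨a1, ha1⟩ := card_pow (O := O) (fixV hq.act hq.lin W₁)
  obtain ⟨a2, ha2⟩ := card_pow (O := O) (fixV hq.act hq.lin W₂)
  rw [hδ₁, ha1, ha2, ← pow_add] at e2
  rw [hδ₂, ha2, ← pow_add] at e3
  have e2' := Nat.pow_right_injective q2 e2
  have e3' := Nat.pow_right_injective q2 e3
  rw [hr1, hr2, ← pow_add, ← pow_add, ev_iff q2, Nat.even_iff] at key
  rw [hr1, hr2, ha1, ha2, ← pow_add, ← pow_add, ← pow_add, ev_iff q2, Nat.even_iff]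
  omega

end Pool.Agent.Work.MP_787500_nt.KJ
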