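import Mathlib
import Pool.Agent.Work.MP_787500_nt.KJ.Loc

/-!
# KJ/XRed: stable submodules of `M × M` and `U × U`, `M = U × N × N`

* `redW`: the reduction of a submodule of `M × M` to `U × U`; `redW_st`, `redW_iso`, `redW_perp`.
* `extW`: the sum of a submodule of `U × U` and the first `N × N`; `extW_st`, `extW_iso`, `extW_perp`.
-/

set_option autoImplicit false
set_option linter.unusedSectionVars false

namespace Pool.Agent.Work.MP_787500_nt.KJ

open Matrix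
open Pool.Agent.Work.MP_787500_nt.GP (A0 IsAct perpL perp_perp)
open Pool.Agent.Work.MP_787500_nt.KR (FSys SDualF)
open Pool.Agent.Work.MP_787500_nt.QS (Two ac2 be2 la2 pB QM be2_apply pB_apply)
open Pool.Agent.Work.MP_787500_nt.KI (PlQ)
open Pool.Agent.Work.MP_787500_nt.RC (SplS)

universe v

section alg

variable {O : Type*} [CommRing O] {M U N : Type*} [AddCommGroup M] [Module O M] [AddCommGroup U]
  [Module O U] [AddCommGroup N] [Module O N] {G Γ : Type*} [Group G] [Group Γ] {e : G →* Γ} {c : Γ}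
  {κ : G →* G} {act : G → M → M} {b : M →+ M →+ A0} {aU : G → U → U} {bU : U →+ U →+ A0}
  {aN : G → N → N} {h : N →+ N →+ A0} {Φ : M ≃ₗ[O] U × N × N}

theorem qU_add (v w : M × M) : qU Φ (v + w) = qU Φ v + qU Φ w := by
  simp [qU]

theorem qN_add (v w : M × M) : qN Φ (v + w) = qN Φ v + qN Φ w := by
  simp [qN]

theorem qN'_add (v w : M × M) : qN' Φ (v + w) = qN' Φ v + qN' Φ w := by
  simp [qN']

theorem qU_zero : qU Φ (0 : M × M) = 0 := by
  simp [qU]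

theorem qN_zero : qN Φ (0 : M × M) = 0 := by
  simp [qN]

theorem qN'_zero : qN' Φ (0 : M × M) = 0 := by
  simp [qN']

/-- the element with given components -/
def mkq (Φ : M ≃ₗ[O] U × N × N) (u : U × U) (y z : N × N) : M × M :=
  (Φ.symm (u.1, y.1, z.1), Φ.symm (u.2, y.2, z.2))

theorem qU_mk (u : U × U) (y z : N × N) : qU Φ (mkq Φ u y z) = u := by
  simp [qU, mkq]

theorem qN_mk (u : U × U) (y z : N × N) : qN Φ (mkq Φ u y z) = y := by
  simp [qN, mkq]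

theorem qN'_mk (u : U × U) (y z : N × N) : qN' Φ (mkq Φ u y z) = z := by
  simp [qN', mkq]

theorem mk_q (v : M × M) : mkq Φ (qU Φ v) (qN Φ v) (qN' Φ v) = v :=
  q_ext (Φ := Φ) (qU_mk _ _ _) (qN_mk _ _ _) (qN'_mk _ _ _)

/-- the reduction of a submodule of `M × M` to `U × U` -/
def redW (Φ : M ≃ₗ[O] U × N × N) (W : Submodule O (M × M)) : Submodule O (U × U) where
  carrier := {u | ∃ v ∈ W, qN' Φ v = 0 ∧ qU Φ v = u}
  add_mem' := by
    rintro _ _ ⟨v, hv, h1, rfl⟩ ⟨w, hw, h2, rfl⟩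
    exact ⟨v + w, W.add_mem hv hw, by rw [qN'_add, h1, h2, add_zero], qU_add v w⟩
  zero_mem' := ⟨0, W.zero_mem, qN'_zero, qU_zero⟩
  smul_mem' := by
    rintro a _ ⟨v, hv, h1, rfl⟩
    exact ⟨a • v, W.smul_mem a hv, by rw [qN'_smul, h1, smul_zero], qU_smul a v⟩

theorem mem_redW {W : Submodule O (M × M)} {u : U × U} :
    u ∈ redW Φ W ↔ ∃ v ∈ W, qN' Φ v = 0 ∧ qU Φ v = u := Iff.rfl

/-- the sum of a submodule of `U × U` and the first `N × N` -/
def extW (Φ : M ≃ₗ[O] U × N × N) (W : Submodule O (U × U)) : Submodule O (M × M) where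
  carrier := {v | qU Φ v ∈ W ∧ qN' Φ v = 0}
  add_mem' := by
    rintro v w ⟨h1, h2⟩ ⟨h1', h2'⟩
    refine ⟨?_, by rw [qN'_add, h2, h2', add_zero]⟩
    rw [qU_add]
    exact W.add_mem h1 h1'
  zero_mem' := ⟨by
    rw [qU_zero]
    exact W.zero_mem, qN'_zero⟩
  smul_mem' := by
    rintro a v ⟨h1, h2⟩
    refine ⟨?_, by rw [qN'_smul, h2, smul_zero]⟩
    rw [qU_smul]
    exact W.smul_mem a h1

theorem mem_extW {W : Submodule O (U × U)} {v : M × M} :
    v ∈ extW Φ W ↔ qU Φ v ∈ W ∧ qN' Φ v = 0 := Iff.rfl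

variable {P : Type*} {jp : P → Γ}

theorem redW_st (s : SplS O act b aU bU aN h Φ) (X : Two e c κ) (ha : IsAct act)
    {W : Submodule O (M × M)} (hst : ∀ d, ∀ w ∈ W, ac2 e c κ act (jp d) w ∈ W) :
    ∀ d, ∀ w ∈ redW Φ W, ac2 e c κ aU (jp d) w ∈ redW Φ W := by
  rintro d _ ⟨v, hv, h1, rfl⟩
  refine ⟨_, hst d v hv, ?_, ac2_U s X _ _⟩
  rw [ac2_N' s X, h1]
  exact ((X.act (isAct_N s ha)).comp (MonoidHom.id Γ)).zero _

theorem redW_iso (s : SplS O act b aU bU aN h Φ) {W : Submodule O (M × M)}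
    (hb : ∀ v ∈ W, ∀ w ∈ W, b v.1 w.2 = 0) :
    ∀ v ∈ redW Φ W, ∀ w ∈ redW Φ W, bU v.1 w.2 = 0 := by
  rintro _ ⟨v, hv, h1, rfl⟩ _ ⟨w, hw, h2, rfl⟩
  have h3 := hb v hv w hw
  have h4 := be2_spl s v w
  rw [h1, h2, map_zero, map_zero, AddMonoidHom.zero_apply, add_zero, add_zero] at h4
  exact h4.symm.trans h3

theorem extW_st (s : SplS O act b aU bU aN h Φ) (X : Two e c κ) (ha : IsAct act)
    {W : Submodule O (U × U)} (hst : ∀ d, ∀ w ∈ W, ac2 e c κ aU (jp d) w ∈ W) :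
    ∀ d, ∀ w ∈ extW Φ W, ac2 e c κ act (jp d) w ∈ extW Φ W := by
  rintro d v ⟨h1, h2⟩
  refine ⟨?_, ?_⟩
  · rw [ac2_U s X]
    exact hst d _ h1
  · rw [ac2_N' s X, h2]
    exact ((X.act (isAct_N s ha)).comp (MonoidHom.id Γ)).zero _

theorem extW_iso (s : SplS O act b aU bU aN h Φ) {W : Submodule O (U × U)}
    (hb : ∀ v ∈ W, ∀ w ∈ W, bU v.1 w.2 = 0) :
    ∀ v ∈ extW Φ W, ∀ w ∈ extW Φ W, b v.1 w.2 = 0 := by
  rintro v ⟨h1, h2⟩ w ⟨h1', h2'⟩
  have h4 := be2_spl s v w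
  rw [h2, h2', map_zero, map_zero, AddMonoidHom.zero_apply, add_zero, add_zero] at h4
  exact h4.trans (hb _ h1 _ h1')

end alg

section dual

variable {G Γ : Type*} [Group G] [Group Γ] {S : FSys G} {Sq : FSys Γ} {χ : G → ℤ_[2]}
  {χq : Γ → ℤ_[2]} {e : G →* Γ} {c : Γ} {κ : G →* G} {P : Type*} [Group P] {T : FSys P}
  {jp : P →* Γ} {iv : (P → P → A0) → A0} {O : Type*} [CommRing O] {M U N : Type v}
  [AddCommGroup M] [Module O M]
  [Finite M] [AddCommGroup U] [Module O U] [Finite U] [AddCommGroup N] [Module O N] [Finite N]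
  {act : G → M → M} {b : M →+ M →+ A0} {aU : G → U → U} {bU : U →+ U →+ A0} {aN : G → N → N}
  {h : N →+ N →+ A0} {Φ : M ≃ₗ[O] U × N × N} {Θ : Set (G × G)}

theorem redW_perp (p : PlQ.{v} S Sq χ χq e c κ T jp iv) (hs : SDualF S χ κ Θ O act b)
    (s : SplS O act b aU bU aN h Φ) {W : Submodule O (M × M)}
    (hp : ∀ v, (∀ w ∈ W, pB (be2 b) w v = 0) → v ∈ W) :
    ∀ v, (∀ w ∈ redW Φ W, pB (be2 bU) w v = 0) → v ∈ redW Φ W := by
  intro u hu
  have hnd := (p.qm hs).nd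
  have hndN := (p.qm (sdualN s hs)).nd
  let N' : Submodule O (M × M) := extW Φ (⊥ : Submodule O (U × U))
  have hN' : ∀ y, mkq Φ 0 y 0 ∈ N' := fun y => ⟨by
    rw [qU_mk]
    exact (⊥ : Submodule O (U × U)).zero_mem, qN'_mk _ _ _⟩
  have h1 := perp_perp (pB (be2 b)) (W ⊔ N').toAddSubgroup fun a ha => by
    rw [hnd a ha]
    exact AddSubgroup.zero_mem _
  have h2 : mkq Φ u 0 0 ∈ perpL (pB (be2 b)).flip (perpL (pB (be2 b)) (W ⊔ N').toAddSubgroup) := by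
    intro a ha
    show pB (be2 b) (mkq Φ u 0 0) a = 0
    have k1 : a ∈ W := hp a fun w hw => ha w (Submodule.mem_sup_left hw)
    have k2 : qN' Φ a = 0 := by
      refine hndN _ fun y => ?_
      have k3 := ha (mkq Φ 0 y 0) (Submodule.mem_sup_right (hN' y))
      rw [pB_spl s, qU_mk, qN_mk, qN'_mk, map_zero, map_zero, AddMonoidHom.zero_apply,
        AddMonoidHom.zero_apply, zero_add, add_zero] at k3
      rw [pB_apply] at k3 ⊢
      rw [← neg_sub, k3, neg_zero]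
    rw [pB_spl s, qU_mk, qN_mk, qN'_mk, map_zero, AddMonoidHom.zero_apply,
      AddMonoidHom.zero_apply, add_zero, add_zero]
    have k4 := hu (qU Φ a) ⟨a, k1, k2, rfl⟩
    rw [pB_apply] at k4 ⊢
    rw [← neg_sub, k4, neg_zero]
  rw [h1] at h2
  obtain ⟨w, hw, z, hz, hwz⟩ := (Submodule.mem_sup (p := W) (p' := N')).1 h2
  have e1 : qU Φ z = 0 := hz.1
  have e2 : qN' Φ z = 0 := hz.2
  refine ⟨w, hw, ?_, ?_⟩
  · have e3 := congrArg (qN' Φ) hwz
    rwa [qN'_add, e2, add_zero, qN'_mk] at e3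
  · have e3 := congrArg (qU Φ) hwz
    rwa [qU_add, e1, add_zero, qU_mk] at e3

theorem extW_perp (p : PlQ.{v} S Sq χ χq e c κ T jp iv) (hs : SDualF S χ κ Θ O act b)
    (s : SplS O act b aU bU aN h Φ) {W : Submodule O (U × U)}
    (hp : ∀ v, (∀ w ∈ W, pB (be2 bU) w v = 0) → v ∈ W) :
    ∀ v, (∀ w ∈ extW Φ W, pB (be2 b) w v = 0) → v ∈ extW Φ W := by
  intro v hv
  have hndN := (p.qm (sdualN s hs)).nd
  refine ⟨hp _ fun w hw => ?_, hndN _ fun y => ?_⟩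
  · have k3 := hv (mkq Φ w 0 0) ⟨by
      rw [qU_mk]
      exact hw, qN'_mk _ _ _⟩
    rw [pB_spl s, qU_mk, qN_mk, qN'_mk, map_zero, AddMonoidHom.zero_apply,
      AddMonoidHom.zero_apply, add_zero, add_zero] at k3
    exact k3
  · have k3 := hv (mkq Φ 0 y 0) ⟨by
      rw [qU_mk]
      exact W.zero_mem, qN'_mk _ _ _⟩
    rw [pB_spl s, qU_mk, qN_mk, qN'_mk, map_zero, map_zero, AddMonoidHom.zero_apply,
      AddMonoidHom.zero_apply, zero_add, add_zero] at k3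
    rw [pB_apply] at k3 ⊢
    rw [← neg_sub, k3, neg_zero]

end dual

end Pool.Agent.Work.MP_787500_nt.KJ
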