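import Mathlib
import Pool.Agent.Work.MP_787500_nt.KJ.Loc
import Pool.Agent.Work.MP_787500_nt.KS.LA
import Pool.Agent.Work.MP_787500_nt.KS.Main
import Pool.Agent.Work.MP_787500_nt.IU.Defs
import Pool.Agent.Work.MP_787500_nt.OU.Cnt

/-!
# KJ/XSelf: self-annihilating conditions exist

* `exists_lag`: a symmetric form over a finite field of characteristic 2 with even rank has a subspace that is its own
  annihilator.
* `exists_self`: a condition for `V` that is its own annihilator; `card_zb`: the number of cocycles and coboundaries from the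
  Euler characteristic.
* `exists_selfN`: for `N × N`.
-/

set_option autoImplicit false
set_option linter.unusedSectionVars false

namespace Pool.Agent.Work.MP_787500_nt.KJ

open Matrix
open Pool.Agent.Work.MP_787500_nt.GP (A0 IsAct EvPow IsPow card_pow isPow_mul d0 cup11)
open Pool.Agent.Work.MP_787500_nt.KR (FSys Sm1 IsChar Smooth Z1 LocH Pair LDual SDualF)
open Pool.Agent.Work.MP_787500_nt.KS (ann mem_ann finrank_ann rt rt_sq trace_trick hfT hfT_nondeg)
open Pool.Agent.Work.MP_787500_nt.QS (Two ac2 be2 la2 Lag QM pB be2_apply pB_apply locB locB_bal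
  locB_symm locB_apply)
open Pool.Agent.Work.MP_787500_nt.KI (PlQ)
open Pool.Agent.Work.MP_787500_nt.OL (ev_iff)
open Pool.Agent.Work.MP_787500_nt.IU (Eul)

universe v

section la

variable {F : Type*} [Field F] [Finite F] [CharP F 2] {V : Type*} [AddCommGroup V] [Module F V]
  [FiniteDimensional F V]

/-- A SUBSPACE THAT IS ITS OWN ANNIHILATOR. -/
theorem exists_lag (b : V →ₗ[F] V →ₗ[F] F) (hs : ∀ x y, b x y = b y x)
    (he : Even (Module.finrank F V + Module.finrank F (LinearMap.ker b))) :
    ∃ Y : Submodule F V, ∀ x, x ∈ Y ↔ ∀ y ∈ Y, b x y = 0 := by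
  let S : Set (Submodule F V) := {Y | ∀ x ∈ Y, ∀ y ∈ Y, b x y = 0}
  have hwf : WellFounded ((· > ·) : Submodule F V → Submodule F V → Prop) := wellFounded_gt
  have h0 : (⊥ : Submodule F V) ∈ S := by
    intro x hx y hy
    rw [(Submodule.mem_bot F).1 hx, map_zero, LinearMap.zero_apply]
  obtain ⟨Y, hY, hmax⟩ := hwf.has_min S ⟨_, h0⟩
  have hadd : ∀ v : V, b v v = 0 → (∀ y ∈ Y, b v y = 0) → v ∈ Y := by
    intro v hv hvy
    by_contra hn
    refine hmax (Y ⊔ Submodule.span F {v}) ?_ ?_
    · intro x hx y hy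
      obtain ⟨x1, hx1, x2, hx2, rfl⟩ := Submodule.mem_sup.1 hx
      obtain ⟨y1, hy1, y2, hy2, rfl⟩ := Submodule.mem_sup.1 hy
      obtain ⟨r, rfl⟩ := Submodule.mem_span_singleton.1 hx2
      obtain ⟨r', rfl⟩ := Submodule.mem_span_singleton.1 hy2
      simp only [map_add, map_smul, LinearMap.add_apply, LinearMap.smul_apply, smul_eq_mul]
      rw [hY _ hx1 _ hy1, hvy _ hy1, hs x1 v, hvy _ hx1, hv]
      simp
    · refine lt_of_le_of_ne le_sup_left fun h => hn ?_
      rw [h]
      exact Submodule.mem_sup_right (Submodule.mem_span_singleton_self v)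
  have hker : LinearMap.ker b ≤ Y := by
    intro x hx
    have h1 : ∀ y, b x y = 0 := fun y => by
      rw [LinearMap.mem_ker.1 hx, LinearMap.zero_apply]
    exact hadd x (h1 x) fun y _ => h1 y
  have hfr := finrank_ann hs hker
  have hle : Y ≤ ann b Y := fun x hx => mem_ann.2 fun y hy => hY x hx y hy
  refine ⟨Y, fun x => ⟨fun hx y hy => hY x hx y hy, fun hx => ?_⟩⟩
  by_contra hn
  have hx' : x ∈ ann b Y := mem_ann.2 hx
  have hne : Y ≠ ann b Y := fun h => hn (by rwa [h])
  have hlt : Module.finrank F Y < Module.finrank F (ann b Y) :=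
    Submodule.finrank_lt_finrank_of_lt (lt_of_le_of_ne hle hne)
  -- the isotropic vectors
  let K0 : Submodule F V :=
    { carrier := {v | v ∈ ann b Y ∧ b v v = 0}
      add_mem' := by
        rintro v w ⟨h1, h2⟩ ⟨h1', h2'⟩
        refine ⟨(ann b Y).add_mem h1 h1', ?_⟩
        have e : b (v + w) (v + w) = b v v + b w w + (b v w + b w v) := by
          simp only [map_add, LinearMap.add_apply]
          ring
        rw [e, h2, h2', hs w v, add_zero, zero_add]
        exact CharTwo.add_self_eq_zero _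
      zero_mem' := ⟨(ann b Y).zero_mem, by simp⟩
      smul_mem' := by
        rintro a v ⟨h1, h2⟩
        refine ⟨(ann b Y).smul_mem a h1, ?_⟩
        have e : b (a • v) (a • v) = a * (a * b v v) := by
          simp only [map_smul, LinearMap.smul_apply, smul_eq_mul]
        rw [e, h2, mul_zero, mul_zero] }
  have hYK : Y = K0 := by
    refine le_antisymm (fun y hy => ⟨hle hy, hY y hy y hy⟩) fun v hv => ?_
    exact hadd v hv.2 (mem_ann.1 hv.1)
  have hxx : b x x ≠ 0 := fun h => hn (hadd x h hx)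
  have hle2 : ann b Y ≤ K0 ⊔ Submodule.span F {x} := by
    intro y hy
    obtain ⟨r, hr⟩ : ∃ r : F, r ^ 2 = b y y / b x x := ⟨rt (b y y / b x x), rt_sq _⟩
    have h1 : y + r • x ∈ K0 := by
      refine ⟨(ann b Y).add_mem hy ((ann b Y).smul_mem r hx'), ?_⟩
      simp only [map_add, map_smul, LinearMap.add_apply, LinearMap.smul_apply, smul_eq_mul]
      rw [hs x y]
      have h2 : r * r * b x x = b y y := by
        rw [← pow_two, hr, div_mul_cancel₀ _ hxx]
      have h3 : b y y + r * b y x + (r * b y x + r * (r * b x x)) =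
          (b y y + r * r * b x x) + (r * b y x + r * b y x) := by ring
      have h4 : b y y + r * b y x + r * (b y x + r * b x x) =
          (b y y + r * r * b x x) + (r * b y x + r * b y x) := by ring
      first
        | (rw [h3, h2, CharTwo.add_self_eq_zero, CharTwo.add_self_eq_zero, add_zero])
        | (rw [h4, h2, CharTwo.add_self_eq_zero, CharTwo.add_self_eq_zero, add_zero])
    have h5 : y = (y + r • x) + (-r) • x := by
      rw [neg_smul]
      abel
    rw [h5]
    exact Submodule.add_mem _ (Submodule.mem_sup_left h1)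
      (Submodule.mem_sup_right (Submodule.smul_mem _ _ (Submodule.mem_span_singleton_self x)))
  have h6 := Submodule.finrank_mono hle2
  have h7 := Submodule.finrank_add_le_finrank_add_finrank K0 (Submodule.span F {x})
  have h8 : Module.finrank F (Submodule.span F {x}) ≤ 1 := by
    have h9 := finrank_span_le_card (R := F) ({x} : Set V)
    simpa using h9
  rw [← hYK] at h6 h7
  rw [← hfr] at he
  obtain ⟨r, hr⟩ := he
  omega

end la

section self

variable {P : Type*} [Group P] {T : FSys P} {χ : P → ℤ_[2]} {iv : (P → P → A0) → A0}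
  {O : Type v} [CommRing O] [IsLocalRing O]
  [Finite (IsLocalRing.ResidueField O)] [CharP (IsLocalRing.ResidueField O) 2]
  [Algebra (ZMod 2) (IsLocalRing.ResidueField O)] {V : Type v} [AddCommGroup V] [Module O V]
  [Finite V] {σ : P → V → V} {β : V →+ V →+ A0} {l : O → P → V → A0}

/-- A CONDITION THAT IS ITS OWN ANNIHILATOR. -/
theorem exists_self (L : LocH T χ iv) (h : QM T χ O σ β l) (hl : LDual T iv σ σ (pB β))
    (hV : ∀ a ∈ IsLocalRing.maximalIdeal O, ∀ m : V, a • m = 0)
    (hc : EvPow (Nat.card (IsLocalRing.ResidueField O))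
      (Nat.card {x : P → V // Z1 T σ x} * Nat.card {x : P → V // ∃ m, x = d0 σ m})) :
    ∃ Y : Submodule O (P → V), SelfN T iv σ (pB β) Y := by
  obtain ⟨X, hX⟩ : ∃ X : Submodule O (P → V), X = KR.zM (O := O) T h.act h.lin := ⟨_, rfl⟩
  subst hX
  have hfX : Finite (KR.zM (O := O) T h.act h.lin) := hl.fin
  have hTX : Module.IsTorsionBySet O (KR.zM (O := O) T h.act h.lin)
      (IsLocalRing.maximalIdeal O : Set O) := fun x a => Subtype.ext (by
    funext d
    exact hV a a.2 (x.1 d))
  let iM : Module (IsLocalRing.ResidueField O) (KR.zM (O := O) T h.act h.lin) :=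
    (hTX.module : Module (O ⧸ IsLocalRing.maximalIdeal O) (KR.zM (O := O) T h.act h.lin))
  have hres : ∀ (y : O) (m : KR.zM (O := O) T h.act h.lin), IsLocalRing.residue O y • m = y • m :=
    fun _ _ => rfl
  have hfd : FiniteDimensional (IsLocalRing.ResidueField O) (KR.zM (O := O) T h.act h.lin) :=
    Module.Finite.of_finite
  obtain ⟨b, hb⟩ := trace_trick (F := IsLocalRing.ResidueField O) (locB L h) fun c y z => by
    obtain ⟨c, rfl⟩ := IsLocalRing.residue_surjective c
    rw [hres, hres]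
    exact locB_bal L h c y z
  have hb1 : ∀ y z, locB L h y z = hfT (b y z) := fun y z => by
    have h1 := hb 1 y z
    rwa [one_smul, one_mul] at h1
  have hs : ∀ x y, b x y = b y x := by
    intro x y
    refine KS.hfT_eq fun a => ?_
    obtain ⟨c, rfl⟩ := IsLocalRing.residue_surjective a
    rw [← hb, ← hb, hres, hres, locB_bal, locB_symm]
  have hz : ∀ x y, b x y = 0 ↔ ∀ a : O, locB L h (a • x) y = 0 := by
    intro x y
    constructor
    · intro h1 a
      rw [← hres, hb, h1, mul_zero, map_zero]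
    · intro h1
      refine hfT_nondeg fun a => ?_
      obtain ⟨c, rfl⟩ := IsLocalRing.residue_surjective a
      rw [← hb, hres, h1]
  have hk : ∀ x : KR.zM (O := O) T h.act h.lin, x ∈ LinearMap.ker b ↔ ∃ m, x.1 = d0 σ m := by
    intro x
    rw [LinearMap.mem_ker]
    constructor
    · intro h1
      refine hl.one x.1 x.2 fun y hy => ?_
      have h2 : b x ⟨y, hy⟩ = 0 := by rw [h1, LinearMap.zero_apply]
      have h3 := (hz x ⟨y, hy⟩).1 h2 1
      rw [one_smul] at h3
      exact h3
    · rintro ⟨m, hm⟩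
      refine LinearMap.ext fun y => (hz x y).2 fun a => ?_
      rw [locB_bal]
      show iv (cup11 σ (pB β) x.1 (a • y).1) = 0
      rw [hm]
      exact QS.iv_cup_d0 L h (a • y).2 m
  have hc1 : Nat.card {x : P → V // ∃ m, x = d0 σ m} = Nat.card (LinearMap.ker b) :=
    Nat.card_congr
      { toFun := fun x => ⟨⟨x.1, by
          obtain ⟨m, hm⟩ := x.2
          rw [hm]
          exact KR.d0_Z1 h.act h.sm m⟩, (hk _).2 x.2⟩
        invFun := fun x => ⟨x.1.1, (hk _).1 x.2⟩
        left_inv := fun x => rfl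
        right_inv := fun x => rfl }
  have hc2 : Nat.card {x : P → V // Z1 T σ x} = Nat.card (KR.zM (O := O) T h.act h.lin) := rfl
  have he : Even (Module.finrank (IsLocalRing.ResidueField O) (KR.zM (O := O) T h.act h.lin) +
      Module.finrank (IsLocalRing.ResidueField O) (LinearMap.ker b)) := by
    rw [hc1, hc2, Module.natCard_eq_pow_finrank (K := IsLocalRing.ResidueField O)
      (V := KR.zM (O := O) T h.act h.lin),
      Module.natCard_eq_pow_finrank (K := IsLocalRing.ResidueField O) (V := LinearMap.ker b),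
      ← pow_add, ev_iff Finite.one_lt_card] at hc
    exact hc
  obtain ⟨Y, hY⟩ := exists_lag b hs he
  refine ⟨{
    carrier := {x | ∃ hx : Z1 T σ x, (⟨x, hx⟩ : KR.zM (O := O) T h.act h.lin) ∈ Y}
    add_mem' := fun {x y} hx hy => ⟨(KR.zM (O := O) T h.act h.lin).add_mem hx.1 hy.1,
      Y.add_mem hx.2 hy.2⟩
    zero_mem' := ⟨(KR.zM (O := O) T h.act h.lin).zero_mem, Y.zero_mem⟩
    smul_mem' := fun a {x} hx => ⟨(KR.zM (O := O) T h.act h.lin).smul_mem a hx.1, by
      have h1 := Y.smul_mem (IsLocalRing.residue O a) hx.2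
      exact h1⟩ }, fun x hx => hx.1, fun x hx => ?_⟩
  constructor
  · rintro ⟨hx', h1⟩ y ⟨hy, h2⟩
    have h3 := (hY ⟨x, hx'⟩).1 h1 ⟨y, hy⟩ h2
    have h4 := (hz _ _).1 h3 1
    rw [one_smul] at h4
    exact h4
  · intro h1
    refine ⟨hx, (hY _).2 fun y hy => (hz _ _).2 fun a => ?_⟩
    rw [locB_bal]
    have h2 := Y.smul_mem (IsLocalRing.residue O a) hy
    exact h1 (a • y).1 ⟨(a • y).2, h2⟩

/-- the number of cocycles and coboundaries -/
theorem card_zb (hχ : ∀ g, (2 : ℤ_[2]) ∣ χ g - 1) (h : QM T χ O σ β l)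
    (hV : ∀ m : V, m + m = 0) {k : ℕ} (hE : Eul.{v} T k) :
    Nat.card {x : P → V // Z1 T σ x} * Nat.card {x : P → V // ∃ m, x = d0 σ m} =
      Nat.card V ^ (k + 2) ∧
    Nat.card {x : P → V // ∃ m, x = d0 σ m} * Nat.card {m : V // ∀ g, σ g m = m} = Nat.card V := by
  have h1 := hE h.act h.sm hV
  rw [OU.card_invD hχ h.pair hV] at h1
  have h2 : Nat.card {x : P → V // ∃ m, x = d0 σ m} * Nat.card {m : V // ∀ g, σ g m = m} =
      Nat.card V := by
    let f : V →+ (P → V) := AddMonoidHom.mk' (fun m => d0 σ m) fun m m' => by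
      funext d
      show σ d (m + m') - (m + m') = (σ d m - m) + (σ d m' - m')
      rw [h.act.add]
      abel
    have h3 := AddSubgroup.card_eq_card_quotient_mul_card_addSubgroup f.ker
    rw [Nat.card_congr (QuotientAddGroup.quotientKerEquivRange f).toEquiv] at h3
    have h4 : Nat.card f.range = Nat.card {x : P → V // ∃ m, x = d0 σ m} :=
      Nat.card_congr (Equiv.subtypeEquivRight fun x =>
        ⟨fun ⟨m, hm⟩ => ⟨m, hm.symm⟩, fun ⟨m, hm⟩ => ⟨m, hm.symm⟩⟩)
    have h5 : Nat.card f.ker = Nat.card {m : V // ∀ g, σ g m = m} :=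
      Nat.card_congr (Equiv.subtypeEquivRight fun m =>
        ⟨fun hm g => sub_eq_zero.1 (congrFun hm g), fun hm => funext fun g => sub_eq_zero.2 (hm g)⟩)
    rw [h3, h4, h5]
  refine ⟨?_, h2⟩
  rw [h1, mul_assoc, mul_comm (Nat.card {m : V // ∀ g, σ g m = m}), h2]
  ring

end self

section place

variable {G Γ : Type*} [Group G] [Group Γ] {S : FSys G} {Sq : FSys Γ} {χ : G → ℤ_[2]}
  {χq : Γ → ℤ_[2]} {e : G →* Γ} {c : Γ} {κ : G →* G} {P : Type*} [Group P] {T : FSys P}
  {jp : P →* Γ} {iv : (P → P → A0) → A0} {Θ : Set (G × G)} {O : Type v} [CommRing O]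
  [IsLocalRing O] [Finite (IsLocalRing.ResidueField O)] [CharP (IsLocalRing.ResidueField O) 2]
  [Algebra (ZMod 2) (IsLocalRing.ResidueField O)] {N : Type v} [AddCommGroup N] [Module O N]
  [Finite N] {aN : G → N → N} {hN : N →+ N →+ A0}

/-- a self-annihilating condition for `N × N` -/
theorem exists_selfN (p : PlQ.{v} S Sq χ χq e c κ T jp iv) (hs : SDualF S χ κ Θ O aN hN)
    (hM : ∀ a ∈ IsLocalRing.maximalIdeal O, ∀ m : N, a • m = 0) {k : ℕ} (hE : Eul.{v} T k) :
    ∃ YN : Submodule O (P → N × N), SelfN T iv (fun d => ac2 e c κ aN (jp d)) (pB (be2 hN)) YN := by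
  have h2 : ∀ m : N × N, m + m = 0 := by
    intro m
    have h3 : (2 : O) ∈ IsLocalRing.maximalIdeal O := by
      rw [← IsLocalRing.residue_eq_zero_iff, map_ofNat]
      exact CharTwo.two_eq_zero
    have h4 : (2 : O) • m = 0 := Prod.ext (hM 2 h3 m.1) (hM 2 h3 m.2)
    rwa [two_smul] at h4
  refine exists_self p.loc.toLocH (p.qm hs) (p.ldM hs)
    (fun a ha m => Prod.ext (hM a ha m.1) (hM a ha m.2)) ?_
  rw [(card_zb (O := O) p.loc.char.odd (p.qm hs) h2 hE).1, Nat.card_prod]
  obtain ⟨r, hr⟩ := card_pow (O := O) N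
  refine ⟨r * (k + 2), ?_⟩
  rw [hr]
  ring

end place

end Pool.Agent.Work.MP_787500_nt.KJ
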