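import Mathlib
import Pool.Agent.Work.MP_787500_nt.KJ.XDbl
import Pool.Agent.Work.MP_787500_nt.KJ.XRed
import Pool.Agent.Work.MP_787500_nt.KJ.XSelf
import Pool.Agent.Work.MP_787500_nt.KJ.Lev
import Pool.Agent.Work.MP_787500_nt.IU.Fin

/-!
# KJ/XInd: THE CONTRIBUTION of a condition at a place that does not split, with a stable submodule of `M × M`

`M = U × N × N`. Compare `IU.locM_ind`, `IU.locM_ind1`.
-/

set_option autoImplicit false
set_option linter.unusedSectionVars false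

namespace Pool.Agent.Work.MP_787500_nt.KJ

open Matrix
open Pool.Agent.Work.MP_787500_nt.GP (A0 IsAct EvPow IsPow card_pow isPow_mul d0 cup11)
open Pool.Agent.Work.MP_787500_nt.KR (FSys Sm1 IsChar Smooth Z1 LocH Pair LDual SDualF z1s b1s)
open Pool.Agent.Work.MP_787500_nt.QS (Two ac2 be2 la2 Lag QM pB be2_apply pB_apply iv_symm)
open Pool.Agent.Work.MP_787500_nt.QP (InvC)
open Pool.Agent.Work.MP_787500_nt.KI (LocM PlQ)
open Pool.Agent.Work.MP_787500_nt.OR (indW mem_indW fixV mem_fixV)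
open Pool.Agent.Work.MP_787500_nt.OL (dst dst_trans lag_fin lag_card ev_iff)
open Pool.Agent.Work.MP_787500_nt.IU (Eul locM_ind)
open Pool.Agent.Work.MP_787500_nt.RC (SplS)

universe v

section sq

variable {X : Type*} [Group X] {T : FSys X} {χ : X → ℤ_[2]} {iv : (X → X → A0) → A0}
  {O : Type*} [CommRing O] {V : Type*} [AddCommGroup V] [Module O V] [Finite V] {ρ : X → V → V}
  {β : V →+ V →+ A0} {l : O → X → V → A0}

private theorem self_cob (L : LocH T χ iv) (h : QM T χ O ρ β l) {Y : Submodule O (X → V)}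
    (hY : SelfN T iv ρ (pB β) Y) (m : V) : d0 ρ m ∈ Y :=
  (hY.self _ (KR.d0_Z1 h.act h.sm m)).2 fun y hy => QS.iv_cup_d0 L h (hY.coc y hy) m

/-- the number of elements of a self-annihilating condition -/
theorem self_sq (L : LocH T χ iv) (h : QM T χ O ρ β l) (hl : LDual T iv ρ ρ (pB β))
    {Y : Submodule O (X → V)} (hY : SelfN T iv ρ (pB β) Y) :
    Nat.card Y * Nat.card Y =
      Nat.card {x : X → V // Z1 T ρ x} * Nat.card {x : X → V // ∃ m, x = d0 ρ m} := by
  have f1 : Finite (z1s T h.act) := hl.fin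
  let Λ : AddSubgroup (z1s T h.act) := Y.toAddSubgroup.addSubgroupOf (z1s T h.act)
  have e := GP.card_perp (QL.zB L h.pair) Λ (fun x hx => by
    obtain ⟨m, hm⟩ := hl.one x.1 x.2 fun y hy => hx ⟨y, hy⟩
    rw [AddSubgroup.mem_addSubgroupOf, hm]
    exact self_cob L h hY m)
  have e1 : GP.perpL (QL.zB L h.pair) Λ = Λ := by
    ext y
    rw [AddSubgroup.mem_addSubgroupOf]
    show (∀ x ∈ Λ, QL.zB L h.pair x y = 0) ↔ y.1 ∈ Y
    rw [hY.self y.1 y.2]
    constructor
    · intro h1 x hx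
      rw [iv_symm L h y.2 (hY.coc x hx)]
      exact h1 ⟨x, hY.coc x hx⟩ (AddSubgroup.mem_addSubgroupOf.2 hx)
    · intro h1 x hx
      rw [QL.zB_apply, iv_symm L h x.2 y.2]
      exact h1 x.1 (AddSubgroup.mem_addSubgroupOf.1 hx)
  have e2 : Nat.card Λ = Nat.card Y :=
    Nat.card_congr (AddSubgroup.addSubgroupOfEquivOfLe fun x hx => hY.coc x hx).toEquiv
  rw [e1, QL.card_radL L h.pair hl, e2] at e
  exact e

end sq

variable {G Γ : Type*} [Group G] [Group Γ] {S : FSys G} {Sq : FSys Γ} {χ : G → ℤ_[2]}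
  {χq : Γ → ℤ_[2]} {e : G →* Γ} {c : Γ} {κ : G →* G} {P : Type*} [Group P] {T : FSys P}
  {jp : P →* Γ} {iv : (P → P → A0) → A0} {Θ : Set (G × G)}

section cnt

variable {O : Type*} [CommRing O] {M U N : Type v} [AddCommGroup M] [Module O M]
  [AddCommGroup U] [Module O U] [AddCommGroup N] [Module O N]
  {act : G → M → M} {b : M →+ M →+ A0} {aU : G → U → U} {bU : U →+ U →+ A0} {aN : G → N → N}
  {h : N →+ N →+ A0} {Φ : M ≃ₗ[O] U × N × N}

/-- the vectors fixed modulo `extW` -/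
theorem card_fixE (s : SplS O act b aU bU aN h Φ) (X : Two e c κ)
    {σa : IsAct (fun d => ac2 e c κ act (jp d))}
    {σl : ∀ g (a : O) m, ac2 e c κ act (jp g) (a • m) = a • ac2 e c κ act (jp g) m}
    {τa : IsAct (fun d => ac2 e c κ aU (jp d))}
    {τl : ∀ g (a : O) m, ac2 e c κ aU (jp g) (a • m) = a • ac2 e c κ aU (jp g) m}
    {W : Submodule O (U × U)} :
    Nat.card (fixV σa σl (extW Φ W)) = Nat.card (fixV τa τl W) * (Nat.card (N × N) *
      Nat.card {m : N × N // ∀ d, ac2 e c κ aN (jp d) m = m}) := by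
  have key : ∀ v : M × M, v ∈ fixV σa σl (extW Φ W) ↔ qU Φ v ∈ fixV τa τl W ∧
      ∀ d, ac2 e c κ aN (jp d) (qN' Φ v) = qN' Φ v := by
    intro v
    rw [mem_fixV, mem_fixV, ← forall_and]
    refine forall_congr' fun d => ?_
    have e1 : qU Φ (ac2 e c κ act (jp d) v - v) = ac2 e c κ aU (jp d) (qU Φ v) - qU Φ v := by
      rw [← ac2_U s X]
      simp [qU]
    have e2 : qN' Φ (ac2 e c κ act (jp d) v - v) = ac2 e c κ aN (jp d) (qN' Φ v) - qN' Φ v := by
      rw [← ac2_N' s X]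
      simp [qN']
    rw [mem_extW, e1, e2, sub_eq_zero]
  rw [← Nat.card_prod, ← Nat.card_prod]
  exact Nat.card_congr
    { toFun := fun v => (⟨qU Φ v.1, ((key v.1).1 v.2).1⟩, qN Φ v.1,
        ⟨qN' Φ v.1, ((key v.1).1 v.2).2⟩)
      invFun := fun z => ⟨mkq Φ z.1.1 z.2.1 z.2.2.1, (key _).2 (by
        rw [qU_mk, qN'_mk]
        exact ⟨z.1.2, z.2.2.2⟩)⟩
      left_inv := fun v => Subtype.ext (mk_q v.1)
      right_inv := fun z => Prod.ext (Subtype.ext (qU_mk _ _ _))
        (Prod.ext (qN_mk _ _ _) (Subtype.ext (qN'_mk _ _ _))) }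

/-- the intersection of a product condition with the condition of `extW` -/
theorem card_extI (s : SplS O act b aU bU aN h Φ) (X : Two e c κ) (ha : IsAct act)
    {σa : IsAct (fun d => ac2 e c κ act (jp d))}
    {σl : ∀ g (a : O) m, ac2 e c κ act (jp g) (a • m) = a • ac2 e c κ act (jp g) m}
    {τa : IsAct (fun d => ac2 e c κ aU (jp d))}
    {τl : ∀ g (a : O) m, ac2 e c κ aU (jp g) (a • m) = a • ac2 e c κ aU (jp g) m}
    {W : Submodule O (U × U)} {YN : Submodule O (P → N × N)}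
    (hz : ∀ x ∈ YN, Z1 T (fun d => ac2 e c κ aN (jp d)) x)
    (hc : ∀ m, d0 (fun d => ac2 e c κ aN (jp d)) m ∈ YN) :
    Nat.card ↥(prod3 Φ (indW T τa τl W) YN ⊓ indW T σa σl (extW Φ W)) =
      Nat.card (indW T τa τl W) * (Nat.card YN *
        Nat.card {x : P → N × N // ∃ m, x = d0 (fun d => ac2 e c κ aN (jp d)) m}) := by
  have e1 : ∀ (x : P → M × M) (m : M × M) d,
      qU Φ (x d - d0 (fun d => ac2 e c κ act (jp d)) m d) =
        pU Φ x d - d0 (fun d => ac2 e c κ aU (jp d)) (qU Φ m) d := by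
    intro x m d
    show qU Φ (x d - (ac2 e c κ act (jp d) m - m)) =
      qU Φ (x d) - (ac2 e c κ aU (jp d) (qU Φ m) - qU Φ m)
    rw [← ac2_U s X]
    simp [qU]
  have e2 : ∀ (x : P → M × M) (m : M × M) d,
      qN' Φ (x d - d0 (fun d => ac2 e c κ act (jp d)) m d) =
        pN' Φ x d - d0 (fun d => ac2 e c κ aN (jp d)) (qN' Φ m) d := by
    intro x m d
    show qN' Φ (x d - (ac2 e c κ act (jp d) m - m)) =
      qN' Φ (x d) - (ac2 e c κ aN (jp d) (qN' Φ m) - qN' Φ m)
    rw [← ac2_N' s X]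
    simp [qN']
  have key : ∀ x : P → M × M, x ∈ prod3 Φ (indW T τa τl W) YN ⊓ indW T σa σl (extW Φ W) ↔
      pU Φ x ∈ indW T τa τl W ∧ pN Φ x ∈ YN ∧
        ∃ m, pN' Φ x = d0 (fun d => ac2 e c κ aN (jp d)) m := by
    intro x
    rw [Submodule.mem_inf, mem_prod3]
    constructor
    · rintro ⟨⟨h1, h2, h3⟩, h4, m, h5⟩
      refine ⟨h1, h2, qN' Φ m, ?_⟩
      funext d
      have h6 := (h5 d).2
      rw [e2, sub_eq_zero] at h6
      exact h6
    · rintro ⟨h1, h2, m, h3⟩
      refine ⟨⟨h1, h2, ?_⟩, ?_⟩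
      · rw [h3]
        exact hc m
      · have h1' := h1
        obtain ⟨h4, mu, h5⟩ := h1'
        refine ⟨(z1_spl s X).2 ⟨h4, hz _ h2, ?_⟩, mkq Φ mu 0 m, fun d => ⟨?_, ?_⟩⟩
        · rw [h3]
          exact hz _ (hc m)
        · rw [e1, qU_mk]
          exact h5 d
        · rw [e2, qN'_mk, h3, sub_self]
  rw [← Nat.card_prod, ← Nat.card_prod]
  exact Nat.card_congr
    { toFun := fun v => (⟨pU Φ v.1, ((key v.1).1 v.2).1⟩, ⟨pN Φ v.1, ((key v.1).1 v.2).2.1⟩,
        ⟨pN' Φ v.1, ((key v.1).1 v.2).2.2⟩)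
      invFun := fun z => ⟨mk3 Φ z.1.1 z.2.1.1 z.2.2.1, (key _).2 (by
        rw [pU_mk3, pN_mk3, pN'_mk3]
        exact ⟨z.1.2, z.2.1.2, z.2.2.2⟩)⟩
      left_inv := fun v => Subtype.ext (mk3_p Φ v.1)
      right_inv := fun z => Prod.ext (Subtype.ext (pU_mk3 Φ _ _ _))
        (Prod.ext (Subtype.ext (pN_mk3 Φ _ _ _)) (Subtype.ext (pN'_mk3 Φ _ _ _))) }

end cnt

variable {O : Type v} [CommRing O] [IsLocalRing O]
  [Finite (IsLocalRing.ResidueField O)] [CharP (IsLocalRing.ResidueField O) 2]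
  [Algebra (ZMod 2) (IsLocalRing.ResidueField O)] {M U N : Type v} [AddCommGroup M] [Module O M]
  [Finite M] [AddCommGroup U] [Module O U] [Finite U] [AddCommGroup N] [Module O N] [Finite N]
  {act : G → M → M} {b : M →+ M →+ A0} {aU : G → U → U} {bU : U →+ U →+ A0} {aN : G → N → N}
  {h : N →+ N →+ A0} {Φ : M ≃ₗ[O] U × N × N} {C : U → U}

/-- THE CONTRIBUTION of a condition at a place that does not split, with a stable submodule `W` of `M × M` that is its own
annihilator, with `b v.1 w.2 = 0` on `W`. -/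
theorem locS_ind (p : PlQ.{v} S Sq χ χq e c κ T jp iv) (hs : SDualF S χ κ Θ O act b)
    (s : SplS O act b aU bU aN h Φ) (hC : InvC κ O aU bU C) (hodd : ∀ g, (2 : ℤ_[2]) ∣ χ g - 1)
    (hM : ∀ a ∈ IsLocalRing.maximalIdeal O, ∀ m : M, a • m = 0) {τ : P} (hτ : ∀ g, e g ≠ jp τ)
    {k : ℕ} (hE : Eul.{v} T k) {W : Submodule O (M × M)}
    (hst : ∀ d, ∀ w ∈ W, ac2 e c κ act (jp d) w ∈ W) (hb : ∀ v ∈ W, ∀ w ∈ W, b v.1 w.2 = 0)
    (hp : ∀ v, (∀ w ∈ W, pB (be2 b) w v = 0) → v ∈ W) {Y : Submodule O (P → M × M)}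
    (hY : Lag T iv (fun d => ac2 e c κ act (jp d)) (be2 b)
      (fun (a : O) d => la2 e c κ act b a (jp d)) Y) {δ j : ℕ}
    (hj : Nat.card N = Nat.card (IsLocalRing.ResidueField O) ^ j)
    (hev : EvPow (Nat.card (IsLocalRing.ResidueField O)) (Nat.card Y *
      Nat.card ↥(Y ⊓ indW T (p.qm hs).act (p.qm hs).lin W) *
      Nat.card (fixV (p.qm hs).act (p.qm hs).lin W) *
      Nat.card (IsLocalRing.ResidueField O) ^ δ)) :
    LocS T jp iv e c κ (IsLocalRing.ResidueField O) aU bU aN h Φ C Y (δ + k * j) := by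
  have X := p.two
  have q2 : 2 ≤ Nat.card (IsLocalRing.ResidueField O) := Finite.one_lt_card
  have hU := sdualU s hs
  have hN := sdualN s hs
  have qM := p.qm hs
  have qU' := p.qm hU
  have qN1 := p.qm hN
  have hMU : ∀ a ∈ IsLocalRing.maximalIdeal O, ∀ u : U, a • u = 0 := by
    intro a ha u
    have h1 := congrArg Φ (hM a ha (Φ.symm (u, 0, 0)))
    rw [map_smul, map_zero, LinearEquiv.apply_symm_apply] at h1
    exact congrArg Prod.fst h1
  have hMN : ∀ a ∈ IsLocalRing.maximalIdeal O, ∀ y : N, a • y = 0 := by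
    intro a ha y
    have h1 := congrArg Φ (hM a ha (Φ.symm (0, y, 0)))
    rw [map_smul, map_zero, LinearEquiv.apply_symm_apply] at h1
    exact congrArg (fun z : U × N × N => z.2.1) h1
  have hN2 : ∀ m : N × N, m + m = 0 := by
    intro m
    have h3 : (2 : O) ∈ IsLocalRing.maximalIdeal O := by
      rw [← IsLocalRing.residue_eq_zero_iff, map_ofNat]
      exact CharTwo.two_eq_zero
    have h4 : (2 : O) • m = 0 := Prod.ext (hMN 2 h3 m.1) (hMN 2 h3 m.2)
    rwa [two_smul] at h4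
  -- the submodules
  have stU := redW_st (Φ := Φ) s X hs.act hst
  have isU := redW_iso (Φ := Φ) s hb
  have peU := redW_perp (Φ := Φ) p hs s hp
  have st3 := extW_st (Φ := Φ) s X hs.act stU
  have is3 := extW_iso (Φ := Φ) s isU
  have pe3 := extW_perp (Φ := Φ) p hs s peU
  -- the conditions
  have lU := lag_ind2 p hU stU isU peU
  have lW := lag_ind2 p hs hst hb hp
  have l3 := lag_ind2 p hs st3 is3 pe3
  obtain ⟨YN, hYN⟩ := exists_selfN p hN hMN hE
  have lP := lag_ref p hs s lU hYN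
  have hfM : Finite (KR.zM (O := O) T qM.act qM.lin) := (p.ldM hs).fin
  have hfU : Finite (KR.zM (O := O) T qU'.act qU'.lin) := (p.ldM hU).fin
  have hfN : Finite (KR.zM (O := O) T qN1.act qN1.lin) := (p.ldM hN).fin
  have fU := lag_fin qU' hfU lU
  have fN : Finite YN := Finite.of_injective
    (fun x : YN => (⟨x.1, hYN.coc _ x.2⟩ : KR.zM (O := O) T qN1.act qN1.lin))
    fun _ _ hxy => Subtype.ext (congrArg (fun z : KR.zM (O := O) T qN1.act qN1.lin => z.1) hxy)
  have fY := lag_fin qM hfM hY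
  have fW := lag_fin qM hfM lW
  have f3 := lag_fin qM hfM l3
  have fP := lag_fin qM hfM lP
  have finI : ∀ {Z Z' : Submodule O (P → M × M)}, Finite Z → Finite ↥(Z ⊓ Z') :=
    fun {Z Z'} hZ => Finite.of_injective (fun x : ↥(Z ⊓ Z') => (⟨x.1, x.2.1⟩ : Z)) fun x y hxy =>
      Subtype.ext (by simpa using hxy)
  -- the contribution for `U`
  obtain ⟨δU, hδU⟩ := card_pow (O := O) (fixV qU'.act qU'.lin (redW Φ W))
  obtain ⟨u, hu⟩ := card_pow (O := O) (indW T qU'.act qU'.lin (redW Φ W))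
  have cU : LocM T jp iv e c κ (IsLocalRing.ResidueField O) aU bU C
      (indW T qU'.act qU'.lin (redW Φ W)) δU := by
    refine locM_ind p hU hC hτ hE stU isU peU (fun x hx => hx.1) ?_
    rw [inf_idem, hδU, hu]
    refine ⟨u + δU, ?_⟩
    ring
  have cP := locS_prod p hs s lU hYN cU
  -- counting
  have zb := card_zb (O := O) p.loc.char.odd qN1 hN2 hE
  obtain ⟨y, hy⟩ := card_pow (O := O) YN
  have sq := self_sq p.loc.toLocH qN1 (p.ldM hN) hYN
  rw [zb.1, Nat.card_prod, hj, hy, ← pow_add, ← pow_add, ← pow_mul] at sq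
  have sq' := Nat.pow_right_injective q2 sq
  have hb1 : Finite {x : P → N × N // ∃ m, x = d0 (fun d => ac2 e c κ aN (jp d)) m} := by
    refine Finite.of_injective (fun x => (⟨x.1, by
      obtain ⟨m, hm⟩ := x.2
      rw [hm]
      exact self_cob p.loc.toLocH qN1 hYN m⟩ : YN)) fun x y hxy => Subtype.ext ?_
    exact congrArg (fun z : YN => z.1) hxy
  have c3 := card_fixE (Φ := Φ) s X (σa := qM.act) (σl := qM.lin) (τa := qU'.act) (τl := qU'.lin)
    (W := redW Φ W)
  have cI := card_extI (Φ := Φ) (T := T) s X hs.act (σa := qM.act) (σl := qM.lin) (τa := qU'.act)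
    (τl := qU'.lin) (W := redW Φ W) (YN := YN) hYN.coc (fun m => self_cob p.loc.toLocH qN1 hYN m)
  -- powers
  obtain ⟨r1, hr1⟩ := card_pow (O := O) Y
  have i1 := finI (Z' := indW T qM.act qM.lin W) fY
  obtain ⟨r2, hr2⟩ := card_pow (O := O) ↥(Y ⊓ indW T qM.act qM.lin W)
  obtain ⟨r3, hr3⟩ := card_pow (O := O) (fixV qM.act qM.lin W)
  rw [hr1, hr2, hr3, ← pow_add, ← pow_add, ← pow_add, ev_iff q2, Nat.even_iff] at hev
  have key := ind_cmp p hs hodd hM hτ hE hst hb hp st3 is3 pe3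
  have i2 := finI (Z' := indW T qM.act qM.lin (extW Φ (redW Φ W))) fW
  obtain ⟨r4, hr4⟩ := card_pow (O := O)
    ↥(indW T qM.act qM.lin W ⊓ indW T qM.act qM.lin (extW Φ (redW Φ W)))
  obtain ⟨r5, hr5⟩ := card_pow (O := O) (indW T qM.act qM.lin (extW Φ (redW Φ W)))
  obtain ⟨r6, hr6⟩ := card_pow (O := O) (fixV qM.act qM.lin (extW Φ (redW Φ W)))
  rw [hr4, hr5, hr3, hr6, ← pow_add, ← pow_add, ← pow_add, ev_iff q2, Nat.even_iff] at key
  have i3 := finI (Z' := indW T qM.act qM.lin (extW Φ (redW Φ W))) fP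
  obtain ⟨r7, hr7⟩ := card_pow (O := O) (prod3 Φ (indW T qU'.act qU'.lin (redW Φ W)) YN)
  obtain ⟨r8, hr8⟩ := card_pow (O := O) ↥(prod3 Φ (indW T qU'.act qU'.lin (redW Φ W)) YN ⊓
    indW T qM.act qM.lin (extW Φ (redW Φ W)))
  obtain ⟨r9, hr9⟩ := card_pow (O := O) (indW T qM.act qM.lin W)
  have i4 := finI (Z' := Y) fP
  obtain ⟨r10, hr10⟩ := card_pow (O := O)
    ↥(prod3 Φ (indW T qU'.act qU'.lin (redW Φ W)) YN ⊓ Y)
  have i5 := finI (Z' := indW T qM.act qM.lin (extW Φ (redW Φ W))) fY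
  obtain ⟨r11, hr11⟩ := card_pow (O := O)
    ↥(Y ⊓ indW T qM.act qM.lin (extW Φ (redW Φ W)))
  -- the fixed vectors of `N × N` and the coboundaries
  have hq0 : 0 < Nat.card (IsLocalRing.ResidueField O) := by omega
  have hfix0 : Finite {m : N × N // ∀ g, ac2 e c κ aN (jp g) m = m} := inferInstance
  have zb2 := zb.2
  rw [Nat.card_prod, hj, ← pow_add] at zb2
  obtain ⟨b1, hb1'⟩ : ∃ b1, Nat.card {x : P → N × N // ∃ m, x = d0 (fun d => ac2 e c κ aN (jp d)) m} =
      Nat.card (IsLocalRing.ResidueField O) ^ b1 := by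
    let B : Submodule O (P → N × N) :=
      { carrier := {x | ∃ m, x = d0 (fun d => ac2 e c κ aN (jp d)) m}
        add_mem' := by
          rintro x y ⟨m, rfl⟩ ⟨m', rfl⟩
          refine ⟨m + m', ?_⟩
          funext d
          show (ac2 e c κ aN (jp d) m - m) + (ac2 e c κ aN (jp d) m' - m') =
            ac2 e c κ aN (jp d) (m + m') - (m + m')
          rw [qN1.act.add]
          abel
        zero_mem' := ⟨0, by
          funext d
          show (0 : N × N) = ac2 e c κ aN (jp d) 0 - 0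
          rw [qN1.act.zero, sub_zero]⟩
        smul_mem' := by
          rintro a x ⟨m, rfl⟩
          refine ⟨a • m, ?_⟩
          funext d
          show a • (ac2 e c κ aN (jp d) m - m) = ac2 e c κ aN (jp d) (a • m) - a • m
          rw [qN1.lin, smul_sub] }
    have hB : Finite B := hb1
    exact card_pow (O := O) B
  obtain ⟨h0, hh0⟩ : ∃ h0, Nat.card {m : N × N // ∀ g, ac2 e c κ aN (jp g) m = m} =
      Nat.card (IsLocalRing.ResidueField O) ^ h0 := by
    let B : Submodule O (N × N) :=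
      { carrier := {m | ∀ g, ac2 e c κ aN (jp g) m = m}
        add_mem' := fun {x y} hx hy g => by
          rw [qN1.act.add, hx g, hy g]
        zero_mem' := fun g => qN1.act.zero _
        smul_mem' := fun a {x} hx g => by
          rw [qN1.lin, hx g] }
    exact card_pow (O := O) B
  rw [hb1', hh0, ← pow_add] at zb2
  have zb3 := Nat.pow_right_injective q2 zb2
  rw [hδU, Nat.card_prod, hj, hh0, ← pow_add, ← pow_add, ← pow_add, hr6] at c3
  have c3' := Nat.pow_right_injective q2 c3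
  rw [hu, hy, hb1', ← pow_add, ← pow_add, hr8] at cI
  have cI' := Nat.pow_right_injective q2 cI
  have cp := card_prod3 (Φ := Φ) (YU := indW T qU'.act qU'.lin (redW Φ W)) (YN := YN)
  rw [hr7, hu, hy, ← pow_mul, ← pow_add] at cp
  have cp' := Nat.pow_right_injective q2 cp
  -- the numbers of elements of Lagrangian conditions
  have k1 := lag_card p.loc.toLocH qM (p.ldM hs) lP hY
  have k2 := lag_card p.loc.toLocH qM (p.ldM hs) lP lW
  have k3 := lag_card p.loc.toLocH qM (p.ldM hs) lP l3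
  rw [hr7, hr1] at k1
  rw [hr7, hr9] at k2
  rw [hr7, hr5] at k3
  have k1' := Nat.pow_right_injective q2 k1
  have k2' := Nat.pow_right_injective q2 k2
  have k3' := Nat.pow_right_injective q2 k3
  have t1 := dst_trans p.loc.toLocH qM hfM lP hY l3
  have t2 := dst_trans p.loc.toLocH qM hfM hY lW l3
  rw [dst, dst, dst, hr7, hr10, hr1, hr11, hr8, ← pow_add, ← pow_add, ← pow_add, ← pow_add,
    ← pow_add, ev_iff q2, Nat.even_iff] at t1
  rw [dst, dst, dst, hr1, hr2, hr9, hr4, hr11, ← pow_add, ← pow_add, ← pow_add, ← pow_add,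
    ← pow_add, ev_iff q2, Nat.even_iff] at t2
  have hk : EvPow (Nat.card (IsLocalRing.ResidueField O))
      (dst (prod3 Φ (indW T qU'.act qU'.lin (redW Φ W)) YN) Y *
        Nat.card (IsLocalRing.ResidueField O) ^ (δU + (δ + k * j))) := by
    rw [dst, hr7, hr10, ← pow_add, ← pow_add, ev_iff q2, Nat.even_iff]
    have e1 : (j + j) * (k + 2) = 2 * (k * j) + 4 * j := by ring
    rw [e1] at sq'
    omega
  have key2 := locS_change p hs s lP hY hk cP
  refine locS_congr ?_ key2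
  exact ⟨δU + (δ + k * j), by ring⟩

end Pool.Agent.Work.MP_787500_nt.KJ
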