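import Mathlib
import Pool.Agent.Work.MP_787500_nt.KJ.XInd
import Pool.Agent.Work.MP_787500_nt.QX.Loc2

/-!
# KJ/XTwo: THE CONTRIBUTION OF THE PLACE 2 if 2 does not split, level one `U × N × N`

* `locS_ind1`: `locS_ind` with the fixed vectors of the quotient.
* `locXS_two`: THE CONTRIBUTION of Greenberg's condition at 2. Compare `QX.locX_two`.
-/

set_option autoImplicit false
set_option linter.unusedSectionVars false

namespace Pool.Agent.Work.MP_787500_nt.KJ

open Matrix NumberField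
open Pool.Agent.Work.MP_787500_nt.GP (A0 IsAct d0 OE bil Lat inT stabD EvPow IsPow card_pow actN lamN
  MN bN Wq mq mq_eq mq_lft mq_smul mq_add actQ_mq bN_val bN_symm bN_nd)
open Pool.Agent.Work.MP_787500_nt.KR (FSys Z1 ZV zV SDualF sdualF_MN big fullC fullK)
open Pool.Agent.Work.MP_787500_nt.PA (toE cyc)
open Pool.Agent.Work.MP_787500_nt.HP (IsP inr stb cyQ)
open Pool.Agent.Work.MP_787500_nt.KS (iK)
open Pool.Agent.Work.MP_787500_nt.GA (HQ SQ jQ iQ)
open Pool.Agent.Work.MP_787500_nt.QP (InvC)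
open Pool.Agent.Work.MP_787500_nt.QS (Two Lag ac2 be2 la2 pB pB_apply be2_apply QM)
open Pool.Agent.Work.MP_787500_nt.QV (QRep T2 J2 blk rho2 isoN v1 v2 v1_ap v2_ap ap iso_one iso_two iso_eq
  iso_act)
open Pool.Agent.Work.MP_787500_nt.KI (LocM YM mem_YM card_YM siso_iso tra map_tra mem_tra card_tra tra_inf
  z1_tra PlQ)
open Pool.Agent.Work.MP_787500_nt.OP (KE)
open Pool.Agent.Work.MP_787500_nt.OT (redM mem_redM card_redM pbar pbar_surj pbar_ker pbar_act)
open Pool.Agent.Work.MP_787500_nt.OR (indW mem_indW fixV mem_fixV)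
open Pool.Agent.Work.MP_787500_nt.OL (ev_iff)
open Pool.Agent.Work.MP_787500_nt.IU (Eul)
open Pool.Agent.Work.MP_787500_nt.RC (SplS)
open Pool.Agent.Work.MP_787500_nt.QX (InX famX grL qrep_res exists_splX
  redW_iff wP mem_ordX finrank_KEX eul_two)

universe u v w

section ab

variable {G Γ : Type*} [Group G] [Group Γ] {S : FSys G} {Sq : FSys Γ} {χ : G → ℤ_[2]}
  {χq : Γ → ℤ_[2]} {e : G →* Γ} {c : Γ} {κ : G →* G} {P : Type*} [Group P] {T : FSys P}
  {jp : P →* Γ} {iv : (P → P → A0) → A0} {Θ : Set (G × G)}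
  {O : Type v} [CommRing O] [IsLocalRing O]
  [Finite (IsLocalRing.ResidueField O)] [CharP (IsLocalRing.ResidueField O) 2]
  [Algebra (ZMod 2) (IsLocalRing.ResidueField O)] {M U N : Type v} [AddCommGroup M] [Module O M]
  [Finite M] [AddCommGroup U] [Module O U] [Finite U] [AddCommGroup N] [Module O N] [Finite N]
  {act : G → M → M} {b : M →+ M →+ A0} {aU : G → U → U} {bU : U →+ U →+ A0} {aN : G → N → N}
  {h : N →+ N →+ A0} {Φ : M ≃ₗ[O] U × N × N} {C : U → U}

private theorem card_W (p : PlQ.{v} S Sq χ χq e c κ T jp iv) (hs : SDualF S χ κ Θ O act b)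
    {W : Submodule O (M × M)} (hb : ∀ v ∈ W, ∀ w ∈ W, b v.1 w.2 = 0)
    (hp : ∀ v, (∀ w ∈ W, pB (be2 b) w v = 0) → v ∈ W) : Nat.card W = Nat.card M := by
  have hnd := (p.qm hs).nd
  have h1 := GP.card_perp (pB (be2 b)) W.toAddSubgroup fun a ha => by
    rw [hnd a ha]
    exact AddSubgroup.zero_mem _
  have h2 : GP.perpL (pB (be2 b)) W.toAddSubgroup = W.toAddSubgroup := by
    ext v
    constructor
    · intro hv
      exact hp v fun w hw => hv w hw
    · intro hv w hw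
      rw [pB_apply, be2_apply, be2_apply, hb w hw v hv, hb v hv w hw, sub_zero]
  have h3 : Nat.card (GP.perpL (pB (be2 b)).flip ⊤) = 1 := by
    rw [Nat.card_eq_one_iff_unique]
    have h4 : ∀ a : GP.perpL (pB (be2 b)).flip ⊤, (a : M × M) = 0 := fun a =>
      hnd _ fun z => a.2 z trivial
    exact ⟨⟨fun a a' => Subtype.ext (by rw [h4, h4])⟩, ⟨0⟩⟩
  rw [h2, h3, mul_one, Nat.card_prod] at h1
  exact Nat.mul_self_inj.1 h1

/-- `locS_ind` with the fixed vectors of the quotient -/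
theorem locS_ind1 (p : PlQ.{v} S Sq χ χq e c κ T jp iv) (hs : SDualF S χ κ Θ O act b)
    (s : SplS O act b aU bU aN h Φ) (hC : InvC κ O aU bU C) (hodd : ∀ g, (2 : ℤ_[2]) ∣ χ g - 1)
    (hM : ∀ a ∈ IsLocalRing.maximalIdeal O, ∀ m : M, a • m = 0) {τ : P} (hτ : ∀ g, e g ≠ jp τ)
    {k : ℕ} (hE : Eul.{v} T k) {W : Submodule O (M × M)}
    (hst : ∀ d, ∀ w ∈ W, ac2 e c κ act (jp d) w ∈ W) (hb : ∀ v ∈ W, ∀ w ∈ W, b v.1 w.2 = 0)
    (hp : ∀ v, (∀ w ∈ W, pB (be2 b) w v = 0) → v ∈ W) {Y Yo : Submodule O (P → M × M)}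
    (hY : Lag T iv (fun d => ac2 e c κ act (jp d)) (be2 b)
      (fun (a : O) d => la2 e c κ act b a (jp d)) Y)
    (hYo : ∀ x, x ∈ Yo ↔ Z1 T (fun d => ac2 e c κ act (jp d)) x ∧
      ∃ m, ∀ d, x d - d0 (fun d => ac2 e c κ act (jp d)) m d ∈ W)
    {Q : Type*} [AddCommGroup Q] {ω : P → Q → Q} (q : M × M →+ Q) (hq : Function.Surjective q)
    (hk : ∀ v, q v = 0 ↔ v ∈ W) (hω : ∀ d v, q (ac2 e c κ act (jp d) v) = ω d (q v)) {δ j r : ℕ}
    (hj : Nat.card N = Nat.card (IsLocalRing.ResidueField O) ^ j)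
    (hr : Nat.card M = Nat.card (IsLocalRing.ResidueField O) ^ (2 * r))
    (hev : EvPow (Nat.card (IsLocalRing.ResidueField O)) (Nat.card Y * Nat.card ↥(Y ⊓ Yo) *
      Nat.card {x : Q // ∀ d, ω d x = x} * Nat.card (IsLocalRing.ResidueField O) ^ δ)) :
    LocS T jp iv e c κ (IsLocalRing.ResidueField O) aU bU aN h Φ C Y (δ + k * j) := by
  have e1 : Yo = indW T (p.qm hs).act (p.qm hs).lin W := by
    ext x
    rw [hYo, mem_indW]
  refine locS_ind p hs s hC hodd hM hτ hE hst hb hp hY hj ?_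
  rw [← e1, OR.card_fixV (p.qm hs).act (p.qm hs).lin W q hq hk hω, card_W p hs hb hp, hr]
  obtain ⟨m, hm⟩ := hev
  refine ⟨m + r, ?_⟩
  have e4 : Nat.card Y * Nat.card ↥(Y ⊓ Yo) *
      (Nat.card (IsLocalRing.ResidueField O) ^ (2 * r) * Nat.card {x : Q // ∀ d, ω d x = x}) *
        Nat.card (IsLocalRing.ResidueField O) ^ δ =
      (Nat.card Y * Nat.card ↥(Y ⊓ Yo) * Nat.card {x : Q // ∀ d, ω d x = x} *
        Nat.card (IsLocalRing.ResidueField O) ^ δ) *
          Nat.card (IsLocalRing.ResidueField O) ^ (2 * r) := by ring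
  rw [e4, hm, ← pow_add]
  congr 1
  ring

end ab

section two

variable {K : Type u} [Field K] [NumberField K]
  {c : AlgebraicClosure K ≃+* AlgebraicClosure K} {κ : AbsGal K →* AbsGal K} {T : Finset ℕ}
  {P : ℕ → Ideal (𝓞 (AlgebraicClosure K))} {N₀ : Subgroup (AbsGal K)}
  {iv ivF : ∀ w : Option T, (stb (HP.PP P w) → stb (HP.PP P w) → A0) → A0}
  {tr : (((AlgebraicClosure K ≃+* AlgebraicClosure K) → (AlgebraicClosure K ≃+* AlgebraicClosure K) →
      (AlgebraicClosure K ≃+* AlgebraicClosure K) → A0) ×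
      (∀ i : Option (Option T), HQ c P i → HQ c P i → A0)) →+ A0}
  {E : Type w} [NormedField E] [NormedAlgebra ℚ_[2] E] [FiniteDimensional ℚ_[2] E]
  [IsLocalRing (OE E)] [Finite (IsLocalRing.ResidueField (OE E))]
  [CharP (IsLocalRing.ResidueField (OE E)) 2] [Algebra (ZMod 2) (IsLocalRing.ResidueField (OE E))]
  {n : ℕ} {ρ : AbsGal K →* Matrix (Fin n) (Fin n) E} {b : Matrix (Fin n) (Fin n) E}
  {l : OE E} {t : E →ₗ[ℚ_[2]] ℚ_[2]} {L₀ : Submodule (OE E) (Fin n → E)}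
  {g₀ : AbsGal K} {W : Submodule E (Fin n → E)}
  {U N : Type w} [AddCommGroup U] [Module (OE E) U] [AddCommGroup N] [Module (OE E) N]
  [Finite U] [Finite N]
  {aU : AbsGal K → U → U} {bU : U →+ U →+ A0} {aN : AbsGal K → N → N} {hN : N →+ N →+ A0}
  {Φ : MN L₀ l 1 ≃ₗ[OE E] U × N × N} {C : U → U}

/-- THE CONTRIBUTION OF THE PLACE 2. -/
theorem locXS_two (I : InX.{u, w} c κ T P N₀ iv ivF tr)
    (hρ : Gn.ConjDual 2 N₀ (inT K T) (Parity.cyclo E) κ ρ b) (hl : Lat b l t L₀)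
    (hst : ∀ g, ∀ x ∈ L₀, ρ g *ᵥ x ∈ L₀)
    (hs : SplS (OE E) (actN l 1 (fun g => ρ g) hst) (bN hl 1) aU bU aN hN Φ)
    (hC : InvC κ (OE E) aU bU C)
    (hCn : QX.Cnd I.toArX hρ hl hst I.glob.glob.char.mul ivF (grL c κ T P N₀ ρ g₀ W))
    (h0 : iK K g₀ * c ∈ stb (P 2))
    (hW : ∀ σ ∈ stabD (K := K) (P 2), ∀ x ∈ W, ρ σ *ᵥ x ∈ W) (hW2 : 2 * Module.finrank E W = n)
    (hW0 : ∀ x ∈ W, ∀ y ∈ W, bil b x (ρ g₀⁻¹ *ᵥ y) = 0) {j r : ℕ}
    (hj : Nat.card N = Nat.card (IsLocalRing.ResidueField (OE E)) ^ j) (hr : n = 2 * r) :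
    LocFS c κ P N₀ ivF aU bU aN hN Φ C (some none) (grL c κ T P N₀ ρ g₀ W)
      (Module.finrank E (Parity.fixedModulo (fun σ : stabD (K := K) (P 2) => ρ σ) W) -
        Module.finrank E W + j) := by
  have A := I.toArX
  have hm := I.glob.glob.char.mul
  have hfin : Finite (MN L₀ l 1) := GP.MN_finite hl 1
  have hsd : SDualF (big (fullK (K := K) T) N₀) cyc κ ∅ (OE E) (actN l 1 (fun g => ρ g) hst)
      (bN hl 1) :=
    sdualF_MN hl (A.rep hρ hst) (fun p hp => absurd hp (Set.notMem_empty p)) 1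
  have hq := A.qrep hρ hl hst hm
  have h' := qrep_res hq (GA.jsmQ (T := T) c P (N₀.map (iK K)) (some none))
  obtain ⟨m, i, s, r', q, ρp, ρm, hS, hri, hk⟩ := exists_splX A hρ hl hst hm h0 hW hW2 hW0
  have p : KI.PlQ.{w} (big (fullK (K := K) T) N₀) (QW.sysQ T N₀) cyc cyQ (iK K) c κ
      (SQ c P (N₀.map (iK K)) (some (none : Option T))) (jQ c P (some (none : Option T)))
      (iQ c P ivF (some (none : Option T))) := I.plQ (some (none : Option T))
  have hact : ∀ (d : HQ c P (some (none : Option T))) (x : MN (T2 L₀) l 1),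
      isoN L₀ l 1 (actN l 1 (fun d => rho2 (iK K) c κ (fun g => ρ g)
        (jQ c P (some (none : Option T)) d)) h'.rep.st d x) =
        ac2 (iK K) c κ (actN l 1 (fun g => ρ g) hst) (jQ c P (some (none : Option T)) d)
          (isoN L₀ l 1 x) := fun d x =>
    iso_act A.two hst hq.rep.st (jQ c P (some (none : Option T)) d) x
  -- the reference
  let act2 : IsAct (actN l 1 (fun d => rho2 (iK K) c κ (fun g => ρ g)
      (jQ c P (some (none : Option T)) d)) h'.rep.st) := (KR.pair_MN h'.lat h'.rep 1).act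
  have lin2 : ∀ (g : HQ c P (some (none : Option T))) (a : OE E) (x : MN (T2 L₀) l 1),
      actN l 1 (fun d => rho2 (iK K) c κ (fun g => ρ g)
        (jQ c P (some (none : Option T)) d)) h'.rep.st g (a • x) =
        a • actN l 1 (fun d => rho2 (iK K) c κ (fun g => ρ g)
        (jQ c P (some (none : Option T)) d)) h'.rep.st g x := fun g a x => by
    apply Subtype.ext
    rw [GP.coe_actN, Submodule.coe_smul, Submodule.coe_smul, GP.coe_actN, KR.actQ_smul (h'.rep.st g)]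
  let Yo' : Submodule (OE E) (HQ c P (some (none : Option T)) → MN (T2 L₀) l 1) :=
    OR.indW (SQ c P (N₀.map (iK K)) (some (none : Option T))) act2 lin2
      (redM (T2 L₀) l (wP ρ g₀ W))
  have hYo' : ∀ x, x ∈ Yo' ↔ Z1 (SQ c P (N₀.map (iK K)) (some (none : Option T)))
      (actN l 1 (fun d => rho2 (iK K) c κ (fun g => ρ g)
        (jQ c P (some (none : Option T)) d)) h'.rep.st) x ∧
      ∃ mm : MN (T2 L₀) l 1, ∀ g, ∃ z,
        ((x g - (actN l 1 (fun d => rho2 (iK K) c κ (fun g => ρ g)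
        (jQ c P (some (none : Option T)) d)) h'.rep.st g mm - mm) : MN (T2 L₀) l 1) :
          Wq (T2 L₀)) = mq (T2 L₀) (i z) := by
    intro x
    refine and_congr Iff.rfl (exists_congr fun mm => forall_congr' fun g => ?_)
    rw [mem_redM, ← hri]
    constructor
    · rintro ⟨w, ⟨z, rfl⟩, h1⟩
      exact ⟨z, h1⟩
    · rintro ⟨z, h1⟩
      exact ⟨_, ⟨z, rfl⟩, h1⟩
  have key := OP.dist_even p.loc h' hS Yo' hYo'
  have hord : OP.ordL (SQ c P (N₀.map (iK K)) (some (none : Option T)))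
      (fun d => rho2 (iK K) c κ (fun g => ρ g) (jQ c P (some (none : Option T)) d)) q ρm =
      grL c κ T P N₀ ρ g₀ W := by
    ext Y
    exact mem_ordX (H := stb (P 2)) hS hk
  have hkap : Module.finrank E (KE ρm) =
      Module.finrank E (Parity.fixedModulo (fun σ : stabD (K := K) (P 2) => ρ σ) W) -
        Module.finrank E W := by
    have h1 := finrank_KEX A h0 hW hS hk
    omega
  have key2 : EvPow (Nat.card (IsLocalRing.ResidueField (OE E)))
      (Nat.card ↥(lamN (T2 L₀) l 1 (grL c κ T P N₀ ρ g₀ W)) *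
        Nat.card ↥(lamN (T2 L₀) l 1 (grL c κ T P N₀ ρ g₀ W) ⊓ Yo') *
        Nat.card {x : MN (OP.stdL E m) l 1 // ∀ g, actN l 1 ρm hS.rep.st g x = x} *
        Nat.card (IsLocalRing.ResidueField (OE E)) ^
          (Module.finrank E (Parity.fixedModulo (fun σ : stabD (K := K) (P 2) => ρ σ) W) -
            Module.finrank E W)) := by
    rw [← hkap, ← hord]
    exact key
  -- transport to `M × M`
  have hYo : ∀ x, x ∈ tra (siso_iso L₀ l) Yo' ↔
      Z1 (SQ c P (N₀.map (iK K)) (some (none : Option T)))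
        (fun d => ac2 (iK K) c κ (actN l 1 (fun g => ρ g) hst) (jQ c P (some (none : Option T)) d)) x ∧
      ∃ mm, ∀ d, x d - d0 (fun d => ac2 (iK K) c κ (actN l 1 (fun g => ρ g) hst)
        (jQ c P (some (none : Option T)) d)) mm d ∈ QX.redW L₀ l ρ g₀ W := by
    intro x
    obtain ⟨y, rfl⟩ : ∃ y : HQ c P (some (none : Option T)) → MN (T2 L₀) l 1,
        x = fun d => (isoN L₀ l 1).toAddEquiv (y d) :=
      ⟨fun d => (isoN L₀ l 1).symm (x d), funext fun d => ((isoN L₀ l 1).apply_symm_apply _).symm⟩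
    rw [map_tra, z1_tra (f := (isoN L₀ l 1).toAddEquiv)
      (ρ := actN l 1 (fun d => rho2 (iK K) c κ (fun g => ρ g)
        (jQ c P (some (none : Option T)) d)) h'.rep.st) hact]
    have e0 : ∀ mm d, isoN L₀ l 1 (y d - d0 (actN l 1 (fun d => rho2 (iK K) c κ (fun g => ρ g)
        (jQ c P (some (none : Option T)) d)) h'.rep.st) mm d) =
          isoN L₀ l 1 (y d) - d0 (fun d => ac2 (iK K) c κ (actN l 1 (fun g => ρ g) hst)
            (jQ c P (some (none : Option T)) d)) (isoN L₀ l 1 mm) d := fun mm d => by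
      rw [map_sub]
      simp only [d0, map_sub, hact]
    refine and_congr Iff.rfl ⟨?_, ?_⟩
    · rintro ⟨mm, h1⟩
      refine ⟨isoN L₀ l 1 mm, fun d => ?_⟩
      have h2 := (redW_iff (ρ := ρ) (g₀ := g₀) (W := W)).2 (h1 d)
      rw [e0] at h2
      exact h2
    · rintro ⟨mm', h1⟩
      obtain ⟨mm, rfl⟩ : ∃ mm, mm' = isoN L₀ l 1 mm :=
        ⟨(isoN L₀ l 1).symm mm', ((isoN L₀ l 1).apply_symm_apply _).symm⟩
      refine ⟨mm, fun d => redW_iff.1 ?_⟩
      rw [e0]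
      exact h1 d
  have hY := QX.lag_X I hCn (some none)
  let pb := pbar (T₂ := T2 L₀) (p := q) l (fun x hx => hS.pT hx)
  let Q : MN L₀ l 1 × MN L₀ l 1 →+ MN (OP.stdL E m) l 1 :=
    pb.comp (isoN L₀ l 1).symm.toAddEquiv.toAddMonoidHom
  have hQ : ∀ x, Q (isoN L₀ l 1 x) = pb x := fun x => by
    show pb ((isoN L₀ l 1).symm (isoN L₀ l 1 x)) = pb x
    rw [(isoN L₀ l 1).symm_apply_apply]
  have hsurj : ∀ v : MN L₀ l 1 × MN L₀ l 1, ∃ x, v = isoN L₀ l 1 x := fun v =>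
    ⟨(isoN L₀ l 1).symm v, ((isoN L₀ l 1).apply_symm_apply v).symm⟩
  have hτ : ∀ g, iK K g ≠ jQ c P (some (none : Option T)) ⟨iK K g₀ * c, h0⟩ := by
    intro g hg
    have h1 : iK K g = iK K g₀ * c := hg
    refine A.two.nc (g₀⁻¹ * g) ?_
    rw [map_mul, map_inv, h1, ← mul_assoc, inv_mul_cancel, one_mul]
  have hodd : ∀ g : AbsGal K, (2 : ℤ_[2]) ∣ cyc g - 1 := PA.isChar_cyc.odd
  have hcM : Nat.card (MN L₀ l 1) = Nat.card (IsLocalRing.ResidueField (OE E)) ^ (2 * r) := by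
    rw [KR.card_MN hl 1, one_mul, hr]
  have key3 := locS_ind1 p hsd hs hC hodd (QF.max_MN hl) hτ (eul_two I) (W := QX.redW L₀ l ρ g₀ W)
    (fun d w hw => QX.redW_st A h0 hW hst hq.rep.st d hw)
    (fun v hv w hw => QX.redW_iso hl hW0 hv hw) (fun v hv => QX.redW_perp hl hW2 hW0 hv)
    (Y := YM L₀ l (grL c κ T P N₀ ρ g₀ W))
    (Yo := tra (siso_iso L₀ l) Yo') hY hYo (ω := actN l 1 ρm hS.rep.st) Q (fun y => by
      obtain ⟨x, hx⟩ := pbar_surj hS y
      exact ⟨isoN L₀ l 1 x, (hQ x).trans hx⟩) (fun v => by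
      obtain ⟨x, rfl⟩ := hsurj v
      rw [hQ, redW_iff, ← hk]
      exact pbar_ker hS x) (fun d v => by
      obtain ⟨x, rfl⟩ := hsurj v
      rw [← hact, hQ, hQ]
      exact pbar_act hS h'.rep.st d x) hj hcM (δ :=
        Module.finrank E (Parity.fixedModulo (fun σ : stabD (K := K) (P 2) => ρ σ) W) -
          Module.finrank E W) (by
      have e1 : Nat.card (YM L₀ l (grL c κ T P N₀ ρ g₀ W)) =
          Nat.card (lamN (T2 L₀) l 1 (grL c κ T P N₀ ρ g₀ W)) := card_YM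
      have e2 : Nat.card ↥(YM L₀ l (grL c κ T P N₀ ρ g₀ W) ⊓
          tra (siso_iso L₀ l) Yo') = Nat.card ↥(lamN (T2 L₀) l 1
            (grL c κ T P N₀ ρ g₀ W) ⊓ Yo') := by
        rw [YM, ← tra_inf]
        exact card_tra _ _
      rw [← e1, ← e2] at key2
      exact key2)
  rw [one_mul] at key3
  exact key3

end two

end Pool.Agent.Work.MP_787500_nt.KJ
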