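import Mathlib
import Pool.Agent.Work.MP_787500_nt.KJ.XTwo
import Pool.Agent.Work.MP_787500_nt.KJ.XFam
import Pool.Agent.Work.MP_787500_nt.KJ.FinSP
import Pool.Agent.Work.MP_787500_nt.RC.Main
import Pool.Agent.Work.MP_787500_nt.RB.FinalK
import Pool.Agent.Work.MP_787500_nt.QX.GenL4
import Pool.Agent.Work.MP_787500_nt.AR.ExtA

/-!
# KJ/MainL: the parity theorem for residually self-dual TRACES, 2 does not split, any self-annihilating condition at 2

* `main_levL`: a representation with a lattice whose level one is `U × N × N`.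
* `main_genL8`: a representation with residually self-dual traces.

As `UA.main_genLA` (copy of QX/GenL4.lean with the Artin conductor at the inert primes), with the contributions `LocFS`.
-/

set_option autoImplicit false
set_option linter.unusedSectionVars false

namespace Pool.Agent.Work.MP_787500_nt.KJ

open Matrix NumberField
open Pool.Agent.Work.MP_787500_nt.PA (cyc toE)
open Pool.Agent.Work.MP_787500_nt.GP
open Pool.Agent.Work.MP_787500_nt.LX
open Pool.Agent.Work.MP_787500_nt.HP (IsQ Spl IsP inr stb cyQ)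
open Pool.Agent.Work.MP_787500_nt.KS (iK)
open Pool.Agent.Work.MP_787500_nt.QF (exists_n0 max_MN)
open Pool.Agent.Work.MP_787500_nt.QG (exists_primes)
open Pool.Agent.Work.MP_787500_nt.QX (IsI two_I exists_inI fullK_mono kinds stb_leI theta_I exists_swapI
  inr_le_range cnd_of_lagV lagV_sL sL_gr sL self_gr selK_sL famX parity_X grL)
open Pool.Agent.Work.MP_787500_nt.AR (artK artK_fin wildSet swanK)
open Pool.Agent.Work.MP_787500_nt.RC (SplS)
open Pool.Agent.Work.MP_787500_nt.RB (det_fin isDualRep_fin quotDim_fin)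

universe u v

variable {K : Type u} [Field K] [NumberField K] {D : ℕ} {s : K}
  {c : AlgebraicClosure K ≃+* AlgebraicClosure K} {κ : AbsGal K →* AbsGal K}

/-- the contribution of an inert prime number where the representation is unramified -/
theorem artK_unram {E : Type v} [NormedField E] {n : ℕ} {ρ : AbsGal K →* Matrix (Fin n) (Fin n) E}
    {l : ℕ} {W : Subgroup (AbsGal K)} {Q : Ideal (𝓞 (AlgebraicClosure K))}
    (h : ∀ σ ∈ Q.inertia (AbsGal K), ρ σ = 1) : artK l W Q ρ = n := by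
  have h1 : ∀ {X : Type u} (A : X → Matrix (Fin n) (Fin n) E), (∀ x, A x = 1) →
      Module.finrank E (Parity.fixedBy A) = n := by
    intro X A hA
    have h5 : Parity.fixedBy A = ⊤ := by
      rw [eq_top_iff]
      intro v _ σ
      show A σ *ᵥ v = v
      rw [hA σ, one_mulVec]
    rw [h5, finrank_top, Module.finrank_fin_fun]
  unfold artK swanK
  rw [h1 (fun σ : Q.inertia (AbsGal K) => ρ σ) fun σ => h σ σ.2]
  have h2 : (fun k : ℕ => AR.ramCard ⊤ W Q (k + 1) * (n - Module.finrank E (Parity.fixedBy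
      (fun σ : {σ : AbsGal K // σ ∈ wildSet l Q ∧ σ ∈ AR.ramSet W Q (k + 1)} => ρ σ)))) =
      fun _ => 0 := by
    funext k
    rw [h1 (fun σ : {σ : AbsGal K // σ ∈ wildSet l Q ∧ σ ∈ AR.ramSet W Q (k + 1)} => ρ σ)
      fun σ => h σ σ.2.1.1, Nat.sub_self, mul_zero]
  rw [h2, finsum_zero, Nat.zero_div, Nat.add_zero]

open scoped Classical in
/-- THE PARITY THEOREM for a representation with a lattice whose level 1 is `U × N × N`. -/
theorem main_levL (hK : IsI K D s) (hc : PA.IsConj s c)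
    (hκ : ∀ (σ : AbsGal K) (x : AlgebraicClosure K), κ σ x = c (σ (c x)))
    {P₀ : Ideal (𝓞 (AlgebraicClosure K))} (hP₀ : P₀.IsPrime)
    (hP2 : (2 : 𝓞 (AlgebraicClosure K)) ∈ P₀)
    {T : Finset ℕ} (hT : ∀ l ∈ T, l.Prime ∧ l ≠ 2)
    {Q : ℕ → Ideal (𝓞 (AlgebraicClosure K))}
    (hQ : ∀ l ∈ T, (Q l).IsPrime ∧ (l : 𝓞 (AlgebraicClosure K)) ∈ Q l)
    {E : Type v} [NormedField E] [NormedAlgebra ℚ_[2] E] [FiniteDimensional ℚ_[2] E] {n : ℕ}
    {ρ : AbsGal K →* Matrix (Fin n) (Fin n) E} {b : Matrix (Fin n) (Fin n) E} (hb : b.det ≠ 0)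
    (hρ : Parity.IsDualRep (inT K T) (Parity.cyclo E) κ ρ b) {l : OE E} {t : E →ₗ[ℚ_[2]] ℚ_[2]}
    {L₀ : Submodule (OE E) (Fin n → E)} (hlat : Lat b l t L₀) (hst : ∀ g, ∀ x ∈ L₀, ρ g *ᵥ x ∈ L₀)
    {U N : Type v} [AddCommGroup U] [AddCommGroup N] [Module (OE E) U] [Module (OE E) N] [Finite U]
    [Finite N] {aU : AbsGal K → U → U} {bU : U →+ U →+ A0} {aN : AbsGal K → N → N}
    {hN : N →+ N →+ A0} {Φ : MN L₀ l 1 ≃ₗ[OE E] U × N × N} {C₁ : U → U}
    (hs : SplS (OE E) (actN l 1 (fun g => ρ g) hst) (bN hlat 1) aU bU aN hN Φ)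
    (hInv : QP.InvC κ (OE E) aU bU C₁)
    {W₁ : Subgroup (AbsGal K)} (hWo : IsOpen (W₁ : Set (AbsGal K))) (hWn : W₁.Normal)
    (hWt : ∀ l ∈ T, GA.Inr D l → ∀ g ∈ W₁, g ∈ wildSet l (Q l) → ρ g = 1)
    (hR : ∀ l ∈ T, l ∣ D → Parity.SemistableOn ((Q l).inertia (AbsGal K)) ρ)
    {g₀ : AbsGal K} (h0 : iK K g₀ * c ∈ stb P₀)
    {k : stabD (K := K) P₀ → stabD (K := K) P₀} (hk : ∀ a, (k a : AbsGal K) = g₀ * κ a * g₀⁻¹)
    {W : Submodule E (Fin n → E)}
    (hW : ∀ σ ∈ stabD (K := K) P₀, ∀ x ∈ W, ρ σ *ᵥ x ∈ W) (hW2 : 2 * Module.finrank E W = n)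
    (hW0 : ∀ x ∈ W, ∀ y ∈ W, bil b x (ρ g₀⁻¹ *ᵥ y) = 0) :
    Parity.IsSelfPerp (Parity.cyclo E) κ ρ b (stabD (K := K) P₀) (ρ g₀⁻¹) k
        (Parity.greenbergAt ρ (stabD (K := K) P₀) W) ∧
      Parity.ParitySelf (Parity.inertiaOffTwo K) (Parity.cyclo E) κ ρ b (stabD (K := K) P₀) (ρ g₀⁻¹) k W
        (∑ l ∈ T.filter (GA.Inr D), artK l W₁ (Q l) ρ +
          ∑ l ∈ T.filter (fun l => l ∣ D),
            Parity.quotDim (stabD (Q l)) ((Q l).inertia (AbsGal K)) ρ) := by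
  have X := two_I hK hc hκ
  have hodd : ∀ g : AbsGal K, (2 : ℤ_[2]) ∣ cyc g - 1 := PA.isChar_cyc.odd
  obtain ⟨N₀, hNn, hNF, hNo, hκN, hNI, hpro⟩ := exists_n0 (KR.isFull_K T) (χ := cyc)
    PA.isChar_cyc.mul PA.isChar_cyc.one hodd X.kk hb hρ
  -- the odd prime divisors of `D`
  obtain ⟨TD, hTD⟩ : ∃ TD : Finset ℕ, TD = D.primeFactors.filter (fun p => p ≠ 2) := ⟨_, rfl⟩
  have mTD : ∀ p, p ∈ TD ↔ p.Prime ∧ p ≠ 2 ∧ p ∣ D := fun p => by
    rw [hTD, Finset.mem_filter, Nat.mem_primeFactors]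
    exact ⟨fun h => ⟨h.1.1, h.2, h.1.2.1⟩, fun h => ⟨⟨h.1, h.2.2, hK.sqf.ne_zero⟩, h.2.1⟩⟩
  obtain ⟨N₁, hN₁, kN₁, hmem₁, T₁, hT₁, hex⟩ := exists_inI.{u, v} hK hc hκ (T₀ := T ∪ TD)
    (fun l hl => by
      rcases Finset.mem_union.1 hl with h | h
      · exact ⟨(hT l h).1, (hT l h).2⟩
      · exact ⟨((mTD l).1 h).1, ((mTD l).1 h).2.1⟩)
    (fun p hp h2 hd => Finset.mem_union_right _ ((mTD p).2 ⟨hp, h2, hd⟩))
    (fullK_mono Finset.subset_union_left hNF) hκN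
  obtain ⟨T', hT'⟩ : ∃ T', T' = T ∪ TD ∪ T₁ := ⟨_, rfl⟩
  have hTT0 : T ∪ TD ⊆ T' := hT' ▸ Finset.subset_union_left
  have hTT : T ⊆ T' := Finset.subset_union_left.trans hTT0
  have hTDT : TD ⊆ T' := Finset.subset_union_right.trans hTT0
  have hT1 : T₁ ⊆ T' := hT' ▸ Finset.subset_union_right
  have hpr : ∀ l ∈ T', l.Prime ∧ l ≠ 2 := fun l hl => by
    rw [hT'] at hl
    rcases Finset.mem_union.1 hl with h | h
    · rcases Finset.mem_union.1 h with h | h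
      · exact ⟨(hT l h).1, (hT l h).2⟩
      · exact ⟨((mTD l).1 h).1, ((mTD l).1 h).2.1⟩
    · exact hT₁ l h
  obtain ⟨P, hP, h2, hPQ⟩ := exists_primes hP₀ hP2 (fun l hl => (hpr l hl).1) (fun l hl => (hpr l hl).2)
    hQ hTT
  subst h2
  obtain ⟨iv, ivF, -, tr, I⟩ := hex T' hTT0 hT1 P hP
  have hI' : ∀ σ ∈ inT K T', ρ σ = 1 := fun σ hσ => hρ.unram σ (HP.inT_mono hTT hσ)
  have hρ₀ : Gn.ConjDual 2 N₁ (inT K T') (fun g => toE E (cyc g)) κ ρ b :=
    ⟨hρ.cont, fun g hg => hpro g (hN₁ hg), hI', hρ.symm, hρ.dual⟩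
  have hloc : IsLocalRing (OE E) := isLocal E
  have hrf : Finite (IsLocalRing.ResidueField (OE E)) := res_finite
  have hρ' : Gn.ConjDual 2 N₁ (inT K T') (Parity.cyclo E) κ ρ b := hρ₀
  have hfM : Finite (MN L₀ l 1) := MN_finite hlat 1
  have hF2 : (2 : IsLocalRing.ResidueField (OE E)) = 0 := by
    have h3 := (IsLocalRing.residue_eq_zero_iff (2 : OE E)).2 two_mem
    rwa [map_ofNat] at h3
  have hchar : CharP (IsLocalRing.ResidueField (OE E)) 2 :=
    (CharP.charP_iff_prime_eq_zero Nat.prime_two).2 (by exact_mod_cast hF2)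
  let _ : Algebra (ZMod 2) (IsLocalRing.ResidueField (OE E)) := ZMod.algebra _ 2
  have hn : Even n := ⟨Module.finrank E W, by omega⟩
  have hG := self_gr I.toArX (I.locD (some none)) (I.locD (some none)) hρ' hlat hst
    I.glob.glob.char.mul h0 hk hW hW2 hW0
  refine ⟨hG, fun L hL => ?_⟩
  -- the prime divisors of `D`
  have hun : ∀ p ∈ T', p ∉ T → ∀ g ∈ (P p).inertia (AbsGal K), ρ g = 1 :=
    fun p hp hpT g hg => hρ.unram g (HP.inertia_inT hP hTT hp hpT hg)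
  have hsD : ∀ p : T', (p : ℕ) ∣ D →
      Parity.SemistableOn ((P p).inertia (AbsGal K)) ρ := by
    intro p hpD
    by_cases hpT : (p : ℕ) ∈ T
    · rw [hPQ p hpT]
      exact hR p hpT hpD
    · intro g hg
      rw [hun p p.2 hpT g hg, sub_self, mul_zero]
  -- the places of `T'`
  have hloc : ∀ p : T', LocFS c κ P N₁ ivF aU bU aN hN Φ C₁ (some (some p))
      (famX c κ T' P N₁ ρ (sL c κ P N₁ ρ L) (some (some p)))
      ((if (p : ℕ) ∈ T ∧ GA.Inr D p then artK p W₁ (P p) ρ else 0) +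
        if (p : ℕ) ∈ T ∧ (p : ℕ) ∣ D then
          Parity.quotDim (stabD (P p)) ((P p).inertia (AbsGal K)) ρ else 0) := by
    intro p
    rcases kinds I D p with hp | hp | hp
    · -- a prime number that splits
      rw [if_neg fun h3 => h3.2.2.2.2 hp.2.2.2, if_neg fun h3 => hp.2.2.1 h3.2]
      exact locXS_spl I hρ' hlat hst hs hInv (stb_leI hK hp (I.isPrime p) (I.natMem p)) _
    · -- a prime divisor of `D`
      obtain ⟨θ, hθ⟩ := theta_I I hK hp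
      have hpr : ¬ inr (P p) ≤ (iK K).range := by
        intro h3
        obtain ⟨g, hg⟩ := h3 hθ
        exact I.two.out θ g hg
      have e1 : (if (p : ℕ) ∈ T ∧ (p : ℕ) ∣ D then
          Parity.quotDim (stabD (P p)) ((P p).inertia (AbsGal K)) ρ else 0) =
          Parity.quotDim (stabD (P p)) ((P p).inertia (AbsGal K)) ρ := by
        by_cases hpT : (p : ℕ) ∈ T
        · rw [if_pos ⟨hpT, hp⟩]
        · rw [if_neg fun h3 => hpT h3.1, QG.quotDim_unram (hun p p.2 hpT)]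
      rw [if_neg fun h3 => h3.2.2.2.1 hp, e1, Nat.zero_add]
      exact locXS_ram I hρ' hlat hst hs hn hpr (hsD p hp) _
    · -- an inert prime number
      obtain ⟨g₁, hg₁⟩ := exists_swapI hK I.two hp (I.isPrime p) (I.natMem p)
      have hIr := inr_le_range hK (I.prime p) (I.odd p) hp.2.2.1 (I.isPrime p) (I.natMem p)
      rw [if_neg (c := (p : ℕ) ∈ T ∧ (p : ℕ) ∣ D) fun h3 => hp.2.2.1 h3.2, Nat.add_zero]
      by_cases hpT : (p : ℕ) ∈ T
      · rw [if_pos ⟨hpT, hp⟩]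
        have hcn : ∀ g ∈ W₁, g ∈ wildSet p (P p) → ρ g = 1 := by
          rw [hPQ p hpT]
          exact hWt p hpT hp
        exact locXS_inrA I hρ' hlat hst hs hInv hIr hg₁ hWo hWn hcn _
      · rw [if_neg fun h3 => hpT h3.1]
        have h3 : ∀ σ ∈ (P p).inertia (AbsGal K), ρ σ = 1 := fun σ hσ => hun p p.2 hpT σ hσ
        refine locS_congr ?_ (locXS_inrA I hρ' hlat hst hs hInv hIr hg₁ hWo hWn
          (fun g _ hg => h3 g hg.1) _)
        rw [artK_unram h3, Nat.add_zero]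
        exact hn
  have hCn := cnd_of_lagV I.toArX hρ' hlat hst I.glob.glob.char (I.locD (some none))
    (lagV_sL I.toArX (I.locD (some none)) hρ' hlat hst I.glob.glob.char.mul h0 hk hL)
  obtain ⟨a, ha⟩ : ∃ a, a = Module.finrank E (Parity.fixedModulo
    (fun σ : stabD (K := K) (P 2) => ρ σ) W) - Module.finrank E W := ⟨_, rfl⟩
  have hCg := cnd_of_lagV I.toArX hρ' hlat hst I.glob.glob.char (I.locD (some none))
    (lagV_sL I.toArX (I.locD (some none)) hρ' hlat hst I.glob.glob.char.mul h0 hk hG)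
  rw [sL_gr I.toArX hρ' h0 hW] at hCg
  obtain ⟨j, hj⟩ := GP.card_pow (O := OE E) N
  have h3 := locXS_two I hρ' hlat hst hs hInv hCg h0 hW hW2 hW0 hj (r := Module.finrank E W) hW2.symm
  rw [← ha, ← sL_gr I.toArX hρ' h0 hW] at h3
  obtain ⟨r₀, hfL, h4⟩ := locXS_sL I hρ' hlat hst hs h0 hk hL hG h3
  obtain ⟨d, hd⟩ : ∃ d, d = Parity.dimModulo L
    (L ⊓ Parity.greenbergAt ρ (stabD (K := K) (P 2)) W) := ⟨_, rfl⟩
  rw [← hd] at h4
  have hloc2 : ∀ r, Nat.card U = Nat.card (IsLocalRing.ResidueField (OE E)) ^ (2 * r) →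
      LocFS c κ P N₁ ivF aU bU aN hN Φ C₁ (some none)
        (famX c κ T' P N₁ ρ (sL c κ P N₁ ρ L) (some none)) (a + d + n / 2 + r) := by
    intro r hr
    have e1 := num_UN hlat Φ hr hj
    refine locS_congr ⟨a + d + j + r₀ + r, ?_⟩ h4
    omega
  have hP1 := hP_XS I hCn hs hInv hloc2 hloc
  obtain ⟨f2, f3, f4⟩ := parity_X I hρ' hlat hst hCn hP1
  rw [selK_sL I.toArX hρ' L] at f2 f3 f4
  refine ⟨hfL, f2, f3, ?_⟩
  have k3 : ∑ p : T', ((if (p : ℕ) ∈ T ∧ GA.Inr D p then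
      artK p W₁ (P p) ρ else 0) +
        if (p : ℕ) ∈ T ∧ (p : ℕ) ∣ D then
          Parity.quotDim (stabD (P p)) ((P p).inertia (AbsGal K)) ρ else 0) =
      ∑ l ∈ T.filter (GA.Inr D), artK l W₁ (Q l) ρ +
        ∑ l ∈ T.filter (fun l => l ∣ D),
          Parity.quotDim (stabD (Q l)) ((Q l).inertia (AbsGal K)) ρ := by
    have k4 : ∀ (p : ℕ → Prop) [DecidablePred p] (f : ℕ → Ideal (𝓞 (AlgebraicClosure K)) → ℕ),
        ∑ q : T', (if (q : ℕ) ∈ T ∧ p q then f q (P q) else 0) = ∑ l ∈ T.filter p, f l (Q l) := by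
      intro p _ f
      rw [Finset.sum_coe_sort T' (fun q : ℕ => if q ∈ T ∧ p q then f q (P q) else 0),
        ← Finset.sum_filter]
      have k5 : T'.filter (fun q => q ∈ T ∧ p q) = T.filter p := by
        ext q
        rw [Finset.mem_filter, Finset.mem_filter]
        exact ⟨fun hq => hq.2, fun hq => ⟨hTT hq.1, hq⟩⟩
      rw [k5]
      refine Finset.sum_congr rfl fun q hq => ?_
      rw [hPQ q (Finset.mem_filter.1 hq).1]
    rw [Finset.sum_add_distrib]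
    exact congrArg₂ _ (k4 (GA.Inr D) fun l Q => artK l W₁ Q ρ)
      (k4 (fun l => l ∣ D) fun _ Q => Parity.quotDim (stabD Q) (Q.inertia (AbsGal K)) ρ)
  rw [k3] at f4
  rw [← ha, ← hd]
  unfold Nat.ModEq
  obtain ⟨a₂, ha₂⟩ := f4
  omega


open scoped Classical in
/-- THE PARITY THEOREM for representations with residually self-dual traces, 2 does not split. -/
theorem main_genL8 (hK : IsI K D s) (hc : PA.IsConj s c)
    (hκ : ∀ (σ : AbsGal K) (x : AlgebraicClosure K), κ σ x = c (σ (c x)))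
    {P₀ : Ideal (𝓞 (AlgebraicClosure K))} (hP₀ : P₀.IsPrime)
    (hP2 : (2 : 𝓞 (AlgebraicClosure K)) ∈ P₀)
    {T : Finset ℕ} (hT : ∀ l ∈ T, l.Prime ∧ l ≠ 2)
    {Q : ℕ → Ideal (𝓞 (AlgebraicClosure K))}
    (hQ : ∀ l ∈ T, (Q l).IsPrime ∧ (l : 𝓞 (AlgebraicClosure K)) ∈ Q l)
    {E : Type v} [NormedField E] [NormedAlgebra ℚ_[2] E] [FiniteDimensional ℚ_[2] E] {n : ℕ}
    {ρ : AbsGal K →* Matrix (Fin n) (Fin n) E} {b : Matrix (Fin n) (Fin n) E} (hb : b.det ≠ 0)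
    (hρ : Parity.IsDualRep (inT K T) (Parity.cyclo E) κ ρ b) (hres : Parity.ResTrace ρ)
    {W₁ : Subgroup (AbsGal K)} (hWo : IsOpen (W₁ : Set (AbsGal K))) (hWn : W₁.Normal)
    (hWt : ∀ l ∈ T, GA.Inr D l → ∀ g ∈ W₁, g ∈ wildSet l (Q l) → ρ g = 1)
    (hR : ∀ l ∈ T, l ∣ D → Parity.SemistableOn ((Q l).inertia (AbsGal K)) ρ)
    {g₀ : AbsGal K} (h0 : iK K g₀ * c ∈ stb P₀)
    {k : stabD (K := K) P₀ → stabD (K := K) P₀} (hk : ∀ a, (k a : AbsGal K) = g₀ * κ a * g₀⁻¹)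
    {W : Submodule E (Fin n → E)}
    (hW : ∀ σ ∈ stabD (K := K) P₀, ∀ x ∈ W, ρ σ *ᵥ x ∈ W) (hW2 : 2 * Module.finrank E W = n)
    (hW0 : ∀ x ∈ W, ∀ y ∈ W, bil b x (ρ g₀⁻¹ *ᵥ y) = 0) :
    Parity.IsSelfPerp (Parity.cyclo E) κ ρ b (stabD (K := K) P₀) (ρ g₀⁻¹) k
        (Parity.greenbergAt ρ (stabD (K := K) P₀) W) ∧
      Parity.ParitySelf (Parity.inertiaOffTwo K) (Parity.cyclo E) κ ρ b (stabD (K := K) P₀) (ρ g₀⁻¹) k W
        (∑ l ∈ T.filter (GA.Inr D), artK l W₁ (Q l) ρ +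
          ∑ l ∈ T.filter (fun l => l ∣ D),
            Parity.quotDim (stabD (Q l)) ((Q l).inertia (AbsGal K)) ρ) := by
  have X := two_I hK hc hκ
  have hn : Even n := ⟨Module.finrank E W, by omega⟩
  obtain ⟨E', i1, i2, i3, ι, l, t, L₀, hlat, hst, U, N, j1, j2, j3, j4, j5, j6, aU, bU, aN, hN, Φ, C₁,
    hs, hInv⟩ := RC.exists_lev1 (κ := κ) (χ := cyc) X.kk PA.isChar_cyc.odd hn
      (KR.small_full (KR.isFull_K T) hρ.cont hρ.unram) hb hρ.symm hρ.dual hres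
  obtain ⟨d, β, h⟩ := RB.exists_finExt ι
  obtain ⟨h1, h2⟩ := main_levL (κ := κ) hK hc hκ hP₀ hP2 hT hQ (det_fin ι hb)
    (isDualRep_fin (χ := cyc) ι hρ) hlat hst hs hInv hWo hWn (fun l hl hi g hg hg' => by
      show (ρ g).map ι = 1
      rw [hWt l hl hi g hg hg', Matrix.map_one _ (map_zero _) (map_one _)])
    (fun l hl hi => (ER.semi_ext ι).2 (hR l hl hi)) h0 hk (W := h.extV W)
    (fun σ hσ => h.extV_st (hW σ hσ)) (by rw [h.finrank_extV, hW2]) (h.extV_iso hW0)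
  rw [RB.greenbergAt_fin] at h1
  simp only [artK_fin, quotDim_fin] at h2
  exact ⟨selfPerp_of_fin (χ := cyc) h h1, RB.paritySelf_fin (χ := cyc) h h2⟩

end Pool.Agent.Work.MP_787500_nt.KJ
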