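import Mathlib
import Pool.Agent.Work.MP_787500_nt.SF.FinalF
import Pool.Agent.Work.MP_787500_nt.SF.Trace
import Pool.Agent.Work.MP_787500_nt.KJ.Main

/-!
The parity formula over finite extensions of an imaginary quadratic field for representations with residually self-dual traces,
ramified at arbitrary odd primes; the conjugation need not be an involution.
-/

set_option autoImplicit false
set_option linter.unusedSectionVars false

namespace Pool.Agent.Work.MP_787500_nt.KJ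

open Matrix NumberField
open Pool.Agent.Work.MP_787500_nt.SH
open Pool.Agent.Work.MP_787500_nt.SF
open Pool.Agent.Work.MP_787500_nt.PA (cyc toE)
open Pool.Agent.Work.MP_787500_nt.GP (inT stabD)
open Pool.Agent.Work.MP_787500_nt.HP (IsQ Spl)
open Pool.Agent.Work.MP_787500_nt.Parity (SqMod)

universe u v w₁ w₂

private theorem modEq_fix {m x : ℕ} (hm : Even m) (h : x ≤ m) : m - x ≡ x [MOD 2] := by
  obtain ⟨a, ha⟩ := hm
  unfold Nat.ModEq
  omega

section quad

variable {K : Type u} [Field K] [NumberField K] {D : ℕ} {s : K}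
  {c : AlgebraicClosure K ≃+* AlgebraicClosure K} {κ : AbsGal K →* AbsGal K}

open scoped Classical in
/-- The parity formula over the open subgroup `H`, residually self-dual traces. -/
theorem final_T (hK : IsQ K D s) (hc : PA.IsConj s c)
    (hκ : ∀ (σ : AbsGal K) (x : AlgebraicClosure K), κ σ x = c (σ (c x)))
    {P₀ : Ideal (𝓞 (AlgebraicClosure K))} (hP₀ : P₀.IsPrime)
    (hP2 : (2 : 𝓞 (AlgebraicClosure K)) ∈ P₀) {T : Finset ℕ} (hT : ∀ l ∈ T, l.Prime ∧ l ≠ 2)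
    {H : Subgroup (AbsGal K)} (hH : IsOpen (H : Set (AbsGal K))) {g₀ : AbsGal K} {kk : H →* H}
    (tw : Tw H κ g₀ kk) (hTH : ∀ σ ∈ inT K T, σ ∈ H)
    {E : Type v} [NormedField E] [NormedAlgebra ℚ_[2] E] [FiniteDimensional ℚ_[2] E] {n : ℕ}
    {τ : H →* Matrix (Fin n) (Fin n) E} {b : Matrix (Fin n) (Fin n) E} (hb : b.det ≠ 0)
    (hτc : Continuous τ) (hτu : ∀ σ : H, (σ : AbsGal K) ∈ inT K T → τ σ = 1)
    (hτs : b * τ ⟨g₀ * κ g₀, tw.mem⟩ = Parity.cyclo E g₀ • bᵀ)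
    (hdτ : ∀ h : H, (τ h)ᵀ * b * τ (kk h) = Parity.cyclo E (h : AbsGal K) • b)
    (hres : Parity.ResTrace τ)
    {Ψ : ℕ → Type*} [∀ l, Fintype (Ψ l)] {Q : ∀ l, Ψ l → Ideal (𝓞 (AlgebraicClosure K))}
    (hQ : ∀ l ∈ T, GA.Inr D l ∨ l ∣ D →
      IsReps H {Q | Q.IsPrime ∧ (l : 𝓞 (AlgebraicClosure K)) ∈ Q} (Q l))
    (hI : ∀ l ∈ T, GA.Inr D l → (n = 2 ∧ H = ⊤) ∨
      ∀ i, CommInd ((Q l i).inertia (AbsGal K)) τ)
    (hR : ∀ l ∈ T, l ∣ D → ∀ i, (Q l i).inertia (AbsGal K) ≤ H ∧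
      Parity.SemistableOn (((Q l i).inertia (AbsGal K)).subgroupOf H) τ)
    {Φ : Type*} [Fintype Φ] {P : Φ → Ideal (𝓞 (AlgebraicClosure K))} (hP : ∀ i, (P i).IsPrime)
    (hPu : ∀ i, (P i).comap (algebraMap (𝓞 K) (𝓞 (AlgebraicClosure K))) =
      P₀.comap (algebraMap (𝓞 K) (𝓞 (AlgebraicClosure K))))
    (hrep : ∀ Q : Ideal (𝓞 (AlgebraicClosure K)), Q.IsPrime →
      Q.comap (algebraMap (𝓞 K) (𝓞 (AlgebraicClosure K))) =
        P₀.comap (algebraMap (𝓞 K) (𝓞 (AlgebraicClosure K))) →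
      ∃! i, ∃ h ∈ H, ∀ x, x ∈ P i ↔ h • x ∈ Q) :
    ParityFam {I : Subgroup H | ∃ J ∈ Parity.inertiaOffTwo K, I = J.subgroupOf H}
      (fun σ : H => Parity.cyclo E (σ : AbsGal K)) kk τ b (fun i => (stabD (P i)).subgroupOf H)
      (∑ l ∈ T.filter (GA.Inr D), condF H τ (fun i => stabD (Q l i))
          (fun i => (Q l i).inertia (AbsGal K)) +
        ∑ l ∈ T.filter (fun l => l ∣ D), condR H τ (fun i => stabD (Q l i))
          (fun i => (Q l i).inertia (AbsGal K))) := by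
  have hκκ : ∀ g, κ (κ g) = g := GA.kap_kap hc hκ
  have hfin : Finite (AbsGal K ⧸ H) := Subgroup.quotient_finite_of_isOpen H hH
  let _ : Fintype (AbsGal K ⧸ H) := Fintype.ofFinite _
  obtain ⟨m, ⟨en⟩⟩ := Finite.exists_equiv_fin ((AbsGal K ⧸ H) × Fin n)
  let r : Rep H n m := ⟨fun x => x.out, fun x => QuotientGroup.out_eq' x, en⟩
  have hcyc := (PA.isInvol (K := K) (c := c) (fun x => hc.sq x) hκ).chi
  have hE : ∀ g : AbsGal K, Parity.cyclo E g = toE E (cyc g) := fun _ => rfl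
  have hχ1 : Parity.cyclo E (1 : AbsGal K) = 1 := by
    rw [hE, PA.isChar_cyc.one]
    show (LB.toEh E) 1 = 1
    exact map_one _
  have hχ : ∀ a a' : AbsGal K, Parity.cyclo E (a * a') = Parity.cyclo E a * Parity.cyclo E a' := by
    intro a a'
    rw [hE, hE, hE, PA.isChar_cyc.mul]
    exact map_mul (LB.toEh E) _ _
  have hχκ : ∀ a : AbsGal K, Parity.cyclo E (κ a) = Parity.cyclo E a := by
    intro a
    rw [hE, hE, hcyc]
  have hdual : Parity.IsDualRep (inT K T) (Parity.cyclo E) κ (indR r τ)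
      (indT r κ g₀ (Parity.cyclo E) b τ) :=
    isDualRep_indT hH tw hχ1 hχ hχκ (fun σ hσ a => (GP.baseT K T).conj a σ hσ) hTH hτc hτu hτs hdτ
  have hF := indForm_ind (r := r) tw hχ1 hχ hdτ
  have hInd : IsInd τ (indR r τ) (indV r τ) := isInd_ind r τ
  have hdet : (indT r κ g₀ (Parity.cyclo E) b τ).det ≠ 0 :=
    indForm_det hF hInd (isInd_kap hInd tw) hχ1 hχ hb
  have hm : m = n * H.index := by
    have h1 := Nat.card_congr en
    rw [Nat.card_prod, Nat.card_fin, Nat.card_fin, mul_comm] at h1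
    exact h1.symm
  -- the residual representation
  have hu : IsUltrametricDist E := Gn.ultra 2 E
  have hresW : Parity.ResTrace (indR r τ) := trace_ind r hres
  -- primes over the elements of `T`
  have hR0 : ∀ p : ℕ, ∃ Q : Ideal (𝓞 (AlgebraicClosure K)), p.Prime →
      Q.IsPrime ∧ (p : 𝓞 (AlgebraicClosure K)) ∈ Q := by
    intro p
    by_cases hp : p.Prime
    · obtain ⟨Q, hQ⟩ := HP.prime_over_nat (Ω := AlgebraicClosure K) hp
      exact ⟨Q, fun _ => hQ⟩
    · exact ⟨⊥, fun h => absurd h hp⟩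
  choose Q₀ hQ₀ using hR0
  have hQT : ∀ l ∈ T, (Q₀ l).IsPrime ∧ (l : 𝓞 (AlgebraicClosure K)) ∈ Q₀ l :=
    fun l hl => hQ₀ l (hT l hl).1
  have hex : ∀ l ∈ T, GA.Inr D l ∨ l ∣ D → ∃ g : Ψ l → AbsGal K,
      (∀ i x, x ∈ Q l i ↔ g i • x ∈ Q₀ l) ∧
      ∀ a : AbsGal K, ∃! i, ∃ (d : stabD (Q₀ l)) (h : H), a = d * g i * h := by
    intro l hl hli
    obtain ⟨q1, q2⟩ := hQ l hl hli
    refine exists_reps' (hQT l hl).1 (fun i => (q1 i).1) (fun i => ?_) (fun Q' hQ' h => ?_)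
    · exact comap_nonspl hK hc (hT l hl).1 hli (q1 i).1 (hQT l hl).1 (q1 i).2 (hQT l hl).2
    · exact q2 Q' ⟨hQ', comap_of_rep h (hQT l hl).2⟩
  have hI' : ∀ l ∈ T, GA.Inr D l →
      Parity.CommOn ((Q₀ l).inertia (AbsGal K)) (indR r τ) ∨ m = 2 := by
    intro l hl hli
    obtain ⟨g, hg, hg'⟩ := hex l hl (Or.inl hli)
    rcases hI l hl hli with ⟨h, h'⟩ | h
    · right
      rw [hm, h, h', Subgroup.index_top]
    · exact Or.inl (comm_dc hInd ((comm_reps (iner_nor (Q₀ l)) (fun i a => iner_conj (hg i) a)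
        hg').2 h))
  have hRS : ∀ l ∈ T, l ∣ D → (∀ σ ∈ (Q₀ l).inertia (AbsGal K), ∀ a, a⁻¹ * σ * a ∈ H) ∧
      Parity.SemistableOn ((Q₀ l).inertia (AbsGal K)) (indR r τ) := by
    intro l hl hli
    obtain ⟨g, hg, hg'⟩ := hex l hl (Or.inr hli)
    exact semi_ind hInd (iner_nor (Q₀ l)) (fun i a => iner_conj (hg i) a) hg' (hR l hl hli)
  have hme : Even m :=
    even_dim hK hc hκ hT hQT hdet hdual (fun l hl hli => (hRS l hl hli).2)
  have hpar := main_gen7 (κ := κ) hK hc hκ hP₀ hP2 hT hQT hme hdet hdual hresW hI'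
    (fun l hl hli => (hRS l hl hli).2)
  refine (main_fam hK hc hκ hP₀ hP2 hH tw hTH hb hτc hτu hτs hdτ hP hPu hrep r hpar).congr ?_
  refine Nat.ModEq.add ?_ ?_
  · -- the inert primes
    have key : ∀ l ∈ T.filter (GA.Inr D), Parity.condExp ((Q₀ l).inertia (AbsGal K)) (indR r τ) ≡
        condF H τ (fun i => stabD (Q l i)) (fun i => (Q l i).inertia (AbsGal K)) [MOD 2] := by
      intro l hl
      obtain ⟨hlT, hli⟩ := Finset.mem_filter.1 hl
      obtain ⟨g, hg, hg'⟩ := hex l hlT (Or.inl hli)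
      have e1 := fix_cs hInd (iner_nor (Q₀ l)) (iner_le (Q₀ l)) (fun i a => stabD_conj (hg i) a)
        (fun i a => iner_conj (hg i) a) hg'
      have e2 : Parity.CommOn ((Q₀ l).inertia (AbsGal K)) (indR r τ) ↔
          ∀ i, CommInd ((Q l i).inertia (AbsGal K)) τ := by
        have e3 := comm_reps (τ := τ) (iner_nor (Q₀ l)) (fun i a => iner_conj (hg i) a) hg'
        rw [← e3]
        refine ⟨fun h => ?_, comm_dc hInd⟩
        rcases hI l hlT hli with ⟨h0, -⟩ | h0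
        · exact comm_of_comm hInd (by omega) h
        · exact e3.2 h0
      unfold Parity.condExp condF
      rw [e1]
      refine Nat.ModEq.add ?_ ?_
      · refine modEq_fix hme ?_
        rw [← e1]
        exact (Submodule.finrank_le _).trans_eq (by rw [Module.finrank_fin_fun])
      · by_cases h : Parity.CommOn ((Q₀ l).inertia (AbsGal K)) (indR r τ)
        · rw [if_pos h, if_pos (e2.1 h)]
        · rw [if_neg h, if_neg (fun h' => h (e2.2 h'))]
    exact modEq_sum key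
  · rw [Finset.sum_congr rfl fun l hl => ?_]
    obtain ⟨hlT, hli⟩ := Finset.mem_filter.1 hl
    obtain ⟨g, hg, hg'⟩ := hex l hlT (Or.inr hli)
    exact quotDim_ind hInd (iner_le (Q₀ l)) (iner_nor (Q₀ l)) (fun i a => stabD_conj (hg i) a)
      (fun i a => iner_conj (hg i) a) hg' (hRS l hlT hli).1

end quad

end Pool.Agent.Work.MP_787500_nt.KJ
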